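import Pool.Agent.Q58.LG.Pt
import Pool.Agent.Q58.FI.Corr
import Pool.Agent.Y221.PB.Dom

/-!
Varieties which are dominated by covers of subvarieties of generic complete intersections.
-/

set_option autoImplicit false
set_option linter.overlappingInstances false
set_option linter.unusedSectionVars false

open MvPolynomial FF Pool.Agent.W602.GT Pool.Agent.W603.LV Pool.Agent.W603.PV Pool.Agent.Y221.FQ
open Pool.Agent.TH145.MG (DimLE)
open Pool.Agent.TH145.GC (Cf finite_cf)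
open Pool.Agent.Q58.FI (eqs ratio_fam)
open Pool.Agent.W602.RG (PseudoGeomHyp)
open Pool.Agent.Y216 (CurveBound pointed_of_bound)
open Pool.Agent.Y221.AH (pht_algebraMap pht_nonneg)
open Pool.Agent.Y221.PB (CoverBound alg_hgt)
open Pool.Agent.TH466.QG (Sp spread adjoin_norm hz_form val_hz)

namespace Pool.Agent.Q58.LG

section

variable {k K : Type} [Field k] [Field K] [IsAlgClosed K] [CharZero K] [Algebra k K]
  {n m : ℕ} {V : Set (MvPolynomial (Fin (n + 1)) (algebraicClosure k K))}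
  {A : Type} [Fintype A] {d : A → ℕ} {F : A → MvPolynomial (Fin (n + 1)) K}

/-- Degrees of the morphisms from covers of curves. -/
theorem cover_ineq (hVh : ∀ f ∈ V, ∃ e, f.IsHomogeneous e)
    (hV : DimLE (algebraicClosure k K) V m) {r : ℕ}
    (hd : 2 * m + 2 * r ≤ ∑ a, (d a + 1) + 1) (hF : ∀ a, (F a).IsHomogeneous (d a))
    (hgen : AlgebraicIndependent k fun p : Cf n d => (F p.1).coeff p.2.1)
    (L0 E : Type) [Field L0] [Field E] [Algebra K L0] [Algebra K E] [Algebra L0 E]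
    [IsScalarTower K L0 E] [FiniteDimensional L0 E] [IsFF K L0] [IsFF K E]
    (hr : Module.finrank L0 E ≤ r) (y : Fin (n + 1) → E) (hy : ∃ j, y j ≠ 0)
    (hyX : ∀ p, aeval y (eqs V F p) = 0) :
    ((∑ a, (d a + 1) + 2 : ℕ) - 2 * m - 2 * r) * pht K y ≤
      Module.finrank L0 E * max (canDeg K L0) 0 := by
  classical
  obtain ⟨j0, hj0'⟩ := hy
  have hmax : 0 ≤ (Module.finrank L0 E : ℤ) * max (canDeg K L0) 0 :=
    mul_nonneg (Int.natCast_nonneg _) (le_max_right _ _)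
  obtain ⟨x, hx⟩ : ∃ x : Fin (n + 1) → E, x = fun j => (y j0)⁻¹ * y j := ⟨_, rfl⟩
  have hx1 : x j0 = 1 := by
    rw [hx]
    exact inv_mul_cancel₀ hj0'
  have ht2 : pht K x = pht K y := by
    rw [hx, pht_scale ⟨j0, hj0'⟩ (inv_ne_zero hj0')]
  rw [← ht2]
  have hxe : ∃ j, x j ≠ 0 := ⟨j0, by rw [hx1]; exact one_ne_zero⟩
  rcases (pht_nonneg (k := K) hxe).eq_or_lt with h0 | hpos
  · rw [← h0, mul_zero]
    exact hmax
  -- the field generated by the coordinates
  obtain ⟨E1, hE1⟩ : ∃ E1 : IntermediateField L0 E,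
    E1 = IntermediateField.adjoin L0 (Set.range x) := ⟨_, rfl⟩
  have hxE : ∀ j, x j ∈ E1 := fun j => by
    rw [hE1]
    exact IntermediateField.subset_adjoin L0 _ ⟨j, rfl⟩
  obtain ⟨x1, hx1c⟩ : ∃ x1 : Fin (n + 1) → E1, ∀ j, (x1 j : E) = x j :=
    ⟨fun j => ⟨x j, hxE j⟩, fun _ => rfl⟩
  have hx11 : x1 j0 = 1 := Subtype.ext (by rw [hx1c, hx1]; rfl)
  have hx1e : ∃ j, x1 j ≠ 0 := ⟨j0, by rw [hx11]; exact one_ne_zero⟩
  have hst3 : IsScalarTower K E1 E := IsScalarTower.of_algebraMap_eq fun c => by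
    rw [IsScalarTower.algebraMap_apply K L0 E, IsScalarTower.algebraMap_apply K L0 E1,
      ← IsScalarTower.algebraMap_apply L0 E1 E]
  have hff1 : IsFF K E1 := isFF_of_finite (F := L0)
  have hr0 : 0 < Module.finrank L0 E1 := Module.finrank_pos
  have hr2 : 0 < Module.finrank E1 E := Module.finrank_pos
  have hrr := Module.finrank_mul_finrank L0 E1 E
  have hr1 : Module.finrank L0 E1 ≤ r := by
    have h1 : Module.finrank L0 E1 ≤ Module.finrank L0 E1 * Module.finrank E1 E :=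
      Nat.le_mul_of_pos_right _ hr2
    omega
  have ht3 : pht K x = Module.finrank E1 E * pht K x1 := by
    rw [← pht_algebraMap hx1e]
    congr 1
    funext j
    exact (hx1c j).symm
  have hx1pos : 0 < pht K x1 := by
    by_contra hcon
    push Not at hcon
    have h2 := mul_nonpos_of_nonneg_of_nonpos (Int.natCast_nonneg (Module.finrank E1 E)) hcon
    omega
  have hval : ∀ (p : MvPolynomial (Fin (n + 1)) K) (e : ℕ), p.IsHomogeneous e → aeval y p = 0 →
      aeval x1 p = 0 := by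
    intro p e he h0
    have h1 : algebraMap E1 E (aeval x1 p) = aeval x p := by
      have h2 := MvPolynomial.aeval_algebraMap_apply (R := K) E x1 p
      have h3 : (fun j => algebraMap E1 E (x1 j)) = x := funext hx1c
      rw [← h2]
      congr 1
      rw [← h3]
      rfl
    have h2 : aeval x p = (y j0)⁻¹ ^ e * aeval y p := by
      rw [hx]
      exact val_smul he (y j0)⁻¹ y
    rw [h2, h0, mul_zero] at h1
    exact (map_eq_zero _).1 h1
  have hsum : ∑ a, (d a + 1) = ∑ a, d a + (Finset.univ : Finset A).card := by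
    rw [Finset.sum_add_distrib, Finset.card_eq_sum_ones]
  obtain ⟨N, hN⟩ : ∃ N, N + 2 * m = ∑ a, (d a + 1) := ⟨∑ a, (d a + 1) - 2 * m, by omega⟩
  obtain ⟨ω, hω, hω0, hreg⟩ := lform_genK (k' := algebraicClosure k K) (N := N) (w := 1)
    hVh hV hF hgen.algebraicClosure one_pos (Finset.univ : Finset A) (by omega)
    (IsFF.trdeg (k := K) (K := E1)) x1 hx11
    (alg_coords hx11 hx1pos) (fun f hf => by
      obtain ⟨e, he⟩ := hVh f hf
      exact hval _ e (he.map _) (hyX (Sum.inl ⟨f, hf⟩))) (fun a _ => hval _ _ (hF a)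
        (hyX (Sum.inr a))) (fun a ha => absurd (Finset.mem_univ a) ha)
  have hfm := form_ineq hx11 hω hω0 ∅ (fun f Q => (hreg f Q (divisorial_one Q)).1)
    (fun f Q _ => (hreg f Q (divisorial_one Q)).2 (by
      rintro ⟨b, hb, -⟩
      exact hb (Finset.mem_univ b)))
  rw [Finset.card_empty, Nat.cast_zero, add_zero] at hfm
  have hgen1 : IntermediateField.adjoin L0 (Set.range x1) = ⊤ := by
    subst hE1
    apply IntermediateField.lift_injective
    rw [IntermediateField.lift_adjoin, IntermediateField.lift_top]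
    congr 1
    ext y
    constructor
    · rintro ⟨_, ⟨j, rfl⟩, rfl⟩
      exact ⟨j, (hx1c j).symm⟩
    · rintro ⟨j, rfl⟩
      exact ⟨x1 j, ⟨j, rfl⟩, hx1c j⟩
  have hdisc := Pool.Agent.Y735.R.disc_le_pht (k := K) (F := L0) x1 hx11 hgen1
  have hrh := canDeg_ext (k := K) (F := L0) (L := E1)
  rw [hrh] at hfm
  have hr1' : (Module.finrank L0 E1 : ℤ) ≤ r := by exact_mod_cast hr1
  have hN' : (N : ℤ) + 2 * m = (∑ a, (d a + 1) : ℕ) := by exact_mod_cast hN
  have hmain : ((∑ a, (d a + 1) + 2 : ℕ) - 2 * m - 2 * r : ℤ) * pht K x1 ≤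
      Module.finrank L0 E1 * max (canDeg K L0) 0 := by
    have h1 : ((∑ a, (d a + 1) + 2 : ℕ) - 2 * m - 2 * r : ℤ) = N + 2 - 2 * r := by
      push_cast at hN' ⊢
      linarith
    rw [h1]
    have h2 : ((N : ℤ) + 2 - 2 * r) * pht K x1 ≤
        (N + 2 - 2 * Module.finrank L0 E1) * pht K x1 :=
      mul_le_mul_of_nonneg_right (by linarith) hx1pos.le
    refine h2.trans ?_
    have h3 : (N + 2 - 2 * Module.finrank L0 E1 : ℤ) * pht K x1 =
        N * pht K x1 - (2 * Module.finrank L0 E1 - 2) * pht K x1 := by ring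
    have h4 : (Module.finrank L0 E1 : ℤ) * canDeg K L0 ≤
        Module.finrank L0 E1 * max (canDeg K L0) 0 :=
      mul_le_mul_of_nonneg_left (le_max_left _ _) (Int.natCast_nonneg _)
    rw [h3]
    linarith
  have hrr' : (Module.finrank L0 E : ℤ) = Module.finrank L0 E1 * Module.finrank E1 E := by
    exact_mod_cast hrr.symm
  have h1 := mul_le_mul_of_nonneg_left hmain (Int.natCast_nonneg (Module.finrank E1 E))
  rw [ht3, hrr']
  exact le_of_eq_of_le (by ring) (h1.trans_eq (by ring))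

/-- **Degree bounds for dominated varieties.** -/
theorem dom_bound_gen (hVh : ∀ f ∈ V, ∃ e, f.IsHomogeneous e)
    (hV : DimLE (algebraicClosure k K) V m) {r ρ : ℕ}
    (hd : 2 * m + 2 * (ρ * r) ≤ ∑ a, (d a + 1) + 1) (hF : ∀ a, (F a).IsHomogeneous (d a))
    (hgen : AlgebraicIndependent k fun p : Cf n d => (F p.1).coeff p.2.1)
    {K1 : Type} [Field K1] [Algebra K K1] {y : Fin (n + 1) → K1} (hy : y ≠ 0)
    (hyg : coords K y = ⊤) (hyX : ∀ p, aeval y (eqs V F p) = 0)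
    {K' L : Type} [Field K'] [Field L] [Algebra K K'] [Algebra K L] [Algebra K1 K']
    [Algebra L K'] [IsScalarTower K K1 K'] [IsScalarTower K L K'] [Algebra.IsAlgebraic K1 K']
    [FiniteDimensional L K'] (hr : Module.finrank L K' ≤ r) {M : ℕ} {x : Fin (M + 1) → L}
    (hx : x ≠ 0) (hxg : coords K x = ⊤) : CoverBound K ρ x := by
  classical
  obtain ⟨i1, hi1'⟩ := Function.ne_iff.1 hx
  have hi1 : x i1 ≠ 0 := hi1'
  obtain ⟨i0, hi0'⟩ := Function.ne_iff.1 hy
  have hi0 : y i0 ≠ 0 := hi0'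
  obtain ⟨Θ2, C, hΘ2, halgs⟩ := alg_hgt (K' := K') hyg hi0
    (fun m => algebraMap L K' (x m / x i1))
  obtain ⟨H, hH, hspread⟩ := spread (K' := K') (adjoin_norm hxg hi1)
    (Θ := algebraMap K1 K' '' ({(y i0)⁻¹} ∪ (Θ2 ∪ Set.range y)))
    (((Set.finite_singleton _).union (hΘ2.union (Set.finite_range y))).image _)
  refine ⟨MvPolynomial.X i1 * Pool.Agent.TH466.QG.hz i1 H, ?_, ?_, (M + 1) * (C * (ρ * r)), ?_⟩
  · obtain ⟨d, hd⟩ := hz_form i1 H
    exact ⟨1 + d, (MvPolynomial.isHomogeneous_X K i1).mul hd⟩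
  · change MvPolynomial.aeval x _ ≠ 0
    rw [map_mul, MvPolynomial.aeval_X]
    refine mul_ne_zero hi1 ?_
    change val x _ ≠ 0
    rw [val_hz H hi1]
    exact mul_ne_zero (pow_ne_zero _ hi1) hH
  intro K0 E _ _ _ _ _ _ _ _ _ hρ z hz hzR
  change MvPolynomial.aeval z _ ≠ 0 at hzR
  rw [map_mul, MvPolynomial.aeval_X] at hzR
  have hz1 : z i1 ≠ 0 := left_ne_zero_of_mul hzR
  have hzH : MvPolynomial.aeval (fun i => z i / z i1) H ≠ 0 := by
    have h1 : val z (Pool.Agent.TH466.QG.hz i1 H) ≠ 0 := right_ne_zero_of_mul hzR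
    rw [val_hz H hz1] at h1
    exact right_ne_zero_of_mul h1
  have hsp : ∀ G : MvPolynomial (Fin (M + 1)) K,
      MvPolynomial.aeval (fun i => x i / x i1) G = 0 →
      MvPolynomial.aeval (fun i => z i / z i1) G = 0 := by
    intro G hG
    have h1 : val x (Pool.Agent.TH466.QG.hz i1 G) = 0 := by
      rw [val_hz G hi1, hG, mul_zero]
    have h2 := hz.2 _ (hz_form i1 G) h1
    rw [val_hz G hz1] at h2
    exact (mul_eq_zero.1 h2).resolve_left (pow_ne_zero _ hz1)
  obtain ⟨K'', i1', i2', i3', i4', i5', hrk, S, hSx, hSΘ⟩ := hspread E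
    (fun i => z i / z i1) hsp hzH
  have hSy : ∀ i, ∃ t, S.T (algebraMap K1 K' (y i)) t := fun i =>
    hSΘ _ ⟨y i, Or.inr (Or.inr ⟨i, rfl⟩), rfl⟩
  choose y' hy' using hSy
  have hff : IsFF K K'' := Pool.Agent.W603.PV.isFF_of_finite (F := E)
  let iA : Algebra K0 K'' := ((algebraMap E K'').comp (algebraMap K0 E)).toAlgebra
  have iT1 : IsScalarTower K0 E K'' := IsScalarTower.of_algebraMap_eq fun _ => rfl
  have iT2 : IsScalarTower K K0 K'' := IsScalarTower.of_algebraMap_eq fun c => by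
    change _ = algebraMap E K'' (algebraMap K0 E (algebraMap K K0 c))
    rw [← IsScalarTower.algebraMap_apply K K0 E, ← IsScalarTower.algebraMap_apply K E K'']
  have iF : FiniteDimensional K0 K'' := FiniteDimensional.trans K0 E K''
  have hfr : Module.finrank K0 K'' ≤ ρ * r := by
    rw [← Module.finrank_mul_finrank K0 E K'']
    exact Nat.mul_le_mul hρ (hrk.trans hr)
  let S0 : Sp K K1 K'' := S.res
  have hy0 : ∀ i, S0.T (y i) (y' i) := hy'
  have hi0y : y' i0 ≠ 0 := S0.ne_zero (hy0 i0) (hSΘ _ ⟨(y i0)⁻¹, Or.inl rfl, rfl⟩) hi0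
  have hyX' : ∀ p, aeval y' (eqs V F p) = 0 := fun p =>
    S0.eq_zero (S0.val hy0 _) (hyX p)
  have h0 := cover_ineq hVh hV hd hF hgen K0 K'' hfr y' ⟨i0, hi0y⟩ hyX'
  have hp0 : 0 ≤ pht K y' := pht_nonneg ⟨i0, hi0y⟩
  have h1 : pht K y' ≤ (ρ * r : ℕ) * max (canDeg K K0) 0 := by
    have h2 : (1 : ℤ) ≤ (∑ a, (d a + 1) + 2 : ℕ) - 2 * m - 2 * (ρ * r : ℕ) := by
      push_cast
      have : (2 * m + 2 * (ρ * r) : ℤ) ≤ ∑ a, ((d a : ℤ) + 1) + 1 := by exact_mod_cast hd
      linarith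
    have h3 : pht K y' ≤ ((∑ a, (d a + 1) + 2 : ℕ) - 2 * m - 2 * (ρ * r : ℕ)) * pht K y' :=
      le_mul_of_one_le_left hp0 h2
    have h4 : (Module.finrank K0 K'' : ℤ) * max (canDeg K K0) 0 ≤
        (ρ * r : ℕ) * max (canDeg K K0) 0 :=
      mul_le_mul_of_nonneg_right (by exact_mod_cast hfr) (le_max_right _ _)
    exact (h3.trans h0).trans h4
  have h2 : ∀ m, hgt K (algebraMap E K'' (z m / z i1)) ≤ C * pht K y' := fun m =>
    halgs K'' S (fun ϑ hϑ => hSΘ _ ⟨ϑ, Or.inr (Or.inl hϑ), rfl⟩) y' hy' _ hSx m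
  have hz0 : ∃ j, z j ≠ 0 := ⟨i1, hz1⟩
  have hz1' : algebraMap E K'' (z i1) ≠ 0 := by rwa [Ne, map_eq_zero]
  have h3 : pht K (fun j => algebraMap E K'' (z j)) ≤ (M + 1) * (C * pht K y') := by
    refine (pht_le (fun j => algebraMap E K'' (z j)) hz1').trans ?_
    have h4 : ∀ j, hgt K (algebraMap E K'' (z j) / algebraMap E K'' (z i1)) ≤ C * pht K y' := by
      intro j
      rw [← map_div₀]
      exact h2 j
    refine (Finset.sum_le_sum fun j _ => h4 j).trans (le_of_eq ?_)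
    rw [Finset.sum_const, nsmul_eq_mul, Finset.card_univ, Fintype.card_fin]
    push_cast
    ring
  rw [pht_algebraMap hz0] at h3
  have h5 : 0 ≤ pht K z := pht_nonneg hz0
  have h6 : (1 : ℤ) ≤ Module.finrank E K'' := by exact_mod_cast Module.finrank_pos
  have h7 : pht K z ≤ Module.finrank E K'' * pht K z := by nlinarith
  refine (h7.trans h3).trans ?_
  have h8 : (C : ℤ) * pht K y' ≤ C * ((ρ * r : ℕ) * max (canDeg K K0) 0) :=
    mul_le_mul_of_nonneg_left h1 (Nat.cast_nonneg _)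
  have h9 := mul_le_mul_of_nonneg_left h8 (by positivity : (0 : ℤ) ≤ (M : ℤ) + 1)
  refine h9.trans (le_of_eq ?_)
  push_cast
  ring

end

section

variable {k : Type} [Field k] [Algebra k ℂ]
  {n m w : ℕ} {V : Set (MvPolynomial (Fin (n + 1)) (algebraicClosure k ℂ))}
  {A : Type} [Fintype A] {d : A → ℕ} {F : A → MvPolynomial (Fin (n + 1)) ℂ}

/-- **Dominated varieties.** -/
theorem dom_all (hVh : ∀ f ∈ V, ∃ e, f.IsHomogeneous e)
    (hV : DimLE (algebraicClosure k ℂ) V m) {r ρ : ℕ} (hρ : 1 ≤ ρ)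
    (hd : 2 * m + 2 * (ρ * r) ≤ ∑ a, (d a + 1) + 1) (hF : ∀ a, (F a).IsHomogeneous (d a))
    (hgen : AlgebraicIndependent k fun p : Cf n d => (F p.1).coeff p.2.1) (hw : 1 ≤ w)
    {K : Type} [Field K] [Algebra ℂ K] {y : Fin (n + 1) → K} (hy : SubVar (eqs V F) K w y)
    {K' L : Type} [Field K'] [Field L] [Algebra ℂ K'] [Algebra ℂ L] [Algebra K K']
    [Algebra L K'] [IsScalarTower ℂ K K'] [IsScalarTower ℂ L K'] [FiniteDimensional K K']
    [FiniteDimensional L K'] (hr : Module.finrank L K' ≤ r) {M : ℕ} {x : Fin (M + 1) → L}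
    (hx : x ≠ 0) (hxg : coords ℂ x = ⊤) :
    GeneralType ℂ L w ∧ PseudoGeomHyp ℂ x ∧ CoverBound ℂ ρ x := by
  have h2 : CoverBound ℂ ρ x := dom_bound_gen (K' := K') hVh hV hd hF hgen hy.ne hy.gen
    (fun p => hy.mem p) hr hx hxg
  refine ⟨?_, pointed_of_bound (h2.curve hρ), h2⟩
  have hdim : Algebra.trdeg ℂ L = w := by
    rw [← hy.dim, ← Pool.Agent.TH466.QG.trdeg_alg (E := K) (K := K'),
      Pool.Agent.TH466.QG.trdeg_alg (E := L) (K := K')]
  have hess : Algebra.EssFiniteType ℂ L := essFinite hxg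
  obtain ⟨i0, hi0'⟩ := Function.ne_iff.1 hy.ne
  have hi0 : y i0 ≠ 0 := hi0'
  obtain ⟨y', hy'⟩ : ∃ y' : Fin (n + 1) → K', y' = fun j => algebraMap K K' (y j) := ⟨_, rfl⟩
  have hyi0 : y' i0 ≠ 0 := by
    rw [hy']
    exact (map_ne_zero (algebraMap K K')).2 hi0
  have halg : Algebra.IsAlgebraic (coords ℂ y') K' := by
    refine Pool.Agent.TH466.QG.alg_over (adjoin_norm hy.gen hi0) _ fun m => ?_
    have h3 : algebraMap K K' (y m / y i0) ∈ coords ℂ y' := by
      refine IntermediateField.subset_adjoin ℂ _ ⟨m, i0, hyi0, ?_⟩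
      rw [hy', map_div₀]
    exact isAlgebraic_algebraMap (⟨_, h3⟩ : coords ℂ y')
  have hr1 : 1 ≤ r := le_trans Module.finrank_pos hr
  have hρr : r ≤ ρ * r := Nat.le_mul_of_pos_left r hρ
  refine (Pool.Agent.Q58.FI.corr (N := r) hVh hV (by omega) hF hgen.algebraicClosure hw hdim
    (x := y') (fun h0 => hyi0 (by rw [h0]; rfl)) (fun p => ?_) halg).1 hr
  have h4 := val_map (IsScalarTower.toAlgHom ℂ K K') (eqs V F p) y
  have h5 : val y (eqs V F p) = 0 := hy.mem p
  rw [h5, map_zero] at h4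
  rw [hy']
  exact h4.symm

end

end Pool.Agent.Q58.LG
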