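import Pool.Agent.Q58.LG.Voj
import Pool.Agent.Q58.FI.Vim

/-!
The height inequality for algebraic points on the images of covers of generic pairs over function
fields.
-/

set_option autoImplicit false
set_option linter.overlappingInstances false
set_option linter.unusedSectionVars false

open MvPolynomial FF Pool.Agent.W603.LV Pool.Agent.W603.PV Pool.Agent.TH145
open Pool.Agent.TH145.MG (DimLE)
open Pool.Agent.TH145.GC (Cf)

namespace Pool.Agent.Q58.LG

open Pool.Agent.W602.GT Pool.Agent.Y221.FQ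
open Pool.Agent.Y221.AH (pht_algebraMap)
open Pool.Agent.Q58.FI (bc eqs lift_pt pht_form_ge pht_form_le pht_nn val_eq_eval)

/-- Places below in a tower. -/
theorem under_under {k K E1 E : Type} [Field k] [IsAlgClosed k] [CharZero k] [Field K]
    [Algebra k K] [IsFF k K] [Field E1] [Algebra k E1] [IsFF k E1] [Algebra K E1]
    [IsScalarTower k K E1] [Field E] [Algebra k E] [IsFF k E] [Algebra E1 E]
    [IsScalarTower k E1 E] [Algebra K E] [IsScalarTower k K E] [IsScalarTower K E1 E]
    [FiniteDimensional K E1] (Q : Place k E) : under K (under E1 Q) = under K Q := by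
  obtain ⟨t, ht0, ht⟩ := (under K Q).surj
  have h1 : ∀ a : K, (ram K Q : ℤ) * (under K Q).ord a =
      ram E1 Q * (under E1 Q).ord (algebraMap K E1 a) := by
    intro a
    rw [← ord_under, ← ord_under, ← IsScalarTower.algebraMap_apply]
  have h2 : (0 : ℤ) < ram K Q := by exact_mod_cast (ram_spec (F := K) Q).1
  have h3 : (0 : ℤ) < ram E1 Q := by exact_mod_cast (ram_spec (F := E1) Q).1
  rw [Pool.Agent.Y221.AH.under_iff _ ht]
  refine ⟨fun a ha => ?_, ?_⟩
  · rcases ha with ha | ha
    · rw [ha, map_zero]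
      exact (under E1 Q).reg_zero
    · right
      have h4 := h1 a
      have h5 : 0 ≤ (ram K Q : ℤ) * (under K Q).ord a := mul_nonneg h2.le ha
      rw [h4] at h5
      exact nonneg_of_mul_nonneg_right h5 h3
  · have h4 := h1 t
    rw [ht, mul_one] at h4
    rw [h4] at h2
    exact (mul_pos_iff_of_pos_left h3).1 h2

/-- The places where a point meets a hypersurface that does not contain it. -/
theorem meets_finite {k K L : Type} [Field k] [IsAlgClosed k] [CharZero k] [Field K] [Algebra k K]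
    [IsFF k K] [Field L] [Algebra k L] [Algebra K L] [IsFF k L] {M h : ℕ}
    {H : MvPolynomial (Fin (M + 1)) K} {z : Fin (M + 1) → L} (hz : ∃ j, z j ≠ 0) :
    {P : Place k L | h * pord P z < P.ord (aeval z H)}.Finite := by
  classical
  obtain ⟨T0, hT0⟩ := exists_supp (k := k) Finset.univ z
  obtain ⟨T1, hT1⟩ := exists_supp (k := k) (Finset.univ : Finset Unit) (fun _ => aeval z H)
  refine (T0 ∪ T1).finite_toSet.subset fun P hP => ?_
  by_contra hcon
  rw [Finset.coe_union, Set.mem_union, not_or] at hcon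
  have h0 : pord P z = 0 := Pool.Agent.Y221.AH.pord_eq_zero P hz fun j => by
    by_contra hne
    exact hcon.1 (hT0 j (Finset.mem_univ _) P hne)
  have h1 : P.ord (aeval z H) = 0 := by
    by_contra hne
    exact hcon.2 (hT1 () (Finset.mem_univ _) P hne)
  have hP' : h * pord P z < P.ord (aeval z H) := hP
  rw [h0, h1, mul_zero] at hP'
  exact lt_irrefl _ hP'

/-- **Vojta's inequality for the images of covers of generic pairs.** -/
theorem vojta_im {k0 k K0 K : Type} [Field k0] [Field k] [Field K0] [Field K] [IsAlgClosed k]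
    [CharZero k] [Algebra k0 k] [Algebra k K] [Algebra k0 K] [IsScalarTower k0 k K]
    [Algebra k0 K0] [Algebra K0 K] [IsScalarTower k0 K0 K] [IsFF k K]
    (hfg : ∃ S : Finset K0, IntermediateField.adjoin k0 (S : Set K0) = ⊤) {n m t l M h : ℕ}
    {A : Type} [Fintype A] {d : A → ℕ} (C : Finset A) (hd : 2 * m + 2 * t ≤ ∑ a, d a + C.card)
    (V : Set (MvPolynomial (Fin (n + 1)) K0)) (hVh : ∀ f ∈ V, ∃ e, f.IsHomogeneous e)
    (hV : DimLE K0 V m) {F : A → MvPolynomial (Fin (n + 1)) K}
    (hF : ∀ a, (F a).IsHomogeneous (d a))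
    (hgen : AlgebraicIndependent K0 fun p : Cf n d => (F p.1).coeff p.2.1)
    {κ μ : Type} {Ψ : κ → MvPolynomial (Fin (l + 1)) K} {Φ : μ → MvPolynomial (Fin (M + 1)) K}
    {B : Fin (n + 1) → MvPolynomial (Fin (l + 1)) K}
    {G : Fin (M + 1) → MvPolynomial (Fin (l + 1)) K} (hΨ : ∀ e, IsForm (Ψ e))
    (hB : Mor (bc Ψ) (bc (eqs V fun c : {a // a ∈ C} => F c.1)) (bc B))
    (hG : Mor (bc Ψ) (bc Φ) (bc G)) (hon : Onto (bc Ψ) (bc Φ) (bc G))
    (hfib : FibresLe (bc Ψ) (bc G) t)
    {H : MvPolynomial (Fin (M + 1)) K} (hH : H.IsHomogeneous h) (hh : ∀ b, b ∉ C → 1 ≤ h)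
    (hE : ∀ x ∈ Cone (bc Ψ), aeval (im (bc G) x) H ≠ 0 →
      ∀ b, b ∉ C → aeval (im (bc B) x) (F b) ≠ 0)
    {eB eG : ℕ} (hBe : ∀ j, (B j).IsHomogeneous eB) (hGe : ∀ j, (G j).IsHomogeneous eG) :
    ∃ C0 : ℕ, ∀ (L : Type) [Field L] [Algebra k L] [Algebra K L] [IsScalarTower k K L]
      [FiniteDimensional K L] (z : Fin (M + 1) → L), z ≠ 0 → (∀ i, aeval z (Φ i) = 0) →
      aeval z H ≠ 0 →
      eB * ((∑ a, d a + C.card + 1 : ℕ) - 2 * m - 2 * t) * pht k z ≤
        eG * (canDeg k L + {P : Place k L | h * pord P z < P.ord (aeval z H)}.ncard) +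
          C0 * Module.finrank K L := by
  classical
  have hK : CharZero K := charZero_of_injective_algebraMap (algebraMap k K).injective
  obtain ⟨eB', heB', hBe'⟩ := hB.form
  obtain ⟨eG', heG', hGe'⟩ := hG.form
  have hvc : ∀ {s : ℕ} (x : Fin (s + 1) → AlgebraicClosure K) (p : MvPolynomial (Fin (s + 1)) K),
      val x (map (algebraMap K (AlgebraicClosure K)) p) = aeval x p := by
    intro s x p
    rw [val_eq_eval, eval_map]
    rfl
  have himB' : ∀ x, im (bc B) x = fun j => aeval x (B j) := fun x => funext fun j => hvc x (B j)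
  have himG' : ∀ x, im (bc G) x = fun j => aeval x (G j) := fun x => funext fun j => hvc x (G j)
  -- composition
  have hcomp : ∀ {s s' : ℕ} {R : Type} [Field R] [Algebra K R] (x : Fin (s + 1) → R)
      (T : Fin (s' + 1) → MvPolynomial (Fin (s + 1)) K) (p : MvPolynomial (Fin (s' + 1)) K),
      aeval (fun j => aeval x (T j)) p = aeval x (aeval T p) := by
    intro s s' R _ _ x T p
    exact (comp_aeval_apply T (aeval x) p).symm
  -- the height inequality
  obtain ⟨D, q, hdat, hDk⟩ := Pool.Agent.Y735.R3.exists_dataS (k0 := k0) (k := k) hfg hF hgen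
  obtain ⟨T0, hT0⟩ : ∃ T0 : Finset (Place k K), T0 = hdat.fin.toFinset := ⟨_, rfl⟩
  have hT0q : ∀ v, q v ≠ 0 → v ∈ T0 := fun v hv => by
    rw [hT0, Set.Finite.mem_toFinset]
    exact hv
  obtain ⟨Q0, hQ0⟩ : ∃ Q0 : ℤ, Q0 = ∑ v ∈ T0, q v := ⟨_, rfl⟩
  have hQ0n : 0 ≤ Q0 := by
    rw [hQ0]
    exact Finset.sum_nonneg fun v _ => hdat.nn v
  -- heights of the images
  have hzero : ∀ {s : ℕ} {T : Fin (s + 1) → MvPolynomial (Fin (l + 1)) K}
      (_ : ∀ x ∈ Cone (bc Ψ), im (bc T) x ≠ 0) (z : Fin (l + 1) → AlgebraicClosure K),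
      (∀ i, aeval z (Ψ i) = 0) → (∀ j, aeval z (T j) = 0) → z = 0 := by
    intro s T hT z hzΨ hzB
    by_contra hz
    refine hT z ⟨hz, fun i => ?_⟩ (funext fun j => ?_)
    · unfold bc
      rw [hvc]
      exact hzΨ i
    · unfold im bc
      rw [hvc]
      exact hzB j
  have hnbB := hzero (T := B) fun x hx => (hB.maps x hx).1
  have hnbG := hzero (T := G) fun x hx => (hG.maps x hx).1
  obtain ⟨C2, hC20, hC2⟩ := pht_form_ge (k := k) hΨ hBe hnbB
  obtain ⟨C3, hC30, hC3⟩ := pht_form_le (k := k) hGe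
  -- the identities
  choose NB PB hPB using fun i : Fin (l + 1) => null_K (Ψ := Ψ) B (X i) (fun x hx hx' => by
    rw [hnbB x hx hx', aeval_X]
    rfl)
  choose NG PG hPG using fun i : Fin (l + 1) => null_K (Ψ := Ψ) G (X i) (fun x hx hx' => by
    rw [hnbG x hx hx', aeval_X]
    rfl)
  have hH0 : ∀ b, b ∉ C → aeval (0 : Fin (M + 1) → AlgebraicClosure K) H = 0 := by
    intro b hb
    have h2 : (0 : Fin (M + 1) → AlgebraicClosure K) = fun i => (0 : AlgebraicClosure K) * 0 := by
      funext i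
      simp
    have h3 : aeval (fun i => (0 : AlgebraicClosure K) * (0 : AlgebraicClosure K)) H =
        (0 : AlgebraicClosure K) ^ h * aeval (fun _ : Fin (M + 1) => (0 : AlgebraicClosure K)) H :=
      val_smul hH 0 _
    rw [h2, h3, zero_pow (by have := hh b hb; omega), zero_mul]
  choose Nb Pb hPb using fun b : {a // a ∉ C} => null_K (Ψ := Ψ)
    (fun _ : Fin 1 => aeval B (F b.1)) (aeval G H) (by
      intro x hxΨ hxf
      have hxf' := hxf 0
      rw [← hcomp] at hxf' ⊢
      by_cases hx0 : x = 0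
      · have h1 : (fun j => aeval x (G j)) = 0 := by
          funext j
          rw [hx0]
          have h2 : (0 : Fin (l + 1) → AlgebraicClosure K) = fun i => (0 : AlgebraicClosure K) * 0 := by
            funext i
            simp
          have h3 : aeval (fun i => (0 : AlgebraicClosure K) * (0 : AlgebraicClosure K)) (G j) =
              (0 : AlgebraicClosure K) ^ eG' *
                aeval (fun _ : Fin (l + 1) => (0 : AlgebraicClosure K)) (G j) :=
            val_smul (IsHomogeneous.of_map (algebraMap K (AlgebraicClosure K)).injective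
              (hGe' j)) 0 _
          rw [h2, h3, zero_pow (by omega), zero_mul]
          rfl
        rw [h1]
        exact hH0 b.1 b.2
      · by_contra hne
        refine hE x ⟨hx0, fun e => ?_⟩ ?_ b.1 b.2 ?_
        · unfold bc
          rw [hvc]
          exact hxΨ e
        · rwa [himG']
        · rwa [himB'])
  -- the bad places
  obtain ⟨S0, hS0⟩ := exists_bad (k := k) (K := K)
    (I := (Fin (n + 1) ⊕ Fin (M + 1)) ⊕ ((Fin (l + 1) × Fin (n + 1)) ⊕
      (Fin (l + 1) × Fin (M + 1))) ⊕ {a // a ∉ C})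
    (Sum.elim (Sum.elim B G) (Sum.elim (Sum.elim (fun p => PB p.1 p.2) fun p => PG p.1 p.2)
      fun b => Pb b 0))
  obtain ⟨ρ, hρ⟩ : ∃ ρ : ℤ, ρ = (∑ a, d a + C.card + 1 : ℕ) - 2 * m - 2 * t := ⟨_, rfl⟩
  have hρ1 : 1 ≤ ρ := by
    rw [hρ]
    omega
  obtain ⟨C1, hC1⟩ : ∃ C1 : ℤ, C1 = |canDeg k K| + S0.card + (Fintype.card A + m + 3) * Q0 :=
    ⟨_, rfl⟩
  have hC1n : 0 ≤ C1 := by
    rw [hC1]
    positivity
  refine ⟨(eG * C1 + eG * ρ * C2 + eB * ρ * C3).toNat, fun L _ _ _ _ _ z hz hzΦ hzH => ?_⟩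
  obtain ⟨C4, hC4⟩ : ∃ C4 : ℤ, C4 = eG * C1 + eG * ρ * C2 + eB * ρ * C3 := ⟨_, rfl⟩
  have hC4n : 0 ≤ C4 := by
    rw [hC4]
    positivity
  rw [← hC4, Int.toNat_of_nonneg hC4n, ← hρ]
  obtain ⟨E, i1, i2, i3, i4, i5, ψ, u, i0, c, hrk, hu0, huΨ, hc0, hcz⟩ :=
    lift_pt hΨ hG hon hfib hz hzΦ
  let _ : Algebra k E := ((algebraMap L E).comp (algebraMap k L)).toAlgebra
  have hst1 : IsScalarTower k L E := IsScalarTower.of_algebraMap_eq' rfl
  have hst2 : IsScalarTower k K E := by
    refine IsScalarTower.of_algebraMap_eq fun a => ?_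
    rw [IsScalarTower.algebraMap_apply K L E, ← IsScalarTower.algebraMap_apply k K L]
    rfl
  have hfd : FiniteDimensional K E := FiniteDimensional.trans K L E
  have hLff : IsFF k L := isFF_of_finite (F := K)
  have hEff : IsFF k E := isFF_of_finite (F := K)
  have hψ : ∀ {s : ℕ} (v : Fin (s + 1) → E) (p : MvPolynomial (Fin (s + 1)) K),
      ψ (aeval v p) = val (fun i => ψ (v i)) (map (algebraMap K (AlgebraicClosure K)) p) := by
    intro s v p
    rw [hvc, comp_aeval_apply]
  have hψ0 : ∀ x : E, ψ x = 0 → x = 0 := fun x hx => (map_eq_zero ψ).1 hx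
  have hu' : ∃ j, u j ≠ 0 := ⟨i0, by rw [hu0]; exact one_ne_zero⟩
  have huΨ' : ∀ i, aeval u (Ψ i) = 0 := by
    intro i
    apply hψ0
    rw [hψ]
    exact huΨ.2 i
  have hBu := hB.maps _ huΨ
  have hGu := hG.maps _ huΨ
  have himB : im (bc B) (fun i => ψ (u i)) = fun j => ψ (aeval u (B j)) := by
    funext j
    rw [hψ]
    rfl
  have himG : im (bc G) (fun i => ψ (u i)) = fun j => ψ (aeval u (G j)) := by
    funext j
    rw [hψ]
    rfl
  rw [himB] at hBu
  rw [himG] at hGu
  obtain ⟨j0, hj0⟩ := Function.ne_iff.1 hBu.1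
  obtain ⟨jG, hjG⟩ := Function.ne_iff.1 hGu.1
  obtain ⟨y, hy⟩ : ∃ y : Fin (n + 1) → E, y = fun j => aeval u (B j) := ⟨_, rfl⟩
  obtain ⟨g, hg⟩ : ∃ g : Fin (M + 1) → E, g = fun j => aeval u (G j) := ⟨_, rfl⟩
  have hyj : ∀ j, y j = aeval u (B j) := fun j => by rw [hy]
  have hgj : ∀ j, g j = aeval u (G j) := fun j => by rw [hg]
  have hj0' : y j0 ≠ 0 := fun h => hj0 (by rw [← hyj, h, map_zero]; rfl)
  have hjG' : g jG ≠ 0 := fun h => hjG (by rw [← hgj, h, map_zero]; rfl)
  have hyΘ : ∀ e, aeval y (eqs V (fun c : {a // a ∈ C} => F c.1) e) = 0 := by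
    intro e
    apply hψ0
    rw [hψ]
    have h1 := hBu.2 e
    rw [show (fun i => ψ (y i)) = fun j => ψ (aeval u (B j)) from by rw [hy]]
    exact h1
  obtain ⟨x, hx⟩ : ∃ x : Fin (n + 1) → E, x = fun j => (y j0)⁻¹ * y j := ⟨_, rfl⟩
  have hx1 : x j0 = 1 := by
    rw [hx]
    exact inv_mul_cancel₀ hj0'
  -- heights over `E`
  have hz' : ∃ j, z j ≠ 0 := Function.ne_iff.1 hz
  have ht1 : (Module.finrank L E : ℤ) * pht k z = pht k g := by
    rw [← pht_algebraMap hz']
    have h5 : (fun j => algebraMap L E (z j)) = fun j => c * g j := by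
      funext j
      rw [hgj]
      exact hcz j
    rw [h5, pht_scale ⟨jG, hjG'⟩ hc0]
  have ht2 : pht k x = pht k y := by
    rw [hx, pht_scale ⟨j0, hj0'⟩ (inv_ne_zero hj0')]
  have ht4 : eB * pht k u ≤ pht k y + Module.finrank K E * C2 := by
    have := hC2 E u hu' huΨ' ⟨j0, by rw [← hyj]; exact hj0'⟩
    rwa [← hy] at this
  have ht5 : pht k g ≤ eG * pht k u + Module.finrank K E * C3 := by
    have := hC3 E u hu' ⟨jG, by rw [← hgj]; exact hjG'⟩
    rwa [← hg] at this
  -- the field generated by the image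
  obtain ⟨E1, hE1⟩ : ∃ E1 : IntermediateField L E,
    E1 = IntermediateField.adjoin L (Set.range x) := ⟨_, rfl⟩
  have hxE : ∀ j, x j ∈ E1 := fun j => by
    rw [hE1]
    exact IntermediateField.subset_adjoin L _ ⟨j, rfl⟩
  obtain ⟨x1, hx1c⟩ : ∃ x1 : Fin (n + 1) → E1, ∀ j, (x1 j : E) = x j :=
    ⟨fun j => ⟨x j, hxE j⟩, fun _ => rfl⟩
  have hx11 : x1 j0 = 1 := Subtype.ext (by rw [hx1c, hx1]; rfl)
  have hx1e : ∃ j, x1 j ≠ 0 := ⟨j0, by rw [hx11]; exact one_ne_zero⟩
  have hst3 : IsScalarTower k E1 E := IsScalarTower.of_algebraMap_eq fun c => by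
    rw [IsScalarTower.algebraMap_apply k L E, IsScalarTower.algebraMap_apply k L E1,
      ← IsScalarTower.algebraMap_apply L E1 E]
  have hst4 : IsScalarTower K E1 E := IsScalarTower.of_algebraMap_eq fun c => by
    rw [IsScalarTower.algebraMap_apply K L E, IsScalarTower.algebraMap_apply K L E1,
      ← IsScalarTower.algebraMap_apply L E1 E]
  have hst5 : IsScalarTower k K E1 := IsScalarTower.of_algebraMap_eq fun c => by
    rw [IsScalarTower.algebraMap_apply k L E1, IsScalarTower.algebraMap_apply K L E1,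
      ← IsScalarTower.algebraMap_apply k K L]
  have hfd1 : FiniteDimensional K E1 := FiniteDimensional.trans K L E1
  have hff1 : IsFF k E1 := isFF_of_finite (F := L)
  have hr0 : 0 < Module.finrank L E1 := Module.finrank_pos
  have hr2 : 0 < Module.finrank E1 E := Module.finrank_pos
  have hrr := Module.finrank_mul_finrank L E1 E
  have hrK := Module.finrank_mul_finrank K L E
  have hrK1 := Module.finrank_mul_finrank K L E1
  have hr1 : Module.finrank L E1 ≤ t := by
    have h1 : Module.finrank L E1 ≤ Module.finrank L E1 * Module.finrank E1 E :=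
      Nat.le_mul_of_pos_right _ hr2
    omega
  have ht3 : pht k x = Module.finrank E1 E * pht k x1 := by
    rw [← pht_algebraMap hx1e]
    congr 1
    funext j
    exact (hx1c j).symm
  have haev : ∀ p : MvPolynomial (Fin (n + 1)) K, algebraMap E1 E (aeval x1 p) = aeval x p := by
    intro p
    have h2 := MvPolynomial.aeval_algebraMap_apply (R := K) E x1 p
    have h3 : (fun j => algebraMap E1 E (x1 j)) = x := funext hx1c
    rw [← h2]
    congr 1
    rw [← h3]
    rfl
  have hsc : ∀ (p : MvPolynomial (Fin (n + 1)) K) (e : ℕ), p.IsHomogeneous e →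
      aeval x p = (y j0)⁻¹ ^ e * aeval y p := by
    intro p e he
    rw [hx]
    exact val_smul he (y j0)⁻¹ y
  have hval : ∀ (p : MvPolynomial (Fin (n + 1)) K) (e : ℕ), p.IsHomogeneous e → aeval y p = 0 →
      aeval x1 p = 0 := by
    intro p e he h0
    have h1 := haev p
    rw [hsc p e he, h0, mul_zero] at h1
    exact (map_eq_zero _).1 h1
  obtain ⟨Cs, hCs⟩ : ∃ Cs : Finset A, ∀ a, a ∈ Cs ↔
      eval x1 (map (algebraMap K E1) (F a)) = 0 :=
    ⟨Finset.univ.filter fun a => eval x1 (map (algebraMap K E1) (F a)) = 0, fun a => by simp⟩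
  have hev : ∀ p : MvPolynomial (Fin (n + 1)) K, eval x1 (map (algebraMap K E1) p) =
      aeval x1 p := fun p => by
    rw [eval_map]
    rfl
  have hCC : C ⊆ Cs := by
    intro a ha
    rw [hCs, hev]
    exact hval _ (d a) (hF a) (hyΘ (Sum.inr ⟨a, ha⟩))
  have hcard : (C.card : ℤ) ≤ Cs.card := by exact_mod_cast Finset.card_le_card hCC
  -- the places where the point meets the boundary
  have hmf := meets_finite (k := k) (K := K) (h := h) (H := H) hz'
  obtain ⟨S, hS⟩ : ∃ S : Finset (Place k L), S = hmf.toFinset := ⟨_, rfl⟩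
  have hSc : ({P : Place k L | h * pord P z < P.ord (aeval z H)}.ncard : ℤ) = S.card := by
    rw [hS, Set.ncard_eq_toFinset_card _ hmf]
  rw [hSc]
  have hSm : ∀ P, P ∉ S → P.ord (aeval z H) ≤ h * pord P z := by
    intro P hP
    rw [hS, Set.Finite.mem_toFinset] at hP
    exact not_lt.1 hP
  obtain ⟨S1, hS1, hS1c⟩ := card_over (k := k) (F := L) (L := E1) S
  obtain ⟨S2, hS2, hS2c⟩ := card_over (k := k) (F := K) (L := E1) S0
  have hint : ∀ Q, Q ∉ S1 ∪ S2 → ∀ b, b ∉ Cs →
      Q.ord (eval x1 (map (algebraMap K E1) (F b))) ≤ d b * pord Q x1 := by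
    intro Q hQ b hb
    rw [Finset.mem_union, not_or] at hQ
    have hQ1 : under L Q ∉ S := fun h => hQ.1 (hS1 _ h)
    have hQ2 : under K Q ∉ S0 := fun h => hQ.2 (hS2 _ h)
    have hbC : b ∉ C := fun h => hb (hCC h)
    have hcon := hSm _ hQ1
    by_contra hlt
    rw [not_le, hev] at hlt
    -- a place of `E`
    obtain ⟨T', hT'⟩ := Pool.Agent.Y221.AH.exists_over (L := E) {Q}
    have hTs := Pool.Agent.Y735.R.sum_ram (L := E) Q T' fun w => by
      rw [← hT', Finset.mem_singleton]
    obtain ⟨Q2, hQ2m⟩ : T'.Nonempty := by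
      rw [Finset.nonempty_iff_ne_empty]
      rintro rfl
      rw [Finset.sum_empty] at hTs
      have : (0 : ℤ) < Module.finrank E1 E := by exact_mod_cast hr2
      omega
    have hQ2' : under E1 Q2 = Q := by
      have := (hT' Q2).2 hQ2m
      rwa [Finset.mem_singleton] at this
    obtain ⟨P, hP⟩ : ∃ P, P = under L Q := ⟨_, rfl⟩
    obtain ⟨e1, he1⟩ : ∃ e1 : ℕ, e1 = ram E1 Q2 := ⟨_, rfl⟩
    obtain ⟨e2, he2⟩ : ∃ e2 : ℕ, e2 = ram L Q := ⟨_, rfl⟩
    have he1p : (0 : ℤ) < e1 := by
      rw [he1]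
      exact_mod_cast (ram_spec (F := E1) Q2).1
    have he2p : (0 : ℤ) < e2 := by
      rw [he2]
      exact_mod_cast (ram_spec (F := L) Q).1
    have ho1 : ∀ y : E1, Q2.ord (algebraMap E1 E y) = e1 * Q.ord y := fun y => by
      rw [ord_under, hQ2', he1]
    have ho2 : ∀ y : L, Q2.ord (algebraMap L E y) = e1 * e2 * P.ord y := fun y => by
      rw [IsScalarTower.algebraMap_apply L E1 E, ho1, ord_under (F := L) Q, he2, hP]
      ring
    rw [← hP] at hcon
    have hgood : under K Q2 ∉ S0 := by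
      intro hmem
      apply hQ2
      have h1 : under K Q = under K Q2 := by
        rw [← hQ2']
        exact under_under Q2
      rwa [h1]
    have hgoodc := hS0 E Q2 hgood
    have hzE : aeval (fun j => algebraMap L E (z j)) H = algebraMap L E (aeval z H) := by
      have h2 := MvPolynomial.aeval_algebraMap_apply (R := K) E z H
      rw [← h2]
      rfl
    have h1 : aeval g H ≠ 0 := by
      intro h0
      have h2 : (fun j => algebraMap L E (z j)) = fun j => c * g j := by
        funext j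
        rw [hgj]
        exact hcz j
      have h3 : aeval (fun j => c * g j) H = c ^ h * aeval g H := val_smul hH _ _
      rw [h2, h3, h0, mul_zero] at hzE
      exact hzH ((map_eq_zero _).1 hzE.symm)
    have hp1 : pord Q2 (fun j => algebraMap L E (z j)) = e1 * e2 * pord P z := by
      have h9 := Pool.Agent.Y221.AH.pord_under (K := E1) Q2
        (f := fun j => algebraMap L E1 (z j)) (by
          obtain ⟨j, hj⟩ := hz'
          exact ⟨j, (map_ne_zero (algebraMap L E1)).2 hj⟩)
      have h10 := Pool.Agent.Y221.AH.pord_under (K := L) Q (f := z) hz'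
      rw [hQ2', h10, ← he1, ← he2, ← hP] at h9
      rw [mul_assoc, ← h9]
      congr 1
    have hp2 : pord Q2 x = e1 * pord Q x1 := by
      have h9 := Pool.Agent.Y221.AH.pord_under (K := E1) Q2 (f := x1) hx1e
      rw [hQ2', ← he1] at h9
      rw [← h9]
      congr 1
      funext j
      exact (hx1c j).symm
    have h2 : Q2.ord (aeval g H) ≤ h * pord Q2 g := by
      have h3 : (fun j => algebraMap L E (z j)) = fun j => c * g j := by
        funext j
        rw [hgj]
        exact hcz j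
      have h4 : aeval (fun j => c * g j) H = c ^ h * aeval g H := val_smul hH _ _
      have h5 := congrArg Q2.ord hzE
      rw [ho2, h3, h4, Q2.ord_mul (pow_ne_zero _ hc0) h1, Q2.ord_pow] at h5
      have h6 : pord Q2 (fun j => c * g j) = Q2.ord c + pord Q2 g :=
        pord_scale Q2 ⟨jG, hjG'⟩ hc0
      rw [h3, h6] at hp1
      have h7 : (e1 * e2 : ℤ) * P.ord (aeval z H) ≤ (e1 * e2) * (h * pord P z) :=
        mul_le_mul_of_nonneg_left hcon (mul_pos he1p he2p).le
      have h8 : (e1 * e2 : ℤ) * (h * pord P z) = h * (e1 * e2 * pord P z) := by ring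
      rw [h8, ← hp1, mul_add] at h7
      linarith
    have hpB := (pord_im_good hBe hΨ (fun i x hx => hPB i E x hx) hu' huΨ' Q2
      (fun j => hgoodc (Sum.inl (Sum.inl j)))
      (fun i j => hgoodc (Sum.inr (Sum.inl (Sum.inl (i, j)))))).1
    have hpG := (pord_im_good hGe hΨ (fun i x hx => hPG i E x hx) hu' huΨ' Q2
      (fun j => hgoodc (Sum.inl (Sum.inr j)))
      (fun i j => hgoodc (Sum.inr (Sum.inl (Sum.inr (i, j)))))).1
    have h3 := bd_good hΨ hBe hGe hH (hF b) (N := Nb ⟨b, hbC⟩) (P := Pb ⟨b, hbC⟩ 0) (fun x hx => by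
      have h4 := hPb ⟨b, hbC⟩ E x hx
      rw [Fin.sum_univ_one, ← hcomp, ← hcomp] at h4
      rw [h4, mul_comm]) hu' huΨ' (by rw [← hg]; exact h1) Q2
      (hgoodc (Sum.inr (Sum.inr ⟨b, hbC⟩))) hpB hpG (by rw [← hg]; exact h2)
    rw [← hy] at h3
    have h5 : Q2.ord (aeval x (F b)) = e1 * Q.ord (aeval x1 (F b)) := by
      rw [← haev, ho1]
    have h6 : aeval y (F b) ≠ 0 := by
      intro h0
      apply hb
      rw [hCs, hev]
      exact hval _ (d b) (hF b) h0
    have h7 : Q2.ord (aeval x (F b)) = -(d b * Q2.ord (y j0)) + Q2.ord (aeval y (F b)) := by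
      rw [hsc _ _ (hF b), Q2.ord_mul (pow_ne_zero _ (inv_ne_zero hj0')) h6, Q2.ord_pow,
        Q2.ord_inv]
      ring
    have h8 : pord Q2 x = -Q2.ord (y j0) + pord Q2 y := by
      rw [hx, pord_scale Q2 ⟨j0, hj0'⟩ (inv_ne_zero hj0'), Q2.ord_inv]
    have h9 : (e1 : ℤ) * (d b * pord Q x1) < e1 * Q.ord (aeval x1 (F b)) :=
      mul_lt_mul_of_pos_left hlt he1p
    rw [← h5, h7] at h9
    have h10 : (e1 : ℤ) * (d b * pord Q x1) = d b * (e1 * pord Q x1) := by ring
    rw [h10, ← hp2, h8] at h9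
    linarith
  have hx1ne : x1 ≠ 0 := by
    obtain ⟨j, hj⟩ := hx1e
    intro h0
    exact hj (congrFun h0 j)
  have hineq := ineq_S (κ := k) (F := K) (L := E1) (algebraMap K0 K) hdat hDk V hV hx1ne
    (fun f hf => by
      have h1 := hyΘ (Sum.inl ⟨f, hf⟩)
      obtain ⟨e, he⟩ := hVh f hf
      have h2 := hval (map (algebraMap K0 K) f) e (he.map _) h1
      rw [aeval_def, eval₂_map] at h2
      exact h2) Cs hCs (S1 ∪ S2) hint T0 hT0q
  rw [← hQ0] at hineq
  -- the discriminant
  have hgen1 : IntermediateField.adjoin L (Set.range x1) = ⊤ := by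
    subst hE1
    apply IntermediateField.lift_injective
    rw [IntermediateField.lift_adjoin, IntermediateField.lift_top]
    congr 1
    ext y
    constructor
    · rintro ⟨_, ⟨j, rfl⟩, rfl⟩
      exact ⟨j, (hx1c j).symm⟩
    · rintro ⟨j, rfl⟩
      exact ⟨x1 j, ⟨j, rfl⟩, hx1c j⟩
  have hdisc := Pool.Agent.Y735.R.disc_le_pht (k := k) (F := L) x1 hx11 hgen1
  have hrh := canDeg_ext (k := k) (F := L) (L := E1)
  have hrhK := canDeg_ext (k := k) (F := K) (L := E1)
  have hx1p : 0 ≤ pht k x1 := pht_nn hx1e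
  have hr1' : (Module.finrank L E1 : ℤ) ≤ t := by exact_mod_cast hr1
  have hcu : ((S1 ∪ S2).card : ℤ) ≤ S1.card + S2.card := by
    exact_mod_cast Finset.card_union_le S1 S2
  have hmain : ρ * pht k x1 ≤ Module.finrank L E1 * (canDeg k L + S.card) +
      Module.finrank K E1 * C1 := by
    have h2 : ρ * pht k x1 ≤ (∑ a, (d a : ℤ) + Cs.card + 1 - 2 * m - 2 * Module.finrank L E1) *
        pht k x1 := by
      refine mul_le_mul_of_nonneg_right ?_ hx1p
      rw [hρ]
      push_cast
      linarith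
    have h3 : (∑ a, (d a : ℤ) + Cs.card + 1 - 2 * m - 2 * Module.finrank L E1) * pht k x1 =
        (∑ a, (d a : ℤ) + Cs.card - 2 * m - 1) * pht k x1 -
          (2 * Module.finrank L E1 - 2) * pht k x1 := by ring
    have h4 : -(Module.finrank K E1 * canDeg k K : ℤ) ≤ Module.finrank K E1 * |canDeg k K| := by
      rw [← mul_neg]
      exact mul_le_mul_of_nonneg_left (neg_le_abs _) (by positivity)
    have h5 : (Module.finrank K E1 : ℤ) * C1 = Module.finrank K E1 * |canDeg k K| +
        Module.finrank K E1 * S0.card +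
          (Fintype.card A + m + 3) * (Module.finrank K E1 * Q0) := by
      rw [hC1]
      ring
    rw [h3] at h2
    rw [mul_add, h5]
    linarith
  -- the heights
  have hrr' : (Module.finrank L E : ℤ) = Module.finrank L E1 * Module.finrank E1 E := by
    exact_mod_cast hrr.symm
  have hrK' : (Module.finrank K E : ℤ) = Module.finrank K L * Module.finrank L E := by
    exact_mod_cast hrK.symm
  have hrK1' : (Module.finrank K E1 : ℤ) = Module.finrank K L * Module.finrank L E1 := by
    exact_mod_cast hrK1.symm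
  have hE2 : ρ * pht k y ≤ Module.finrank L E * (canDeg k L + S.card) +
      Module.finrank K E * C1 := by
    have h1 := mul_le_mul_of_nonneg_left hmain (Int.natCast_nonneg (Module.finrank E1 E))
    rw [hrK1'] at h1
    rw [← ht2, ht3, hrK', hrr']
    exact le_of_eq_of_le (by ring) (h1.trans_eq (by ring))
  have hLE : (0 : ℤ) < Module.finrank L E := by exact_mod_cast Module.finrank_pos
  have hfin : (Module.finrank L E : ℤ) * (eB * ρ * pht k z) ≤ Module.finrank L E *
      (eG * (canDeg k L + S.card) + C4 * Module.finrank K L) := by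
    have h1 : (Module.finrank L E : ℤ) * (eB * ρ * pht k z) = eB * ρ * pht k g := by
      rw [← ht1]
      ring
    have h2 : (eB * ρ : ℤ) * pht k g ≤ eB * ρ * (eG * pht k u + Module.finrank K E * C3) :=
      mul_le_mul_of_nonneg_left ht5 (by positivity)
    have h3 : (eG * ρ : ℤ) * (eB * pht k u) ≤ eG * ρ * (pht k y + Module.finrank K E * C2) :=
      mul_le_mul_of_nonneg_left ht4 (by positivity)
    have h4 : (eG : ℤ) * (ρ * pht k y) ≤ eG * (Module.finrank L E * (canDeg k L + S.card) +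
        Module.finrank K E * C1) := mul_le_mul_of_nonneg_left hE2 (by positivity)
    have h5 : (Module.finrank L E : ℤ) * (eG * (canDeg k L + S.card) + C4 * Module.finrank K L) =
        eG * (Module.finrank L E * (canDeg k L + S.card) + Module.finrank K E * C1) +
          eG * ρ * (Module.finrank K E * C2) + eB * ρ * (Module.finrank K E * C3) := by
      rw [hC4, hrK']
      ring
    rw [h1, h5]
    linarith
  exact le_of_mul_le_mul_left hfin hLE

end Pool.Agent.Q58.LG
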