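import Pool.Agent.Q58.LG.StrL
import Pool.Agent.Q58.LG.Dmn
import Pool.Agent.Q58.LG.Voj2

/-!
Affine varieties with a proper correspondence of small degree to a generic pair.
-/

set_option autoImplicit false
set_option linter.overlappingInstances false
set_option linter.unusedSectionVars false

open MvPolynomial FF Pool.Agent.W602.GT Pool.Agent.W603.LV Pool.Agent.W603.PV Pool.Agent.Y221.FQ
open Pool.Agent.TH145.MG (DimLE)
open Pool.Agent.TH145.GC (Cf finite_cf)
open Pool.Agent.Q58.FI (eqs ratio_fam)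
open Pool.Agent.Y221.AH (pht_algebraMap pht_nonneg)
open Pool.Agent.TH466.QG (Sp)

namespace Pool.Agent.Q58.LG

section

variable {k K : Type} [Field k] [Field K] [IsAlgClosed K] [CharZero K] [Algebra k K]
  {n m : ℕ} {V : Set (MvPolynomial (Fin (n + 1)) (algebraicClosure k K))}
  {A : Type} [Fintype A] {d : A → ℕ} {F : A → MvPolynomial (Fin (n + 1)) K}

/-- Heights of points of generic pairs over covers of affine curves. -/
theorem cover_log (C : Finset A) (hVh : ∀ f ∈ V, ∃ e, f.IsHomogeneous e)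
    (hV : DimLE (algebraicClosure k K) V m) {r : ℕ}
    (hd : 2 * m + 2 * r ≤ ∑ a, d a + C.card + 1) (hF : ∀ a, (F a).IsHomogeneous (d a))
    (hgen : AlgebraicIndependent k fun p : Cf n d => (F p.1).coeff p.2.1)
    (L0 E : Type) [Field L0] [Field E] [Algebra K L0] [Algebra K E] [Algebra L0 E]
    [IsScalarTower K L0 E] [FiniteDimensional L0 E] [IsFF K L0] [IsFF K E]
    (hr : Module.finrank L0 E ≤ r) (y : Fin (n + 1) → E) (hy : ∃ j, y j ≠ 0)
    (hyX : ∀ p, aeval y (eqs V (fun c : {a // a ∈ C} => F c.1) p) = 0) (S : Finset (Place K L0))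
    (hS : ∀ Q : Place K E, under L0 Q ∉ S → ∀ b, b ∉ C → aeval y (F b) ≠ 0 →
      Q.ord (aeval y (F b)) ≤ d b * pord Q y) :
    ((∑ a, d a + C.card + 2 : ℕ) - 2 * m - 2 * r) * pht K y ≤
      Module.finrank L0 E * max (canDeg K L0 + S.card) 0 := by
  classical
  obtain ⟨j0, hj0'⟩ := hy
  have hmax : 0 ≤ (Module.finrank L0 E : ℤ) * max (canDeg K L0 + S.card) 0 :=
    mul_nonneg (Int.natCast_nonneg _) (le_max_right _ _)
  obtain ⟨x, hx⟩ : ∃ x : Fin (n + 1) → E, x = fun j => (y j0)⁻¹ * y j := ⟨_, rfl⟩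
  have hx1 : x j0 = 1 := by
    rw [hx]
    exact inv_mul_cancel₀ hj0'
  have ht2 : pht K x = pht K y := by
    rw [hx, pht_scale ⟨j0, hj0'⟩ (inv_ne_zero hj0')]
  rw [← ht2]
  have hxe : ∃ j, x j ≠ 0 := ⟨j0, by rw [hx1]; exact one_ne_zero⟩
  rcases (pht_nonneg (k := K) hxe).eq_or_lt with h0 | hpos
  · rw [← h0, mul_zero]
    exact hmax
  -- the field generated by the coordinates
  obtain ⟨E1, hE1⟩ : ∃ E1 : IntermediateField L0 E,
    E1 = IntermediateField.adjoin L0 (Set.range x) := ⟨_, rfl⟩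
  have hxE : ∀ j, x j ∈ E1 := fun j => by
    rw [hE1]
    exact IntermediateField.subset_adjoin L0 _ ⟨j, rfl⟩
  obtain ⟨x1, hx1c⟩ : ∃ x1 : Fin (n + 1) → E1, ∀ j, (x1 j : E) = x j :=
    ⟨fun j => ⟨x j, hxE j⟩, fun _ => rfl⟩
  have hx11 : x1 j0 = 1 := Subtype.ext (by rw [hx1c, hx1]; rfl)
  have hx1e : ∃ j, x1 j ≠ 0 := ⟨j0, by rw [hx11]; exact one_ne_zero⟩
  have hst3 : IsScalarTower K E1 E := IsScalarTower.of_algebraMap_eq fun c => by
    rw [IsScalarTower.algebraMap_apply K L0 E, IsScalarTower.algebraMap_apply K L0 E1,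
      ← IsScalarTower.algebraMap_apply L0 E1 E]
  have hff1 : IsFF K E1 := isFF_of_finite (F := L0)
  have hr0 : 0 < Module.finrank L0 E1 := Module.finrank_pos
  have hr2 : 0 < Module.finrank E1 E := Module.finrank_pos
  have hrr := Module.finrank_mul_finrank L0 E1 E
  have hr1 : Module.finrank L0 E1 ≤ r := by
    have h1 : Module.finrank L0 E1 ≤ Module.finrank L0 E1 * Module.finrank E1 E :=
      Nat.le_mul_of_pos_right _ hr2
    omega
  have ht3 : pht K x = Module.finrank E1 E * pht K x1 := by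
    rw [← pht_algebraMap hx1e]
    congr 1
    funext j
    exact (hx1c j).symm
  have hx1pos : 0 < pht K x1 := by
    by_contra hcon
    push Not at hcon
    have h2 := mul_nonpos_of_nonneg_of_nonpos (Int.natCast_nonneg (Module.finrank E1 E)) hcon
    omega
  have haev : ∀ p : MvPolynomial (Fin (n + 1)) K, algebraMap E1 E (aeval x1 p) = aeval x p := by
    intro p
    have h2 := MvPolynomial.aeval_algebraMap_apply (R := K) E x1 p
    have h3 : (fun j => algebraMap E1 E (x1 j)) = x := funext hx1c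
    rw [← h2]
    congr 1
    rw [← h3]
    rfl
  have hsc : ∀ (p : MvPolynomial (Fin (n + 1)) K) (e : ℕ), p.IsHomogeneous e →
      aeval x p = (y j0)⁻¹ ^ e * aeval y p := by
    intro p e he
    rw [hx]
    exact val_smul he (y j0)⁻¹ y
  have hval : ∀ (p : MvPolynomial (Fin (n + 1)) K) (e : ℕ), p.IsHomogeneous e → aeval y p = 0 →
      aeval x1 p = 0 := by
    intro p e he h0
    have h1 := haev p
    rw [hsc p e he, h0, mul_zero] at h1
    exact (map_eq_zero _).1 h1
  obtain ⟨Cs, hCs⟩ : ∃ Cs : Finset A, ∀ a, a ∈ Cs ↔ aeval x1 (F a) = 0 :=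
    ⟨Finset.univ.filter fun a => aeval x1 (F a) = 0, fun a => by simp⟩
  have hCC : C ⊆ Cs := by
    intro a ha
    rw [hCs]
    exact hval _ (d a) (hF a) (hyX (Sum.inr ⟨a, ha⟩))
  have hcard := Finset.card_le_card hCC
  obtain ⟨N, hN⟩ : ∃ N, N + 2 * m = ∑ a, d a + C.card :=
    ⟨∑ a, d a + C.card - 2 * m, by omega⟩
  obtain ⟨ω, hω, hω0, hreg⟩ := lform_genK (k' := algebraicClosure k K) (N := N) (w := 1)
    hVh hV hF hgen.algebraicClosure one_pos Cs (by omega)
    (IsFF.trdeg (k := K) (K := E1)) x1 hx11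
    (alg_coords hx11 hx1pos) (fun f hf => by
      obtain ⟨e, he⟩ := hVh f hf
      exact hval _ e (he.map _) (hyX (Sum.inl ⟨f, hf⟩))) (fun a ha => (hCs a).1 ha)
      (fun a ha h => ha ((hCs a).2 h))
  obtain ⟨S1, hS1, hS1c⟩ := card_over (L := E1) S
  have hfm := form_ineq hx11 hω hω0 S1 (fun f Q => (hreg f Q (divisorial_one Q)).1)
    (fun f Q hQ => (hreg f Q (divisorial_one Q)).2 (by
      rintro ⟨b, hb, hlt⟩
      have hbC : b ∉ C := fun h => hb (hCC h)
      apply hQ
      apply hS1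
      by_contra hPS
      -- a place of `E`
      obtain ⟨T', hT'⟩ := Pool.Agent.Y221.AH.exists_over (L := E) {Q}
      have hTs := Pool.Agent.Y735.R.sum_ram (L := E) Q T' fun w => by
        rw [← hT', Finset.mem_singleton]
      obtain ⟨Q2, hQ2⟩ : T'.Nonempty := by
        rw [Finset.nonempty_iff_ne_empty]
        rintro rfl
        rw [Finset.sum_empty] at hTs
        have : (0 : ℤ) < Module.finrank E1 E := by exact_mod_cast hr2
        omega
      have hQ2' : under E1 Q2 = Q := by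
        have := (hT' Q2).2 hQ2
        rwa [Finset.mem_singleton] at this
      obtain ⟨e1, he1⟩ : ∃ e1 : ℕ, e1 = ram E1 Q2 := ⟨_, rfl⟩
      have he1p : (0 : ℤ) < e1 := by
        rw [he1]
        exact_mod_cast (ram_spec (F := E1) Q2).1
      have ho1 : ∀ y : E1, Q2.ord (algebraMap E1 E y) = e1 * Q.ord y := fun y => by
        rw [ord_under, hQ2', he1]
      have hunder : under L0 Q2 = under L0 Q := by
        rw [← hQ2']
        exact (under_under Q2).symm
      have h6 : aeval y (F b) ≠ 0 := by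
        intro h0
        exact hb ((hCs b).2 (hval _ _ (hF b) h0))
      have h3 := hS Q2 (by rw [hunder]; exact hPS) b hbC h6
      have hp2 : pord Q2 x = e1 * pord Q x1 := by
        have h9 := Pool.Agent.Y221.AH.pord_under (K := E1) Q2 (f := x1) hx1e
        rw [hQ2', ← he1] at h9
        rw [← h9]
        congr 1
        funext j
        exact (hx1c j).symm
      have h5 : Q2.ord (aeval x (F b)) = e1 * Q.ord (aeval x1 (F b)) := by
        rw [← haev, ho1]
      have h7 : Q2.ord (aeval x (F b)) = -(d b * Q2.ord (y j0)) + Q2.ord (aeval y (F b)) := by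
        rw [hsc _ _ (hF b), Q2.ord_mul (pow_ne_zero _ (inv_ne_zero hj0')) h6, Q2.ord_pow,
          Q2.ord_inv]
        ring
      have h8 : pord Q2 x = -Q2.ord (y j0) + pord Q2 y := by
        rw [hx, pord_scale Q2 ⟨j0, hj0'⟩ (inv_ne_zero hj0'), Q2.ord_inv]
      have h9 : (e1 : ℤ) * (d b * pord Q x1) < e1 * Q.ord (aeval x1 (F b)) :=
        mul_lt_mul_of_pos_left hlt he1p
      rw [← h5, h7] at h9
      have h10 : (e1 : ℤ) * (d b * pord Q x1) = d b * (e1 * pord Q x1) := by ring
      rw [h10, ← hp2, h8] at h9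
      linarith))
  have hgen1 : IntermediateField.adjoin L0 (Set.range x1) = ⊤ := by
    subst hE1
    apply IntermediateField.lift_injective
    rw [IntermediateField.lift_adjoin, IntermediateField.lift_top]
    congr 1
    ext y
    constructor
    · rintro ⟨_, ⟨j, rfl⟩, rfl⟩
      exact ⟨j, (hx1c j).symm⟩
    · rintro ⟨j, rfl⟩
      exact ⟨x1 j, ⟨j, rfl⟩, hx1c j⟩
  have hdisc := Pool.Agent.Y735.R.disc_le_pht (k := K) (F := L0) x1 hx11 hgen1
  have hrh := canDeg_ext (k := K) (F := L0) (L := E1)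
  rw [hrh] at hfm
  have hr1' : (Module.finrank L0 E1 : ℤ) ≤ r := by exact_mod_cast hr1
  have hN' : (N : ℤ) + 2 * m = (∑ a, d a + C.card : ℕ) := by exact_mod_cast hN
  have hmain : ((∑ a, d a + C.card + 2 : ℕ) - 2 * m - 2 * r : ℤ) * pht K x1 ≤
      Module.finrank L0 E1 * max (canDeg K L0 + S.card) 0 := by
    have h1 : ((∑ a, d a + C.card + 2 : ℕ) - 2 * m - 2 * r : ℤ) = N + 2 - 2 * r := by
      push_cast at hN' ⊢
      linarith
    rw [h1]
    have h2 : ((N : ℤ) + 2 - 2 * r) * pht K x1 ≤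
        (N + 2 - 2 * Module.finrank L0 E1) * pht K x1 :=
      mul_le_mul_of_nonneg_right (by linarith) hx1pos.le
    refine h2.trans ?_
    have h3 : (N + 2 - 2 * Module.finrank L0 E1 : ℤ) * pht K x1 =
        N * pht K x1 - (2 * Module.finrank L0 E1 - 2) * pht K x1 := by ring
    have h4 : (Module.finrank L0 E1 : ℤ) * (canDeg K L0 + S.card) ≤
        Module.finrank L0 E1 * max (canDeg K L0 + S.card) 0 :=
      mul_le_mul_of_nonneg_left (le_max_left _ _) (Int.natCast_nonneg _)
    rw [h3]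
    linarith
  have hrr' : (Module.finrank L0 E : ℤ) = Module.finrank L0 E1 * Module.finrank E1 E := by
    exact_mod_cast hrr.symm
  have h1 := mul_le_mul_of_nonneg_left hmain (Int.natCast_nonneg (Module.finrank E1 E))
  rw [ht3, hrr']
  exact le_of_eq_of_le (by ring) (h1.trans_eq (by ring))

end

end Pool.Agent.Q58.LG
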