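import Pool.Agent.Q58.LG.Aff
import Pool.Agent.Q80.HC.Curve
import Pool.Agent.Y193.Fin

/-!
Boundedness and logarithmic general type for the affine varieties with a proper correspondence of
small degree to a generic pair.
-/

set_option autoImplicit false
set_option linter.overlappingInstances false
set_option linter.unusedSectionVars false

open MvPolynomial FF Pool.Agent.W603.LV
open Pool.Agent.W602.GT hiding lin
open Pool.Agent.W603.PV
open Pool.Agent.TH145.MG (DimLE)
open Pool.Agent.TH145.GC (Cf)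
open Pool.Agent.Q58.FI (eqs)
open Pool.Agent.TH466.QG (Sp spread trdeg_alg)
open Pool.Agent.Y193 (BoundedModulo FinitePointedMaps)
open Pool.Agent.Q80.HC (isFF_frac exists_places bounded_span neg_ord_le)
open Pool.Agent.Y221.PB (alg_hgt)

namespace Pool.Agent.Q58.LG

/-- The complex point `(φ, p)` of `Spec B × ℙⁿ` is in the closure of the point `y` of `ℙⁿ` over a
field `K'` which contains `B`: all forms with coefficients in `B` which vanish at `y` vanish at
`(φ, p)`. -/
def InClosureA (B : Type) [CommRing B] [Algebra ℂ B] {K' : Type} [Field K'] [Algebra B K'] {n : ℕ}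
    (y : Fin (n + 1) → K') (φ : B →ₐ[ℂ] ℂ) (p : Fin (n + 1) → ℂ) : Prop :=
  p ≠ 0 ∧ ∀ P : MvPolynomial (Fin (n + 1)) B, (∃ e, P.IsHomogeneous e) →
    eval₂ (algebraMap B K') y P = 0 → eval₂ (φ : B →+* ℂ) p P = 0

theorem eval₂_scale {B E : Type} [CommRing B] [Field E] (θ : B →+* E) {n e : ℕ}
    {P : MvPolynomial (Fin (n + 1)) B} (hP : P.IsHomogeneous e) (t : E) (y : Fin (n + 1) → E) :
    eval₂ θ (fun j => t * y j) P = t ^ e * eval₂ θ y P := by
  have h1 := val_smul (hP.map θ) t y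
  have h2 : ∀ v : Fin (n + 1) → E, val v (map θ P) = eval₂ θ v P := by
    intro v
    change aeval v (map θ P) = _
    rw [aeval_def, eval₂_map]
    rfl
  rwa [h2, h2] at h1

section

variable {B : Type} [CommRing B] [Algebra ℂ B] [Algebra.FiniteType ℂ B] {n : ℕ}

/-- A correspondence which does not meet a hypersurface over `Spec B`: orders at the places with
centre in `Spec B`. -/
theorem centre_avoid {E : Type} [Field E] [Algebra ℂ E] (Q : Place ℂ E) (θ : B →ₐ[ℂ] E)
    (hθ : ∀ a, Ge Q 0 (θ a)) {y' : Fin (n + 1) → E} (hy' : ∃ j, y' j ≠ 0) {K' : Type} [Field K']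
    [Algebra B K'] {y : Fin (n + 1) → K'}
    (hspec : ∀ P : MvPolynomial (Fin (n + 1)) B, (∃ e, P.IsHomogeneous e) →
      eval₂ (algebraMap B K') y P = 0 → eval₂ (θ : B →+* E) y' P = 0)
    {f : MvPolynomial (Fin (n + 1)) ℂ} {e : ℕ} (hf : f.IsHomogeneous e)
    (hbd : ∀ φ p, InClosureA B y φ p → eval p f ≠ 0) (h0 : aeval y' f ≠ 0) :
    Q.ord (aeval y' f) ≤ e * pord Q y' := by
  classical
  by_contra hlt
  rw [not_le] at hlt
  obtain ⟨j2, hj2, hj2'⟩ := exists_pord Q (f := y') hy'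
  obtain ⟨N, π, hπ⟩ := Algebra.FiniteType.iff_quotient_mvPolynomial''.1
    (inferInstance : Algebra.FiniteType ℂ B)
  have hgy : ∀ j, Ge Q 0 ((y' j2)⁻¹ * y' j) := by
    intro j
    by_cases h0 : y' j = 0
    · left
      rw [h0, mul_zero]
    · right
      have h1 := pord_le Q (f := y') h0
      rw [Q.ord_mul (inv_ne_zero hj2) h0, Q.ord_inv]
      omega
  obtain ⟨U, hU⟩ : ∃ U : Fin N ⊕ Fin (n + 1) → E,
    U = Sum.elim (fun i => θ (π (X i))) (fun j => (y' j2)⁻¹ * y' j) := ⟨_, rfl⟩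
  have hUg : ∀ i, Ge Q 0 (U i) := by
    rw [hU]
    rintro (i | j)
    · exact hθ _
    · exact hgy j
  obtain ⟨c, -, hc⟩ := exists_centre Q hUg (a := 1) (by rw [map_one]; exact one_ne_zero)
    (by rw [map_one, Q.ord_one])
  have hUπ : ∀ G : MvPolynomial (Fin N) ℂ, aeval U (rename Sum.inl G) = θ (π G) := by
    intro G
    rw [aeval_rename, hU]
    have h1 : (aeval (Sum.elim (fun i => θ (π (X i))) (fun j => (y' j2)⁻¹ * y' j) ∘ Sum.inl) :
        MvPolynomial (Fin N) ℂ →ₐ[ℂ] E) = θ.comp π := by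
      apply MvPolynomial.algHom_ext
      intro i
      rw [aeval_X]
      rfl
    rw [h1]
    rfl
  obtain ⟨φ, hφ⟩ : ∃ φ : B →ₐ[ℂ] ℂ, ∀ G, φ (π G) = eval c (rename Sum.inl G) := by
    refine ⟨AlgHom.liftOfSurjective π hπ (aeval fun i => c (Sum.inl i)) ?_, fun G => ?_⟩
    · intro G hG
      change aeval (fun i => c (Sum.inl i)) G = 0
      have h1 := hc (rename Sum.inl G) (Or.inl (by
        rw [hUπ]
        have : π G = 0 := hG
        rw [this, map_zero]))
      rw [eval_rename] at h1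
      rw [MvPolynomial.aeval_eq_eval]
      exact h1
    · rw [AlgHom.liftOfSurjective_apply, eval_rename, MvPolynomial.aeval_eq_eval]
      rfl
  have hlift : ∀ P : MvPolynomial (Fin (n + 1)) B, ∃ P' : MvPolynomial (Fin N ⊕ Fin (n + 1)) ℂ,
      aeval U P' = eval₂ (θ : B →+* E) (fun j => (y' j2)⁻¹ * y' j) P ∧
        eval c P' = eval₂ (φ : B →+* ℂ) (fun j => c (Sum.inr j)) P := by
    intro P
    induction P using MvPolynomial.induction_on with
    | C b =>
      obtain ⟨G, rfl⟩ := hπ b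
      refine ⟨rename Sum.inl G, ?_, ?_⟩
      · rw [hUπ, eval₂_C]
        rfl
      · rw [eval₂_C, ← hφ]
        rfl
    | add p q hp hq =>
      obtain ⟨p', hp1, hp2⟩ := hp
      obtain ⟨q', hq1, hq2⟩ := hq
      refine ⟨p' + q', ?_, ?_⟩
      · rw [map_add, eval₂_add, hp1, hq1]
      · rw [map_add, eval₂_add, hp2, hq2]
    | mul_X p i hp =>
      obtain ⟨p', hp1, hp2⟩ := hp
      refine ⟨p' * X (Sum.inr i), ?_, ?_⟩
      · rw [map_mul, eval₂_mul, hp1, aeval_X, eval₂_X, hU]
        rfl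
      · rw [map_mul, eval₂_mul, hp2, eval_X, eval₂_X]
  have hUF : aeval U (rename Sum.inr f) = (y' j2)⁻¹ ^ e * aeval y' f := by
    rw [aeval_rename, hU]
    exact val_smul hf (y' j2)⁻¹ y'
  refine hbd φ (fun j => c (Sum.inr j)) ⟨?_, ?_⟩ ?_
  · intro h0
    have h1 := hc (X (Sum.inr j2) - 1) (Or.inl (by
      rw [map_sub, aeval_X, map_one, hU]
      change (y' j2)⁻¹ * y' j2 - 1 = 0
      rw [inv_mul_cancel₀ hj2, sub_self]))
    rw [map_sub, eval_X, map_one, show c (Sum.inr j2) = 0 from congrFun h0 j2] at h1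
    norm_num at h1
  · rintro P ⟨e', he'⟩ hP0
    obtain ⟨P', h1, h2⟩ := hlift P
    rw [← h2]
    refine hc P' (Or.inl ?_)
    rw [h1, eval₂_scale _ he', hspec P ⟨e', he'⟩ hP0, mul_zero]
  · have h1 := hc (rename Sum.inr f) (Or.inr (by
      rw [hUF, Q.ord_mul (pow_ne_zero _ (inv_ne_zero hj2)) h0, Q.ord_pow, Q.ord_inv, hj2']
      linarith))
    rw [eval_rename] at h1
    exact h1

end

section

variable {k : Type} [Field k] [Algebra k ℂ] {n m : ℕ}
  {V : Set (MvPolynomial (Fin (n + 1)) (algebraicClosure k ℂ))}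
  {A : Type} [Fintype A] {d : A → ℕ} {F : A → MvPolynomial (Fin (n + 1)) ℂ}
  {B : Type} [CommRing B] [IsDomain B] [Algebra ℂ B] [Algebra.FiniteType ℂ B]
  {L K' : Type} [Field L] [Field K'] [Algebra ℂ L] [Algebra B L] [IsScalarTower ℂ B L]
  [IsFractionRing B L] [Algebra ℂ K'] [Algebra B K'] [Algebra L K'] [IsScalarTower ℂ L K']
  [IsScalarTower B L K'] [FiniteDimensional L K']

/-- **Boundedness of affine varieties with a proper correspondence to a generic pair.** -/
theorem bounded_corr (C : Finset A) (hVh : ∀ f ∈ V, ∃ e, f.IsHomogeneous e)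
    (hV : DimLE (algebraicClosure k ℂ) V m) {r : ℕ}
    (hd : 2 * m + 2 * r ≤ ∑ a, d a + C.card + 1) (hF : ∀ a, (F a).IsHomogeneous (d a))
    (hgen : AlgebraicIndependent k fun p : Cf n d => (F p.1).coeff p.2.1)
    (hr : Module.finrank L K' ≤ r) {y : Fin (n + 1) → K'} (hy : y ≠ 0)
    (hyX : ∀ p, val y (eqs V (fun c : {a // a ∈ C} => F c.1) p) = 0)
    (halg : Algebra.IsAlgebraic (coords ℂ y) K')
    (hbd : ∀ b, b ∉ C → ∀ φ p, InClosureA B y φ p → eval p (F b) ≠ 0) :
    ∃ J : Ideal B, J ≠ ⊥ ∧ BoundedModulo B J := by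
  classical
  have hBL : Function.Injective (algebraMap B L) := IsFractionRing.injective B L
  obtain ⟨N, π, hπ⟩ := Algebra.FiniteType.iff_quotient_mvPolynomial''.1
    (inferInstance : Algebra.FiniteType ℂ B)
  obtain ⟨x, hx⟩ : ∃ x : Fin N → L, x = fun i => algebraMap B L (π (X i)) := ⟨_, rfl⟩
  have hxπ : ∀ G : MvPolynomial (Fin N) ℂ, aeval x G = algebraMap B L (π G) := by
    intro G
    have h1 : (aeval x : MvPolynomial (Fin N) ℂ →ₐ[ℂ] L) =
        (IsScalarTower.toAlgHom ℂ B L).comp π := by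
      apply MvPolynomial.algHom_ext
      intro i
      rw [aeval_X, hx]
      rfl
    rw [h1]
    rfl
  have hxtop : IntermediateField.adjoin ℂ (Set.range x) = ⊤ := by
    rw [_root_.eq_top_iff]
    intro z _
    have h1 : ∀ b : B, algebraMap B L b ∈ IntermediateField.adjoin ℂ (Set.range x) := by
      intro b
      obtain ⟨G, rfl⟩ := hπ b
      rw [← hxπ]
      have h2 : (aeval x G : L) ∈ Algebra.adjoin ℂ (Set.range x) := by
        rw [Algebra.adjoin_range_eq_range_aeval]
        exact ⟨G, rfl⟩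
      exact IntermediateField.algebra_adjoin_le_adjoin ℂ _ h2
    obtain ⟨b, c, -, rfl⟩ := IsFractionRing.div_surjective (A := B) z
    exact div_mem (h1 b) (h1 c)
  obtain ⟨j0, hj0⟩ := Function.ne_iff.1 hy
  have hj0' : y j0 ≠ 0 := hj0
  -- the normalized point
  obtain ⟨u, hu⟩ : ∃ u : Fin (n + 1) → K', u = fun j => (y j0)⁻¹ * y j := ⟨_, rfl⟩
  have hu1 : u j0 = 1 := by
    rw [hu]
    exact inv_mul_cancel₀ hj0'
  obtain ⟨M0, hM0⟩ : ∃ M0 : IntermediateField ℂ K',
    M0 = IntermediateField.adjoin ℂ (Set.range u) := ⟨_, rfl⟩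
  have huM : ∀ j, u j ∈ M0 := fun j => by
    rw [hM0]
    exact IntermediateField.subset_adjoin ℂ _ ⟨j, rfl⟩
  have hco : coords ℂ y ≤ M0 := by
    unfold coords
    rw [IntermediateField.adjoin_le_iff]
    rintro _ ⟨i, j, hj, rfl⟩
    have h2 : y i / y j = u i / u j := by
      rw [hu]
      simp only
      rw [mul_div_mul_left _ _ (inv_ne_zero hj0')]
    rw [h2]
    exact div_mem (huM i) (huM j)
  have halgM : Algebra.IsAlgebraic M0 K' := by
    refine ⟨fun t => ?_⟩
    exact Pool.Agent.TH145.MF.alg_mono (F1 := (coords ℂ y).toSubfield)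
      (F2 := M0.toSubfield) (fun z hz => hco hz) (halg.isAlgebraic t)
  obtain ⟨u0, hu0⟩ : ∃ u0 : Fin (n + 1) → M0, ∀ j, (u0 j : K') = u j :=
    ⟨fun j => ⟨u j, huM j⟩, fun _ => rfl⟩
  have hu01 : u0 j0 = 1 := Subtype.ext (by rw [hu0, hu1]; rfl)
  have hcoM : coords ℂ u0 = ⊤ := by
    have h1 : IntermediateField.adjoin ℂ (Set.range u0) = ⊤ := by
      subst hM0
      apply IntermediateField.lift_injective
      rw [IntermediateField.lift_adjoin, IntermediateField.lift_top]
      congr 1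
      ext t
      constructor
      · rintro ⟨_, ⟨j, rfl⟩, rfl⟩
        exact ⟨j, (hu0 j).symm⟩
      · rintro ⟨j, rfl⟩
        exact ⟨u0 j, ⟨j, rfl⟩, hu0 j⟩
    rw [_root_.eq_top_iff, ← h1, IntermediateField.adjoin_le_iff]
    rintro _ ⟨j, rfl⟩
    refine IntermediateField.subset_adjoin ℂ _ ⟨j, j0, ?_, ?_⟩
    · rw [hu01]
      exact one_ne_zero
    · rw [hu01, div_one]
  obtain ⟨Θ2, Cc, hΘ2, halgs⟩ := alg_hgt (K' := K') hcoM (i0 := j0)
    (by rw [hu01]; exact one_ne_zero) (fun i : Fin N => algebraMap L K' (x i))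
  obtain ⟨G, hG, hspread⟩ := spread (K' := K') hxtop
    (Θ := algebraMap M0 K' '' (Θ2 ∪ Set.range u0)) ((hΘ2.union (Set.finite_range u0)).image _)
  have hG0 : π G ≠ 0 := by
    intro h0
    apply hG
    rw [hxπ, h0, map_zero]
  refine ⟨Ideal.span {π G}, fun h0 => hG0 (Ideal.span_singleton_eq_bot.1 h0), ?_⟩
  intro R _ _ _ _ a0
  by_cases hRf : IsField R
  · have h1 : Module.Finite ℂ R := by
      let := hRf.toField
      exact finite_of_finite_type_of_isJacobsonRing ℂ R
    infer_instance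
  have hFF := isFF_frac hRf
  obtain ⟨S, hS⟩ := exists_places (B := R)
  let ι : R →ₐ[ℂ] FractionRing R := IsScalarTower.toAlgHom ℂ R (FractionRing R)
  have hι : Function.Injective ι := IsFractionRing.injective R (FractionRing R)
  have hSι : ∀ P ∉ S, ∀ b : R, Ge P 0 (ι b) := hS
  obtain ⟨X0, hX0⟩ : ∃ X0 : ℤ, X0 = r * max (canDeg ℂ (FractionRing R) + S.card) 0 := ⟨_, rfl⟩
  have hX00 : 0 ≤ X0 := by
    rw [hX0]
    exact mul_nonneg (by positivity) (le_max_right _ _)
  have key : ∀ φ : B →ₐ[ℂ] R, ¬ Ideal.span {π G} ≤ RingHom.ker φ → ∀ i : Fin N,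
      ∀ P : Place ℂ (FractionRing R), Ge P (-(Cc * X0)) (ι (φ (π (X i)))) := by
    intro φ hφ i P
    have hφG : φ (π G) ≠ 0 := by
      intro h0
      apply hφ
      rw [Ideal.span_singleton_le_iff_mem, RingHom.mem_ker]
      exact h0
    obtain ⟨θ, hθ⟩ : ∃ θ : B →ₐ[ℂ] FractionRing R, θ = ι.comp φ := ⟨_, rfl⟩
    have hθι : ∀ b, θ b = ι (φ b) := fun b => by rw [hθ]; rfl
    obtain ⟨z, hz⟩ : ∃ z : Fin N → FractionRing R, z = fun i => θ (π (X i)) := ⟨_, rfl⟩
    have hzπ : ∀ G : MvPolynomial (Fin N) ℂ, aeval z G = θ (π G) := by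
      intro G
      have h1 : (aeval z : MvPolynomial (Fin N) ℂ →ₐ[ℂ] FractionRing R) = θ.comp π := by
        apply MvPolynomial.algHom_ext
        intro i
        rw [aeval_X, hz]
        rfl
      rw [h1]
      rfl
    obtain ⟨K'', i1', i2', i3', i4', i5', hrk, T, hTx, hTΘ⟩ := hspread (FractionRing R) z
      (fun G' hG' => by
        rw [hxπ] at hG'
        have h1 : π G' = 0 := hBL (by rw [hG', map_zero])
        rw [hzπ, h1, map_zero]) (by
        rw [hzπ, hθι]
        intro h0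
        exact hφG (hι (by rw [h0, map_zero])))
    have hTy : ∀ i, ∃ t, T.T (algebraMap M0 K' (u0 i)) t := fun i =>
      hTΘ _ ⟨u0 i, Or.inr ⟨i, rfl⟩, rfl⟩
    choose y' hy' using hTy
    have hff : IsFF ℂ K'' := isFF_of_finite (F := FractionRing R)
    have hyu : ∀ j, T.T (u j) (y' j) := fun j => by
      rw [← hu0]
      exact hy' j
    have hy1 : y' j0 = 1 := by
      refine T.ext (hyu j0) ?_
      rw [hu1]
      exact T.one
    have hyne : ∃ j, y' j ≠ 0 := ⟨j0, by rw [hy1]; exact one_ne_zero⟩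
    -- the specialization on the functions
    obtain ⟨θ2, hθ2⟩ : ∃ θ2 : B →ₐ[ℂ] K'',
      θ2 = (IsScalarTower.toAlgHom ℂ (FractionRing R) K'').comp θ := ⟨_, rfl⟩
    have hθ2a : ∀ b, θ2 b = algebraMap (FractionRing R) K'' (θ b) := fun b => by
      rw [hθ2]
      rfl
    have hTB : ∀ b : B, T.T (algebraMap B K' b) (θ2 b) := by
      intro b
      obtain ⟨G', rfl⟩ := hπ b
      have h1 := sp_aeval T hTx G'
      have h2 : aeval (fun i => algebraMap L K' (x i)) G' = algebraMap B K' (π G') := by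
        rw [IsScalarTower.algebraMap_apply B L K', ← hxπ]
        exact (comp_aeval_apply (φ := IsScalarTower.toAlgHom ℂ L K') x G').symm
      have h3 : aeval (fun i => algebraMap (FractionRing R) K'' (z i)) G' = θ2 (π G') := by
        rw [hθ2a, ← hzπ]
        exact (comp_aeval_apply (φ := IsScalarTower.toAlgHom ℂ (FractionRing R) K'') z G').symm
      rwa [h2, h3] at h1
    have hTP : ∀ P : MvPolynomial (Fin (n + 1)) B,
        T.T (eval₂ (algebraMap B K') u P) (eval₂ (θ2 : B →+* K'') y' P) := by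
      intro P
      induction P using MvPolynomial.induction_on with
      | C b =>
        rw [eval₂_C, eval₂_C]
        exact hTB b
      | add p q hp hq =>
        rw [eval₂_add, eval₂_add]
        exact T.add hp hq
      | mul_X p i hp =>
        rw [eval₂_mul, eval₂_mul, eval₂_X, eval₂_X]
        exact T.mul hp (hyu i)
    have hspec : ∀ P : MvPolynomial (Fin (n + 1)) B, (∃ e, P.IsHomogeneous e) →
        eval₂ (algebraMap B K') y P = 0 → eval₂ (θ2 : B →+* K'') y' P = 0 := by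
      rintro P ⟨e, he⟩ h0
      refine T.eq_zero (hTP P) ?_
      rw [hu, eval₂_scale _ he, h0, mul_zero]
    have hyX' : ∀ p, aeval y' (eqs V (fun c : {a // a ∈ C} => F c.1) p) = 0 := by
      have hsc : ∀ (p : MvPolynomial (Fin (n + 1)) ℂ) (e : ℕ), p.IsHomogeneous e →
          val y p = 0 → val y' p = 0 := by
        intro p e he h0
        refine T.eq_zero (T.val hyu p) ?_
        have h2 := val_smul he (y j0)⁻¹ y
        rw [h0, mul_zero] at h2
        rw [hu]
        exact h2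
      rintro (⟨f, hf⟩ | ⟨a, ha⟩)
      · obtain ⟨e, he⟩ := hVh f hf
        exact hsc _ e (he.map _) (hyX (Sum.inl ⟨f, hf⟩))
      · exact hsc _ (d a) (hF a) (hyX (Sum.inr ⟨a, ha⟩))
    have hfr : Module.finrank (FractionRing R) K'' ≤ r := hrk.trans hr
    have h0 := cover_log C hVh hV hd hF hgen (FractionRing R) K'' hfr y' hyne hyX' S
      (fun Q hQ b hb hb0 => centre_avoid Q θ2 (fun a => by
        have h1 := hSι _ hQ (φ a)
        rw [hθ2a, hθι]
        rcases h1 with h1 | h1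
        · left
          rw [h1, map_zero]
        · right
          rw [ord_under]
          exact mul_nonneg (Int.natCast_nonneg _) h1) hyne hspec (hF b) (hbd b hb) hb0)
    have hp0 : 0 ≤ pht ℂ y' := Pool.Agent.Y221.AH.pht_nonneg hyne
    have h1 : pht ℂ y' ≤ X0 := by
      have h2 : (1 : ℤ) ≤ (∑ a, d a + C.card + 2 : ℕ) - 2 * m - 2 * (r : ℕ) := by
        push_cast
        have : (2 * m + 2 * r : ℤ) ≤ ∑ a, (d a : ℤ) + C.card + 1 := by exact_mod_cast hd
        linarith
      have h3 : pht ℂ y' ≤ ((∑ a, d a + C.card + 2 : ℕ) - 2 * m - 2 * (r : ℕ)) * pht ℂ y' :=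
        le_mul_of_one_le_left hp0 h2
      have h4 : (Module.finrank (FractionRing R) K'' : ℤ) *
          max (canDeg ℂ (FractionRing R) + S.card) 0 ≤ X0 := by
        rw [hX0]
        exact mul_le_mul_of_nonneg_right (by exact_mod_cast hfr) (le_max_right _ _)
      exact (h3.trans h0).trans h4
    have h2 : hgt ℂ (algebraMap (FractionRing R) K'' (z i)) ≤ Cc * pht ℂ y' :=
      halgs K'' T (fun ϑ hϑ => hTΘ _ ⟨ϑ, Or.inl hϑ, rfl⟩) y' hy' _ hTx i
    obtain ⟨e, Q, hQ⟩ := exists_above (K' := K'') P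
    have h3 := neg_ord_le (k := ℂ) (algebraMap (FractionRing R) K'' (z i)) Q
    rw [hQ.2] at h3
    right
    have h4 : ι (φ (π (X i))) = z i := by rw [hz, ← hθι]
    rw [h4]
    have h5 : (1 : ℤ) ≤ e := by exact_mod_cast hQ.1
    have h6 : (Cc : ℤ) * pht ℂ y' ≤ Cc * X0 := mul_le_mul_of_nonneg_left h1 (Nat.cast_nonneg _)
    have h7 : (0 : ℤ) ≤ Cc * X0 := mul_nonneg (Nat.cast_nonneg _) hX00
    by_contra hcon
    push Not at hcon
    have h8 : P.ord (z i) < 0 := by linarith
    have h9 : (e : ℤ) * P.ord (z i) ≤ P.ord (z i) := by nlinarith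
    linarith
  -- all the functions
  obtain ⟨C', hC'⟩ : ∃ C' : ℤ, ∀ φ : B →ₐ[ℂ] R,
      ¬ Ideal.span {π G} ≤ RingHom.ker φ → ∀ P : Place ℂ (FractionRing R),
        Ge P (-C') (ι (φ a0)) := by
    obtain ⟨G', rfl⟩ := hπ a0
    induction G' using MvPolynomial.induction_on with
    | C c =>
      refine ⟨0, fun φ hφ P => ?_⟩
      rw [MvPolynomial.C_eq_algebraMap, AlgHom.commutes, AlgHom.commutes, AlgHom.commutes,
        neg_zero]
      exact Ge.const c
    | add x z ihx ihz =>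
      obtain ⟨C1, h1⟩ := ihx
      obtain ⟨C2, h2⟩ := ihz
      refine ⟨max C1 C2, fun φ hφ P => ?_⟩
      rw [map_add, map_add, map_add]
      exact ((h1 φ hφ P).mono (neg_le_neg (le_max_left _ _))).add
        ((h2 φ hφ P).mono (neg_le_neg (le_max_right _ _)))
    | mul_X x i ihx =>
      obtain ⟨C1, h1⟩ := ihx
      refine ⟨C1 + Cc * X0, fun φ hφ P => ?_⟩
      rw [map_mul, map_mul, map_mul]
      have h4 := (h1 φ hφ P).mul (key φ hφ i P)
      rwa [← neg_add] at h4
  refine bounded_span hS _ C' ?_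
  rintro b ⟨φ, hφ, rfl⟩ P
  exact hC' φ hφ P

end

end Pool.Agent.Q58.LG
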