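import Pool.Agent.Q58.LG.WdgP

/-!
Fibrations whose fibres correspond to products of varieties with many forms.
-/

set_option autoImplicit false
set_option linter.overlappingInstances false
set_option linter.unusedSectionVars false

open MvPolynomial FF Module Pool.Agent.W602.GT Pool.Agent.W603.LV Pool.Agent.Y172
open Pool.Agent.W603.PV Pool.Agent.Y184.NT Pool.Agent.W619.PQ

namespace Pool.Agent.Q58.LG

theorem coord_eq' {M : Type} [Field M] [Algebra ℂ M] {b j : ℕ}
    {η : (Fin b → Derivation ℂ M M) → M} (hη : IsPluri j η) {y : Fin b → M}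
    {EM : Fin b → Derivation ℂ M M} (hy : IsTranscendenceBasis ℂ y)
    (hEM : ∀ i j, EM i (y j) = if i = j then 1 else 0) (EP : Fin b → Derivation ℂ M M) :
    η EP = (Matrix.of fun l c => EP c (y l) : Matrix (Fin b) (Fin b) M).det ^ j * η EM := by
  rw [pluri_coord hy hEM hη EP, ← Matrix.det_transpose]
  rfl

section

variable {B K E : Type} [Field B] [Field K] [Field E] [Algebra ℂ B] [Algebra ℂ K] [Algebra ℂ E]
  [Algebra B K] [IsScalarTower ℂ B K] [Algebra K E] [IsScalarTower ℂ K E] [Algebra B E]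
  [IsScalarTower ℂ B E] [IsScalarTower B K E] [Algebra.EssFiniteType ℂ B] {β w : ℕ}

/-- the forms of the base near a prime divisor -/
theorem base_good (hB : Algebra.trdeg ℂ B = β) (hK : Algebra.trdeg ℂ K = w) {y : Fin β → B}
    {EB : Fin β → Derivation ℂ B B} (hy : IsTranscendenceBasis ℂ y)
    (hEB : ∀ i j, EB i (y j) = if i = j then 1 else 0) {P : Place ℂ K} (hP : Divisorial w P) :
    ∃ a : B, a ≠ 0 ∧ (∀ (Q : Place ℂ E) (e : ℕ), Over Q P e →
        RGood Q (fun l => algebraMap B E (y l)) (algebraMap B E a)) ∧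
      ∀ (j : ℕ) (σ : (Fin β → Derivation ℂ B B) → B), IsPluri j σ →
        (∀ P' : Place ℂ B, Divisorial β P' → RegAt P' σ) →
          P.Reg (algebraMap B K (σ EB * a⁻¹ ^ j)) := by
  classical
  by_cases htriv : ∃ f : B, P.ord (algebraMap B K f) ≠ 0
  · obtain ⟨e, P', hP'⟩ := exists_over (K := B) P htriv
    have hPd : Divisorial β P' := Pool.Agent.W619.Y.pDIVR.{0, 0} ℂ B K β w P' P e hB hK hP' hP
    obtain ⟨yP, EP, i0, hl⟩ := exists_loc hB hPd
    obtain ⟨Z, hZ⟩ : ∃ Z : Matrix (Fin β) (Fin β) B, Z = Matrix.of fun l c => EP c (y l) :=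
      ⟨_, rfl⟩
    have hZ0 : Z.det ≠ 0 := by
      have h1 : Z.det = (Matrix.of fun i j => EP i (y j) : Matrix (Fin β) (Fin β) B).det := by
        rw [hZ, ← Matrix.det_transpose]
        rfl
      rw [h1]
      refine minor_ne hy hEB ?_
      -- the dual frame is independent
      rw [Fintype.linearIndependent_iff]
      intro c hc j
      have h2 : (∑ i, c i • EP i) (yP j) = 0 := by
        rw [hc]
        rfl
      rw [sum_smul_apply] at h2
      rw [Finset.sum_eq_single j] at h2
      · simpa [hl.dual j j] using h2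
      · intro i _ hi
        rw [hl.dual, if_neg hi]
        simp
      · intro h
        exact absurd (Finset.mem_univ _) h
    refine ⟨Z.det⁻¹, inv_ne_zero hZ0, fun Q e' hQ => ?_, fun j σ hσ hreg => ?_⟩
    · refine ⟨Z.map (algebraMap B E), fun c => algebraMap B E (yP c), fun D l => ?_, fun c => ?_,
        ?_⟩
      · rw [hZ]
        exact Pool.Agent.W308.PG.YLOC.expand yP EP hl.bas hl.dual D (y l)
      · change Q.Reg (algebraMap B E (yP c))
        rcases hl.reg c with h0 | h0
        · left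
          rw [h0, map_zero]
        · right
          rw [IsScalarTower.algebraMap_apply B K E, hQ.2, hP'.2]
          exact mul_nonneg (Int.natCast_nonneg _) (mul_nonneg (Int.natCast_nonneg _) h0)
      · have h1 : (Z.map (algebraMap B E)).det = algebraMap B E Z.det := by
          rw [RingHom.map_det]
          rfl
        rw [h1, ← map_mul, inv_mul_cancel₀ hZ0, map_one]
        exact Or.inr Q.ord_one.ge
    · rw [inv_inv, mul_comm, hZ, ← coord_eq' hσ hy hEB EP]
      rcases hreg P' hPd EP hl.pres with h0 | h0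
      · left
        rw [h0, map_zero]
      · right
        rw [hP'.2]
        exact mul_nonneg (Int.natCast_nonneg _) h0
  · push Not at htriv
    refine ⟨1, one_ne_zero, fun Q e hQ => ?_, fun j σ _ _ => Or.inr (htriv _).ge⟩
    refine ⟨1, fun l => algebraMap B E (y l), fun D l => ?_, fun c => Or.inr ?_, ?_⟩
    · rw [Finset.sum_eq_single l]
      · rw [Matrix.one_apply_eq, one_mul]
      · intro c _ hc
        rw [Matrix.one_apply_ne (Ne.symm hc), zero_mul]
      · intro h
        exact absurd (Finset.mem_univ l) h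
    · change (0 : ℤ) ≤ Q.ord (algebraMap B E (y c))
      rw [IsScalarTower.algebraMap_apply B K E, hQ.2, htriv, mul_zero]
    · rw [Matrix.det_one, mul_one, map_one]
      exact Or.inr Q.ord_one.ge

end

section

variable {B K E : Type} [Field B] [Field K] [Field E] [Algebra ℂ B] [Algebra ℂ K] [Algebra ℂ E]
  [Algebra B K] [IsScalarTower ℂ B K] [Algebra K E] [IsScalarTower ℂ K E] [Algebra B E]
  [IsScalarTower ℂ B E] [IsScalarTower B K E] [Algebra.EssFiniteType ℂ B]
  [FiniteDimensional K E] [Algebra.EssFiniteType ℂ K] {β w : ℕ}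

/-- **Fibrations whose fibres correspond to products.** -/
theorem base_dom {s N h : ℕ} {b n : Fin s → ℕ} (hB : Algebra.trdeg ℂ B = β)
    (hK : Algebra.trdeg ℂ K = w) (hw : w = β + ∑ i, b i)
    (hkod : KodGe ℂ B β (fun _ => False) h)
    (M : Fin s → IntermediateField ℂ E) [∀ i, Algebra.EssFiniteType ℂ (M i)]
    (hM : ∀ i, Algebra.trdeg ℂ (M i) = b i)
    (halg : Algebra.IsAlgebraic
      ((IsScalarTower.toAlgHom ℂ B E).fieldRange ⊔ ⨆ i, M i : IntermediateField ℂ E) E)
    {x : ∀ i, Fin (n i + 1) → M i} {j0 : ∀ i, Fin (n i + 1)} (hx1 : ∀ i, x i (j0 i) = 1)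
    (hgenK : IntermediateField.adjoin K (⋃ i, Set.range fun j => ((x i j : M i) : E)) = ⊤)
    (hmany : ∀ i, Many (M i) (b i) N (x i) (fun _ => False)) (hr : finrank K E ≤ N + 1) :
    KodGe ℂ K w (fun _ => False) h := by
  classical
  have hcK : CharZero K := charZero_of_injective_algebraMap (algebraMap ℂ K).injective
  have hessE : Algebra.EssFiniteType ℂ E := Algebra.EssFiniteType.comp ℂ K E
  have hE : Algebra.trdeg ℂ E = w := Pool.Agent.Y172.trdeg_up (K := K) hK
  -- the Segre point
  obtain ⟨n', ⟨eJ⟩⟩ : ∃ n' : ℕ, Nonempty (Fin n' ≃ (∀ i, Fin (n i + 1))) :=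
    ⟨_, ⟨(Fintype.equivFin _).symm⟩⟩
  obtain ⟨X, hX⟩ : ∃ X : Fin n' → E, ∀ j, X j = ∏ i, ((x i (eJ j i) : M i) : E) :=
    ⟨_, fun _ => rfl⟩
  have hX1 : X (eJ.symm j0) = 1 := by
    rw [hX, Equiv.apply_symm_apply]
    refine Finset.prod_eq_one fun i _ => ?_
    rw [hx1]
    rfl
  have hXx : ∀ i j, X (eJ.symm (Function.update j0 i j)) = ((x i j : M i) : E) := by
    intro i j
    rw [hX, Equiv.apply_symm_apply, Finset.prod_eq_single i]
    · rw [Function.update_self]
    · intro i' _ hi
      rw [Function.update_of_ne hi, hx1]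
      rfl
    · intro h
      exact absurd (Finset.mem_univ i) h
  have hgenX : IntermediateField.adjoin K (Set.range X) = ⊤ := by
    rw [_root_.eq_top_iff, ← hgenK, IntermediateField.adjoin_le_iff]
    rintro _ ⟨_, ⟨i, rfl⟩, ⟨j, rfl⟩⟩
    exact IntermediateField.subset_adjoin K _ ⟨_, hXx i j⟩
  -- the coordinates
  choose Φ hΦ hΦ0 hΦr using hmany
  choose y EM hy hEM using fun i => Pool.Agent.Y172.exists_crd (k := ℂ) (K := M i) (hM i)
  obtain ⟨yB, EB, hyB, hEB⟩ := Pool.Agent.Y172.exists_crd (k := ℂ) (K := B) hB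
  obtain ⟨z, EK, hz, hEK⟩ := Pool.Agent.Y172.exists_crd (k := ℂ) (K := K) hK
  choose E' hE' using fun i => Pool.Agent.Y172.exists_lift (k := ℂ) (K := K) (L := E) hK (EK i)
  have hzE : IsTranscendenceBasis ℂ (fun j => algebraMap K E (z j)) := hz.algebraMap_comp
  have hEE := Pool.Agent.Y172.lift_dual hEK hE'
  have hΦE : ∀ i, Φ i (EM i) ≠ 0 := by
    intro i h0
    obtain ⟨D, hD⟩ := hΦ0 i
    apply hD
    rw [pluri_coord (hy i) (hEM i) (hΦ i) D, h0, mul_zero]
  -- the blocks
  let b' : Fin (s + 1) → ℕ := Fin.cons β b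
  let KB : IntermediateField ℂ E := (IsScalarTower.toAlgHom ℂ B E).fieldRange
  let M' : Fin (s + 1) → IntermediateField ℂ E := Fin.cons KB M
  have hcard : Fintype.card (Σ i, Fin (b' i)) = w := by
    rw [Fintype.card_sigma, hw, Fin.sum_univ_succ]
    simp [b']
  let e : Fin w ≃ (Σ i, Fin (b' i)) := (Fintype.equivFinOfCardEq hcard).symm
  let yE : ∀ i, Fin (b' i) → E :=
    Fin.cases (fun l => algebraMap B E (yB l)) fun i l => algebraMap (M i) E (y i l)
  obtain ⟨Y, hY⟩ : ∃ Y : Fin w → E, Y = fun c => yE (e c).1 (e c).2 := ⟨_, rfl⟩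
  have hYb : IsTranscendenceBasis ℂ Y := by
    let yM : ∀ i, Fin (b' i) → M' i :=
      Fin.cases (fun l => (⟨algebraMap B E (yB l), ⟨yB l, rfl⟩⟩ : KB)) fun i l => y i l
    have h1 := basis_of_blocks (M := M') e hE (by
      have h2 : (⨆ i, M' i : IntermediateField ℂ E) = KB ⊔ ⨆ i, M i := by
        apply le_antisymm
        · refine iSup_le fun i => ?_
          refine Fin.cases ?_ (fun i => ?_) i
          · exact le_sup_left
          · exact (le_iSup M i).trans le_sup_right
        · refine sup_le (le_iSup M' 0) (iSup_le fun i => le_iSup M' i.succ)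
      rw [h2]
      exact halg) (y := yM) (by
      intro i
      refine Fin.cases ?_ (fun i => ?_) i
      · change IsTranscendenceBasis ℂ (fun l => (⟨algebraMap B E (yB l), ⟨yB l, rfl⟩⟩ : KB))
        let eB : B ≃ₐ[ℂ] KB := AlgEquiv.ofInjectiveField (IsScalarTower.toAlgHom ℂ B E)
        exact (eB.isTranscendenceBasis_iff (R := ℂ)).2 hyB
      · exact hy i)
    have h2 : (fun c : Fin w => ((yM (e c).1 (e c).2 : M' (e c).1) : E)) = Y := by
      rw [hY]
      funext c
      obtain ⟨i, l⟩ := e c
      revert l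
      refine Fin.cases (fun l => rfl) (fun i l => rfl) i
    rwa [h2] at h1
  -- the forms on `E`
  obtain ⟨t, ht⟩ : ∃ t : (Fin N → Fin n') → Fin s → E, ∀ f i, t f i = algebraMap (M i) E
    ((fun D => (∏ k, x i (eJ (f k) i)) * Φ i D) (EM i)) := ⟨_, fun _ _ => rfl⟩
  have hpl : ∀ i (f : Fin N → Fin n'),
      IsPluri 1 (fun D => (∏ k, x i (eJ (f k) i)) * Φ i D) := by
    intro i f A D
    change (∏ k, x i (eJ (f k) i)) * Φ i (fun i => ∑ j, A i j • D j) = _
    rw [hΦ i A D]
    ring
  obtain ⟨hh, hhdef⟩ : ∃ hh : E, hh = trForm Y (∏ i, ((Φ i (EM i) : M i) : E)) E' := ⟨_, rfl⟩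
  have hkey : ∀ f, trForm Y (∏ i, t f i) E' = (∏ k, X (f k)) * hh := by
    intro f
    have h1 : (∏ i, t f i) = (∏ k, X (f k)) * ∏ i, ((Φ i (EM i) : M i) : E) := by
      simp only [ht, map_mul, map_prod]
      rw [Finset.prod_mul_distrib, Finset.prod_comm]
      congr 1
      exact Finset.prod_congr rfl fun k _ => (hX (f k)).symm
    rw [h1, hhdef]
    unfold trForm
    ring
  have hh0 : hh ≠ 0 := by
    rw [hhdef]
    unfold trForm
    refine mul_ne_zero ?_ (Finset.prod_ne_zero_iff.2 fun i _ =>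
      (_root_.map_ne_zero (algebraMap (M i) E)).2 (hΦE i))
    obtain ⟨D, hD⟩ := exists_dual hYb
    have hDd : ∀ i j, D i (Y j) = if i = j then 1 else 0 := by
      intro i j
      have := congrFun (congrFun hD i) j
      rw [Matrix.of_apply, Matrix.one_apply] at this
      exact this
    exact minor_ne hYb hDd (lift_ind hEK hE')
  obtain ⟨T, hT⟩ : ∃ T : (Fin N → Fin n') → K, ∀ f, T f =
    Algebra.trace K E ((∏ k, X (f k)) * hh) := ⟨_, fun _ => rfl⟩
  obtain ⟨g, hg⟩ : ∃ g, T g ≠ 0 := by
    by_contra hcon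
    push Not at hcon
    have h1 := (Pool.Agent.Y614.NT.stLine Pool.Agent.Y153.NT.stCB K E n' N X _ hX1 hgenX hh hh0
      (fun f => by rw [← hT, hcon]) (by omega)).1
    omega
  -- the sections
  obtain ⟨j, hj, σ, hσ, D0, hD0, hind⟩ := hkod
  have hσE : ∀ l, σ l D0 = (Matrix.of fun a c => D0 a (yB c) : Matrix (Fin β) (Fin β) B).det ^ j *
      σ l EB := fun l => pluri_coord hyB hEB (hσ l).1 D0
  have hreg : ∀ l (P : Place ℂ K), Divisorial w P →
      RegAt P (fun G => trForm z (T g) G ^ j * algebraMap B K (σ l EB)) := by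
    intro l P hP G hG
    obtain ⟨a, ha0, haQ, haσ⟩ := base_good (E := E) hB hK hyB hEB hP
    have h1 : RegAt P (trForm z (Algebra.trace K E
        (trForm Y (algebraMap B E a * ∏ i, t g i) E'))) := by
      refine tr_reg hK hz hEK hE' _ (trForm_pluri _ _) P hP fun Q e' hQ => ?_
      have hQd : Divisorial w Q := divisorial_up hQ hP
      have h2 := reg_wedge Q e (y := yE)
        (a := Fin.cases (algebraMap B E a) fun i => t g i) (by
          intro i
          refine Fin.cases ?_ (fun i => ?_) i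
          · exact haQ Q e' hQ
          · change RGood Q (fun l => algebraMap (M i) E (y i l)) (t g i)
            rw [ht]
            exact rgood_of (hM i) hE (hpl i g) (hy i) (hEM i) hQd fun P' e'' _ hP' =>
              (hΦr i (fun k => eJ (g k) i) P' hP').2 fun hF => hF)
      rw [Fin.prod_univ_succ] at h2
      simp only [Fin.cases_zero, Fin.cases_succ] at h2
      rw [hY]
      exact h2
    have h3 : Algebra.trace K E (trForm Y (algebraMap B E a * ∏ i, t g i) E') =
        algebraMap B K a * T g := by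
      have h4 : trForm Y (algebraMap B E a * ∏ i, t g i) E' =
          (algebraMap B K a) • trForm Y (∏ i, t g i) E' := by
        rw [Algebra.smul_def, ← IsScalarTower.algebraMap_apply]
        unfold trForm
        ring
      rw [h4, map_smul, smul_eq_mul, hkey, hT]
    rw [h3] at h1
    have h4 : trForm z (T g) G ^ j * algebraMap B K (σ l EB) =
        (trForm z (algebraMap B K a * T g) G) ^ j * algebraMap B K (σ l EB * a⁻¹ ^ j) := by
      have h5 : trForm z (algebraMap B K a * T g) G = algebraMap B K a * trForm z (T g) G := by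
        unfold trForm
        ring
      rw [h5, mul_pow, map_mul, map_pow, map_inv₀]
      have h6 : algebraMap B K a ≠ 0 := (_root_.map_ne_zero _).2 ha0
      have h7 : algebraMap B K a ^ j * (algebraMap B K a)⁻¹ ^ j = 1 := by
        rw [← mul_pow, mul_inv_cancel₀ h6, one_pow]
      linear_combination (-(trForm z (T g) G ^ j * algebraMap B K (σ l EB))) * h7
    change P.Reg (trForm z (T g) G ^ j * algebraMap B K (σ l EB))
    rw [h4]
    refine P.reg_mul ?_ (haσ j (σ l) (hσ l).1 fun P' hP' => (hσ l).2.2 P' hP' fun hF => hF)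
    rcases h1 G hG with h5 | h5
    · left
      rw [h5, zero_pow (by omega)]
    · right
      rw [P.ord_pow]
      exact mul_nonneg (Int.natCast_nonneg _) h5
  have hzK : ∀ u, trForm z u EK = u := by
    intro u
    have h1 : (Matrix.of fun i j => EK i (z j) : Matrix (Fin w) (Fin w) K) = 1 := by
      ext i j
      rw [Matrix.of_apply, hEK, Matrix.one_apply]
    rw [trForm, h1, Matrix.det_one, one_mul]
  have hd0 : (Matrix.of fun a c => D0 a (yB c) : Matrix (Fin β) (Fin β) B).det ^ j ≠ 0 := by
    intro h0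
    apply hD0
    rw [hσE, h0, zero_mul]
  have hσ0 : σ 0 EB ≠ 0 := by
    intro h0
    apply hD0
    rw [hσE, h0, mul_zero]
  refine ⟨j, hj, fun l G => trForm z (T g) G ^ j * algebraMap B K (σ l EB), fun l =>
    ⟨?_, fun P hP G hG => hreg l P hP G fun i => Pool.Agent.TH466.QG.derReg_of_log (hG i),
      fun P hP _ => hreg l P hP⟩, EK, ?_, ?_⟩
  · have h1 := pluri_pow (trForm_pluri z (T g)) j
    rw [one_mul] at h1
    intro A D
    have h2 : trForm z (T g) (fun i => ∑ j, A i j • D j) ^ j =
        A.det ^ j * trForm z (T g) D ^ j := h1 A D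
    change trForm z (T g) (fun i => ∑ j, A i j • D j) ^ j * algebraMap B K (σ l EB) =
      A.det ^ j * (trForm z (T g) D ^ j * algebraMap B K (σ l EB))
    rw [h2]
    ring
  · change trForm z (T g) EK ^ j * algebraMap B K (σ 0 EB) ≠ 0
    rw [hzK]
    exact mul_ne_zero (pow_ne_zero _ hg) ((_root_.map_ne_zero _).2 hσ0)
  · have h1 : (fun i : Fin h => σ i.succ D0 / σ 0 D0) = fun i : Fin h => σ i.succ EB / σ 0 EB := by
      funext i
      rw [hσE, hσE, mul_div_mul_left _ _ hd0]
    rw [h1] at hind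
    have h2 : (fun i : Fin h => trForm z (T g) EK ^ j * algebraMap B K (σ i.succ EB) /
        (trForm z (T g) EK ^ j * algebraMap B K (σ 0 EB))) =
        fun i : Fin h => (IsScalarTower.toAlgHom ℂ B K) (σ i.succ EB / σ 0 EB) := by
      funext i
      rw [hzK, mul_div_mul_left _ _ (pow_ne_zero _ hg)]
      change _ = algebraMap B K _
      rw [map_div₀]
    rw [h2]
    exact hind.map' (f := IsScalarTower.toAlgHom ℂ B K)
      (IsScalarTower.toAlgHom ℂ B K).toRingHom.injective

end

end Pool.Agent.Q58.LG
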