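import Pool.Agent.Q58.LG.Bse

/-!
Fibrations whose fibres correspond to products: the contribution of the fibres.
-/

set_option autoImplicit false
set_option linter.overlappingInstances false
set_option linter.unusedSectionVars false

open MvPolynomial FF Module Pool.Agent.W602.GT Pool.Agent.W603.LV Pool.Agent.Y172
open Pool.Agent.W603.PV Pool.Agent.Y184.NT Pool.Agent.W619.PQ
open Pool.Agent.Y954.NT (trace_der rel2)

namespace Pool.Agent.Q58.LG

/-- the derivations which kill the ratios of the traces kill the coordinates -/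
theorem gt_corr3 (hCB2 : StCB2) {L K : Type} [Field L] [Field K] [Algebra ℂ L] [Algebra ℂ K]
    [Algebra L K] [IsScalarTower ℂ L K] [FiniteDimensional L K] {N m : ℕ}
    {x : Fin N → K} {j0 : Fin N} (hj0 : x j0 = 1)
    (hgenL : IntermediateField.adjoin L (Set.range x) = ⊤)
    (hfin : 2 * Module.finrank L K ≤ m + 1)
    {h : K} (hh : h ≠ 0) {T : (Fin m → Fin N) → L}
    (hT : ∀ f, T f = Algebra.trace L K ((∏ k, x (f k)) * h)) {D : Derivation ℂ L L}
    (hTD : ∀ f g, T f * D (T g) = T g * D (T f)) {D' : Derivation ℂ K K}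
    (hD' : ∀ y, D' (algebraMap L K y) = algebraMap L K (D y)) (j : Fin N) : D' (x j) = 0 := by
  classical
  have hchar : CharZero L := charZero_of_injective_algebraMap (algebraMap ℂ L).injective
  let Ω := AlgebraicClosure L
  have hcard : Fintype.card (K →ₐ[L] Ω) = finrank L K := AlgHom.card L K Ω
  by_contra hDj
  -- a nonzero trace
  obtain ⟨g, hg⟩ : ∃ g, T g ≠ 0 := by
    by_contra hcon
    push Not at hcon
    have h1 := (Pool.Agent.Y614.NT.stLine Pool.Agent.Y153.NT.stCB L K N m x j0 hj0 hgenL h hh
      (fun f => by rw [← hT, hcon]) (by omega)).1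
    omega
  obtain ⟨lam, hlam⟩ : ∃ lam : L, ∀ f, D (T f) = lam * T f := by
    refine ⟨D (T g) / T g, fun f => ?_⟩
    have h1 := hTD f g
    rw [div_mul_eq_mul_div, eq_div_iff hg]
    linear_combination -h1
  -- the tangent vector is not zero
  have hx : ∃ j, D' (x j) ≠ 0 := ⟨j, hDj⟩
  have hx0 : D' (x j0) = 0 := by
    rw [hj0]
    exact D'.map_one_eq_zero
  -- the relation
  have htr : ∀ f : Fin m → Fin N, Algebra.trace L K ((D' h - algebraMap L K lam * h) *
      ∏ k, x (f k) + h * ∑ j, D' (x (f j)) * ∏ k ∈ Finset.univ.erase j, x (f k)) = 0 := by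
    intro f
    have hprod : ∀ s : Finset (Fin m), D' (∏ k ∈ s, x (f k)) =
        ∑ j ∈ s, D' (x (f j)) * ∏ k ∈ s.erase j, x (f k) := by
      intro s
      induction s using Finset.induction_on with
      | empty => simp [D'.map_one_eq_zero]
      | insert i s hi ih =>
        rw [Finset.prod_insert hi, D'.leibniz, ih, Finset.sum_insert hi, Finset.erase_insert hi,
          smul_eq_mul, smul_eq_mul, Finset.mul_sum, add_comm, mul_comm (∏ k ∈ s, x (f k))]
        congr 1
        refine Finset.sum_congr rfl fun j hj => ?_
        have hji : i ≠ j := fun e => hi (e ▸ hj)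
        rw [Finset.erase_insert_of_ne hji, Finset.prod_insert
          (fun e => hi (Finset.mem_of_mem_erase e))]
        ring
    have h1 : D' ((∏ k, x (f k)) * h) = D' h * ∏ k, x (f k) +
        h * ∑ j, D' (x (f j)) * ∏ k ∈ Finset.univ.erase j, x (f k) := by
      rw [D'.leibniz, hprod, smul_eq_mul, smul_eq_mul]
      ring
    have h2 := trace_der hD' ((∏ k, x (f k)) * h)
    rw [← hT, hlam, h1] at h2
    have h3 : (D' h - algebraMap L K lam * h) * ∏ k, x (f k) +
        h * ∑ j, D' (x (f j)) * ∏ k ∈ Finset.univ.erase j, x (f k) =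
        (D' h * ∏ k, x (f k) + h * ∑ j, D' (x (f j)) * ∏ k ∈ Finset.univ.erase j, x (f k)) -
        lam • ((∏ k, x (f k)) * h) := by
      rw [Algebra.smul_def]
      ring
    rw [h3, map_sub, map_smul, h2, ← hT, smul_eq_mul, sub_self]
  obtain ⟨hm2, -⟩ := hCB2 Ω N (K →ₐ[L] Ω) m Finset.univ (fun σ j => σ (x j))
    (fun σ j => σ (D' (x j))) (fun σ => σ (D' h - algebraMap L K lam * h)) (fun σ => σ h)
    (by
      rw [← Finset.card_pos, Finset.card_univ, hcard]
      exact finrank_pos)
    (fun σ _ => by
      rw [_root_.map_ne_zero]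
      exact hh)
    (fun σ _ => by
      rw [LinearIndependent.pair_iff]
      intro s t hst
      have h1 := congrFun hst j0
      simp only [Pi.add_apply, Pi.smul_apply, smul_eq_mul, hj0, map_one, mul_one,
        Pi.zero_apply, D'.map_one_eq_zero, map_zero, mul_zero, add_zero] at h1
      obtain ⟨j, hj⟩ := hx
      have h2 := congrFun hst j
      simp only [Pi.add_apply, Pi.smul_apply, smul_eq_mul, Pi.zero_apply, h1, zero_mul,
        zero_add] at h2
      exact ⟨h1, (mul_eq_zero.1 h2).resolve_right fun e => hj ((_root_.map_eq_zero σ).1 e)⟩)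
    (fun σ _ σ' _ hne => by
      rw [LinearIndependent.pair_iff]
      intro s t hst
      have h1 := congrFun hst j0
      simp only [Pi.add_apply, Pi.smul_apply, smul_eq_mul, hj0, map_one, mul_one,
        Pi.zero_apply] at h1
      have h2 : t = -s := by linear_combination h1
      subst h2
      by_cases hs : s = 0
      · simp [hs]
      · exfalso
        apply hne
        apply Pool.Agent.Y614.NT.emb_ext x hgenL
        intro j
        have h3 := congrFun hst j
        simp only [Pi.add_apply, Pi.smul_apply, smul_eq_mul, Pi.zero_apply] at h3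
        have h4 : s * (σ (x j) - σ' (x j)) = 0 := by linear_combination h3
        rcases mul_eq_zero.1 h4 with h5 | h5
        · exact absurd h5 hs
        · exact sub_eq_zero.1 h5)
    (fun l => rel2 x (fun j => D' (x j)) h _ htr l)
    (by rw [Finset.card_univ, hcard]; omega)
  rw [Finset.card_univ, hcard] at hm2
  omega

section

variable {K E : Type} [Field K] [Field E] [Algebra ℂ K] [Algebra ℂ E] [Algebra K E]
  [IsScalarTower ℂ K E] [FiniteDimensional K E]

/-- derivations of finite extensions are determined by the subfield -/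
theorem der_ext {D₁ D₂ : Derivation ℂ E E}
    (h : ∀ y : K, D₁ (algebraMap K E y) = D₂ (algebraMap K E y)) : D₁ = D₂ := by
  have hker : ∀ z ∈ (IsScalarTower.toAlgHom ℂ K E).fieldRange, (D₁ - D₂) z = 0 := by
    rintro _ ⟨y, rfl⟩
    change D₁ (algebraMap K E y) - D₂ (algebraMap K E y) = 0
    rw [h, sub_self]
  ext z
  have h1 : IsAlgebraic (IsScalarTower.toAlgHom ℂ K E).fieldRange z := by
    obtain ⟨p, hp, hp0⟩ := (Algebra.IsAlgebraic.isAlgebraic (R := K) z)
    let g : K →+* (IsScalarTower.toAlgHom ℂ K E).fieldRange :=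
      (IsScalarTower.toAlgHom ℂ K E).rangeRestrict.toRingHom
    refine ⟨p.map g, (Polynomial.map_ne_zero_iff g.injective).2 hp, ?_⟩
    rw [Polynomial.aeval_def, Polynomial.eval₂_map]
    exact hp0
  have h2 := Pool.Agent.Y172.kills_alg (D := D₁ - D₂)
    (M := (IsScalarTower.toAlgHom ℂ K E).fieldRange) hker h1
  exact sub_eq_zero.1 h2

end

section

variable {B K E : Type} [Field B] [Field K] [Field E] [Algebra ℂ B] [Algebra ℂ K] [Algebra ℂ E]
  [Algebra B K] [IsScalarTower ℂ B K] [Algebra K E] [IsScalarTower ℂ K E]
  [FiniteDimensional K E] {β w c : ℕ}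

/-- ratios which are algebraically independent over the base -/
theorem ratios_rel (hB : Algebra.trdeg ℂ B = β) (hK : Algebra.trdeg ℂ K = w)
    {Y : Fin w → E} (hY : IsTranscendenceBasis ℂ Y) (W : Finset (Fin w))
    (hc : β + c + W.card ≤ w) {ι : Type} (T : ι → K) {f0 : ι}
    (hf0 : T f0 ≠ 0)
    (hT : ∀ (D : Derivation ℂ K K) (D' : Derivation ℂ E E),
      (∀ y, D' (algebraMap K E y) = algebraMap K E (D y)) →
      (∀ f : B, D (algebraMap B K f) = 0) → (∀ f g, T f * D (T g) = T g * D (T f)) →
      ∀ j, j ∉ W → D' (Y j) = 0) :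
    ∃ s : Fin c → ι, AlgebraicIndependent B fun i => T (s i) / T f0 := by
  classical
  obtain ⟨F, hF⟩ : ∃ F : IntermediateField B K,
    F = IntermediateField.adjoin B (Set.range fun g => T g / T f0) := ⟨_, rfl⟩
  have hmem : ∀ g, T g / T f0 ∈ F := fun g => by
    rw [hF]
    exact IntermediateField.subset_adjoin _ _ ⟨g, rfl⟩
  have hst : IsScalarTower ℂ F K := IsScalarTower.of_algebraMap_eq fun c => rfl
  have hadd := _root_.trdeg_add_eq ℂ F (A := K)
  rw [hK] at hadd
  obtain ⟨v, hv⟩ : ∃ v : ℕ, Algebra.trdeg F K = v := by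
    refine Cardinal.lt_aleph0.1 (lt_of_le_of_lt (b := (w : Cardinal)) ?_ Cardinal.natCast_lt_aleph0)
    rw [← hadd]
    exact self_le_add_left _ _
  obtain ⟨u, hu⟩ : ∃ u : ℕ, Algebra.trdeg ℂ F = u := by
    refine Cardinal.lt_aleph0.1 (lt_of_le_of_lt (b := (w : Cardinal)) ?_ Cardinal.natCast_lt_aleph0)
    rw [← hadd]
    exact self_le_add_right _ _
  have huv : u + v = w := by
    rw [hu, hv] at hadd
    exact_mod_cast hadd
  have hchar : CharZero F := charZero_of_injective_algebraMap (algebraMap ℂ F).injective
  obtain ⟨y, Dv, hy, hDv⟩ := Pool.Agent.Y172.exists_crd (k := F) (K := K) hv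
  have hlift : ∀ a, ∃ D' : Derivation ℂ E E, ∀ f, D' (algebraMap K E f) =
      algebraMap K E (((Dv a).restrictScalars ℂ) f) := fun a =>
    Pool.Agent.Y172.exists_lift (k := ℂ) (K := K) (L := E) hK ((Dv a).restrictScalars ℂ)
  choose D' hD' using hlift
  have hkill : ∀ a, ∀ j, j ∉ W → D' a (Y j) = 0 := by
    intro a
    refine hT ((Dv a).restrictScalars ℂ) (D' a) (hD' a) (fun f => ?_) fun f g => ?_
    · have h1 : algebraMap B K f = algebraMap F K (algebraMap B F f) := rfl
      change Dv a (algebraMap B K f) = 0
      rw [h1, Derivation.map_algebraMap]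
    · change T f * Dv a (T g) = T g * Dv a (T f)
      have h1 : ∀ g, Dv a (T g) = (T g / T f0) * Dv a (T f0) := by
        intro g
        have h2 : T g = (⟨T g / T f0, hmem g⟩ : F) • T f0 := by
          change T g = T g / T f0 * T f0
          rw [div_mul_cancel₀ _ hf0]
        conv_lhs => rw [h2, Derivation.map_smul]
        rfl
      rw [h1 g, h1 f]
      ring
  -- the dimension of the space of these derivations
  have hvW : v ≤ W.card := by
    have hli : LinearIndependent E fun a : Fin v => fun j : W => D' a (Y j) := by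
      rw [Fintype.linearIndependent_iff]
      intro g hg a
      have h1 : (∑ a, g a • D' a : Derivation ℂ E E) = 0 := by
        have h2 : ∀ z ∈ IntermediateField.adjoin ℂ (Set.range Y),
            (∑ a, g a • D' a : Derivation ℂ E E) z = 0 := by
          intro z hz
          let C0 : IntermediateField ℂ E :=
            { carrier := {f | (∑ a, g a • D' a : Derivation ℂ E E) f = 0}
              mul_mem' := fun {f g'} hf hg' => by
                change (∑ a, g a • D' a : Derivation ℂ E E) (f * g') = 0
                rw [Derivation.leibniz, show (∑ a, g a • D' a : Derivation ℂ E E) f = 0 from hf,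
                  show (∑ a, g a • D' a : Derivation ℂ E E) g' = 0 from hg']
                simp
              add_mem' := fun {f g'} hf hg' => by
                change (∑ a, g a • D' a : Derivation ℂ E E) (f + g') = 0
                rw [map_add, show (∑ a, g a • D' a : Derivation ℂ E E) f = 0 from hf,
                  show (∑ a, g a • D' a : Derivation ℂ E E) g' = 0 from hg', add_zero]
              algebraMap_mem' := fun c => Derivation.map_algebraMap _ c
              inv_mem' := fun f hf => by
                change (∑ a, g a • D' a : Derivation ℂ E E) f⁻¹ = 0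
                rw [Derivation.leibniz_inv, show (∑ a, g a • D' a : Derivation ℂ E E) f = 0 from hf,
                  smul_zero] }
          have h7 : IntermediateField.adjoin ℂ (Set.range Y) ≤ C0 := by
            rw [IntermediateField.adjoin_le_iff]
            rintro _ ⟨j, rfl⟩
            change (∑ a, g a • D' a : Derivation ℂ E E) (Y j) = 0
            rw [sum_smul_apply]
            by_cases hj : j ∈ W
            · have h3 := congrFun hg ⟨j, hj⟩
              rw [Finset.sum_apply] at h3
              simpa using h3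
            · exact Finset.sum_eq_zero fun a _ => by rw [hkill a j hj, mul_zero]
          exact h7 hz
        ext z
        refine Pool.Agent.Y172.kills_alg (M := IntermediateField.adjoin ℂ (Set.range Y)) h2 ?_
        exact IntermediateField.isAlgebraic_adjoin_iff.2 (hY.isAlgebraic.isAlgebraic z)
      have h3 : (∑ a, g a • D' a : Derivation ℂ E E) (algebraMap K E (y a)) = 0 := by
        rw [h1]
        rfl
      rw [sum_smul_apply, Finset.sum_eq_single a] at h3
      · rw [hD'] at h3
        change g a * algebraMap K E (Dv a (y a)) = 0 at h3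
        rw [hDv, if_pos rfl, map_one, mul_one] at h3
        exact h3
      · intro i _ hi
        rw [hD']
        change g i * algebraMap K E (Dv i (y a)) = 0
        rw [hDv, if_neg hi, map_zero, mul_zero]
      · intro h
        exact absurd (Finset.mem_univ _) h
    have h1 := hli.fintype_card_le_finrank
    simpa using h1
  have hadd2 := _root_.trdeg_add_eq ℂ B (A := F)
  rw [hB, hu] at hadd2
  have hcF : (c : Cardinal) ≤ Algebra.trdeg B F := by
    obtain ⟨v2, hv2⟩ : ∃ v2 : ℕ, Algebra.trdeg B F = v2 := by
      refine Cardinal.lt_aleph0.1 (lt_of_le_of_lt (b := (u : Cardinal)) ?_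
        Cardinal.natCast_lt_aleph0)
      rw [← hadd2]
      exact self_le_add_left _ _
    rw [hv2] at hadd2 ⊢
    have h1 : β + v2 = u := by exact_mod_cast hadd2
    exact_mod_cast (by omega : c ≤ v2)
  -- a transcendence basis of ratios
  obtain ⟨r, hr⟩ : ∃ r : ι → F, ∀ g, ((r g : F) : K) = T g / T f0 :=
    ⟨fun g => ⟨_, hmem g⟩, fun _ => rfl⟩
  have hadj : IntermediateField.adjoin B (Set.range r) = ⊤ := by
    rw [_root_.eq_top_iff]
    rintro z -
    have h1 : (z : K) ∈ IntermediateField.adjoin B (Set.range fun g => T g / T f0) := by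
      rw [← hF]
      exact z.2
    have h2 : (Set.range fun g => T g / T f0) = F.val '' (Set.range r) := by
      rw [← Set.range_comp]
      congr 1
      funext g
      exact (hr g).symm
    rw [h2, ← IntermediateField.adjoin_map] at h1
    obtain ⟨z', hz', hzz⟩ := h1
    have h3 : z' = z := Subtype.ext hzz
    exact h3 ▸ hz'
  have halg : Algebra.IsAlgebraic (Algebra.adjoin B (Set.range r)) F := by
    refine ⟨fun z => IntermediateField.isAlgebraic_adjoin_iff.1 ?_⟩
    have hz : z ∈ IntermediateField.adjoin B (Set.range r) := by rw [hadj]; trivial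
    exact isAlgebraic_algebraMap (⟨z, hz⟩ : IntermediateField.adjoin B (Set.range r))
  obtain ⟨t, ht, hb⟩ := exists_isTranscendenceBasis_subset (R := B) (Set.range r)
  have hcard := hb.cardinalMk_eq_trdeg
  rw [← hcard] at hcF
  have h3 : Cardinal.mk (Fin c) ≤ Cardinal.mk t := by simpa using hcF
  obtain ⟨e⟩ := Cardinal.le_def _ _ |>.1 h3
  choose s hs using fun i : Fin c => ht (e i).2
  refine ⟨s, ?_⟩
  have h4 := (hb.1.comp e e.injective).map' (f := F.val) F.val.toRingHom.injective
  have h5 : (fun i => T (s i) / T f0) = F.val ∘ ((Subtype.val : t → F) ∘ e) := by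
    funext i
    change _ = (((e i : t) : F) : K)
    rw [← hs i, hr]
  rw [h5]
  exact h4

end

end Pool.Agent.Q58.LG
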