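import Pool.Agent.Q58.LG.BseS

/-!
Subadditivity for fibrations whose fibres correspond to products.
-/

set_option autoImplicit false
set_option linter.overlappingInstances false
set_option linter.unusedSectionVars false

open MvPolynomial FF Module Pool.Agent.W602.GT Pool.Agent.W603.LV Pool.Agent.Y172
open Pool.Agent.W603.PV Pool.Agent.Y184.NT Pool.Agent.W619.PQ

namespace Pool.Agent.Q58.LG

/-- There is a nonzero canonical form whose products with the monomials of degree `N₁` in the `y j`
and of degree `N₂` in the `z j` are regular. -/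
def Many2 (M : Type) [Field M] [Algebra ℂ M] (b N₁ N₂ : ℕ) {n : ℕ} (y z : Fin n → M) : Prop :=
  ∃ Φ : (Fin b → Derivation ℂ M M) → M, IsPluri 1 Φ ∧ (∃ D, Φ D ≠ 0) ∧
    ∀ (f : Fin N₁ → Fin n) (g : Fin N₂ → Fin n) (P : Place ℂ M), Divisorial b P →
      RegAt P (fun D => (∏ k, y (f k)) * (∏ k, z (g k)) * Φ D)

section

variable {B K E : Type} [Field B] [Field K] [Field E] [Algebra ℂ B] [Algebra ℂ K] [Algebra ℂ E]
  [Algebra B K] [IsScalarTower ℂ B K] [Algebra K E] [IsScalarTower ℂ K E] [Algebra B E]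
  [IsScalarTower ℂ B E] [IsScalarTower B K E] [Algebra.EssFiniteType ℂ B]
  [FiniteDimensional K E] [Algebra.EssFiniteType ℂ K] {β w : ℕ}

theorem base_strong {s N₁ N₂ h : ℕ} {b n : Fin s → ℕ} (hB : Algebra.trdeg ℂ B = β)
    (hK : Algebra.trdeg ℂ K = w) (hw : w = β + ∑ i, b i)
    (hkod : KodGe ℂ B β (fun _ => False) h)
    (M : Fin s → IntermediateField ℂ E) [∀ i, Algebra.EssFiniteType ℂ (M i)]
    (hM : ∀ i, Algebra.trdeg ℂ (M i) = b i)
    (halg : Algebra.IsAlgebraic
      ((IsScalarTower.toAlgHom ℂ B E).fieldRange ⊔ ⨆ i, M i : IntermediateField ℂ E) E)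
    {p q : ∀ i, Fin (n i + 1) → M i} {j0 : ∀ i, Fin (n i + 1)} (hp1 : ∀ i, p i (j0 i) = 1)
    (hq1 : ∀ i, q i (j0 i) = 1)
    (hgenK : IntermediateField.adjoin K (⋃ i, ((Set.range fun j => ((p i j : M i) : E)) ∪
      Set.range fun j => ((q i j : M i) : E))) = ⊤)
    (hmany : ∀ i, Many2 (M i) (b i) N₁ N₂ (p i) (q i)) (S : Finset (Fin s))
    (halgS : ∀ i ∈ S, Algebra.IsAlgebraic (IntermediateField.adjoin ℂ (Set.range (p i))) (M i))
    (hr1 : 2 * finrank K E ≤ N₁ + 1) (hr2 : finrank K E ≤ N₂ + 1) :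
    KodGe ℂ K w (fun _ => False) (h + ∑ i ∈ S, b i) := by
  classical
  have hcK : CharZero K := charZero_of_injective_algebraMap (algebraMap ℂ K).injective
  have hessE : Algebra.EssFiniteType ℂ E := Algebra.EssFiniteType.comp ℂ K E
  have hE : Algebra.trdeg ℂ E = w := Pool.Agent.Y172.trdeg_up (K := K) hK
  -- the Segre points
  obtain ⟨n', ⟨eJ⟩⟩ : ∃ n' : ℕ, Nonempty (Fin n' ≃ (∀ i, Fin (n i + 1))) :=
    ⟨_, ⟨(Fintype.equivFin _).symm⟩⟩
  obtain ⟨X, hX⟩ : ∃ X : Fin n' → E, ∀ j, X j = ∏ i, ((p i (eJ j i) : M i) : E) :=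
    ⟨_, fun _ => rfl⟩
  obtain ⟨Z, hZ⟩ : ∃ Z : Fin n' → E, ∀ j, Z j = ∏ i, ((q i (eJ j i) : M i) : E) :=
    ⟨_, fun _ => rfl⟩
  have hX1 : X (eJ.symm j0) = 1 := by
    rw [hX, Equiv.apply_symm_apply]
    refine Finset.prod_eq_one fun i _ => ?_
    rw [hp1]
    rfl
  have hZ1 : Z (eJ.symm j0) = 1 := by
    rw [hZ, Equiv.apply_symm_apply]
    refine Finset.prod_eq_one fun i _ => ?_
    rw [hq1]
    rfl
  have hXx : ∀ i j, X (eJ.symm (Function.update j0 i j)) = ((p i j : M i) : E) := by
    intro i j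
    rw [hX, Equiv.apply_symm_apply, Finset.prod_eq_single i]
    · rw [Function.update_self]
    · intro i' _ hi
      rw [Function.update_of_ne hi, hp1]
      rfl
    · intro h
      exact absurd (Finset.mem_univ i) h
  have hZz : ∀ i j, Z (eJ.symm (Function.update j0 i j)) = ((q i j : M i) : E) := by
    intro i j
    rw [hZ, Equiv.apply_symm_apply, Finset.prod_eq_single i]
    · rw [Function.update_self]
    · intro i' _ hi
      rw [Function.update_of_ne hi, hq1]
      rfl
    · intro h
      exact absurd (Finset.mem_univ i) h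
  -- the intermediate field
  obtain ⟨F, hF⟩ : ∃ F : IntermediateField K E, F = IntermediateField.adjoin K (Set.range X) :=
    ⟨_, rfl⟩
  have hXF : ∀ j, X j ∈ F := fun j => by
    rw [hF]
    exact IntermediateField.subset_adjoin K _ ⟨j, rfl⟩
  have hstF : IsScalarTower ℂ F E := IsScalarTower.of_algebraMap_eq fun c => rfl
  have hstK : IsScalarTower ℂ K F := IsScalarTower.of_algebraMap_eq fun c => Subtype.ext (by
    change algebraMap ℂ E c = algebraMap K E (algebraMap ℂ K c)
    exact IsScalarTower.algebraMap_apply ℂ K E c)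
  obtain ⟨X', hX'⟩ : ∃ X' : Fin n' → F, ∀ j, ((X' j : F) : E) = X j :=
    ⟨fun j => ⟨X j, hXF j⟩, fun _ => rfl⟩
  have hX'1 : X' (eJ.symm j0) = 1 := Subtype.ext (by rw [hX', hX1]; rfl)
  have hgenF : IntermediateField.adjoin K (Set.range X') = ⊤ := by
    rw [_root_.eq_top_iff]
    rintro z -
    have h1 : (z : E) ∈ IntermediateField.adjoin K (Set.range X) := by
      rw [← hF]
      exact z.2
    have h2 : Set.range X = F.val '' (Set.range X') := by
      rw [← Set.range_comp]
      congr 1
      funext g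
      exact (hX' g).symm
    rw [h2, ← IntermediateField.adjoin_map] at h1
    obtain ⟨z', hz', hzz⟩ := h1
    have h3 : z' = z := Subtype.ext hzz
    exact h3 ▸ hz'
  have hgenE : IntermediateField.adjoin F (Set.range Z) = ⊤ := by
    rw [_root_.eq_top_iff]
    have h1 : (⊤ : IntermediateField K E) ≤
        (IntermediateField.adjoin F (Set.range Z)).restrictScalars K := by
      rw [← hgenK, IntermediateField.adjoin_le_iff]
      rintro z hz
      obtain ⟨i, hz⟩ := Set.mem_iUnion.1 hz
      rcases hz with ⟨j, rfl⟩ | ⟨j, rfl⟩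
      · change ((p i j : M i) : E) ∈ IntermediateField.adjoin F (Set.range Z)
        rw [← hXx]
        exact (IntermediateField.adjoin F (Set.range Z)).algebraMap_mem ⟨_, hXF _⟩
      · change ((q i j : M i) : E) ∈ IntermediateField.adjoin F (Set.range Z)
        rw [← hZz]
        exact IntermediateField.subset_adjoin F _ ⟨_, rfl⟩
    exact fun z _ => h1 trivial
  have hFfin : FiniteDimensional F E := inferInstance
  have hfinF : finrank K F * finrank F E = finrank K E := Module.finrank_mul_finrank K F E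
  have hFpos : 0 < finrank K F := Module.finrank_pos
  have hEpos : 0 < finrank F E := Module.finrank_pos
  have hle1 : finrank K F ≤ finrank K E := by
    rw [← hfinF]
    exact Nat.le_mul_of_pos_right _ hEpos
  have hle2 : finrank F E ≤ finrank K E := by
    rw [← hfinF]
    exact Nat.le_mul_of_pos_left _ hFpos
  -- the coordinates
  choose Φ hΦ hΦ0 hΦr using hmany
  choose y EM hy hEM using fun i => Pool.Agent.Y172.exists_crd (k := ℂ) (K := M i) (hM i)
  obtain ⟨yB, EB, hyB, hEB⟩ := Pool.Agent.Y172.exists_crd (k := ℂ) (K := B) hB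
  obtain ⟨z, EK, hz, hEK⟩ := Pool.Agent.Y172.exists_crd (k := ℂ) (K := K) hK
  choose E' hE' using fun i => Pool.Agent.Y172.exists_lift (k := ℂ) (K := K) (L := E) hK (EK i)
  have hEE := Pool.Agent.Y172.lift_dual hEK hE'
  have hΦE : ∀ i, Φ i (EM i) ≠ 0 := by
    intro i h0
    obtain ⟨D, hD⟩ := hΦ0 i
    apply hD
    rw [pluri_coord (hy i) (hEM i) (hΦ i) D, h0, mul_zero]
  -- the blocks
  let b' : Fin (s + 1) → ℕ := Fin.cons β b
  let KB : IntermediateField ℂ E := (IsScalarTower.toAlgHom ℂ B E).fieldRange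
  let M' : Fin (s + 1) → IntermediateField ℂ E := Fin.cons KB M
  have hcard : Fintype.card (Σ i, Fin (b' i)) = w := by
    rw [Fintype.card_sigma, hw, Fin.sum_univ_succ]
    simp [b']
  let e : Fin w ≃ (Σ i, Fin (b' i)) := (Fintype.equivFinOfCardEq hcard).symm
  let yE : ∀ i, Fin (b' i) → E :=
    Fin.cases (fun l => algebraMap B E (yB l)) fun i l => algebraMap (M i) E (y i l)
  obtain ⟨Y, hY⟩ : ∃ Y : Fin w → E, Y = fun c => yE (e c).1 (e c).2 := ⟨_, rfl⟩
  have hYb : IsTranscendenceBasis ℂ Y := by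
    let yM : ∀ i, Fin (b' i) → M' i :=
      Fin.cases (fun l => (⟨algebraMap B E (yB l), ⟨yB l, rfl⟩⟩ : KB)) fun i l => y i l
    have h1 := basis_of_blocks (M := M') e hE (by
      have h2 : (⨆ i, M' i : IntermediateField ℂ E) = KB ⊔ ⨆ i, M i := by
        apply le_antisymm
        · refine iSup_le fun i => ?_
          refine Fin.cases ?_ (fun i => ?_) i
          · exact le_sup_left
          · exact (le_iSup M i).trans le_sup_right
        · refine sup_le (le_iSup M' 0) (iSup_le fun i => le_iSup M' i.succ)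
      rw [h2]
      exact halg) (y := yM) (by
      intro i
      refine Fin.cases ?_ (fun i => ?_) i
      · change IsTranscendenceBasis ℂ (fun l => (⟨algebraMap B E (yB l), ⟨yB l, rfl⟩⟩ : KB))
        let eB : B ≃ₐ[ℂ] KB := AlgEquiv.ofInjectiveField (IsScalarTower.toAlgHom ℂ B E)
        exact (eB.isTranscendenceBasis_iff (R := ℂ)).2 hyB
      · exact hy i)
    have h2 : (fun c : Fin w => ((yM (e c).1 (e c).2 : M' (e c).1) : E)) = Y := by
      rw [hY]
      funext c
      obtain ⟨i, l⟩ := e c
      revert l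
      refine Fin.cases (fun l => rfl) (fun i l => rfl) i
    rwa [h2] at h1
  -- the forms on `E`
  obtain ⟨t, ht⟩ : ∃ t : (Fin N₁ → Fin n') → (Fin N₂ → Fin n') → Fin s → E, ∀ f g i,
    t f g i = algebraMap (M i) E
      ((fun D => (∏ k, p i (eJ (f k) i)) * (∏ k, q i (eJ (g k) i)) * Φ i D) (EM i)) :=
    ⟨_, fun _ _ _ => rfl⟩
  have hpl : ∀ i (f : Fin N₁ → Fin n') (g : Fin N₂ → Fin n'),
      IsPluri 1 (fun D => (∏ k, p i (eJ (f k) i)) * (∏ k, q i (eJ (g k) i)) * Φ i D) := by
    intro i f g A D
    change (∏ k, p i (eJ (f k) i)) * (∏ k, q i (eJ (g k) i)) *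
      Φ i (fun i => ∑ j, A i j • D j) = _
    rw [hΦ i A D]
    ring
  obtain ⟨hh, hhdef⟩ : ∃ hh : E, hh = trForm Y (∏ i, ((Φ i (EM i) : M i) : E)) E' := ⟨_, rfl⟩
  have hkey : ∀ f g, trForm Y (∏ i, t f g i) E' =
      (∏ k, X (f k)) * ((∏ k, Z (g k)) * hh) := by
    intro f g
    have h1 : (∏ i, t f g i) =
        (∏ k, X (f k)) * (∏ k, Z (g k)) * ∏ i, ((Φ i (EM i) : M i) : E) := by
      simp only [ht, map_mul, map_prod]
      rw [Finset.prod_mul_distrib, Finset.prod_mul_distrib]
      congr 2
      · rw [Finset.prod_comm]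
        exact Finset.prod_congr rfl fun k _ => (hX (f k)).symm
      · rw [Finset.prod_comm]
        exact Finset.prod_congr rfl fun k _ => (hZ (g k)).symm
    rw [h1, hhdef]
    unfold trForm
    ring
  have hh0 : hh ≠ 0 := by
    rw [hhdef]
    unfold trForm
    refine mul_ne_zero ?_ (Finset.prod_ne_zero_iff.2 fun i _ =>
      (_root_.map_ne_zero (algebraMap (M i) E)).2 (hΦE i))
    obtain ⟨D, hD⟩ := exists_dual hYb
    have hDd : ∀ i j, D i (Y j) = if i = j then 1 else 0 := by
      intro i j
      have := congrFun (congrFun hD i) j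
      rw [Matrix.of_apply, Matrix.one_apply] at this
      exact this
    exact minor_ne hYb hDd (lift_ind hEK hE')
  -- the monomial in the `Z j`
  obtain ⟨g, hg⟩ : ∃ g : Fin N₂ → Fin n', Algebra.trace F E ((∏ k, Z (g k)) * hh) ≠ 0 := by
    by_contra hcon
    push Not at hcon
    have h1 := (Pool.Agent.Y614.NT.stLine Pool.Agent.Y153.NT.stCB F E n' N₂ Z _ hZ1 hgenE hh hh0
      hcon (by omega)).1
    omega
  obtain ⟨hS, hhS⟩ : ∃ hS : F, hS = Algebra.trace F E ((∏ k, Z (g k)) * hh) := ⟨_, rfl⟩
  rw [← hhS] at hg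
  obtain ⟨T, hT⟩ : ∃ T : (Fin N₁ → Fin n') → K, ∀ f, T f =
    Algebra.trace K E ((∏ k, X (f k)) * ((∏ k, Z (g k)) * hh)) := ⟨_, fun _ => rfl⟩
  have hT' : ∀ f, T f = Algebra.trace K F ((∏ k, X' (f k)) * hS) := by
    intro f
    rw [hT, ← Algebra.trace_trace (S := F)]
    congr 1
    have h1 : (∏ k, X (f k)) * ((∏ k, Z (g k)) * hh) =
        (∏ k, X' (f k)) • ((∏ k, Z (g k)) * hh) := by
      rw [Algebra.smul_def, map_prod]
      congr 1
      exact Finset.prod_congr rfl fun k _ => (hX' (f k)).symm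
    rw [h1, map_smul, smul_eq_mul, hhS]
  obtain ⟨f0, hf0⟩ : ∃ f0, T f0 ≠ 0 := by
    by_contra hcon
    push Not at hcon
    have h1 := (Pool.Agent.Y614.NT.stLine Pool.Agent.Y153.NT.stCB K F n' N₁ X' _ hX'1 hgenF hS hg
      (fun f => by rw [← hT', hcon]) (by omega)).1
    omega
  -- the ratios
  obtain ⟨W, hW⟩ : ∃ W : Finset (Fin w), W = (((Sᶜ).map (Fin.succEmb s)).sigma
    fun i => (Finset.univ : Finset (Fin (b' i)))).map e.symm.toEmbedding := ⟨_, rfl⟩
  have hWc : W.card = ∑ i ∈ Sᶜ, b i := by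
    rw [hW, Finset.card_map, Finset.card_sigma, Finset.sum_map]
    refine Finset.sum_congr rfl fun i _ => ?_
    change (Finset.univ : Finset (Fin (b' i.succ))).card = b i
    rw [Finset.card_univ, Fintype.card_fin]
    rfl
  have hWm : ∀ c : Fin w, c ∉ W → (e c).1 = 0 ∨ ∃ i ∈ S, (e c).1 = Fin.succ i := by
    intro c hc
    by_contra hcon
    push Not at hcon
    apply hc
    rw [hW, Finset.mem_map]
    refine ⟨e c, ?_, e.symm_apply_apply c⟩
    rw [Finset.mem_sigma]
    refine ⟨?_, Finset.mem_univ _⟩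
    obtain ⟨i, hi⟩ := Fin.exists_succ_eq_of_ne_zero hcon.1
    rw [Finset.mem_map]
    exact ⟨i, Finset.mem_compl.2 fun hiS => hcon.2 i hiS hi.symm, hi⟩
  obtain ⟨u, hu⟩ := ratios_rel (c := ∑ i ∈ S, b i) hB hK hYb W (by
    rw [hWc, hw, add_assoc, Finset.sum_add_sum_compl]) T hf0 (by
    intro D D' hD' hDB hTD c hc
    -- the extension to `F`
    obtain ⟨D₁, hD₁⟩ := Pool.Agent.Y172.exists_lift (k := ℂ) (K := K) (L := F) hK D
    have hF1 : Algebra.trdeg ℂ F = w := Pool.Agent.Y172.trdeg_up (K := K) hK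
    have hessF : Algebra.EssFiniteType ℂ F := Algebra.EssFiniteType.comp ℂ K F
    obtain ⟨D₂, hD₂⟩ := Pool.Agent.Y172.exists_lift (k := ℂ) (K := F) (L := E) hF1 D₁
    have h12 : D' = D₂ := der_ext (K := K) fun v => by
      rw [hD']
      have h1 : algebraMap K E v = algebraMap F E (algebraMap K F v) := rfl
      rw [h1, hD₂, hD₁]
      rfl
    have hkX : ∀ j, D' (X j) = 0 := by
      intro j
      have h1 := gt_corr3 Pool.Agent.Y141.NT.stCB2 hX'1 hgenF (by omega) hg hT' hTD hD₁ j
      have h2 : X j = algebraMap F E (X' j) := (hX' j).symm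
      rw [h12, h2, hD₂, h1, map_zero]
    rw [hY]
    have hmem := hWm c hc
    change D' (yE (e c).1 (e c).2) = 0
    generalize e c = ec at hmem ⊢
    obtain ⟨i', l⟩ := ec
    rcases hmem with h0 | ⟨i, hi, h0⟩
    · change i' = 0 at h0
      subst h0
      change D' (algebraMap B E (yB l)) = 0
      rw [IsScalarTower.algebraMap_apply B K E, hD', hDB, map_zero]
    · change i' = Fin.succ i at h0
      subst h0
      change D' ((y i l : M i) : E) = 0
      -- the derivation of `M i` in `E`
      have h1 : IsAlgebraic (IntermediateField.adjoin ℂ (Set.range (p i))) (y i l) :=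
        (halgS i hi).isAlgebraic _
      obtain ⟨G, hG⟩ : ∃ G : IntermediateField ℂ E,
        G = (IntermediateField.adjoin ℂ (Set.range (p i))).map (M i).val := ⟨_, rfl⟩
      have h2 : IsAlgebraic G ((y i l : M i) : E) := by
        obtain ⟨P, hP, hP0⟩ := h1
        let g : IntermediateField.adjoin ℂ (Set.range (p i)) →+* G :=
          { toFun := fun u => ⟨((u : M i) : E), by
              rw [hG]
              exact ⟨u, u.2, rfl⟩⟩
            map_one' := rfl
            map_zero' := rfl
            map_mul' := fun _ _ => rfl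
            map_add' := fun _ _ => rfl }
        refine ⟨P.map g, (Polynomial.map_ne_zero_iff g.injective).2 hP, ?_⟩
        rw [Polynomial.aeval_def, Polynomial.eval₂_map]
        have h5 := congrArg (algebraMap (M i) E) hP0
        rw [map_zero, Polynomial.aeval_def, Polynomial.hom_eval₂] at h5
        exact h5
      refine Pool.Agent.Y172.kills_alg (M := G) ?_ h2
      intro v hv
      let C0 : IntermediateField ℂ E :=
        { carrier := {f | D' f = 0}
          mul_mem' := fun {f g} hf hg => by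
            change D' (f * g) = 0
            rw [D'.leibniz, show D' f = 0 from hf, show D' g = 0 from hg]
            simp
          add_mem' := fun {f g} hf hg => by
            change D' (f + g) = 0
            rw [map_add, show D' f = 0 from hf, show D' g = 0 from hg, add_zero]
          algebraMap_mem' := fun c => D'.map_algebraMap c
          inv_mem' := fun f hf => by
            change D' f⁻¹ = 0
            rw [Derivation.leibniz_inv, show D' f = 0 from hf, smul_zero] }
      have h7 : G ≤ C0 := by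
        rw [hG, IntermediateField.adjoin_map, IntermediateField.adjoin_le_iff]
        rintro _ ⟨_, ⟨j, rfl⟩, rfl⟩
        change D' ((p i j : M i) : E) = 0
        rw [← hXx]
        exact hkX _
      exact h7 hv)
  -- the sections
  obtain ⟨j, hj, σ, hσ, D0, hD0, hind⟩ := hkod
  have hσE : ∀ l, σ l D0 = (Matrix.of fun a c => D0 a (yB c) : Matrix (Fin β) (Fin β) B).det ^ j *
      σ l EB := fun l => pluri_coord hyB hEB (hσ l).1 D0
  have hreg : ∀ (v : Fin j → (Fin N₁ → Fin n')) l (P : Place ℂ K), Divisorial w P →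
      RegAt P (fun G => (∏ k, trForm z (T (v k)) G) * algebraMap B K (σ l EB)) := by
    intro v l P hP G hG
    obtain ⟨a, ha0, haQ, haσ⟩ := base_good (E := E) hB hK hyB hEB hP
    have h1 : ∀ f, RegAt P (trForm z (algebraMap B K a * T f)) := by
      intro f
      have h1 : RegAt P (trForm z (Algebra.trace K E
          (trForm Y (algebraMap B E a * ∏ i, t f g i) E'))) := by
        refine tr_reg hK hz hEK hE' _ (trForm_pluri _ _) P hP fun Q e' hQ => ?_
        have hQd : Divisorial w Q := divisorial_up hQ hP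
        have h2 := reg_wedge Q e (y := yE)
          (a := Fin.cases (algebraMap B E a) fun i => t f g i) (by
            intro i
            refine Fin.cases ?_ (fun i => ?_) i
            · exact haQ Q e' hQ
            · change RGood Q (fun l => algebraMap (M i) E (y i l)) (t f g i)
              rw [ht]
              exact rgood_of (hM i) hE (hpl i f g) (hy i) (hEM i) hQd fun P' e'' _ hP' =>
                hΦr i (fun k => eJ (f k) i) (fun k => eJ (g k) i) P' hP')
        rw [Fin.prod_univ_succ] at h2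
        simp only [Fin.cases_zero, Fin.cases_succ] at h2
        rw [hY]
        exact h2
      have h3 : Algebra.trace K E (trForm Y (algebraMap B E a * ∏ i, t f g i) E') =
          algebraMap B K a * T f := by
        have h4 : trForm Y (algebraMap B E a * ∏ i, t f g i) E' =
            (algebraMap B K a) • trForm Y (∏ i, t f g i) E' := by
          rw [Algebra.smul_def, ← IsScalarTower.algebraMap_apply]
          unfold trForm
          ring
        rw [h4, map_smul, smul_eq_mul, hkey, hT]
      rw [h3] at h1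
      exact h1
    have h6 : algebraMap B K a ≠ 0 := (_root_.map_ne_zero _).2 ha0
    have h4 : (∏ k, trForm z (T (v k)) G) * algebraMap B K (σ l EB) =
        (∏ k, trForm z (algebraMap B K a * T (v k)) G) * algebraMap B K (σ l EB * a⁻¹ ^ j) := by
      have h5 : ∀ k, trForm z (algebraMap B K a * T (v k)) G =
          algebraMap B K a * trForm z (T (v k)) G := by
        intro k
        unfold trForm
        ring
      simp only [h5]
      rw [Finset.prod_mul_distrib, Finset.prod_const, Finset.card_univ, Fintype.card_fin, map_mul,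
        map_pow, map_inv₀]
      have h7 : algebraMap B K a ^ j * (algebraMap B K a)⁻¹ ^ j = 1 := by
        rw [← mul_pow, mul_inv_cancel₀ h6, one_pow]
      linear_combination (-((∏ k, trForm z (T (v k)) G) * algebraMap B K (σ l EB))) * h7
    change P.Reg ((∏ k, trForm z (T (v k)) G) * algebraMap B K (σ l EB))
    rw [h4]
    refine P.reg_mul (prod_reg P _ fun k _ => h1 (v k) G hG)
      (haσ j (σ l) (hσ l).1 fun P' hP' => (hσ l).2.2 P' hP' fun hF => hF)
  have hzK : ∀ u, trForm z u EK = u := by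
    intro u
    have h1 : (Matrix.of fun i j => EK i (z j) : Matrix (Fin w) (Fin w) K) = 1 := by
      ext i j
      rw [Matrix.of_apply, hEK, Matrix.one_apply]
    rw [trForm, h1, Matrix.det_one, one_mul]
  have hd0 : (Matrix.of fun a c => D0 a (yB c) : Matrix (Fin β) (Fin β) B).det ^ j ≠ 0 := by
    intro h0
    apply hD0
    rw [hσE, h0, zero_mul]
  have hσ0 : σ 0 EB ≠ 0 := by
    intro h0
    apply hD0
    rw [hσE, h0, mul_zero]
  -- the indices
  obtain ⟨v0, hv0⟩ : ∃ v0 : Fin j → (Fin N₁ → Fin n'), v0 = fun _ => f0 := ⟨_, rfl⟩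
  let V : Fin h ⊕ Fin (∑ i ∈ S, b i) → (Fin j → (Fin N₁ → Fin n')) × Fin (h + 1) :=
    Sum.elim (fun l => (v0, l.succ)) fun c => (Function.update v0 ⟨0, hj⟩ (u c), 0)
  let V' : Fin (h + ∑ i ∈ S, b i + 1) → (Fin j → (Fin N₁ → Fin n')) × Fin (h + 1) :=
    Fin.cons (v0, 0) fun i => V (finSumFinEquiv.symm i)
  refine ⟨j, hj, fun i G => (∏ k, trForm z (T ((V' i).1 k)) G) * algebraMap B K (σ (V' i).2 EB),
    fun l => ⟨?_, fun P hP G hG => hreg _ _ P hP G fun i =>
      Pool.Agent.TH466.QG.derReg_of_log (hG i), fun P hP _ => hreg _ _ P hP⟩, EK, ?_, ?_⟩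
  · intro A D
    change (∏ k, trForm z (T ((V' l).1 k)) (fun i => ∑ j, A i j • D j)) *
      algebraMap B K (σ (V' l).2 EB) = A.det ^ j * ((∏ k, trForm z (T ((V' l).1 k)) D) *
        algebraMap B K (σ (V' l).2 EB))
    have h1 : ∀ k, trForm z (T ((V' l).1 k)) (fun i => ∑ j, A i j • D j) =
        A.det * trForm z (T ((V' l).1 k)) D := by
      intro k
      have h2 := trForm_pluri z (T ((V' l).1 k)) A D
      rwa [pow_one] at h2
    simp only [h1]
    rw [Finset.prod_mul_distrib, Finset.prod_const, Finset.card_univ, Fintype.card_fin]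
    ring
  · change (∏ k, trForm z (T (v0 k)) EK) * algebraMap B K (σ 0 EB) ≠ 0
    refine mul_ne_zero (Finset.prod_ne_zero_iff.2 fun k _ => ?_) ((_root_.map_ne_zero _).2 hσ0)
    rw [hzK, hv0]
    exact hf0
  · have h1 : (fun i : Fin h => σ i.succ D0 / σ 0 D0) = fun i : Fin h => σ i.succ EB / σ 0 EB := by
      funext i
      rw [hσE, hσE, mul_div_mul_left _ _ hd0]
    rw [h1] at hind
    have h2 := hind.sumElim_comp hu
    have h3 := h2.comp (Sum.swap ∘ finSumFinEquiv.symm)
      ((Equiv.sumComm _ _).injective.comp finSumFinEquiv.symm.injective)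
    have hprod0 : (∏ k, trForm z (T (v0 k)) EK) ≠ 0 := by
      refine Finset.prod_ne_zero_iff.2 fun k _ => ?_
      rw [hzK, hv0]
      exact hf0
    have hb0 : algebraMap B K (σ 0 EB) ≠ 0 := (_root_.map_ne_zero _).2 hσ0
    have h4 : (fun i : Fin (h + ∑ i ∈ S, b i) =>
        (∏ k, trForm z (T ((V' i.succ).1 k)) EK) * algebraMap B K (σ (V' i.succ).2 EB) /
          ((∏ k, trForm z (T ((V' 0).1 k)) EK) * algebraMap B K (σ (V' 0).2 EB))) =
        (Sum.elim (fun i => T (u i) / T f0) (algebraMap B K ∘ fun i : Fin h =>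
          σ i.succ EB / σ 0 EB)) ∘ (Sum.swap ∘ finSumFinEquiv.symm) := by
      funext i
      have h5 : V' i.succ = V (finSumFinEquiv.symm i) := rfl
      have h6 : V' 0 = (v0, 0) := rfl
      rw [h5, h6]
      simp only [Function.comp_apply]
      rcases finSumFinEquiv.symm i with l | c
      · change (∏ k, trForm z (T (v0 k)) EK) * algebraMap B K (σ l.succ EB) /
          ((∏ k, trForm z (T (v0 k)) EK) * algebraMap B K (σ 0 EB)) =
          algebraMap B K (σ l.succ EB / σ 0 EB)
        rw [map_div₀, mul_div_mul_left _ _ hprod0]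
      · change (∏ k, trForm z (T (Function.update v0 ⟨0, hj⟩ (u c) k)) EK) *
          algebraMap B K (σ 0 EB) /
          ((∏ k, trForm z (T (v0 k)) EK) * algebraMap B K (σ 0 EB)) = T (u c) / T f0
        rw [mul_div_mul_right _ _ hb0]
        have h7 : ∀ v : Fin j → (Fin N₁ → Fin n'), (∏ k, trForm z (T (v k)) EK) =
            T (v ⟨0, hj⟩) * ∏ k ∈ Finset.univ.erase ⟨0, hj⟩, T (v k) := by
          intro v
          simp only [hzK]
          exact (Finset.mul_prod_erase Finset.univ (fun k => T (v k)) (Finset.mem_univ _)).symm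
        rw [h7, h7, Function.update_self]
        have h8 : (∏ k ∈ Finset.univ.erase (⟨0, hj⟩ : Fin j),
            T (Function.update v0 ⟨0, hj⟩ (u c) k)) =
            ∏ k ∈ Finset.univ.erase (⟨0, hj⟩ : Fin j), T (v0 k) := by
          refine Finset.prod_congr rfl fun k hk => ?_
          rw [Function.update_of_ne (Finset.ne_of_mem_erase hk)]
        rw [h8, mul_div_mul_right]
        · rw [hv0]
        · refine Finset.prod_ne_zero_iff.2 fun k _ => ?_
          rw [hv0]
          exact hf0
    rw [h4]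
    exact h3

end

end Pool.Agent.Q58.LG
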