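import Pool.Agent.Q58.LG.Curve
import Pool.Agent.Q58.FI.Main
import Pool.Agent.TH145.GC.Main
import Pool.Agent.Y735.LE.CountF
import Pool.Agent.Y735.LE.AsgF
import Pool.Agent.Y221.AH.Top

/-!
The notions of hyperbolicity for the images of varieties over generic complete intersections.
-/

set_option autoImplicit false
set_option linter.overlappingInstances false
set_option linter.unusedSectionVars false

open MvPolynomial FF Pool.Agent.W602.GT Pool.Agent.W603.LV Pool.Agent.W603.PV Pool.Agent.Y221.FQ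
open Pool.Agent.TH145.MG (DimLE)
open Pool.Agent.TH145.GC (Cf finite_cf)
open Pool.Agent.Q58.FI (eqs ratio_fam)
open Pool.Agent.W603.CX (AlgHyperbolic BoundedOnCurves)

namespace Pool.Agent.Q58.LG

section

variable {k K : Type} [Field k] [Field K] [IsAlgClosed K] [CharZero K] [Algebra k K]
  {n m l M r : ℕ}
  {V : Set (MvPolynomial (Fin (n + 1)) (algebraicClosure k K))}
  {A : Type} [Fintype A] {d : A → ℕ} {F : A → MvPolynomial (Fin (n + 1)) K}
  {κ μ : Type} {Ψ : κ → MvPolynomial (Fin (l + 1)) K} {Φ : μ → MvPolynomial (Fin (M + 1)) K}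
  {B : Fin (n + 1) → MvPolynomial (Fin (l + 1)) K}
  {G : Fin (M + 1) → MvPolynomial (Fin (l + 1)) K}

/-- Degrees of curves on the images of varieties over generic complete intersections. -/
theorem curve_cpt (hVh : ∀ f ∈ V, ∃ e, f.IsHomogeneous e)
    (hV : DimLE (algebraicClosure k K) V m)
    (hd : 2 * m + 2 * r ≤ ∑ a, (d a + 1) + 1) (hF : ∀ a, (F a).IsHomogeneous (d a))
    (hgen : AlgebraicIndependent k fun p : Cf n d => (F p.1).coeff p.2.1)
    (hΨ : ∀ e, IsForm (Ψ e)) (hB : Mor Ψ (eqs V F) B)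
    (hG : Mor Ψ Φ G) (hon : Onto Ψ Φ G) (hfib : FibresLe Ψ G r)
    {eB eG : ℕ} (hBe : ∀ j, (B j).IsHomogeneous eB) (hGe : ∀ j, (G j).IsHomogeneous eG)
    (L0 : Type) [Field L0] [Algebra K L0] [IsFF K L0] (z : Fin (M + 1) → L0) (hz : ∃ j, z j ≠ 0)
    (hzΦ : ∀ e, val z (Φ e) = 0) :
    eB * ((∑ a, (d a + 1) + 2 : ℕ) - 2 * m - 2 * r) * pht K z ≤ eG * max (canDeg K L0) 0 := by
  classical
  have hsum : ∑ a, (d a + 1) = ∑ a, d a + (Finset.univ : Finset A).card := by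
    rw [Finset.sum_add_distrib, Finset.card_eq_sum_ones]
  have h2 : 0 ≤ (eG : ℤ) * max (canDeg K L0) 0 :=
    mul_nonneg (Int.natCast_nonneg _) (le_max_right _ _)
  rcases (Pool.Agent.Y221.AH.pht_nonneg (k := K) hz).eq_or_lt with h0 | h0
  · rw [← h0, mul_zero]
    exact h2
  · have hB' : Mor Ψ (eqs V fun c : {a // a ∈ (Finset.univ : Finset A)} => F c.1) B := by
      refine ⟨hB.form, fun x hx => ⟨(hB.maps x hx).1, ?_⟩⟩
      rintro (f | c)
      · exact (hB.maps x hx).2 (Sum.inl f)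
      · exact (hB.maps x hx).2 (Sum.inr c.1)
    have hv1 : val z (1 : MvPolynomial (Fin (M + 1)) K) = 1 := map_one _
    have h3 := curve_im (Finset.univ : Finset A) hVh hV (by omega) hF hgen hΨ hB' hG hon hfib
      (H := 1) (h := 0) (MvPolynomial.isHomogeneous_one _ _)
      (fun b hb => absurd (Finset.mem_univ b) hb)
      (fun x _ _ b hb => absurd (Finset.mem_univ b) hb) hBe hGe hz hzΦ (by
        rw [hv1]
        exact one_ne_zero) h0 ∅ (fun P _ => by
        rw [hv1, Place.ord_one, Nat.cast_zero, zero_mul])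
    rw [Finset.card_empty, Nat.cast_zero, add_zero] at h3
    rw [hsum]
    exact h3.trans (mul_le_mul_of_nonneg_left (le_max_left _ _) (Int.natCast_nonneg _))

end

/-- A line gives a curve. -/
theorem gm_of_line {k : Type} [Field k] [CharZero k] {n : ℕ} {A : Type}
    {F : A → MvPolynomial (Fin (n + 1)) k} {W : Submodule k (Fin (n + 1) → k)}
    (hW : Module.finrank k W = 2) (h : ∀ a, ∀ v ∈ W, eval v (F a) = 0) :
    ∃ P, GmCurve F P := by
  classical
  have hfin : Module.Finite k W := Module.finite_of_finrank_pos (by omega)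
  obtain ⟨b, hb⟩ : ∃ b : Module.Basis (Fin 2) k W, b = (Module.finBasis k W).reindex (finCongr hW) :=
    ⟨_, rfl⟩
  have hli : LinearIndependent k fun i => (b i : Fin (n + 1) → k) :=
    b.linearIndependent.map' W.subtype (Submodule.ker_subtype W)
  have hli2 : LinearIndependent k ![(b 0 : Fin (n + 1) → k), (b 1 : Fin (n + 1) → k)] := by
    convert hli using 1
    funext i
    fin_cases i <;> rfl
  rw [LinearIndependent.pair_iff] at hli2
  refine ⟨fun i => Polynomial.C ((b 0 : Fin (n + 1) → k) i) +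
    Polynomial.C ((b 1 : Fin (n + 1) → k) i) * Polynomial.X, ?_⟩
  have hev : ∀ t : k, (fun i => (Polynomial.C ((b 0 : Fin (n + 1) → k) i) +
      Polynomial.C ((b 1 : Fin (n + 1) → k) i) * Polynomial.X).eval t) =
      (1 : k) • (b 0 : Fin (n + 1) → k) + t • (b 1 : Fin (n + 1) → k) := by
    intro t
    funext i
    simp only [Polynomial.eval_add, Polynomial.eval_C, Polynomial.eval_mul, Polynomial.eval_X,
      Pi.add_apply, Pi.smul_apply, smul_eq_mul]
    ring
  refine ⟨fun t _ h0 => ?_, fun t _ a => ?_, 1, 2, one_ne_zero, two_ne_zero, ?_⟩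
  · rw [hev] at h0
    exact one_ne_zero (hli2 1 t h0).1
  · rw [hev]
    exact h a _ (W.add_mem (W.smul_mem _ (b 0).2) (W.smul_mem _ (b 1).2))
  · rw [hev, hev, LinearIndependent.pair_iff]
    intro s t hst
    have h1 : (s + t) • (b 0 : Fin (n + 1) → k) + (s + 2 * t) • (b 1 : Fin (n + 1) → k) = 0 := by
      rw [← hst]
      module
    obtain ⟨h2, h3⟩ := hli2 _ _ h1
    have h4 : t = 0 := by linear_combination h3 - h2
    refine ⟨?_, h4⟩
    rw [h4, add_zero] at h2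
    exact h2

/-- Generic complete intersections of small degree contain lines. -/
theorem exists_line {k K : Type} [Field k] [Field K] [IsAlgClosed K] [CharZero K] [Algebra k K]
    {n : ℕ} (hn : 1 ≤ n) {A : Type} [Fintype A] {d : A → ℕ} (hd0 : ∀ a, 0 < d a)
    {F : A → MvPolynomial (Fin (n + 1)) K} (hF : ∀ a, (F a).IsHomogeneous (d a))
    (hgen : AlgebraicIndependent k fun p : Cf n d => (F p.1).coeff p.2.1)
    (hC : ∑ a, (d a + 1) ≤ 2 * (n - 1)) :
    ∃ W : Submodule K (Fin (n + 1) → K), Module.finrank K W = 2 ∧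
      ∀ a, ∀ v ∈ W, eval v (F a) = 0 := by
  classical
  obtain ⟨I0, hI0⟩ : ∃ I0 : A → Fin (n + 1) →₀ ℕ, ∀ a, (I0 a).degree = d a :=
    ⟨fun a => Finsupp.single 0 (d a), fun a => Finsupp.degree_single _ _⟩
  have h0 : ∀ a, (F a).coeff (I0 a) ≠ 0 := fun a => hgen.ne_zero ⟨a, ⟨I0 a, hI0 a⟩⟩
  have hr := ratio_fam hgen I0 hI0
  have hck : CharZero k := (algebraMap k K).charZero
  obtain ⟨m, hm1, hm2, hm3, hm4, hm5, hm6⟩ := Pool.Agent.Y735.LE.exists_m
    (Finset.univ : Finset A) (fun c _ => hd0 c) hC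
  obtain ⟨κ, hκ⟩ := Pool.Agent.Y735.LE.exists_asg hn Finset.univ hm1 hm2 hm3 hm4 hm5
  obtain ⟨P, Q, hPQ, h1⟩ := Pool.Agent.Y735.LE.exists_lineF hn hκ hF I0 h0 hr
  obtain ⟨W, hW1, hW2, hW3⟩ := Pool.Agent.Y735.LE.count hPQ hF (fun a => (h1 a).1)
    (fun a => (h1 a).2) hm2 hm3
  exact ⟨W, hW1, fun a => hW2 a (Finset.mem_univ a)⟩

section

variable {k : Type} [Field k] [Algebra k ℂ]
  {n m l M r : ℕ}
  {V : Set (MvPolynomial (Fin (n + 1)) (algebraicClosure k ℂ))}
  {A : Type} [Fintype A] {d : A → ℕ} {F : A → MvPolynomial (Fin (n + 1)) ℂ}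
  {κ μ : Type} {Ψ : κ → MvPolynomial (Fin (l + 1)) ℂ} {Φ : μ → MvPolynomial (Fin (M + 1)) ℂ}
  {B : Fin (n + 1) → MvPolynomial (Fin (l + 1)) ℂ}
  {G : Fin (M + 1) → MvPolynomial (Fin (l + 1)) ℂ}

theorem gm_of_general (hΦ : ∀ e, IsForm (Φ e)) (h : AllGeneral Φ) (P : Fin (M + 1) → Polynomial ℂ) :
    ¬ GmCurve Φ P := by
  intro hP
  have h1 : (fun i => (P i).eval 1) ∈ SpGm Φ :=
    ⟨⟨hP.ne 1 one_ne_zero, hP.mem 1 one_ne_zero⟩, fun H _ hH => hH P hP 1 one_ne_zero⟩
  have h2 := (gm_sub_alg hΦ h1).2 1 ⟨0, MvPolynomial.isHomogeneous_one _ _⟩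
    fun K _ _ w y hw hy hgt => absurd (h K w y hw hy) hgt
  have h3 : val (fun i => (P i).eval 1) (1 : MvPolynomial (Fin (M + 1)) ℂ) = 1 := map_one _
  rw [h3] at h2
  exact one_ne_zero h2

/-- The equivalences for the images of generic complete intersections. -/
theorem tfae_cpt (hn : 1 ≤ n) (hd0 : ∀ a, 0 < d a) (hr : 1 ≤ r)
    (hF : ∀ a, (F a).IsHomogeneous (d a))
    (hgen : AlgebraicIndependent k fun p : Cf n d => (F p.1).coeff p.2.1)
    (hΦ : ∀ e, IsForm (Φ e)) {G : Fin (M + 1) → MvPolynomial (Fin (n + 1)) ℂ}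
    (hG : Mor F Φ G) (hon : Onto F Φ G) (hfib : FibresLe F G r)
    (hd : ∑ a, (d a + 1) ≤ 2 * n - 2 ∨ 2 * n + 2 * r ≤ ∑ a, (d a + 1)) :
    [∃ A : ℕ, AlgHyperbolic A Φ, BoundedOnCurves Φ, ∀ P, ¬ GmCurve Φ P, AllGeneral Φ,
      2 * n - 1 ≤ ∑ a, (d a + 1)].TFAE := by
  classical
  have hF' : ∀ a, IsForm (F a) := fun a => ⟨_, hF a⟩
  have hX : Mor F (eqs (∅ : Set (MvPolynomial (Fin (n + 1)) (algebraicClosure k ℂ))) F)
      fun i => MvPolynomial.X i := by
    refine ⟨⟨1, le_rfl, fun j => MvPolynomial.isHomogeneous_X _ _⟩, fun x hx => ?_⟩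
    rw [Pool.Agent.Y221.AH.im_Xk]
    refine ⟨hx.1, ?_⟩
    rintro (f | a)
    · exact absurd f.2 (Set.notMem_empty _)
    · exact hx.2 a
  have hV := Pool.Agent.TH145.GC.dimLE_univ (algebraicClosure k ℂ) n
  tfae_have 1 → 2 := by
    rintro ⟨A, hA⟩ K _ _ _
    exact ⟨_, fun f hf0 hf => hA K f hf0 hf⟩
  tfae_have 2 → 3 := fun h P hP => Pool.Agent.Y221.AH.not_bounded hP h
  tfae_have 3 → 5 := by
    intro h
    by_contra hcon
    obtain ⟨W, hW1, hW2⟩ := exists_line hn hd0 hF hgen (by omega)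
    obtain ⟨P, hP⟩ := gm_of_line hW1 hW2
    exact h _ (gm_im hF' hG hP)
  tfae_have 5 → 4 := fun h => Pool.Agent.Q58.FI.general_im (by simp) hV (by omega) hF hgen hF' hX
    hG hon hfib
  tfae_have 4 → 3 := fun h P => gm_of_general hΦ h P
  tfae_have 5 → 1 := by
    intro h
    obtain ⟨eG, heG, hGe⟩ := hG.form
    refine ⟨eG, fun K _ _ _ f hf0 hf => ?_⟩
    have h1 := curve_cpt (by simp) hV (by omega) hF hgen hF' hX hG hon hfib
      (eB := 1) (fun j => MvPolynomial.isHomogeneous_X _ _) hGe K f hf0 hf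
    have h2 : 0 ≤ pht ℂ f := Pool.Agent.Y221.AH.pht_nonneg hf0
    have h3 : (1 : ℤ) ≤ (∑ a, (d a + 1) + 2 : ℕ) - 2 * n - 2 * r := by omega
    have h4 : pht ℂ f ≤ ((∑ a, (d a + 1) + 2 : ℕ) - 2 * n - 2 * r) * pht ℂ f :=
      le_mul_of_one_le_left h2 h3
    rw [Nat.cast_one, one_mul] at h1
    exact h4.trans h1
  tfae_finish

end

end Pool.Agent.Q58.LG
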