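import Pool.Agent.Q58.LG.Voj2
import Pool.Agent.Y221.PB.Hgt
import Pool.Agent.W603.CY.Ultra

/-!
Points over finite extensions of a function field on a generic pair, over extensions of bounded
degree; the Nullstellensatz; heights of specializations over function fields.
-/

set_option autoImplicit false
set_option linter.overlappingInstances false
set_option linter.unusedSectionVars false

open MvPolynomial FF Pool.Agent.W603.LV Pool.Agent.W603.PV Pool.Agent.TH145
open Pool.Agent.TH145.MG (DimLE)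
open Pool.Agent.TH145.GC (Cf)

namespace Pool.Agent.Q58.LG

open Pool.Agent.W602.GT
open Pool.Agent.Y221.AH (pht_algebraMap)
open Pool.Agent.Q58.FI (eqs pht_nn)
open Pool.Agent.TH466.QG (Sp exists_den)
open Pool.Agent.W603.CX (hgt_le_pht)
open Pool.Agent.W603.CY (hgt_add_le hgt_mul_le)

/-- **The height inequality for points over extensions of bounded degree.** -/
theorem cover_K {k0 k K0 K : Type} [Field k0] [Field k] [Field K0] [Field K] [IsAlgClosed k]
    [CharZero k] [Algebra k0 k] [Algebra k K] [Algebra k0 K] [IsScalarTower k0 k K]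
    [Algebra k0 K0] [Algebra K0 K] [IsScalarTower k0 K0 K] [IsFF k K]
    (hfg : ∃ S : Finset K0, IntermediateField.adjoin k0 (S : Set K0) = ⊤) {n m : ℕ} (t : ℕ)
    {A : Type} [Fintype A] {d : A → ℕ} (C : Finset A)
    (V : Set (MvPolynomial (Fin (n + 1)) K0)) (hVh : ∀ f ∈ V, ∃ e, f.IsHomogeneous e)
    (hV : DimLE K0 V m) {F : A → MvPolynomial (Fin (n + 1)) K}
    (hF : ∀ a, (F a).IsHomogeneous (d a))
    (hgen : AlgebraicIndependent K0 fun p : Cf n d => (F p.1).coeff p.2.1) :
    ∃ C1 : ℤ, 0 ≤ C1 ∧ ∀ (L E : Type) [Field L] [Field E] [Algebra k L] [Algebra K L]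
      [Algebra k E] [Algebra K E] [Algebra L E] [IsScalarTower k K L] [IsScalarTower k L E]
      [IsScalarTower K L E] [FiniteDimensional K L] [FiniteDimensional L E] [IsFF k L] [IsFF k E]
      (_ : Module.finrank L E ≤ t) (y : Fin (n + 1) → E) (_ : ∃ j, y j ≠ 0)
      (_ : ∀ e, aeval y (eqs V (fun c : {a // a ∈ C} => F c.1) e) = 0) (S : Finset (Place k L))
      (_ : ∀ Q : Place k E, under L Q ∉ S → ∀ b, b ∉ C → aeval y (F b) ≠ 0 →
        Q.ord (aeval y (F b)) ≤ d b * pord Q y),
      ((∑ a, d a + C.card + 1 : ℕ) - 2 * m - 2 * t) * pht k y ≤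
        Module.finrank L E * (canDeg k L + S.card) + Module.finrank K E * C1 := by
  classical
  have hK : CharZero K := charZero_of_injective_algebraMap (algebraMap k K).injective
  obtain ⟨D, q, hdat, hDk⟩ := Pool.Agent.Y735.R3.exists_dataS (k0 := k0) (k := k) hfg hF hgen
  obtain ⟨T0, hT0⟩ : ∃ T0 : Finset (Place k K), T0 = hdat.fin.toFinset := ⟨_, rfl⟩
  have hT0q : ∀ v, q v ≠ 0 → v ∈ T0 := fun v hv => by
    rw [hT0, Set.Finite.mem_toFinset]
    exact hv
  obtain ⟨Q0, hQ0⟩ : ∃ Q0 : ℤ, Q0 = ∑ v ∈ T0, q v := ⟨_, rfl⟩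
  have hQ0n : 0 ≤ Q0 := by
    rw [hQ0]
    exact Finset.sum_nonneg fun v _ => hdat.nn v
  obtain ⟨ρ, hρ⟩ : ∃ ρ : ℤ, ρ = (∑ a, d a + C.card + 1 : ℕ) - 2 * m - 2 * t := ⟨_, rfl⟩
  obtain ⟨C1, hC1⟩ : ∃ C1 : ℤ, C1 = |canDeg k K| + (Fintype.card A + m + 3) * Q0 :=
    ⟨_, rfl⟩
  have hC1n : 0 ≤ C1 := by
    rw [hC1]
    positivity
  refine ⟨C1, hC1n, fun L E _ _ _ _ _ _ _ _ _ _ _ _ _ _ hrk y hy hyΘ S hS => ?_⟩
  rw [← hρ]
  have hst2 : IsScalarTower k K E := by
    refine IsScalarTower.of_algebraMap_eq fun a => ?_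
    rw [IsScalarTower.algebraMap_apply K L E, ← IsScalarTower.algebraMap_apply k K L,
      ← IsScalarTower.algebraMap_apply k L E]
  have hfd : FiniteDimensional K E := FiniteDimensional.trans K L E
  obtain ⟨j0, hj0'⟩ := hy
  obtain ⟨x, hx⟩ : ∃ x : Fin (n + 1) → E, x = fun j => (y j0)⁻¹ * y j := ⟨_, rfl⟩
  have hx1 : x j0 = 1 := by
    rw [hx]
    exact inv_mul_cancel₀ hj0'
  -- heights over `E`
  have ht2 : pht k x = pht k y := by
    rw [hx, pht_scale ⟨j0, hj0'⟩ (inv_ne_zero hj0')]
  -- the field generated by the image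
  obtain ⟨E1, hE1⟩ : ∃ E1 : IntermediateField L E,
    E1 = IntermediateField.adjoin L (Set.range x) := ⟨_, rfl⟩
  have hxE : ∀ j, x j ∈ E1 := fun j => by
    rw [hE1]
    exact IntermediateField.subset_adjoin L _ ⟨j, rfl⟩
  obtain ⟨x1, hx1c⟩ : ∃ x1 : Fin (n + 1) → E1, ∀ j, (x1 j : E) = x j :=
    ⟨fun j => ⟨x j, hxE j⟩, fun _ => rfl⟩
  have hx11 : x1 j0 = 1 := Subtype.ext (by rw [hx1c, hx1]; rfl)
  have hx1e : ∃ j, x1 j ≠ 0 := ⟨j0, by rw [hx11]; exact one_ne_zero⟩
  have hst3 : IsScalarTower k E1 E := IsScalarTower.of_algebraMap_eq fun c => by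
    rw [IsScalarTower.algebraMap_apply k L E, IsScalarTower.algebraMap_apply k L E1,
      ← IsScalarTower.algebraMap_apply L E1 E]
  have hst4 : IsScalarTower K E1 E := IsScalarTower.of_algebraMap_eq fun c => by
    rw [IsScalarTower.algebraMap_apply K L E, IsScalarTower.algebraMap_apply K L E1,
      ← IsScalarTower.algebraMap_apply L E1 E]
  have hst5 : IsScalarTower k K E1 := IsScalarTower.of_algebraMap_eq fun c => by
    rw [IsScalarTower.algebraMap_apply k L E1, IsScalarTower.algebraMap_apply K L E1,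
      ← IsScalarTower.algebraMap_apply k K L]
  have hfd1 : FiniteDimensional K E1 := FiniteDimensional.trans K L E1
  have hff1 : IsFF k E1 := isFF_of_finite (F := L)
  have hr0 : 0 < Module.finrank L E1 := Module.finrank_pos
  have hr2 : 0 < Module.finrank E1 E := Module.finrank_pos
  have hrr := Module.finrank_mul_finrank L E1 E
  have hrK := Module.finrank_mul_finrank K L E
  have hrK1 := Module.finrank_mul_finrank K L E1
  have hr1 : Module.finrank L E1 ≤ t := by
    have h1 : Module.finrank L E1 ≤ Module.finrank L E1 * Module.finrank E1 E :=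
      Nat.le_mul_of_pos_right _ hr2
    omega
  have ht3 : pht k x = Module.finrank E1 E * pht k x1 := by
    rw [← pht_algebraMap hx1e]
    congr 1
    funext j
    exact (hx1c j).symm
  have haev : ∀ p : MvPolynomial (Fin (n + 1)) K, algebraMap E1 E (aeval x1 p) = aeval x p := by
    intro p
    have h2 := MvPolynomial.aeval_algebraMap_apply (R := K) E x1 p
    have h3 : (fun j => algebraMap E1 E (x1 j)) = x := funext hx1c
    rw [← h2]
    congr 1
    rw [← h3]
    rfl
  have hsc : ∀ (p : MvPolynomial (Fin (n + 1)) K) (e : ℕ), p.IsHomogeneous e →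
      aeval x p = (y j0)⁻¹ ^ e * aeval y p := by
    intro p e he
    rw [hx]
    exact val_smul he (y j0)⁻¹ y
  have hval : ∀ (p : MvPolynomial (Fin (n + 1)) K) (e : ℕ), p.IsHomogeneous e → aeval y p = 0 →
      aeval x1 p = 0 := by
    intro p e he h0
    have h1 := haev p
    rw [hsc p e he, h0, mul_zero] at h1
    exact (map_eq_zero _).1 h1
  obtain ⟨Cs, hCs⟩ : ∃ Cs : Finset A, ∀ a, a ∈ Cs ↔
      eval x1 (map (algebraMap K E1) (F a)) = 0 :=
    ⟨Finset.univ.filter fun a => eval x1 (map (algebraMap K E1) (F a)) = 0, fun a => by simp⟩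
  have hev : ∀ p : MvPolynomial (Fin (n + 1)) K, eval x1 (map (algebraMap K E1) p) =
      aeval x1 p := fun p => by
    rw [eval_map]
    rfl
  have hCC : C ⊆ Cs := by
    intro a ha
    rw [hCs, hev]
    exact hval _ (d a) (hF a) (hyΘ (Sum.inr ⟨a, ha⟩))
  have hcard : (C.card : ℤ) ≤ Cs.card := by exact_mod_cast Finset.card_le_card hCC
  obtain ⟨S1, hS1, hS1c⟩ := card_over (k := k) (F := L) (L := E1) S
  have hint : ∀ Q, Q ∉ S1 → ∀ b, b ∉ Cs →
      Q.ord (eval x1 (map (algebraMap K E1) (F b))) ≤ d b * pord Q x1 := by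
    intro Q hQ b hb
    have hQ1 : under L Q ∉ S := fun h => hQ (hS1 _ h)
    have hbC : b ∉ C := fun h => hb (hCC h)
    by_contra hlt
    rw [not_le, hev] at hlt
    -- a place of `E`
    obtain ⟨T', hT'⟩ := Pool.Agent.Y221.AH.exists_over (L := E) {Q}
    have hTs := Pool.Agent.Y735.R.sum_ram (L := E) Q T' fun w => by
      rw [← hT', Finset.mem_singleton]
    obtain ⟨Q2, hQ2m⟩ : T'.Nonempty := by
      rw [Finset.nonempty_iff_ne_empty]
      rintro rfl
      rw [Finset.sum_empty] at hTs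
      have : (0 : ℤ) < Module.finrank E1 E := by exact_mod_cast hr2
      omega
    have hQ2' : under E1 Q2 = Q := by
      have := (hT' Q2).2 hQ2m
      rwa [Finset.mem_singleton] at this
    obtain ⟨e1, he1⟩ : ∃ e1 : ℕ, e1 = ram E1 Q2 := ⟨_, rfl⟩
    have he1p : (0 : ℤ) < e1 := by
      rw [he1]
      exact_mod_cast (ram_spec (F := E1) Q2).1
    have ho1 : ∀ y : E1, Q2.ord (algebraMap E1 E y) = e1 * Q.ord y := fun y => by
      rw [ord_under, hQ2', he1]
    have hunder : under L Q2 = under L Q := by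
      rw [← hQ2']
      exact (under_under Q2).symm
    have hp2 : pord Q2 x = e1 * pord Q x1 := by
      have h9 := Pool.Agent.Y221.AH.pord_under (K := E1) Q2 (f := x1) hx1e
      rw [hQ2', ← he1] at h9
      rw [← h9]
      congr 1
      funext j
      exact (hx1c j).symm
    have h5 : Q2.ord (aeval x (F b)) = e1 * Q.ord (aeval x1 (F b)) := by
      rw [← haev, ho1]
    have h6 : aeval y (F b) ≠ 0 := by
      intro h0
      apply hb
      rw [hCs, hev]
      exact hval _ (d b) (hF b) h0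
    have h3 := hS Q2 (by rw [hunder]; exact hQ1) b hbC h6
    have h7 : Q2.ord (aeval x (F b)) = -(d b * Q2.ord (y j0)) + Q2.ord (aeval y (F b)) := by
      rw [hsc _ _ (hF b), Q2.ord_mul (pow_ne_zero _ (inv_ne_zero hj0')) h6, Q2.ord_pow,
        Q2.ord_inv]
      ring
    have h8 : pord Q2 x = -Q2.ord (y j0) + pord Q2 y := by
      rw [hx, pord_scale Q2 ⟨j0, hj0'⟩ (inv_ne_zero hj0'), Q2.ord_inv]
    have h9 : (e1 : ℤ) * (d b * pord Q x1) < e1 * Q.ord (aeval x1 (F b)) :=
      mul_lt_mul_of_pos_left hlt he1p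
    rw [← h5, h7] at h9
    have h10 : (e1 : ℤ) * (d b * pord Q x1) = d b * (e1 * pord Q x1) := by ring
    rw [h10, ← hp2, h8] at h9
    linarith
  have hx1ne : x1 ≠ 0 := by
    obtain ⟨j, hj⟩ := hx1e
    intro h0
    exact hj (congrFun h0 j)
  have hineq := ineq_S (κ := k) (F := K) (L := E1) (algebraMap K0 K) hdat hDk V hV hx1ne
    (fun f hf => by
      have h1 := hyΘ (Sum.inl ⟨f, hf⟩)
      obtain ⟨e, he⟩ := hVh f hf
      have h2 := hval (map (algebraMap K0 K) f) e (he.map _) h1
      rw [aeval_def, eval₂_map] at h2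
      exact h2) Cs hCs S1 hint T0 hT0q
  rw [← hQ0] at hineq
  -- the discriminant
  have hgen1 : IntermediateField.adjoin L (Set.range x1) = ⊤ := by
    subst hE1
    apply IntermediateField.lift_injective
    rw [IntermediateField.lift_adjoin, IntermediateField.lift_top]
    congr 1
    ext y
    constructor
    · rintro ⟨_, ⟨j, rfl⟩, rfl⟩
      exact ⟨j, (hx1c j).symm⟩
    · rintro ⟨j, rfl⟩
      exact ⟨x1 j, ⟨j, rfl⟩, hx1c j⟩
  have hdisc := Pool.Agent.Y735.R.disc_le_pht (k := k) (F := L) x1 hx11 hgen1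
  have hrh := canDeg_ext (k := k) (F := L) (L := E1)
  have hrhK := canDeg_ext (k := k) (F := K) (L := E1)
  have hx1p : 0 ≤ pht k x1 := pht_nn hx1e
  have hr1' : (Module.finrank L E1 : ℤ) ≤ t := by exact_mod_cast hr1
  have hmain : ρ * pht k x1 ≤ Module.finrank L E1 * (canDeg k L + S.card) +
      Module.finrank K E1 * C1 := by
    have h2 : ρ * pht k x1 ≤ (∑ a, (d a : ℤ) + Cs.card + 1 - 2 * m - 2 * Module.finrank L E1) *
        pht k x1 := by
      refine mul_le_mul_of_nonneg_right ?_ hx1p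
      rw [hρ]
      push_cast
      linarith
    have h3 : (∑ a, (d a : ℤ) + Cs.card + 1 - 2 * m - 2 * Module.finrank L E1) * pht k x1 =
        (∑ a, (d a : ℤ) + Cs.card - 2 * m - 1) * pht k x1 -
          (2 * Module.finrank L E1 - 2) * pht k x1 := by ring
    have h4 : -(Module.finrank K E1 * canDeg k K : ℤ) ≤ Module.finrank K E1 * |canDeg k K| := by
      rw [← mul_neg]
      exact mul_le_mul_of_nonneg_left (neg_le_abs _) (by positivity)
    have h5 : (Module.finrank K E1 : ℤ) * C1 = Module.finrank K E1 * |canDeg k K| +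
          (Fintype.card A + m + 3) * (Module.finrank K E1 * Q0) := by
      rw [hC1]
      ring
    rw [h3] at h2
    rw [mul_add, h5]
    linarith
  -- the heights
  have hrr' : (Module.finrank L E : ℤ) = Module.finrank L E1 * Module.finrank E1 E := by
    exact_mod_cast hrr.symm
  have hrK' : (Module.finrank K E : ℤ) = Module.finrank K L * Module.finrank L E := by
    exact_mod_cast hrK.symm
  have hrK1' : (Module.finrank K E1 : ℤ) = Module.finrank K L * Module.finrank L E1 := by
    exact_mod_cast hrK1.symm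
  have h1 := mul_le_mul_of_nonneg_left hmain (Int.natCast_nonneg (Module.finrank E1 E))
  rw [hrK1'] at h1
  rw [← ht2, ht3, hrK', hrr']
  exact le_of_eq_of_le (by ring) (h1.trans_eq (by ring))

/-- The Nullstellensatz. -/
theorem null_S {K : Type} [Field K] {σ : Type} [Finite σ] {κ : Type} (Ψ : κ → MvPolynomial σ K)
    (g f : MvPolynomial σ K)
    (h : ∀ x : σ → AlgebraicClosure K, (∀ e, aeval x (Ψ e) = 0) → aeval x g = 0 →
      aeval x f = 0) :
    ∃ (N : ℕ) (P : MvPolynomial σ K), ∀ (E : Type) [Field E] [Algebra K E] (x : σ → E),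
      (∀ e, aeval x (Ψ e) = 0) → aeval x f ^ N = aeval x P * aeval x g := by
  classical
  have h1 : f ∈ (Ideal.span (Set.range Ψ ∪ {g})).radical := by
    rw [← vanishingIdeal_zeroLocus_eq_radical (K := AlgebraicClosure K), mem_vanishingIdeal_iff]
    intro x hx
    rw [mem_zeroLocus_iff] at hx
    exact h x (fun e => hx _ (Ideal.subset_span (Or.inl ⟨e, rfl⟩)))
      (hx _ (Ideal.subset_span (Or.inr rfl)))
  obtain ⟨N, hN⟩ := Ideal.mem_radical_iff.1 h1
  have h2 : Ideal.span (Set.range Ψ ∪ {g}) =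
      Ideal.span (Set.range Ψ) ⊔ Ideal.span {g} := Ideal.span_union _ _
  rw [h2, Submodule.mem_sup] at hN
  obtain ⟨u, hu, v, hv, huv⟩ := hN
  obtain ⟨P, hP⟩ := Ideal.mem_span_singleton'.1 hv
  refine ⟨N, P, fun E _ _ x hx => ?_⟩
  have h3 : aeval x u = 0 := by
    have h4 : Ideal.span (Set.range Ψ) ≤ RingHom.ker (aeval x :
        MvPolynomial σ K →ₐ[K] E) := by
      rw [Ideal.span_le]
      rintro _ ⟨e, rfl⟩
      exact hx e
    exact h4 hu
  rw [← map_pow, ← huv, map_add, h3, zero_add, ← hP, map_mul]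

section

variable {k K : Type} [Field k] [IsAlgClosed k] [CharZero k] [Field K] [Algebra k K] [IsFF k K]

/-- The height of the value of a polynomial with coefficients in a function field. -/
theorem hgt_poly {σ : Type} [Fintype σ] (G : MvPolynomial σ K) : ∃ A B : ℕ,
    ∀ (L : Type) [Field L] [Algebra k L] [Algebra K L] [IsScalarTower k K L]
      [FiniteDimensional K L] (v : σ → L),
      hgt k (aeval v G) ≤ A * ∑ i, hgt k (v i) + B * Module.finrank K L := by
  classical
  induction G using MvPolynomial.induction_on with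
  | C c =>
    refine ⟨0, (hgt k c).toNat, fun L _ _ _ _ _ v => ?_⟩
    have hff : IsFF k L := isFF_of_finite (F := K)
    have h1 : (aeval v (C c : MvPolynomial σ K) : L) = algebraMap K L c := by
      rw [MvPolynomial.C_eq_algebraMap, AlgHom.commutes]
    rw [h1, hgt_algebraMap, Int.toNat_of_nonneg (hgt_nonneg _)]
    exact le_of_eq (by push_cast; ring)
  | add p q hp hq =>
    obtain ⟨A1, B1, h1⟩ := hp
    obtain ⟨A2, B2, h2⟩ := hq
    refine ⟨A1 + A2, B1 + B2, fun L _ _ _ _ _ v => ?_⟩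
    have hff : IsFF k L := isFF_of_finite (F := K)
    rw [map_add]
    refine (hgt_add_le _ _).trans ((add_le_add (h1 L v) (h2 L v)).trans (le_of_eq ?_))
    push_cast
    ring
  | mul_X p i hp =>
    obtain ⟨A1, B1, h1⟩ := hp
    refine ⟨A1 + 1, B1, fun L _ _ _ _ _ v => ?_⟩
    have hff : IsFF k L := isFF_of_finite (F := K)
    rw [map_mul, aeval_X]
    refine (hgt_mul_le _ _).trans ?_
    have h2 : hgt k (v i) ≤ ∑ i, hgt k (v i) :=
      Finset.single_le_sum (f := fun i => hgt k (v i)) (fun j _ => hgt_nonneg (v j))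
        (Finset.mem_univ i)
    have h3 := h1 L v
    push_cast
    linarith

/-- The values of a polynomial with coefficients in a function field at regular arguments are
regular, outside of the places above a finite set. -/
theorem reg_poly {σ : Type} (G : MvPolynomial σ K) : ∃ S0 : Finset (Place k K),
    ∀ (E : Type) [Field E] [Algebra k E] [Algebra K E] [IsScalarTower k K E]
      [FiniteDimensional K E] [IsFF k E] (Q : Place k E), under K Q ∉ S0 → ∀ v : σ → E,
        (∀ i, Ge Q 0 (v i)) → Ge Q 0 (aeval v G) := by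
  classical
  induction G using MvPolynomial.induction_on with
  | C c =>
    refine ⟨(finite_support c).toFinset, fun E _ _ _ _ _ _ Q hQ v hv => ?_⟩
    rw [MvPolynomial.C_eq_algebraMap, AlgHom.commutes]
    rw [Set.Finite.mem_toFinset, Set.mem_setOf_eq, not_not] at hQ
    refine Or.inr ?_
    rw [ord_under, hQ, mul_zero]
  | add p q hp hq =>
    obtain ⟨S1, h1⟩ := hp
    obtain ⟨S2, h2⟩ := hq
    refine ⟨S1 ∪ S2, fun E _ _ _ _ _ _ Q hQ v hv => ?_⟩
    rw [Finset.mem_union, not_or] at hQ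
    rw [map_add]
    exact (h1 E Q hQ.1 v hv).add (h2 E Q hQ.2 v hv)
  | mul_X p i hp =>
    obtain ⟨S1, h1⟩ := hp
    refine ⟨S1, fun E _ _ _ _ _ _ Q hQ v hv => ?_⟩
    rw [map_mul, aeval_X]
    have h2 := (h1 E Q hQ v hv).mul (hv i)
    rwa [add_zero] at h2

/-- The heights of the specializations of elements which are algebraic over the field generated by
a point, over a function field. -/
theorem alg_hgt_K {M K' : Type} [Field M] [Field K'] [Algebra K M] [Algebra K K'] [Algebra M K']
    [IsScalarTower K M K'] [Algebra.IsAlgebraic M K'] {n : ℕ}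
    {y : Fin (n + 1) → M} (hgen : coords K y = ⊤) {i0 : Fin (n + 1)} (hi0 : y i0 ≠ 0)
    {σ : Type} [Fintype σ] (x : σ → K') : ∃ (Θ : Set M) (A B : ℕ), Θ.Finite ∧
      ∀ (K'' : Type) [Field K''] [Algebra k K''] [Algebra K K''] [IsScalarTower k K K'']
        [FiniteDimensional K K''] (S : Sp K K' K''),
        (∀ ϑ ∈ Θ, ∃ t, S.T (algebraMap M K' ϑ) t) → ∀ y' : Fin (n + 1) → K'',
        (∀ i, S.T (algebraMap M K' (y i)) (y' i)) → ∀ z : σ → K'', (∀ m, S.T (x m) (z m)) →
        ∀ m, hgt k (z m) ≤ A * pht k y' + B * Module.finrank K K'' := by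
  classical
  have hfin : (⋃ m, (↑(minpoly M (x m)).coeffs : Set M)).Finite :=
    Set.finite_iUnion fun m => Finset.finite_toSet _
  obtain ⟨H, hH, hG⟩ := exists_den (Pool.Agent.TH466.QG.adjoin_norm hgen hi0) hfin
  -- the coefficients
  have hco : ∀ (m : σ) (j : ℕ), ∃ G : MvPolynomial (Fin (n + 1)) K,
      (minpoly M (x m)).coeff j * MvPolynomial.aeval (fun i => y i / y i0) H =
        MvPolynomial.aeval (fun i => y i / y i0) G := by
    intro m j
    by_cases h0 : (minpoly M (x m)).coeff j = 0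
    · exact ⟨0, by rw [h0, zero_mul, map_zero]⟩
    · exact hG _ (Set.mem_iUnion.2 ⟨m, Polynomial.coeff_mem_coeffs h0⟩)
  choose G hG' using hco
  choose A0 B0 hAB using fun (m : σ) (j : ℕ) => hgt_poly (k := k) (G m j)
  let D : σ → ℕ := fun m => (minpoly M (x m)).natDegree
  let CA : ℕ := ∑ m, ∑ j ∈ Finset.range (D m + 1), A0 m j * (n + 1)
  let CB : ℕ := ∑ m, ∑ j ∈ Finset.range (D m + 1), B0 m j
  refine ⟨{(y i0)⁻¹, (MvPolynomial.aeval (fun i => y i / y i0) H)⁻¹}, CA, CB, Set.toFinite _, ?_⟩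
  intro K'' _ _ _ _ _ S hS y' hy z hxz m
  have hff : IsFF k K'' := isFF_of_finite (F := K)
  let S0 : Sp K M K'' := S.res
  have hS1 : ∃ t, S0.T (y i0)⁻¹ t := hS _ (Or.inl rfl)
  have hS2 : ∃ t, S0.T (MvPolynomial.aeval (fun i => y i / y i0) H)⁻¹ t := hS _ (Or.inr rfl)
  have hy0 : ∀ i, S0.T (y i) (y' i) := hy
  have hi0' : y' i0 ≠ 0 := S0.ne_zero (hy0 i0) hS1 hi0
  have hybar : ∀ i, S0.T (y i / y i0) (y' i / y' i0) := by
    intro i
    rw [div_eq_mul_inv, div_eq_mul_inv]
    exact S0.mul (hy0 i) (S0.inv (hy0 i0) hS1 hi0)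
  have hval : ∀ G : MvPolynomial (Fin (n + 1)) K,
      S0.T (MvPolynomial.aeval (fun i => y i / y i0) G)
        (MvPolynomial.aeval (fun i => y' i / y' i0) G) := fun G => S0.val hybar G
  have hH' : MvPolynomial.aeval (fun i => y' i / y' i0) H ≠ 0 := S0.ne_zero (hval H) hS2 hH
  have hint : IsIntegral M (x m) := Algebra.IsIntegral.isIntegral _
  -- the equation of `z m`
  have hlead : MvPolynomial.aeval (fun i => y' i / y' i0) (G m (D m)) ≠ 0 := by
    have h1 := hG' m (D m)
    rw [(minpoly.monic hint).coeff_natDegree, one_mul] at h1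
    have h2 := hval H
    rw [h1] at h2
    rw [S0.ext (hval (G m (D m))) h2]
    exact hH'
  have hrel : ∑ d ∈ Finset.range (D m + 1),
      MvPolynomial.aeval (fun i => y' i / y' i0) (G m d) * z m ^ d = 0 := by
    have h1 : ∑ d ∈ Finset.range (D m + 1),
        algebraMap M K' (MvPolynomial.aeval (fun i => y i / y i0) (G m d)) * x m ^ d = 0 := by
      have h2 : Polynomial.aeval (x m) (minpoly M (x m)) = 0 := minpoly.aeval M (x m)
      rw [Polynomial.aeval_eq_sum_range] at h2
      have h3 : ∑ d ∈ Finset.range (D m + 1),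
          algebraMap M K' (MvPolynomial.aeval (fun i => y i / y i0) (G m d)) * x m ^ d =
          algebraMap M K' (MvPolynomial.aeval (fun i => y i / y i0) H) *
            ∑ d ∈ Finset.range (D m + 1), (minpoly M (x m)).coeff d • x m ^ d := by
        rw [Finset.mul_sum]
        refine Finset.sum_congr rfl fun d _ => ?_
        rw [← hG', map_mul, Algebra.smul_def]
        ring
      rw [h3]
      have h4 : ∑ d ∈ Finset.range (D m + 1), (minpoly M (x m)).coeff d • x m ^ d = 0 := h2
      rw [h4, mul_zero]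
    refine S.eq_zero (S.sum _ fun d _ => S.mul ?_ (S.pow (hxz m) d)) h1
    exact hval (G m d)
  have h1 := hgt_root (k := k) (fun d => MvPolynomial.aeval (fun i => y' i / y' i0) (G m d)) hlead
    (z m) hrel
  have hcoord : ∀ i, hgt k (y' i / y' i0) ≤ pht k y' := by
    intro i
    by_cases h0 : y' i = 0
    · rw [h0, zero_div, hgt_zero]
      have h2 := hgt_le_pht (k := k) y' hi0' hi0'
      rw [div_self hi0', hgt_one] at h2
      exact h2
    · exact hgt_le_pht (k := k) y' h0 hi0'
  have hpoly : ∀ d, hgt k (MvPolynomial.aeval (fun i => y' i / y' i0) (G m d)) ≤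
      ((A0 m d) * (n + 1) : ℕ) * pht k y' + (B0 m d) * Module.finrank K K'' := by
    intro d
    refine (hAB m d K'' (fun i => y' i / y' i0)).trans ?_
    have h2 : ∑ a, hgt k (y' a / y' i0) ≤ ((n + 1 : ℕ) : ℤ) * pht k y' := by
      refine (Finset.sum_le_sum fun a _ => hcoord a).trans (le_of_eq ?_)
      rw [Finset.sum_const, Finset.card_univ, Fintype.card_fin, nsmul_eq_mul]
    have h3 := mul_le_mul_of_nonneg_left h2 (Nat.cast_nonneg (α := ℤ) (A0 m d))
    refine add_le_add (h3.trans (le_of_eq ?_)) le_rfl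
    push_cast
    ring
  have hp0 : 0 ≤ pht k y' := by
    have h2 := hgt_le_pht (k := k) y' hi0' hi0'
    rw [div_self hi0', hgt_one] at h2
    exact h2
  have h2 : hgt k (MvPolynomial.aeval (fun i => y' i / y' i0) (G m (D m))) +
      ∑ d ∈ Finset.range (D m), hgt k (MvPolynomial.aeval (fun i => y' i / y' i0) (G m d)) =
      ∑ d ∈ Finset.range (D m + 1), hgt k (MvPolynomial.aeval (fun i => y' i / y' i0) (G m d)) := by
    rw [Finset.sum_range_succ, add_comm]
  rw [h2] at h1
  refine h1.trans ((Finset.sum_le_sum fun d _ => hpoly d).trans ?_)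
  rw [Finset.sum_add_distrib, ← Finset.sum_mul, ← Finset.sum_mul]
  have h3 : (∑ d ∈ Finset.range (D m + 1), ((A0 m d * (n + 1) : ℕ) : ℤ)) ≤ (CA : ℤ) := by
    have h4 : ∑ d ∈ Finset.range (D m + 1), (A0 m d * (n + 1)) ≤ CA :=
      Finset.single_le_sum (f := fun m => ∑ d ∈ Finset.range (D m + 1), (A0 m d * (n + 1)))
        (fun _ _ => Nat.zero_le _) (Finset.mem_univ m)
    exact_mod_cast h4
  have h5 : (∑ d ∈ Finset.range (D m + 1), ((B0 m d : ℕ) : ℤ)) ≤ (CB : ℤ) := by
    have h4 : ∑ d ∈ Finset.range (D m + 1), B0 m d ≤ CB :=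
      Finset.single_le_sum (f := fun m => ∑ d ∈ Finset.range (D m + 1), B0 m d)
        (fun _ _ => Nat.zero_le _) (Finset.mem_univ m)
    exact_mod_cast h4
  exact add_le_add (mul_le_mul_of_nonneg_right h3 hp0)
    (mul_le_mul_of_nonneg_right h5 (Int.natCast_nonneg _))

end

end Pool.Agent.Q58.LG
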