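import Pool.Agent.Q58.LG.CorK
import Pool.Agent.Q58.LG.AffB

/-!
Vojta's height inequality for the affine varieties over a function field with a proper correspondence
of small degree to a generic pair.
-/

set_option autoImplicit false
set_option linter.overlappingInstances false
set_option linter.unusedSectionVars false

open MvPolynomial FF Pool.Agent.W603.LV
open Pool.Agent.W602.GT hiding lin
open Pool.Agent.W603.PV
open Pool.Agent.TH145.MG (DimLE)
open Pool.Agent.TH145.GC (Cf)
open Pool.Agent.Q58.FI (eqs)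
open Pool.Agent.TH466.QG (Sp spread trdeg_alg)

namespace Pool.Agent.Q58.LG

/-- The point `(φ, p)` of `Spec B × ℙⁿ` over an extension field `Ω` of `K` is in the closure of the
point `y` of `ℙⁿ` over a field `K'` which contains `B`: all forms with coefficients in `B` which
vanish at `y` vanish at `(φ, p)`. -/
def InClosureK {K B K' Ω : Type} [Field K] [CommRing B] [Algebra K B] [Field K'] [Algebra B K']
    [Field Ω] [Algebra K Ω] {n : ℕ} (y : Fin (n + 1) → K') (φ : B →ₐ[K] Ω) (p : Fin (n + 1) → Ω) :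
    Prop :=
  p ≠ 0 ∧ ∀ P : MvPolynomial (Fin (n + 1)) B, (∃ e, P.IsHomogeneous e) →
    eval₂ (algebraMap B K') y P = 0 → eval₂ (φ : B →+* Ω) p P = 0

/-- Polynomials over an affine algebra. -/
theorem eval₂_lift {K B E : Type} [Field K] [CommRing B] [Algebra K B] [Field E] [Algebra K E]
    {N n : ℕ} (x : Fin N → B) (θ : B →ₐ[K] E) (v : Fin (n + 1) → E)
    (P : MvPolynomial (Fin N ⊕ Fin (n + 1)) K) :
    eval₂ (θ : B →+* E) v
      (aeval (Sum.elim (fun i => C (x i)) X : Fin N ⊕ Fin (n + 1) → MvPolynomial (Fin (n + 1)) B) P) =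
      aeval (Sum.elim (fun i => θ (x i)) v) P := by
  induction P using MvPolynomial.induction_on with
  | C c =>
    rw [aeval_C, aeval_C]
    have h1 : algebraMap K (MvPolynomial (Fin (n + 1)) B) c = C (algebraMap K B c) := rfl
    rw [h1, eval₂_C]
    exact θ.commutes c
  | add p q hp hq => rw [map_add, map_add, eval₂_add, hp, hq]
  | mul_X p i hp =>
    rw [map_mul, map_mul, eval₂_mul, hp, aeval_X, aeval_X]
    rcases i with i | i
    · simp only [Sum.elim_inl, eval₂_C]
      rfl
    · simp only [Sum.elim_inr, eval₂_X]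

/-- **The Nullstellensatz for a correspondence which does not meet a hypersurface.** -/
theorem avoid_K {K B K' : Type} [Field K] [CommRing B] [Algebra K B] [Field K'] [Algebra B K']
    {N n : ℕ} {x : Fin N → B} (hx : Algebra.adjoin K (Set.range x) = ⊤) (y : Fin (n + 1) → K')
    (f : MvPolynomial (Fin (n + 1)) K)
    (hbd : ∀ (φ : B →ₐ[K] AlgebraicClosure K) (p : Fin (n + 1) → AlgebraicClosure K),
      InClosureK y φ p → aeval p f ≠ 0) :
    ∃ (M : Fin (n + 1) → ℕ) (G : Fin (n + 1) → MvPolynomial (Fin N ⊕ Fin (n + 1)) K),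
      ∀ (E : Type) [Field E] [Algebra K E] (θ : B →ₐ[K] E) (v : Fin (n + 1) → E),
        (∀ P : MvPolynomial (Fin (n + 1)) B, (∃ e, P.IsHomogeneous e) →
          eval₂ (algebraMap B K') y P = 0 → eval₂ (θ : B →+* E) v P = 0) → ∀ j,
        v j ^ M j = aeval (Sum.elim (fun i => θ (x i)) v) (G j) * aeval v f := by
  classical
  obtain ⟨ρ, hρ⟩ : ∃ ρ : MvPolynomial (Fin N ⊕ Fin (n + 1)) K →ₐ[K] MvPolynomial (Fin (n + 1)) B,
    ρ = aeval (Sum.elim (fun i => C (x i)) X) := ⟨_, rfl⟩
  -- the map is surjective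
  have hπ : ∀ b : B, ∃ G : MvPolynomial (Fin N) K, aeval x G = b := by
    intro b
    have h1 : b ∈ Algebra.adjoin K (Set.range x) := by
      rw [hx]
      exact Algebra.mem_top
    rw [Algebra.adjoin_range_eq_range_aeval] at h1
    exact h1
  have hρC : ∀ G : MvPolynomial (Fin N) K, ρ (rename Sum.inl G) = C (aeval x G) := by
    intro G
    rw [hρ, aeval_rename]
    induction G using MvPolynomial.induction_on with
    | C c =>
      rw [aeval_C, aeval_C]
      rfl
    | add p q hp hq => rw [map_add, map_add, C_add, hp, hq]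
    | mul_X p i hp =>
      rw [map_mul, map_mul, C_mul, hp, aeval_X, aeval_X]
      rfl
  have hsur : ∀ P : MvPolynomial (Fin (n + 1)) B, ∃ P', ρ P' = P := by
    intro P
    induction P using MvPolynomial.induction_on with
    | C b =>
      obtain ⟨G, hG⟩ := hπ b
      exact ⟨rename Sum.inl G, by rw [hρC, hG]⟩
    | add p q hp hq =>
      obtain ⟨p', hp'⟩ := hp
      obtain ⟨q', hq'⟩ := hq
      exact ⟨p' + q', by rw [map_add, hp', hq']⟩
    | mul_X p i hp =>
      obtain ⟨p', hp'⟩ := hp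
      refine ⟨p' * X (Sum.inr i), ?_⟩
      rw [map_mul, hp', hρ, aeval_X]
      rfl
  -- the equations of the closure
  let κ : Type := {P : MvPolynomial (Fin N ⊕ Fin (n + 1)) K //
    (∃ e, (ρ P).IsHomogeneous e) ∧ eval₂ (algebraMap B K') y (ρ P) = 0}
  have key : ∀ s : Fin N ⊕ Fin (n + 1) → AlgebraicClosure K, (∀ P : κ, aeval s P.1 = 0) →
      aeval s (rename Sum.inr f : MvPolynomial (Fin N ⊕ Fin (n + 1)) K) = 0 →
      ∀ j, s (Sum.inr j) = 0 := by
    intro s hs hsf
    obtain ⟨p, hp⟩ : ∃ p : Fin (n + 1) → AlgebraicClosure K, p = fun j => s (Sum.inr j) := ⟨_, rfl⟩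
    obtain ⟨t, ht⟩ : ∃ t : Fin N → AlgebraicClosure K, t = fun j => s (Sum.inl j) := ⟨_, rfl⟩
    by_contra hcon
    have hp0 : p ≠ 0 := by
      intro h0
      apply hcon
      intro j
      have h1 := congrFun h0 j
      rw [hp] at h1
      exact h1
    -- the point of the affine variety
    have hker : ∀ G : MvPolynomial (Fin N) K, aeval x G = 0 → aeval t G = 0 := by
      intro G hG
      have h1 := hs ⟨rename Sum.inl G, by
        rw [hρC, hG, C_0]
        exact ⟨⟨0, isHomogeneous_zero _ _ _⟩, eval₂_zero _ _⟩⟩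
      simp only [aeval_rename] at h1
      rw [ht]
      exact h1
    have hsurj : Function.Surjective (aeval x : MvPolynomial (Fin N) K →ₐ[K] B) := hπ
    obtain ⟨φ, hφ⟩ : ∃ φ : B →ₐ[K] AlgebraicClosure K, ∀ G : MvPolynomial (Fin N) K,
        φ (aeval x G) = aeval t G := by
      obtain ⟨e, he⟩ : ∃ e : B →ₐ[K] (MvPolynomial (Fin N) K ⧸
          RingHom.ker (aeval x : MvPolynomial (Fin N) K →ₐ[K] B)),
          ∀ G, e (aeval x G) = Ideal.Quotient.mk _ G := by
        refine ⟨((Ideal.quotientKerAlgEquivOfSurjective hsurj).symm : B →ₐ[K] _), fun G => ?_⟩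
        have h1 : (Ideal.quotientKerAlgEquivOfSurjective hsurj).symm (aeval x G) =
            Ideal.Quotient.mk _ G := by
          rw [AlgEquiv.symm_apply_eq]
          rfl
        exact h1
      refine ⟨(Ideal.Quotient.liftₐ (RingHom.ker (aeval x : MvPolynomial (Fin N) K →ₐ[K] B))
        (aeval t) fun G hG => hker G (RingHom.mem_ker.1 hG)).comp e, fun G => ?_⟩
      rw [AlgHom.comp_apply, he]
      rfl
    have hφx : ∀ i, φ (x i) = t i := by
      intro i
      have h1 := hφ (X i)
      rwa [aeval_X, aeval_X] at h1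
    have hst : Sum.elim (fun i => φ (x i)) p = s := by
      funext i
      rcases i with i | i
      · rw [Sum.elim_inl, hφx, ht]
      · rw [Sum.elim_inr, hp]
    refine hbd φ p ⟨hp0, fun P hPh hP0 => ?_⟩ ?_
    · obtain ⟨P', rfl⟩ := hsur P
      have h1 := hs ⟨P', hPh, hP0⟩
      simp only at h1
      have h2 := eval₂_lift x φ p P'
      rw [hst, h1, ← hρ] at h2
      exact h2
    · rw [aeval_rename] at hsf
      rw [hp]
      exact hsf
  choose M G hG using fun j : Fin (n + 1) => null_S (K := K) (fun P : κ => P.1)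
    (rename Sum.inr f) (X (Sum.inr j)) (fun s hs hsf => by
      rw [aeval_X]
      exact key s hs hsf j)
  refine ⟨M, G, fun E _ _ θ v hv j => ?_⟩
  have h1 := hG j E (Sum.elim (fun i => θ (x i)) v) (fun P => by
    rw [← eval₂_lift x θ v P.1, ← hρ]
    exact hv _ P.2.1 P.2.2)
  rw [aeval_X, Sum.elim_inr, aeval_rename] at h1
  exact h1

section

variable {k0 k K0 K : Type} [Field k0] [Field k] [Field K0] [Field K] [IsAlgClosed k]
  [CharZero k] [Algebra k0 k] [Algebra k K] [Algebra k0 K] [IsScalarTower k0 k K]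
  [Algebra k0 K0] [Algebra K0 K] [IsScalarTower k0 K0 K] [IsFF k K] {n m : ℕ}
  {V : Set (MvPolynomial (Fin (n + 1)) K0)}
  {A : Type} [Fintype A] {d : A → ℕ} {F : A → MvPolynomial (Fin (n + 1)) K}
  {B : Type} [CommRing B] [IsDomain B] [Algebra K B]
  {L K' : Type} [Field L] [Field K'] [Algebra K L] [Algebra B L] [IsScalarTower K B L]
  [IsFractionRing B L] [Algebra K K'] [Algebra B K'] [Algebra L K'] [IsScalarTower K L K']
  [IsScalarTower B L K'] [FiniteDimensional L K']

theorem sp_aeval_K {F K1 K2 : Type} [Field F] [Field K1] [Field K2] [Algebra F K1] [Algebra F K2]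
    (T : Sp F K1 K2) {σ : Type} {x : σ → K1} {z : σ → K2} (h : ∀ i, T.T (x i) (z i))
    (G : MvPolynomial σ F) : T.T (aeval x G) (aeval z G) := by
  induction G using MvPolynomial.induction_on with
  | C c =>
    rw [aeval_C, aeval_C]
    exact T.const c
  | add p q hp hq =>
    rw [map_add, map_add]
    exact T.add hp hq
  | mul_X p i hp =>
    rw [map_mul, map_mul, aeval_X, aeval_X]
    exact T.mul hp (h i)

/-- **Vojta's height inequality for the affine varieties over a function field with a proper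
correspondence to a generic pair.** -/
theorem vojta_corr (hfg : ∃ S : Finset K0, IntermediateField.adjoin k0 (S : Set K0) = ⊤)
    (C : Finset A) (hVh : ∀ f ∈ V, ∃ e, f.IsHomogeneous e) (hV : DimLE K0 V m) {r : ℕ}
    (hd : 2 * m + 2 * r ≤ ∑ a, d a + C.card) (hF : ∀ a, (F a).IsHomogeneous (d a))
    (hgen : AlgebraicIndependent K0 fun p : Cf n d => (F p.1).coeff p.2.1)
    {N : ℕ} {x : Fin N → B} (hx : Algebra.adjoin K (Set.range x) = ⊤)
    (hr : Module.finrank L K' ≤ r) {y : Fin (n + 1) → K'} (hy : y ≠ 0)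
    (hyX : ∀ p, val y (eqs V (fun c : {a // a ∈ C} => F c.1) p) = 0)
    (halg : Algebra.IsAlgebraic (coords K y) K')
    (hbd : ∀ b, b ∉ C → ∀ (φ : B →ₐ[K] AlgebraicClosure K) (p : Fin (n + 1) → AlgebraicClosure K),
      InClosureK y φ p → aeval p (F b) ≠ 0) :
    ∃ J : Ideal B, J ≠ ⊥ ∧ ∀ a : B, ∃ A0 C0 : ℕ, ∀ (L0 : Type) [Field L0] [Algebra k L0]
      [Algebra K L0] [IsScalarTower k K L0] [FiniteDimensional K L0] (θ : B →ₐ[K] L0),
      ¬ J ≤ RingHom.ker θ → hgt k (θ a) ≤
        A0 * (canDeg k L0 + {P : Place k L0 | ∃ i, P.ord (θ (x i)) < 0}.ncard) +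
          C0 * Module.finrank K L0 := by
  classical
  have hK : CharZero K := charZero_of_injective_algebraMap (algebraMap k K).injective
  have hBL : Function.Injective (algebraMap B L) := IsFractionRing.injective B L
  have hπ : ∀ b : B, ∃ G : MvPolynomial (Fin N) K, aeval x G = b := by
    intro b
    have h1 : b ∈ Algebra.adjoin K (Set.range x) := by
      rw [hx]
      exact Algebra.mem_top
    rw [Algebra.adjoin_range_eq_range_aeval] at h1
    exact h1
  obtain ⟨xL, hxL⟩ : ∃ xL : Fin N → L, xL = fun i => algebraMap B L (x i) := ⟨_, rfl⟩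
  have hxπ : ∀ G : MvPolynomial (Fin N) K, aeval xL G = algebraMap B L (aeval x G) := by
    intro G
    rw [hxL]
    exact (comp_aeval_apply (φ := IsScalarTower.toAlgHom K B L) x G).symm
  have hxtop : IntermediateField.adjoin K (Set.range xL) = ⊤ := by
    rw [_root_.eq_top_iff]
    intro z _
    have h1 : ∀ b : B, algebraMap B L b ∈ IntermediateField.adjoin K (Set.range xL) := by
      intro b
      obtain ⟨G, rfl⟩ := hπ b
      rw [← hxπ]
      have h2 : (aeval xL G : L) ∈ Algebra.adjoin K (Set.range xL) := by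
        rw [Algebra.adjoin_range_eq_range_aeval]
        exact ⟨G, rfl⟩
      exact IntermediateField.algebra_adjoin_le_adjoin K _ h2
    obtain ⟨b, c, -, rfl⟩ := IsFractionRing.div_surjective (A := B) z
    exact div_mem (h1 b) (h1 c)
  obtain ⟨j0, hj0⟩ := Function.ne_iff.1 hy
  have hj0' : y j0 ≠ 0 := hj0
  -- the normalized point
  obtain ⟨u, hu⟩ : ∃ u : Fin (n + 1) → K', u = fun j => (y j0)⁻¹ * y j := ⟨_, rfl⟩
  have hu1 : u j0 = 1 := by
    rw [hu]
    exact inv_mul_cancel₀ hj0'
  obtain ⟨M0, hM0⟩ : ∃ M0 : IntermediateField K K',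
    M0 = IntermediateField.adjoin K (Set.range u) := ⟨_, rfl⟩
  have huM : ∀ j, u j ∈ M0 := fun j => by
    rw [hM0]
    exact IntermediateField.subset_adjoin K _ ⟨j, rfl⟩
  have hco : coords K y ≤ M0 := by
    unfold coords
    rw [IntermediateField.adjoin_le_iff]
    rintro _ ⟨i, j, hj, rfl⟩
    have h2 : y i / y j = u i / u j := by
      rw [hu]
      simp only
      rw [mul_div_mul_left _ _ (inv_ne_zero hj0')]
    rw [h2]
    exact div_mem (huM i) (huM j)
  have halgM : Algebra.IsAlgebraic M0 K' := by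
    refine ⟨fun t => ?_⟩
    exact Pool.Agent.TH145.MF.alg_mono (F1 := (coords K y).toSubfield)
      (F2 := M0.toSubfield) (fun z hz => hco hz) (halg.isAlgebraic t)
  obtain ⟨u0, hu0⟩ : ∃ u0 : Fin (n + 1) → M0, ∀ j, (u0 j : K') = u j :=
    ⟨fun j => ⟨u j, huM j⟩, fun _ => rfl⟩
  have hu01 : u0 j0 = 1 := Subtype.ext (by rw [hu0, hu1]; rfl)
  have hcoM : coords K u0 = ⊤ := by
    have h1 : IntermediateField.adjoin K (Set.range u0) = ⊤ := by
      subst hM0
      apply IntermediateField.lift_injective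
      rw [IntermediateField.lift_adjoin, IntermediateField.lift_top]
      congr 1
      ext t
      constructor
      · rintro ⟨_, ⟨j, rfl⟩, rfl⟩
        exact ⟨j, (hu0 j).symm⟩
      · rintro ⟨j, rfl⟩
        exact ⟨u0 j, ⟨j, rfl⟩, hu0 j⟩
    rw [_root_.eq_top_iff, ← h1, IntermediateField.adjoin_le_iff]
    rintro _ ⟨j, rfl⟩
    refine IntermediateField.subset_adjoin K _ ⟨j, j0, ?_, ?_⟩
    · rw [hu01]
      exact one_ne_zero
    · rw [hu01, div_one]
  obtain ⟨Θ2, Aa, Ba, hΘ2, halgs⟩ := alg_hgt_K (k := k) (K' := K') hcoM (i0 := j0)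
    (by rw [hu01]; exact one_ne_zero) (fun i : Fin N => algebraMap L K' (xL i))
  obtain ⟨G, hG, hspread⟩ := spread (K' := K') hxtop
    (Θ := algebraMap M0 K' '' (Θ2 ∪ Set.range u0)) ((hΘ2.union (Set.finite_range u0)).image _)
  have hG0 : aeval x G ≠ 0 := by
    intro h0
    apply hG
    rw [hxπ, h0, map_zero]
  obtain ⟨C1, hC1, hcover⟩ := cover_K (k0 := k0) (k := k) hfg r C V hVh hV hF hgen
  -- the Nullstellensatz
  choose Mb Gb hGb using fun b : {a // a ∉ C} => avoid_K hx y (F b.1) (hbd b.1 b.2)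
  choose Sb hSb using fun p : {a // a ∉ C} × Fin (n + 1) => reg_poly (k := k) (Gb p.1 p.2)
  obtain ⟨S0, hS0⟩ : ∃ S0 : Finset (Place k K), S0 = Finset.univ.biUnion Sb := ⟨_, rfl⟩
  obtain ⟨c0, hc0⟩ : ∃ c0 : ℕ, (c0 : ℤ) = S0.card + C1 :=
    ⟨S0.card + C1.toNat, by push_cast; rw [Int.toNat_of_nonneg hC1]⟩
  refine ⟨Ideal.span {aeval x G}, fun h0 => hG0 (Ideal.span_singleton_eq_bot.1 h0), ?_⟩
  have key : ∀ (L0 : Type) [Field L0] [Algebra k L0]
      [Algebra K L0] [IsScalarTower k K L0] [FiniteDimensional K L0] (θ : B →ₐ[K] L0),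
      ¬ Ideal.span {aeval x G} ≤ RingHom.ker θ → ∀ i : Fin N, hgt k (θ (x i)) ≤
        Aa * (canDeg k L0 + {P : Place k L0 | ∃ i, P.ord (θ (x i)) < 0}.ncard) +
          (Aa * c0 + Ba) * Module.finrank K L0 := by
    intro L0 _ _ _ _ _ θ hθ i
    have hffL : IsFF k L0 := isFF_of_finite (F := K)
    have hθG : θ (aeval x G) ≠ 0 := by
      intro h0
      apply hθ
      rw [Ideal.span_singleton_le_iff_mem, RingHom.mem_ker]
      exact h0
    obtain ⟨z, hz⟩ : ∃ z : Fin N → L0, z = fun i => θ (x i) := ⟨_, rfl⟩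
    have hzπ : ∀ G : MvPolynomial (Fin N) K, aeval z G = θ (aeval x G) := by
      intro G
      rw [hz]
      exact (comp_aeval_apply (φ := θ) x G).symm
    obtain ⟨K'', i1', i2', i3', i4', i5', hrk, T, hTx, hTΘ⟩ := hspread L0 z
      (fun G' hG' => by
        rw [hxπ] at hG'
        have h1 : aeval x G' = 0 := hBL (by rw [hG', map_zero])
        rw [hzπ, h1, map_zero]) (by
        rw [hzπ]
        exact hθG)
    let _ : Algebra k K'' := ((algebraMap K K'').comp (algebraMap k K)).toAlgebra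
    have hst1 : IsScalarTower k K K'' := IsScalarTower.of_algebraMap_eq' rfl
    have hst2 : IsScalarTower k L0 K'' := by
      refine IsScalarTower.of_algebraMap_eq fun a => ?_
      rw [IsScalarTower.algebraMap_apply k K L0, ← IsScalarTower.algebraMap_apply K L0 K'',
        ← IsScalarTower.algebraMap_apply k K K'']
    have hfdK : FiniteDimensional K K'' := FiniteDimensional.trans K L0 K''
    have hTy : ∀ i, ∃ t, T.T (algebraMap M0 K' (u0 i)) t := fun i =>
      hTΘ _ ⟨u0 i, Or.inr ⟨i, rfl⟩, rfl⟩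
    choose y' hy' using hTy
    have hff : IsFF k K'' := isFF_of_finite (F := L0)
    have hyu : ∀ j, T.T (u j) (y' j) := fun j => by
      rw [← hu0]
      exact hy' j
    have hy1 : y' j0 = 1 := by
      refine T.ext (hyu j0) ?_
      rw [hu1]
      exact T.one
    have hyne : ∃ j, y' j ≠ 0 := ⟨j0, by rw [hy1]; exact one_ne_zero⟩
    -- the specialization on the functions
    obtain ⟨θ2, hθ2⟩ : ∃ θ2 : B →ₐ[K] K'',
      θ2 = (IsScalarTower.toAlgHom K L0 K'').comp θ := ⟨_, rfl⟩
    have hθ2a : ∀ b, θ2 b = algebraMap L0 K'' (θ b) := fun b => by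
      rw [hθ2]
      rfl
    have hTB : ∀ b : B, T.T (algebraMap B K' b) (θ2 b) := by
      intro b
      obtain ⟨G', rfl⟩ := hπ b
      have h1 := sp_aeval_K T hTx G'
      have h2 : aeval (fun i => algebraMap L K' (xL i)) G' = algebraMap B K' (aeval x G') := by
        rw [IsScalarTower.algebraMap_apply B L K', ← hxπ]
        exact (comp_aeval_apply (φ := IsScalarTower.toAlgHom K L K') xL G').symm
      have h3 : aeval (fun i => algebraMap L0 K'' (z i)) G' = θ2 (aeval x G') := by
        rw [hθ2a, ← hzπ]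
        exact (comp_aeval_apply (φ := IsScalarTower.toAlgHom K L0 K'') z G').symm
      rwa [h2, h3] at h1
    have hTP : ∀ P : MvPolynomial (Fin (n + 1)) B,
        T.T (eval₂ (algebraMap B K') u P) (eval₂ (θ2 : B →+* K'') y' P) := by
      intro P
      induction P using MvPolynomial.induction_on with
      | C b =>
        rw [eval₂_C, eval₂_C]
        exact hTB b
      | add p q hp hq =>
        rw [eval₂_add, eval₂_add]
        exact T.add hp hq
      | mul_X p i hp =>
        rw [eval₂_mul, eval₂_mul, eval₂_X, eval₂_X]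
        exact T.mul hp (hyu i)
    have hspec : ∀ P : MvPolynomial (Fin (n + 1)) B, (∃ e, P.IsHomogeneous e) →
        eval₂ (algebraMap B K') y P = 0 → eval₂ (θ2 : B →+* K'') y' P = 0 := by
      rintro P ⟨e, he⟩ h0
      refine T.eq_zero (hTP P) ?_
      rw [hu, eval₂_scale _ he, h0, mul_zero]
    have hyX' : ∀ p, aeval y' (eqs V (fun c : {a // a ∈ C} => F c.1) p) = 0 := by
      have hsc : ∀ (p : MvPolynomial (Fin (n + 1)) K) (e : ℕ), p.IsHomogeneous e →
          val y p = 0 → val y' p = 0 := by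
        intro p e he h0
        refine T.eq_zero (T.val hyu p) ?_
        have h2 := val_smul he (y j0)⁻¹ y
        rw [h0, mul_zero] at h2
        rw [hu]
        exact h2
      rintro (⟨f, hf⟩ | ⟨a, ha⟩)
      · obtain ⟨e, he⟩ := hVh f hf
        exact hsc _ e (he.map _) (hyX (Sum.inl ⟨f, hf⟩))
      · exact hsc _ (d a) (hF a) (hyX (Sum.inr ⟨a, ha⟩))
    have hfr : Module.finrank L0 K'' ≤ r := hrk.trans hr
    -- the polar places
    have hfin : {P : Place k L0 | ∃ i, P.ord (θ (x i)) < 0}.Finite := by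
      have h1 : (⋃ i : Fin N, {P : Place k L0 | P.ord (θ (x i)) ≠ 0}).Finite :=
        Set.finite_iUnion fun i => finite_support _
      refine h1.subset fun P hP => ?_
      obtain ⟨i, hi⟩ := hP
      exact Set.mem_iUnion.2 ⟨i, hi.ne⟩
    obtain ⟨S, hS⟩ : ∃ S : Finset (Place k L0), S = hfin.toFinset := ⟨_, rfl⟩
    have hSc : ({P : Place k L0 | ∃ i, P.ord (θ (x i)) < 0}.ncard : ℤ) = S.card := by
      rw [hS, Set.ncard_eq_toFinset_card _ hfin]
    rw [hSc]
    have hSm : ∀ P, P ∉ S → ∀ i, 0 ≤ P.ord (θ (x i)) := by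
      intro P hP i
      rw [hS, Set.Finite.mem_toFinset] at hP
      by_contra hcon
      exact hP ⟨i, not_le.1 hcon⟩
    obtain ⟨S2, hS2, hS2c⟩ := card_over (k := k) (F := K) (L := L0) S0
    have h0 := hcover L0 K'' hfr y' hyne hyX' (S ∪ S2) (fun Q hQ b hb hb0 => by
      rw [Finset.mem_union, not_or] at hQ
      have hQ0 : under K Q ∉ S0 := by
        intro hmem
        apply hQ.2
        apply hS2
        rwa [under_under Q]
      obtain ⟨j1, hj1, hj1'⟩ := exists_pord Q hyne
      obtain ⟨v, hv⟩ : ∃ v : Fin (n + 1) → K'', v = fun j => (y' j1)⁻¹ * y' j := ⟨_, rfl⟩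
      have hv0 : v j1 = 1 := by
        rw [hv]
        exact inv_mul_cancel₀ hj1
      have hvG : ∀ j, Ge Q 0 (v j) := by
        intro j
        have h0 : Ge Q (Q.ord (y' j1)⁻¹) (y' j1)⁻¹ := Or.inr le_rfl
        have h1 := h0.mul (ge_pord Q y' j)
        rw [Q.ord_inv, hj1'] at h1
        rw [hv]
        exact h1.mono (by omega)
      have hvspec : ∀ P : MvPolynomial (Fin (n + 1)) B, (∃ e, P.IsHomogeneous e) →
          eval₂ (algebraMap B K') y P = 0 → eval₂ (θ2 : B →+* K'') v P = 0 := by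
        rintro P ⟨e, he⟩ h0
        rw [hv, eval₂_scale _ he, hspec P ⟨e, he⟩ h0, mul_zero]
      have h1 := hGb ⟨b, hb⟩ K'' θ2 v hvspec j1
      rw [hv0, one_pow] at h1
      have h2 : Ge Q 0 (aeval (Sum.elim (fun i => θ2 (x i)) v) (Gb ⟨b, hb⟩ j1)) := by
        refine hSb (⟨b, hb⟩, j1) K'' Q (fun hmem => hQ0 ?_) _ ?_
        · rw [hS0]
          exact Finset.mem_biUnion.2 ⟨_, Finset.mem_univ _, hmem⟩
        · rintro (i | j)
          · rw [Sum.elim_inl, hθ2a]
            have h3 := hSm _ hQ.1 i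
            right
            rw [ord_under]
            exact mul_nonneg (Int.natCast_nonneg _) h3
          · exact hvG j
      have h3 : aeval v (F b) = (y' j1)⁻¹ ^ d b * aeval y' (F b) := by
        rw [hv]
        exact val_smul (hF b) _ _
      have h4 : aeval v (F b) ≠ 0 := by
        rw [h3]
        exact mul_ne_zero (pow_ne_zero _ (inv_ne_zero hj1)) hb0
      have h5 : aeval (Sum.elim (fun i => θ2 (x i)) v) (Gb ⟨b, hb⟩ j1) ≠ 0 := by
        intro h6
        rw [h6, zero_mul] at h1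
        exact one_ne_zero h1
      have h6 := congrArg Q.ord h1
      rw [Q.ord_one, Q.ord_mul h5 h4] at h6
      have h7 := h2.resolve_left h5
      have h8 := congrArg Q.ord h3
      rw [Q.ord_mul (pow_ne_zero _ (inv_ne_zero hj1)) hb0, Q.ord_pow, Q.ord_inv] at h8
      rw [← hj1']
      linarith)
    have hp0 : 0 ≤ pht k y' := Pool.Agent.Y221.AH.pht_nonneg hyne
    have hcu : ((S ∪ S2).card : ℤ) ≤ S.card + S2.card := by
      exact_mod_cast Finset.card_union_le S S2
    obtain ⟨q, hq⟩ : ∃ q : ℤ, q = Module.finrank L0 K'' := ⟨_, rfl⟩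
    have hq0 : 0 < q := by
      rw [hq]
      exact_mod_cast Module.finrank_pos
    obtain ⟨D, hD⟩ : ∃ D : ℤ, D = Module.finrank K L0 := ⟨_, rfl⟩
    have hqD : (Module.finrank K K'' : ℤ) = D * q := by
      rw [hq, hD]
      exact_mod_cast (Module.finrank_mul_finrank K L0 K'').symm
    have h1 : pht k y' ≤ q * (canDeg k L0 + S.card + c0 * D) := by
      have h2 : (1 : ℤ) ≤ (∑ a, d a + C.card + 1 : ℕ) - 2 * m - 2 * (r : ℕ) := by
        push_cast
        have : (2 * m + 2 * r : ℤ) ≤ ∑ a, (d a : ℤ) + C.card := by exact_mod_cast hd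
        linarith
      have h3 : pht k y' ≤ ((∑ a, d a + C.card + 1 : ℕ) - 2 * m - 2 * (r : ℕ)) * pht k y' :=
        le_mul_of_one_le_left hp0 h2
      have h4 := h3.trans h0
      rw [hqD, ← hq] at h4
      rw [← hD] at hS2c
      have h5 : q * ((S ∪ S2).card : ℤ) ≤ q * (S.card + D * S0.card) :=
        mul_le_mul_of_nonneg_left (by linarith) hq0.le
      rw [hc0]
      linarith [show q * (canDeg k L0 + S.card + (S0.card + C1) * D) =
        q * canDeg k L0 + q * (S.card + D * S0.card) + D * q * C1 by ring,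
        show q * (canDeg k L0 + ((S ∪ S2).card : ℤ)) = q * canDeg k L0 +
          q * ((S ∪ S2).card : ℤ) by ring]
    have h2 : hgt k (algebraMap L0 K'' (z i)) ≤ Aa * pht k y' + Ba * Module.finrank K K'' :=
      halgs K'' T (fun ϑ hϑ => hTΘ _ ⟨ϑ, Or.inl hϑ, rfl⟩) y' hy' _ hTx i
    rw [Pool.Agent.W603.PV.hgt_algebraMap, hqD, ← hq] at h2
    have h4 : (Aa : ℤ) * pht k y' ≤ Aa * (q * (canDeg k L0 + S.card + c0 * D)) :=
      mul_le_mul_of_nonneg_left h1 (Nat.cast_nonneg _)
    have h5 : q * hgt k (z i) ≤ q * (Aa * (canDeg k L0 + S.card) + (Aa * c0 + Ba) * D) := by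
      linarith [show q * (Aa * (canDeg k L0 + S.card) + (Aa * c0 + Ba) * D) =
        (Aa : ℤ) * (q * (canDeg k L0 + S.card + c0 * D)) + Ba * (D * q) by ring]
    have h6 := le_of_mul_le_mul_left h5 hq0
    rw [hz, hD] at h6
    exact h6
  intro a
  obtain ⟨G', rfl⟩ := hπ a
  obtain ⟨A1, B1, hAB⟩ := hgt_poly (k := k) G'
  refine ⟨A1 * (N * Aa), A1 * (N * (Aa * c0 + Ba)) + B1, fun L0 _ _ _ _ _ θ hθJ => ?_⟩
  have h1 : θ (aeval x G') = aeval (fun i => θ (x i)) G' :=
    comp_aeval_apply (φ := θ) x G'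
  rw [h1]
  refine (hAB L0 (fun i => θ (x i))).trans ?_
  obtain ⟨Y, hY⟩ : ∃ Y : ℤ, Y = canDeg k L0 +
    {P : Place k L0 | ∃ i, P.ord (θ (x i)) < 0}.ncard := ⟨_, rfl⟩
  have h2 : ∑ i : Fin N, hgt k (θ (x i)) ≤
      N * (Aa * Y + (Aa * c0 + Ba) * Module.finrank K L0) := by
    have h3 : ∀ i ∈ Finset.univ, hgt k (θ (x i)) ≤
        Aa * Y + (Aa * c0 + Ba) * Module.finrank K L0 := by
      intro i _
      rw [hY]
      exact key L0 θ hθJ i
    refine (Finset.sum_le_sum h3).trans (le_of_eq ?_)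
    rw [Finset.sum_const, Finset.card_univ, Fintype.card_fin, nsmul_eq_mul]
  rw [← hY]
  have h3 := mul_le_mul_of_nonneg_left h2 (Int.natCast_nonneg A1)
  push_cast
  linarith [show (A1 : ℤ) * (N * (Aa * Y + (Aa * c0 + Ba) * Module.finrank K L0)) =
    A1 * (N * Aa) * Y + A1 * (N * (Aa * c0 + Ba)) * Module.finrank K L0 by ring]

end

end Pool.Agent.Q58.LG
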