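import Pool.Agent.Q58.LG.CorV

/-!
Vojta's height inequality for the projective varieties over a function field with a correspondence
of small degree to a generic pair, which is proper over the complement of a hypersurface section.
-/

set_option autoImplicit false
set_option linter.overlappingInstances false
set_option linter.unusedSectionVars false

open MvPolynomial FF Pool.Agent.W603.LV
open Pool.Agent.W602.GT hiding lin
open Pool.Agent.W603.PV
open Pool.Agent.TH145.MG (DimLE)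
open Pool.Agent.TH145.GC (Cf)
open Pool.Agent.Q58.FI (eqs)
open Pool.Agent.TH466.QG (Sp spread trdeg_alg adjoin_norm)

namespace Pool.Agent.Q58.LG

/-- The bihomogeneous polynomials in two groups of variables. -/
def Bihom {K : Type} [Field K] {M n : ℕ} (P : MvPolynomial (Fin (M + 1) ⊕ Fin (n + 1)) K) : Prop :=
  ∃ a b : ℕ, ∀ α ∈ P.support, ∑ i, α (Sum.inl i) = a ∧ ∑ j, α (Sum.inr j) = b

/-- The point `(w, p)` of `ℙᴹ × ℙⁿ` over an extension field `Ω` of `K` is in the closure over `K` of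
the point `(z, y)`: all bihomogeneous polynomials over `K` which vanish at `(z, y)` vanish at
`(w, p)`. -/
def InClosureP {K L K' Ω : Type} [Field K] [Field L] [Field K'] [Algebra K K'] [Algebra L K']
    [Field Ω] [Algebra K Ω] {M n : ℕ} (z : Fin (M + 1) → L) (y : Fin (n + 1) → K')
    (w : Fin (M + 1) → Ω) (p : Fin (n + 1) → Ω) : Prop :=
  w ≠ 0 ∧ p ≠ 0 ∧ ∀ P : MvPolynomial (Fin (M + 1) ⊕ Fin (n + 1)) K, Bihom P →
    aeval (Sum.elim (fun i => algebraMap L K' (z i)) y) P = 0 → aeval (Sum.elim w p) P = 0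

theorem bihom_scale {K : Type} [Field K] {M n : ℕ}
    {P : MvPolynomial (Fin (M + 1) ⊕ Fin (n + 1)) K} (hP : Bihom P) :
    ∃ a b : ℕ, ∀ (E : Type) [Field E] [Algebra K E] (s t : E) (w : Fin (M + 1) → E)
      (p : Fin (n + 1) → E), aeval (Sum.elim (fun i => s * w i) (fun j => t * p j)) P =
        s ^ a * t ^ b * aeval (Sum.elim w p) P := by
  obtain ⟨a, b, h⟩ := hP
  refine ⟨a, b, fun E _ _ s t w p => ?_⟩
  rw [aeval_def, aeval_def, eval₂_eq', eval₂_eq', Finset.mul_sum]
  refine Finset.sum_congr rfl fun α hα => ?_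
  rw [Fintype.prod_sum_type, Fintype.prod_sum_type]
  simp only [Sum.elim_inl, Sum.elim_inr, mul_pow, Finset.prod_mul_distrib,
    Finset.prod_pow_eq_pow_sum]
  rw [(h α hα).1, (h α hα).2]
  ring

theorem bihom_zero {K : Type} [Field K] {M n : ℕ}
    {P : MvPolynomial (Fin (M + 1) ⊕ Fin (n + 1)) K} (hP : Bihom P) {E : Type} [Field E]
    [Algebra K E] (s t : E) {w : Fin (M + 1) → E} {p : Fin (n + 1) → E}
    (h : aeval (Sum.elim w p) P = 0) :
    aeval (Sum.elim (fun i => s * w i) (fun j => t * p j)) P = 0 := by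
  obtain ⟨a, b, hab⟩ := bihom_scale hP
  rw [hab, h, mul_zero]

/-- Homogenization. -/
theorem exists_hmg {K : Type} [Field K] {M : ℕ} (i0 : Fin (M + 1))
    (G : MvPolynomial (Fin (M + 1)) K) : ∃ (D : ℕ) (G' : MvPolynomial (Fin (M + 1)) K),
      G'.IsHomogeneous D ∧ ∀ (E : Type) [Field E] [Algebra K E] (v : Fin (M + 1) → E),
        v i0 ≠ 0 → aeval v G' = v i0 ^ D * aeval (fun i => v i / v i0) G := by
  classical
  refine ⟨G.totalDegree, ∑ e ∈ Finset.range (G.totalDegree + 1),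
    X i0 ^ (G.totalDegree - e) * homogeneousComponent e G, ?_, fun E _ _ v hv => ?_⟩
  · refine IsHomogeneous.sum _ _ _ fun e he => ?_
    have h1 : (X i0 ^ (G.totalDegree - e) : MvPolynomial (Fin (M + 1)) K).IsHomogeneous
        (1 * (G.totalDegree - e)) := (isHomogeneous_X K i0).pow _
    have h2 := h1.mul (homogeneousComponent_isHomogeneous e G)
    have h3 : 1 * (G.totalDegree - e) + e = G.totalDegree := by
      have := Finset.mem_range.1 he
      omega
    rwa [h3] at h2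
  · have hsum : aeval (fun i => v i / v i0) G = ∑ e ∈ Finset.range (G.totalDegree + 1),
        aeval (fun i => v i / v i0) (homogeneousComponent e G) := by
      conv_lhs => rw [← sum_homogeneousComponent G]
      rw [map_sum]
    rw [map_sum, hsum, Finset.mul_sum]
    refine Finset.sum_congr rfl fun e he => ?_
    rw [map_mul, map_pow, aeval_X]
    have h1 : aeval (fun i => v i0 * (v i / v i0)) (homogeneousComponent e G) =
        v i0 ^ e * aeval (fun i => v i / v i0) (homogeneousComponent e G) :=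
      val_smul (homogeneousComponent_isHomogeneous e G) _ _
    have h2 : (fun i => v i0 * (v i / v i0)) = v := by
      funext i
      rw [mul_div_cancel₀ _ hv]
    rw [h2] at h1
    have h3 : v i0 ^ G.totalDegree = v i0 ^ (G.totalDegree - e) * v i0 ^ e := by
      rw [← pow_add]
      congr 1
      have := Finset.mem_range.1 he
      omega
    rw [h1, h3]
    ring

section

variable {k0 k K0 K : Type} [Field k0] [Field k] [Field K0] [Field K] [IsAlgClosed k]
  [CharZero k] [Algebra k0 k] [Algebra k K] [Algebra k0 K] [IsScalarTower k0 k K]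
  [Algebra k0 K0] [Algebra K0 K] [IsScalarTower k0 K0 K] [IsFF k K] {n m : ℕ}
  {V : Set (MvPolynomial (Fin (n + 1)) K0)}
  {A : Type} [Fintype A] {d : A → ℕ} {F : A → MvPolynomial (Fin (n + 1)) K}
  {L K' : Type} [Field L] [Field K'] [Algebra K L] [Algebra K K'] [Algebra L K']
  [IsScalarTower K L K'] [FiniteDimensional L K']

/-- **Vojta's height inequality for the projective varieties over a function field with a
correspondence to a generic pair.** -/
theorem vojta_proj (hfg : ∃ S : Finset K0, IntermediateField.adjoin k0 (S : Set K0) = ⊤)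
    (C : Finset A) (hVh : ∀ f ∈ V, ∃ e, f.IsHomogeneous e) (hV : DimLE K0 V m) {r : ℕ}
    (hd : 2 * m + 2 * r ≤ ∑ a, d a + C.card) (hF : ∀ a, (F a).IsHomogeneous (d a))
    (hgen : AlgebraicIndependent K0 fun p : Cf n d => (F p.1).coeff p.2.1)
    {M : ℕ} {z : Fin (M + 1) → L} (hz : z ≠ 0) (hzL : coords K z = ⊤)
    {h : ℕ} {H : MvPolynomial (Fin (M + 1)) K} (hH : H.IsHomogeneous h)
    (hr : Module.finrank L K' ≤ r) {y : Fin (n + 1) → K'} (hy : y ≠ 0)
    (hyX : ∀ p, val y (eqs V (fun c : {a // a ∈ C} => F c.1) p) = 0)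
    (halg : Algebra.IsAlgebraic (coords K y) K')
    (hbd : ∀ b, b ∉ C → ∀ (w : Fin (M + 1) → AlgebraicClosure K)
      (p : Fin (n + 1) → AlgebraicClosure K), InClosureP (K := K) z y w p → aeval w H ≠ 0 →
        aeval p (F b) ≠ 0) :
    ∃ G : MvPolynomial (Fin (M + 1)) K, (∃ e, G.IsHomogeneous e) ∧ aeval z G ≠ 0 ∧
      ∃ A0 C0 : ℕ, ∀ (L0 : Type) [Field L0] [Algebra k L0] [Algebra K L0] [IsScalarTower k K L0]
        [FiniteDimensional K L0] (w : Fin (M + 1) → L0), w ≠ 0 →
        (∀ P : MvPolynomial (Fin (M + 1)) K, (∃ e, P.IsHomogeneous e) → aeval z P = 0 →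
          aeval w P = 0) → aeval w G ≠ 0 → aeval w H ≠ 0 →
        pht k w ≤ A0 * (canDeg k L0 +
          {P : Place k L0 | h * pord P w < P.ord (aeval w H)}.ncard) +
            C0 * Module.finrank K L0 := by
  classical
  have hK : CharZero K := charZero_of_injective_algebraMap (algebraMap k K).injective
  obtain ⟨i0, hi0⟩ := Function.ne_iff.1 hz
  have hi0' : z i0 ≠ 0 := hi0
  obtain ⟨xL, hxL⟩ : ∃ xL : Fin (M + 1) → L, xL = fun i => z i / z i0 := ⟨_, rfl⟩
  have hxtop : IntermediateField.adjoin K (Set.range xL) = ⊤ := by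
    rw [hxL]
    exact adjoin_norm hzL hi0'
  obtain ⟨j0, hj0⟩ := Function.ne_iff.1 hy
  have hj0' : y j0 ≠ 0 := hj0
  -- the normalized point
  obtain ⟨u, hu⟩ : ∃ u : Fin (n + 1) → K', u = fun j => (y j0)⁻¹ * y j := ⟨_, rfl⟩
  have hu1 : u j0 = 1 := by
    rw [hu]
    exact inv_mul_cancel₀ hj0'
  obtain ⟨M0, hM0⟩ : ∃ M0 : IntermediateField K K',
    M0 = IntermediateField.adjoin K (Set.range u) := ⟨_, rfl⟩
  have huM : ∀ j, u j ∈ M0 := fun j => by
    rw [hM0]
    exact IntermediateField.subset_adjoin K _ ⟨j, rfl⟩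
  have hco : coords K y ≤ M0 := by
    unfold coords
    rw [IntermediateField.adjoin_le_iff]
    rintro _ ⟨i, j, hj, rfl⟩
    have h2 : y i / y j = u i / u j := by
      rw [hu]
      simp only
      rw [mul_div_mul_left _ _ (inv_ne_zero hj0')]
    rw [h2]
    exact div_mem (huM i) (huM j)
  have halgM : Algebra.IsAlgebraic M0 K' := by
    refine ⟨fun t => ?_⟩
    exact Pool.Agent.TH145.MF.alg_mono (F1 := (coords K y).toSubfield)
      (F2 := M0.toSubfield) (fun z hz => hco hz) (halg.isAlgebraic t)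
  obtain ⟨u0, hu0⟩ : ∃ u0 : Fin (n + 1) → M0, ∀ j, (u0 j : K') = u j :=
    ⟨fun j => ⟨u j, huM j⟩, fun _ => rfl⟩
  have hu01 : u0 j0 = 1 := Subtype.ext (by rw [hu0, hu1]; rfl)
  have hcoM : coords K u0 = ⊤ := by
    have h1 : IntermediateField.adjoin K (Set.range u0) = ⊤ := by
      subst hM0
      apply IntermediateField.lift_injective
      rw [IntermediateField.lift_adjoin, IntermediateField.lift_top]
      congr 1
      ext t
      constructor
      · rintro ⟨_, ⟨j, rfl⟩, rfl⟩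
        exact ⟨j, (hu0 j).symm⟩
      · rintro ⟨j, rfl⟩
        exact ⟨u0 j, ⟨j, rfl⟩, hu0 j⟩
    rw [_root_.eq_top_iff, ← h1, IntermediateField.adjoin_le_iff]
    rintro _ ⟨j, rfl⟩
    refine IntermediateField.subset_adjoin K _ ⟨j, j0, ?_, ?_⟩
    · rw [hu01]
      exact one_ne_zero
    · rw [hu01, div_one]
  obtain ⟨Θ2, Aa, Ba, hΘ2, halgs⟩ := alg_hgt_K (k := k) (K' := K') hcoM (i0 := j0)
    (by rw [hu01]; exact one_ne_zero) (fun i : Fin (M + 1) => algebraMap L K' (xL i))
  obtain ⟨G, hG, hspread⟩ := spread (K' := K') hxtop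
    (Θ := algebraMap M0 K' '' (Θ2 ∪ Set.range u0)) ((hΘ2.union (Set.finite_range u0)).image _)
  obtain ⟨DG, GG, hGGh, hGG⟩ := exists_hmg i0 G
  obtain ⟨C1, hC1, hcover⟩ := cover_K (k0 := k0) (k := k) hfg r C V hVh hV hF hgen
  -- the Nullstellensatz
  let κ : Type := {P : MvPolynomial (Fin (M + 1) ⊕ Fin (n + 1)) K // Bihom P ∧
    aeval (Sum.elim (fun i => algebraMap L K' (z i)) y) P = 0}
  choose Mb Gb hGb using fun b : {a // a ∉ C} × (Fin (M + 1) × Fin (n + 1)) =>
    null_S (K := K) (fun P : κ => P.1) (rename Sum.inr (F b.1.1))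
      (X (Sum.inl b.2.1) * X (Sum.inr b.2.2) * rename Sum.inl H) (fun s hs hsf => by
        by_contra hne
        rw [map_mul, map_mul, aeval_X, aeval_X, aeval_rename] at hne
        have hne1 := left_ne_zero_of_mul hne
        have hst : Sum.elim (fun i => s (Sum.inl i)) (fun j => s (Sum.inr j)) = s := by
          funext i
          rcases i with i | i <;> rfl
        refine hbd b.1.1 b.1.2 (fun i => s (Sum.inl i)) (fun j => s (Sum.inr j))
          ⟨fun h0 => left_ne_zero_of_mul hne1 (congrFun h0 b.2.1),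
            fun h0 => right_ne_zero_of_mul hne1 (congrFun h0 b.2.2), fun P hP hP0 => ?_⟩
          (right_ne_zero_of_mul hne) ?_
        · rw [hst]
          exact hs ⟨P, hP, hP0⟩
        · rw [aeval_rename] at hsf
          exact hsf)
  choose Sb hSb using fun p : {a // a ∉ C} × (Fin (M + 1) × Fin (n + 1)) =>
    reg_poly (k := k) (Gb p)
  obtain ⟨S0, hS0⟩ : ∃ S0 : Finset (Place k K), S0 = Finset.univ.biUnion Sb := ⟨_, rfl⟩
  obtain ⟨c0, hc0⟩ : ∃ c0 : ℕ, (c0 : ℤ) = S0.card + C1 :=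
    ⟨S0.card + C1.toNat, by push_cast; rw [Int.toNat_of_nonneg hC1]⟩
  refine ⟨X i0 * GG, ⟨1 + DG, (isHomogeneous_X K i0).mul hGGh⟩, ?_, (M + 1) * Aa,
    (M + 1) * (Aa * c0 + Ba), ?_⟩
  · rw [map_mul, aeval_X, hGG L z hi0', ← hxL]
    exact mul_ne_zero hi0' (mul_ne_zero (pow_ne_zero _ hi0') hG)
  intro L0 _ _ _ _ _ w hw hwX hwG hwH
  have hffL : IsFF k L0 := isFF_of_finite (F := K)
  rw [map_mul, aeval_X] at hwG
  have hwi : w i0 ≠ 0 := left_ne_zero_of_mul hwG
  have hwG' := right_ne_zero_of_mul hwG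
  rw [hGG L0 w hwi] at hwG'
  obtain ⟨z', hz'⟩ : ∃ z' : Fin (M + 1) → L0, z' = fun i => w i / w i0 := ⟨_, rfl⟩
  rw [← hz'] at hwG'
  have hz'G : aeval z' G ≠ 0 := right_ne_zero_of_mul hwG'
  have hz'1 : z' i0 = 1 := by
    rw [hz']
    exact div_self hwi
  have hwz : w = fun i => w i0 * z' i := by
    funext i
    rw [hz']
    exact (mul_div_cancel₀ _ hwi).symm
  have hz'e : ∃ i, z' i ≠ 0 := ⟨i0, by rw [hz'1]; exact one_ne_zero⟩
  have hwH' : aeval w H = w i0 ^ h * aeval z' H := by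
    conv_lhs => rw [hwz]
    exact val_smul hH _ _
  have hz'H : aeval z' H ≠ 0 := fun h0 => hwH (by rw [hwH', h0, mul_zero])
  have hset : {P : Place k L0 | h * pord P w < P.ord (aeval w H)} =
      {P : Place k L0 | h * pord P z' < P.ord (aeval z' H)} := by
    ext P
    have h1 : pord P w = P.ord (w i0) + pord P z' := by
      conv_lhs => rw [hwz]
      exact pord_scale P hz'e hwi
    have h2 : P.ord (aeval w H) = h * P.ord (w i0) + P.ord (aeval z' H) := by
      rw [hwH', P.ord_mul (pow_ne_zero _ hwi) hz'H, P.ord_pow]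
    change (h : ℤ) * pord P w < P.ord (aeval w H) ↔ (h : ℤ) * pord P z' < P.ord (aeval z' H)
    rw [h1, h2, mul_add]
    exact add_lt_add_iff_left _
  have hpw : pht k w = pht k z' := by
    conv_lhs => rw [hwz]
    exact pht_scale hz'e hwi
  rw [hset, hpw]
  obtain ⟨K'', i1', i2', i3', i4', i5', hrk, T, hTx, hTΘ⟩ := hspread L0 z'
    (fun G' hG' => by
      obtain ⟨D', G'', hG''h, hG''⟩ := exists_hmg i0 G'
      have h1 : aeval z G'' = 0 := by
        rw [hG'' L z hi0', ← hxL, hG', mul_zero]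
      have h2 := hwX G'' ⟨D', hG''h⟩ h1
      rw [hG'' L0 w hwi, ← hz'] at h2
      exact (mul_eq_zero.1 h2).resolve_left (pow_ne_zero _ hwi)) hz'G
  let _ : Algebra k K'' := ((algebraMap K K'').comp (algebraMap k K)).toAlgebra
  have hst1 : IsScalarTower k K K'' := IsScalarTower.of_algebraMap_eq' rfl
  have hst2 : IsScalarTower k L0 K'' := by
    refine IsScalarTower.of_algebraMap_eq fun a => ?_
    rw [IsScalarTower.algebraMap_apply k K L0, ← IsScalarTower.algebraMap_apply K L0 K'',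
      ← IsScalarTower.algebraMap_apply k K K'']
  have hfdK : FiniteDimensional K K'' := FiniteDimensional.trans K L0 K''
  have hTy : ∀ i, ∃ t, T.T (algebraMap M0 K' (u0 i)) t := fun i =>
    hTΘ _ ⟨u0 i, Or.inr ⟨i, rfl⟩, rfl⟩
  choose y' hy' using hTy
  have hff : IsFF k K'' := isFF_of_finite (F := L0)
  have hyu : ∀ j, T.T (u j) (y' j) := fun j => by
    rw [← hu0]
    exact hy' j
  have hy1 : y' j0 = 1 := by
    refine T.ext (hyu j0) ?_
    rw [hu1]
    exact T.one
  have hyne : ∃ j, y' j ≠ 0 := ⟨j0, by rw [hy1]; exact one_ne_zero⟩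
  -- the point over `K''`
  obtain ⟨z2, hz2⟩ : ∃ z2 : Fin (M + 1) → K'', z2 = fun i => algebraMap L0 K'' (z' i) := ⟨_, rfl⟩
  have hz2e : ∃ i, z2 i ≠ 0 := ⟨i0, by rw [hz2]; simp only; rw [hz'1, map_one]; exact one_ne_zero⟩
  have hspec : ∀ P : MvPolynomial (Fin (M + 1) ⊕ Fin (n + 1)) K, Bihom P →
      aeval (Sum.elim (fun i => algebraMap L K' (z i)) y) P = 0 →
      aeval (Sum.elim z2 y') P = 0 := by
    intro P hP h0
    have h1 := bihom_zero hP (algebraMap L K' (z i0))⁻¹ (y j0)⁻¹ h0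
    have h2 : (fun i => (algebraMap L K' (z i0))⁻¹ * algebraMap L K' (z i)) =
        fun i => algebraMap L K' (xL i) := by
      funext i
      rw [hxL]
      simp only
      rw [map_div₀, div_eq_mul_inv, mul_comm]
    rw [h2, ← hu] at h1
    refine T.eq_zero (sp_aeval_K T (x := Sum.elim (fun i => algebraMap L K' (xL i)) u)
      (z := Sum.elim z2 y') ?_ P) h1
    rintro (i | j)
    · rw [Sum.elim_inl, Sum.elim_inl, hz2]
      exact hTx i
    · exact hyu j
  have hyX' : ∀ p, aeval y' (eqs V (fun c : {a // a ∈ C} => F c.1) p) = 0 := by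
    have hsc : ∀ (p : MvPolynomial (Fin (n + 1)) K) (e : ℕ), p.IsHomogeneous e →
        val y p = 0 → val y' p = 0 := by
      intro p e he h0
      refine T.eq_zero (T.val hyu p) ?_
      have h2 := val_smul he (y j0)⁻¹ y
      rw [h0, mul_zero] at h2
      rw [hu]
      exact h2
    rintro (⟨f, hf⟩ | ⟨a, ha⟩)
    · obtain ⟨e, he⟩ := hVh f hf
      exact hsc _ e (he.map _) (hyX (Sum.inl ⟨f, hf⟩))
    · exact hsc _ (d a) (hF a) (hyX (Sum.inr ⟨a, ha⟩))
  have hfr : Module.finrank L0 K'' ≤ r := hrk.trans hr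
  -- the places where the point meets the boundary
  have hfin : {P : Place k L0 | h * pord P z' < P.ord (aeval z' H)}.Finite :=
    meets_finite (k := k) (K := K) (h := h) (H := H) hz'e
  obtain ⟨S, hS⟩ : ∃ S : Finset (Place k L0), S = hfin.toFinset := ⟨_, rfl⟩
  have hSc : ({P : Place k L0 | h * pord P z' < P.ord (aeval z' H)}.ncard : ℤ) = S.card := by
    rw [hS, Set.ncard_eq_toFinset_card _ hfin]
  rw [hSc]
  have hSm : ∀ P, P ∉ S → P.ord (aeval z' H) ≤ h * pord P z' := by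
    intro P hP
    rw [hS, Set.Finite.mem_toFinset] at hP
    exact not_lt.1 hP
  obtain ⟨S2, hS2, hS2c⟩ := card_over (k := k) (F := K) (L := L0) S0
  have h0 := hcover L0 K'' hfr y' hyne hyX' (S ∪ S2) (fun Q hQ b hb hb0 => by
    rw [Finset.mem_union, not_or] at hQ
    have hQ0 : under K Q ∉ S0 := by
      intro hmem
      apply hQ.2
      apply hS2
      rwa [under_under Q]
    obtain ⟨j1, hj1, hj1'⟩ := exists_pord Q hyne
    obtain ⟨i1, hi1, hi1'⟩ := exists_pord Q hz2e
    have hgev : ∀ {s : ℕ} (f : Fin (s + 1) → K'') (l : Fin (s + 1)), f l ≠ 0 →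
        Q.ord (f l) = pord Q f → ∀ j, Ge Q 0 ((f l)⁻¹ * f j) := by
      intro s f l hl hl' j
      have h0 : Ge Q (Q.ord (f l)⁻¹) (f l)⁻¹ := Or.inr le_rfl
      have h1 := h0.mul (ge_pord Q f j)
      rw [Q.ord_inv, hl'] at h1
      exact h1.mono (by omega)
    obtain ⟨v, hv⟩ : ∃ v : Fin (n + 1) → K'', v = fun j => (y' j1)⁻¹ * y' j := ⟨_, rfl⟩
    obtain ⟨z3, hz3⟩ : ∃ z3 : Fin (M + 1) → K'', z3 = fun i => (z2 i1)⁻¹ * z2 i := ⟨_, rfl⟩
    have hv0 : v j1 = 1 := by
      rw [hv]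
      exact inv_mul_cancel₀ hj1
    have hz30 : z3 i1 = 1 := by
      rw [hz3]
      exact inv_mul_cancel₀ hi1
    have hz3H : aeval z3 H = (z2 i1)⁻¹ ^ h * aeval z2 H := by
      rw [hz3]
      exact val_smul hH _ _
    have hz2H : aeval z2 H = algebraMap L0 K'' (aeval z' H) := by
      have h2 := MvPolynomial.aeval_algebraMap_apply (R := K) K'' z' H
      rw [← h2, hz2]
      rfl
    have hz2H0 : aeval z2 H ≠ 0 := by
      rw [hz2H]
      exact (map_ne_zero _).2 hz'H
    have hz3H0 : aeval z3 H ≠ 0 := by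
      rw [hz3H]
      exact mul_ne_zero (pow_ne_zero _ (inv_ne_zero hi1)) hz2H0
    have hordH : Q.ord (aeval z3 H) ≤ 0 := by
      have h1 := hSm _ hQ.1
      have h2 : Q.ord (aeval z2 H) = ram L0 Q * (under L0 Q).ord (aeval z' H) := by
        rw [hz2H, ord_under]
      have h3 : pord Q z2 = ram L0 Q * pord (under L0 Q) z' := by
        rw [hz2]
        exact Pool.Agent.Y221.AH.pord_under (K := L0) Q hz'e
      have h4 := mul_le_mul_of_nonneg_left h1 (Int.natCast_nonneg (ram L0 Q))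
      rw [hz3H, Q.ord_mul (pow_ne_zero _ (inv_ne_zero hi1)) hz2H0, Q.ord_pow, Q.ord_inv, hi1', h2,
        h3]
      linarith [show (ram L0 Q : ℤ) * (h * pord (under L0 Q) z') =
        h * (ram L0 Q * pord (under L0 Q) z') by ring]
    have h1 := hGb (⟨b, hb⟩, (i1, j1)) K'' (Sum.elim z3 v) (fun P => by
      rw [hz3, hv]
      exact bihom_zero P.2.1 _ _ (hspec P.1 P.2.1 P.2.2))
    rw [map_mul, map_mul, aeval_X, aeval_X, aeval_rename, aeval_rename] at h1
    change (z3 i1 * v j1 * aeval z3 H) ^ _ = _ * aeval v (F b) at h1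
    rw [hz30, hv0, one_mul, one_mul] at h1
    have h2 : Ge Q 0 (aeval (Sum.elim z3 v) (Gb (⟨b, hb⟩, (i1, j1)))) := by
      refine hSb (⟨b, hb⟩, (i1, j1)) K'' Q (fun hmem => hQ0 ?_) _ ?_
      · rw [hS0]
        exact Finset.mem_biUnion.2 ⟨_, Finset.mem_univ _, hmem⟩
      · rintro (i | j)
        · rw [Sum.elim_inl, hz3]
          exact hgev z2 i1 hi1 hi1' i
        · rw [Sum.elim_inr, hv]
          exact hgev y' j1 hj1 hj1' j
    have h3 : aeval v (F b) = (y' j1)⁻¹ ^ d b * aeval y' (F b) := by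
      rw [hv]
      exact val_smul (hF b) _ _
    have h4 : aeval v (F b) ≠ 0 := by
      rw [h3]
      exact mul_ne_zero (pow_ne_zero _ (inv_ne_zero hj1)) hb0
    have h5 : aeval (Sum.elim z3 v) (Gb (⟨b, hb⟩, (i1, j1))) ≠ 0 := by
      intro h6
      rw [h6, zero_mul] at h1
      exact pow_ne_zero _ hz3H0 h1
    have h6 := congrArg Q.ord h1
    rw [Q.ord_pow, Q.ord_mul h5 h4] at h6
    have h7 := h2.resolve_left h5
    have h8 := congrArg Q.ord h3
    rw [Q.ord_mul (pow_ne_zero _ (inv_ne_zero hj1)) hb0, Q.ord_pow, Q.ord_inv] at h8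
    have h9 : (Mb (⟨b, hb⟩, (i1, j1)) : ℤ) * Q.ord (aeval z3 H) ≤ 0 :=
      mul_nonpos_of_nonneg_of_nonpos (Int.natCast_nonneg _) hordH
    rw [← hj1']
    linarith)
  have hp0 : 0 ≤ pht k y' := Pool.Agent.Y221.AH.pht_nonneg hyne
  have hcu : ((S ∪ S2).card : ℤ) ≤ S.card + S2.card := by
    exact_mod_cast Finset.card_union_le S S2
  obtain ⟨q, hq⟩ : ∃ q : ℤ, q = Module.finrank L0 K'' := ⟨_, rfl⟩
  have hq0 : 0 < q := by
    rw [hq]
    exact_mod_cast Module.finrank_pos
  obtain ⟨D, hD⟩ : ∃ D : ℤ, D = Module.finrank K L0 := ⟨_, rfl⟩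
  have hqD : (Module.finrank K K'' : ℤ) = D * q := by
    rw [hq, hD]
    exact_mod_cast (Module.finrank_mul_finrank K L0 K'').symm
  have h1 : pht k y' ≤ q * (canDeg k L0 + S.card + c0 * D) := by
    have h2 : (1 : ℤ) ≤ (∑ a, d a + C.card + 1 : ℕ) - 2 * m - 2 * (r : ℕ) := by
      push_cast
      have : (2 * m + 2 * r : ℤ) ≤ ∑ a, (d a : ℤ) + C.card := by exact_mod_cast hd
      linarith
    have h3 : pht k y' ≤ ((∑ a, d a + C.card + 1 : ℕ) - 2 * m - 2 * (r : ℕ)) * pht k y' :=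
      le_mul_of_one_le_left hp0 h2
    have h4 := h3.trans h0
    rw [hqD, ← hq] at h4
    rw [← hD] at hS2c
    have h5 : q * ((S ∪ S2).card : ℤ) ≤ q * (S.card + D * S0.card) :=
      mul_le_mul_of_nonneg_left (by linarith) hq0.le
    rw [hc0]
    linarith [show q * (canDeg k L0 + S.card + (S0.card + C1) * D) =
      q * canDeg k L0 + q * (S.card + D * S0.card) + D * q * C1 by ring,
      show q * (canDeg k L0 + ((S ∪ S2).card : ℤ)) = q * canDeg k L0 +
        q * ((S ∪ S2).card : ℤ) by ring]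
  have key : ∀ i, hgt k (z' i) ≤ Aa * (canDeg k L0 + S.card) + (Aa * c0 + Ba) * D := by
    intro i
    have h2 : hgt k (algebraMap L0 K'' (z' i)) ≤ Aa * pht k y' + Ba * Module.finrank K K'' :=
      halgs K'' T (fun ϑ hϑ => hTΘ _ ⟨ϑ, Or.inl hϑ, rfl⟩) y' hy' _ hTx i
    rw [Pool.Agent.W603.PV.hgt_algebraMap, hqD, ← hq] at h2
    have h4 : (Aa : ℤ) * pht k y' ≤ Aa * (q * (canDeg k L0 + S.card + c0 * D)) :=
      mul_le_mul_of_nonneg_left h1 (Nat.cast_nonneg _)
    have h5 : q * hgt k (z' i) ≤ q * (Aa * (canDeg k L0 + S.card) + (Aa * c0 + Ba) * D) := by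
      linarith [show q * (Aa * (canDeg k L0 + S.card) + (Aa * c0 + Ba) * D) =
        (Aa : ℤ) * (q * (canDeg k L0 + S.card + c0 * D)) + Ba * (D * q) by ring]
    exact le_of_mul_le_mul_left h5 hq0
  have h2 := pht_le (k := k) z' (l := i0) (by rw [hz'1]; exact one_ne_zero)
  have h3 : ∑ j, hgt k (z' j / z' i0) ≤
      (M + 1 : ℕ) * (Aa * (canDeg k L0 + S.card) + (Aa * c0 + Ba) * D) := by
    have h4 : ∀ i ∈ Finset.univ, hgt k (z' i / z' i0) ≤
        Aa * (canDeg k L0 + S.card) + (Aa * c0 + Ba) * D := by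
      intro i _
      rw [hz'1, div_one]
      exact key i
    refine (Finset.sum_le_sum h4).trans (le_of_eq ?_)
    rw [Finset.sum_const, Finset.card_univ, Fintype.card_fin, nsmul_eq_mul]
  refine h2.trans (h3.trans (le_of_eq ?_))
  rw [hD]
  push_cast
  ring

end

end Pool.Agent.Q58.LG
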