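import Pool.Agent.Y221.FQ.Sub
import Pool.Agent.Y221.AH.Im

/-!
Orders of the values of forms under finite morphisms, at places of fields of any dimension.
-/

set_option autoImplicit false

open MvPolynomial FF Pool.Agent.W603.LV Pool.Agent.W603.PV

namespace Pool.Agent.Q58.LG

open Pool.Agent.W602.GT Pool.Agent.Y221.FQ

section

variable {K : Type} [Field K] [IsAlgClosed K] {n l M : ℕ} {κ μ : Type}
  {Ψ : κ → MvPolynomial (Fin (l + 1)) K} {Φ : μ → MvPolynomial (Fin (M + 1)) K}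
  {B : Fin (n + 1) → MvPolynomial (Fin (l + 1)) K}
  {G : Fin (M + 1) → MvPolynomial (Fin (l + 1)) K}

/-- The Nullstellensatz: a form which vanishes at the common zeros of forms `g j` on a variety is
nilpotent modulo the `g j`, with identities valid for the points over all fields. -/
theorem null {s : ℕ} (g : Fin s → MvPolynomial (Fin (l + 1)) K) (f : MvPolynomial (Fin (l + 1)) K)
    (h : ∀ x : Fin (l + 1) → K, (∀ e, val x (Ψ e) = 0) → (∀ j, val x (g j) = 0) → val x f = 0) :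
    ∃ (N : ℕ) (P : Fin s → MvPolynomial (Fin (l + 1)) K),
      ∀ (L : Type) [Field L] [Algebra K L] (x : Fin (l + 1) → L),
        (∀ e, val x (Ψ e) = 0) → val x f ^ N = ∑ j, val x (P j) * val x (g j) := by
  classical
  have h1 : f ∈ (Ideal.span (Set.range Ψ ∪ Set.range g)).radical := by
    rw [← vanishingIdeal_zeroLocus_eq_radical (K := K), mem_vanishingIdeal_iff]
    intro x hx
    rw [mem_zeroLocus_iff] at hx
    exact h x (fun e => hx _ (Ideal.subset_span (Or.inl ⟨e, rfl⟩)))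
      (fun j => hx _ (Ideal.subset_span (Or.inr ⟨j, rfl⟩)))
  obtain ⟨N, hN⟩ := Ideal.mem_radical_iff.1 h1
  have h2 : Ideal.span (Set.range Ψ ∪ Set.range g) =
      Ideal.span (Set.range Ψ) ⊔ Ideal.span (Set.range g) := Ideal.span_union _ _
  rw [h2, Submodule.mem_sup] at hN
  obtain ⟨u, hu, v, hv, huv⟩ := hN
  obtain ⟨P, hP⟩ := (Ideal.mem_span_range_iff_exists_fun).1 hv
  refine ⟨N, P, fun L _ _ x hx => ?_⟩
  have h3 : val x u = 0 := by
    have h4 : Ideal.span (Set.range Ψ) ≤ RingHom.ker (aeval x :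
        MvPolynomial (Fin (l + 1)) K →ₐ[K] L).toRingHom := by
      rw [Ideal.span_le]
      rintro _ ⟨e, rfl⟩
      exact hx e
    exact h4 hu
  have h5 := congrArg (val x) huv
  have h6 : val x (f ^ N) = val x f ^ N := map_pow (aeval x) _ _
  have h7 : val x (u + v) = val x u + val x v := map_add (aeval x) _ _
  have h8 : val x (∑ j, P j * g j) = ∑ j, val x (P j) * val x (g j) := by
    change aeval x (∑ j, P j * g j) = _
    rw [map_sum]
    exact Finset.sum_congr rfl fun j _ => map_mul (aeval x) _ _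
  rw [h6, h7, h3, zero_add, ← hP, h8] at h5
  exact h5.symm

omit [IsAlgClosed K] in
theorem im_zero {e : ℕ} (he : 1 ≤ e) (hG : ∀ j, (G j).IsHomogeneous e) : im G (0 : Fin (l + 1) → K) = 0 := by
  funext j
  have h3 := val_smul (hG j) (0 : K) (0 : Fin (l + 1) → K)
  have h4 : (fun i => (0 : K) * (0 : Fin (l + 1) → K) i) = 0 := by
    funext i
    simp
  rw [h4, zero_pow (by omega), zero_mul] at h3
  exact h3

/-- The equation of the boundary of the image is a multiple of the equations of the boundary. -/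
theorem exists_null (hG : ∃ e, 1 ≤ e ∧ ∀ j, (G j).IsHomogeneous e) {h : ℕ}
    {H : MvPolynomial (Fin (M + 1)) K} (hH : H.IsHomogeneous h) (hh : 1 ≤ h)
    {f : MvPolynomial (Fin (n + 1)) K}
    (hE : ∀ x ∈ Cone Ψ, val (im G x) H ≠ 0 → val (im B x) f ≠ 0) :
    ∃ (N : ℕ) (P : MvPolynomial (Fin (l + 1)) K),
      ∀ (L : Type) [Field L] [Algebra K L] (x : Fin (l + 1) → L),
        (∀ e, val x (Ψ e) = 0) → val (im G x) H ^ N = val (im B x) f * val x P := by
  obtain ⟨eG, heG, hGe⟩ := hG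
  obtain ⟨N, P, hP⟩ := null (Ψ := Ψ) (fun _ : Fin 1 => aeval B f) (aeval G H) (by
    intro x hxΨ hxf
    rw [← val_im]
    have hxf' : val (im B x) f = 0 := by
      rw [val_im]
      exact hxf 0
    by_cases hx0 : x = 0
    · rw [hx0, im_zero heG hGe]
      have h2 := val_smul hH (0 : K) (0 : Fin (M + 1) → K)
      have h4 : (fun i => (0 : K) * (0 : Fin (M + 1) → K) i) = 0 := by
        funext i
        simp
      rwa [h4, zero_pow (by omega), zero_mul] at h2
    · by_contra hne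
      exact hE x ⟨hx0, hxΨ⟩ hne hxf')
  refine ⟨N, P 0, fun L _ _ x hx => ?_⟩
  have h1 := hP L x hx
  rw [Fin.sum_univ_one, ← val_im, ← val_im] at h1
  rw [h1, mul_comm]

omit [IsAlgClosed K] in
/-- scaled coordinates at a place -/
theorem scaled (hΨ : ∀ e, IsForm (Ψ e)) {E : Type} [Field E] [Algebra K E] {u : Fin (l + 1) → E}
    (hu : ∃ j, u j ≠ 0) (huΨ : ∀ e, val u (Ψ e) = 0) (Q : Place K E) :
    ∃ (j0 : Fin (l + 1)) (v : Fin (l + 1) → E), u j0 ≠ 0 ∧ Q.ord (u j0) = pord Q u ∧ v j0 = 1 ∧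
      u = (fun j => u j0 * v j) ∧ (∀ e, val v (Ψ e) = 0) ∧
      ∀ p : MvPolynomial (Fin (l + 1)) K, Ge Q 0 (val v p) := by
  obtain ⟨j0, hj0, hj0'⟩ := exists_pord Q hu
  obtain ⟨v, hv⟩ : ∃ v : Fin (l + 1) → E, v = fun j => (u j0)⁻¹ * u j := ⟨_, rfl⟩
  have hv0 : v j0 = 1 := by
    rw [hv]
    exact inv_mul_cancel₀ hj0
  have hvG : ∀ j, Ge Q 0 (v j) := by
    intro j
    have h0 : Ge Q (Q.ord (u j0)⁻¹) (u j0)⁻¹ := Or.inr le_rfl
    have h1 := h0.mul (ge_pord Q u j)
    rw [Q.ord_inv, hj0'] at h1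
    rw [hv]
    exact h1.mono (by omega)
  have hvΨ : ∀ e, val v (Ψ e) = 0 := by
    intro e'
    obtain ⟨d, hd⟩ := hΨ e'
    rw [hv, val_smul hd, huΨ, mul_zero]
  refine ⟨j0, v, hj0, hj0', hv0, ?_, hvΨ, fun p => ?_⟩
  · funext j
    rw [hv]
    simp only
    rw [mul_inv_cancel_left₀ hj0]
  · have h1 : val v p = ∑ c ∈ p.support, algebraMap K E (p.coeff c) * ∏ i, v i ^ c i := by
      change aeval v p = _
      rw [aeval_def, eval₂_eq']
    rw [h1]
    refine Ge.sum _ _ fun c _ => ?_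
    have h2 : Ge Q (∑ _i : Fin (l + 1), (0 : ℤ)) (∏ i, v i ^ c i) :=
      Ge.prod _ _ _ fun i _ => by
        have := (hvG i).pow (c i)
        rwa [mul_zero] at this
    rw [Finset.sum_const_zero] at h2
    have h3 := (Ge.const (P := Q) (p.coeff c)).mul h2
    rwa [add_zero] at h3

/-- orders of the images under a morphism -/
theorem pord_im' (hG : Mor Ψ Φ G) {e : ℕ} (he : ∀ j, (G j).IsHomogeneous e)
    (hΨ : ∀ e, IsForm (Ψ e)) {E : Type} [Field E] [Algebra K E] {u : Fin (l + 1) → E}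
    (hu : ∃ j, u j ≠ 0) (huΨ : ∀ e, val u (Ψ e) = 0) (Q : Place K E) :
    pord Q (im G u) = e * pord Q u ∧ ∃ j, im G u j ≠ 0 := by
  obtain ⟨j0, v, hj0, hj0', hv0, huv, hvΨ, hreg⟩ := scaled hΨ hu huΨ Q
  obtain ⟨N, P, hP⟩ := null (Ψ := Ψ) G (X j0) (by
    intro x hxΨ hxG
    by_cases hx0 : x = 0
    · have h1 : val x (X j0 : MvPolynomial (Fin (l + 1)) K) = x j0 := aeval_X x j0
      rw [h1, hx0]
      rfl
    · exact absurd (funext hxG) (hG.maps x ⟨hx0, hxΨ⟩).1)
  have h1 := hP E v hvΨ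
  have h2 : val v (X j0 : MvPolynomial (Fin (l + 1)) K) = (1 : E) := by
    rw [← hv0]
    exact aeval_X v j0
  rw [h2, one_pow] at h1
  -- one of the coordinates is a unit
  obtain ⟨b, hb0, hb⟩ : ∃ b, val v (G b) ≠ 0 ∧ Q.ord (val v (G b)) ≤ 0 := by
    by_contra hcon
    push Not at hcon
    have h3 : Ge Q 1 (1 : E) := by
      rw [h1]
      refine Ge.sum _ _ fun j _ => ?_
      by_cases h4 : val v (G j) = 0
      · rw [h4, mul_zero]
        exact Ge.zero
      · have h5 : Ge Q 1 (val v (G j)) := Or.inr (by have := hcon j h4; omega)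
        have h6 := (hreg (P j)).mul h5
        rwa [zero_add] at h6
    rcases h3 with h3 | h3
    · exact one_ne_zero h3
    · rw [Q.ord_one] at h3
      omega
  have hb' : Q.ord (val v (G b)) = 0 := le_antisymm hb ((hreg (G b)).resolve_left hb0)
  have hub : im G u b = u j0 ^ e * val v (G b) := by
    unfold im
    conv_lhs => rw [huv]
    exact val_smul (he b) _ _
  have hub0 : im G u b ≠ 0 := by
    rw [hub]
    exact mul_ne_zero (pow_ne_zero _ hj0) hb0
  refine ⟨le_antisymm ?_ ?_, b, hub0⟩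
  · refine (pord_le Q hub0).trans (le_of_eq ?_)
    rw [hub, Q.ord_mul (pow_ne_zero _ hj0) hb0, Q.ord_pow, hb', hj0', add_zero]
  · rw [Pool.Agent.Y221.AH.pord_le_iff Q ⟨b, hub0⟩]
    intro j
    exact ge_form Q u (he j) fun α _ => Ge.const _

/-- The boundary of the image: orders of the equations. -/
theorem bd_ord {ν : Type} {Θ : ν → MvPolynomial (Fin (n + 1)) K} (hB : Mor Ψ Θ B)
    (hG : Mor Ψ Φ G) (hΨ : ∀ e, IsForm (Ψ e)) {h : ℕ}
    {H : MvPolynomial (Fin (M + 1)) K} (hH : H.IsHomogeneous h)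
    {f : MvPolynomial (Fin (n + 1)) K} {d : ℕ} (hf : f.IsHomogeneous d) {N : ℕ}
    {P : MvPolynomial (Fin (l + 1)) K} {E : Type} [Field E] [Algebra K E]
    (hP : ∀ x : Fin (l + 1) → E, (∀ e, val x (Ψ e) = 0) →
      val (im G x) H ^ N = val (im B x) f * val x P) {u : Fin (l + 1) → E}
    (hu : ∃ j, u j ≠ 0) (huΨ : ∀ e, val u (Ψ e) = 0) (hH0 : val (im G u) H ≠ 0) (Q : Place K E)
    (hQ : Q.ord (val (im G u) H) ≤ h * pord Q (im G u)) :
    Q.ord (val (im B u) f) ≤ d * pord Q (im B u) := by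
  obtain ⟨eB, -, hBe⟩ := hB.form
  obtain ⟨eG, -, hGe⟩ := hG.form
  rw [(pord_im' hG hGe hΨ hu huΨ Q).1] at hQ
  rw [(pord_im' hB hBe hΨ hu huΨ Q).1]
  obtain ⟨j0, v, hj0, hj0', hv0, huv, hvΨ, hreg⟩ := scaled hΨ hu huΨ Q
  have h1 : val (im G u) H = (u j0 ^ eG) ^ h * val (im G v) H := by
    have h2 : im G u = fun j => u j0 ^ eG * im G v j := by
      funext j
      unfold im
      conv_lhs => rw [huv]
      exact val_smul (hGe j) _ _
    rw [h2, val_smul hH]
  have h2 : val (im B u) f = (u j0 ^ eB) ^ d * val (im B v) f := by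
    have h2 : im B u = fun j => u j0 ^ eB * im B v j := by
      funext j
      unfold im
      conv_lhs => rw [huv]
      exact val_smul (hBe j) _ _
    rw [h2, val_smul hf]
  have hvH : val (im G v) H ≠ 0 := by
    rw [h1] at hH0
    exact right_ne_zero_of_mul hH0
  have h3 := hP v hvΨ
  have h4 : val (im B v) f * val v P ≠ 0 := by
    rw [← h3]
    exact pow_ne_zero _ hvH
  have hvf := left_ne_zero_of_mul h4
  have hvP := right_ne_zero_of_mul h4
  have h5 := congrArg Q.ord h3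
  rw [Q.ord_pow, Q.ord_mul hvf hvP] at h5
  have h6 : 0 ≤ Q.ord (val v P) := (hreg P).resolve_left hvP
  have h7 : Q.ord (val (im G v) H) ≤ 0 := by
    rw [h1, Q.ord_mul (pow_ne_zero _ (pow_ne_zero _ hj0)) hvH, Q.ord_pow, Q.ord_pow, hj0'] at hQ
    linarith
  have h8 : (N : ℤ) * Q.ord (val (im G v) H) ≤ 0 :=
    mul_nonpos_of_nonneg_of_nonpos (Int.natCast_nonneg _) h7
  rw [h2, Q.ord_mul (pow_ne_zero _ (pow_ne_zero _ hj0)) hvf, Q.ord_pow, Q.ord_pow, hj0']
  linarith

end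

end Pool.Agent.Q58.LG
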