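import Pool.Agent.Q58.LG.LForm
import Pool.Agent.Q58.LG.Null
import Pool.Agent.Q58.FI.Gen
import Pool.Agent.Y735.R.Gen
import Pool.Agent.Y221.AH.Im

/-!
Degrees of curves on the images of varieties over generic pairs.
-/

set_option autoImplicit false
set_option linter.overlappingInstances false
set_option linter.unusedSectionVars false

open MvPolynomial FF Pool.Agent.W602.GT Pool.Agent.W603.LV Pool.Agent.W603.PV Pool.Agent.Y221.FQ
open Pool.Agent.TH145.MG (DimLE)
open Pool.Agent.TH145.GC (Rt Cf finite_cf)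
open Pool.Agent.Q58.FI (eqs ratio_fam)
open Pool.Agent.Y221.AH (pht_algebraMap pht_im sum_over)

namespace Pool.Agent.Q58.LG

section rh

variable {k : Type} [Field k] [IsAlgClosed k] [CharZero k]
  {F : Type} [Field F] [Algebra k F] [IsFF k F] {L : Type} [Field L] [Algebra k L]
  [Algebra F L] [IsScalarTower k F L] [IsFF k L] [FiniteDimensional F L]

/-- Riemann-Hurwitz. -/
theorem canDeg_ext : canDeg k L = disc k F L + Module.finrank F L * canDeg k F := by
  classical
  have hF : CharZero F := charZero_of_injective_algebraMap (algebraMap k F).injective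
  obtain ⟨D, hD⟩ := exists_der (k := k) (K := F)
  obtain ⟨D', hDD'⟩ := exists_ext_der (L := L) D
  have hD' : D' ≠ 0 := by
    rintro rfl
    apply hD
    ext x
    have := hDD' x
    rw [Derivation.coe_zero, Pi.zero_apply, eq_comm, map_eq_zero] at this
    rw [this]; rfl
  obtain ⟨V, hV⟩ : ∃ V : Finset (Place k F), V = (vo_finite hD).toFinset := ⟨_, rfl⟩
  have hVmem : ∀ v, vo v D ≠ 0 → v ∈ V := fun v hv => by simp [hV, hv]
  obtain ⟨T, hT⟩ : ∃ T : Finset (Place k L), T = (vo_finite hD').toFinset ∪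
    (ram_finite (F := F)).toFinset ∪ (finite_over_set (L := L) (Finset.finite_toSet V)).toFinset :=
    ⟨_, rfl⟩
  have h1 := canDeg_finset hD' T fun P hP => by simp [hT, hP]
  have h2 : disc k F L = ∑ P ∈ T, ((ram F P : ℤ) - 1) := by
    unfold disc
    rw [finsum_eq_sum_of_support_subset (s := T)]
    intro P hP
    have hP' : (ram F P : ℤ) - 1 ≠ 0 := hP
    simp only [hT, Finset.coe_union, Set.Finite.coe_toFinset, Set.mem_union, Set.mem_ofPred_eq]
    exact Or.inl (Or.inr hP')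
  have h3 : canDeg k L = ∑ P ∈ T, ((ram F P : ℤ) - 1) -
      ∑ P ∈ T, (ram F P : ℤ) * vo (under F P) D := by
    rw [← Finset.sum_sub_distrib]
    have h4 : canDeg k L = - ∑ P ∈ T, vo P D' := by rw [h1, neg_neg]
    rw [h4, ← Finset.sum_neg_distrib]
    refine Finset.sum_congr rfl fun P _ => ?_
    rw [vo_under hD hD' hDD' P]
    ring
  have h4 := sum_over (L := L) (fun v => vo v D) V hVmem T fun w hw => by
    rw [hT]
    simp only [Finset.mem_union, Set.Finite.mem_toFinset]
    exact Or.inr hw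
  have h5 := canDeg_finset hD V hVmem
  rw [h3, h2, h4, h5]
  ring

/-- The number of the places over a finite set of places. -/
theorem card_over (S : Finset (Place k F)) : ∃ S' : Finset (Place k L),
    (∀ w, under F w ∈ S → w ∈ S') ∧ (S'.card : ℤ) ≤ Module.finrank F L * S.card := by
  classical
  obtain ⟨S', hS'⟩ := Pool.Agent.Y221.AH.exists_over (L := L) S
  refine ⟨S', fun w hw => (hS' w).1 hw, ?_⟩
  have h1 := sum_over (L := L) (fun v => if v ∈ S then (1 : ℤ) else 0) S (fun v hv => by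
    by_contra h
    rw [if_neg h] at hv
    exact hv rfl) S' fun w hw => (hS' w).1 hw
  have h2 : ∑ v ∈ S, (if v ∈ S then (1 : ℤ) else 0) = S.card := by
    rw [Finset.sum_congr rfl fun v hv => if_pos hv, Finset.sum_const, nsmul_eq_mul, mul_one]
  rw [h2] at h1
  rw [← h1, Finset.card_eq_sum_ones]
  push_cast
  refine Finset.sum_le_sum fun w hw => ?_
  rw [if_pos ((hS' w).2 hw), mul_one]
  have := (ram_spec (F := F) w).1
  exact_mod_cast this

/-- From a form with large zeros to a bound for the height. -/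
theorem form_ineq {n N : ℕ} {x : Fin (n + 1) → L} {c0 : Fin (n + 1)} (hx1 : x c0 = 1)
    {Φ : (Fin 1 → Derivation k L L) → L} (hΦ : IsPluri 1 Φ) (hΦ0 : ∃ D, Φ D ≠ 0)
    (S : Finset (Place k L))
    (hlog : ∀ (f : Fin N → Fin (n + 1)) (Q : Place k L), LogAt Q (fun D => (∏ j, x (f j)) * Φ D))
    (hreg : ∀ (f : Fin N → Fin (n + 1)) (Q : Place k L), Q ∉ S →
      RegAt Q (fun D => (∏ j, x (f j)) * Φ D)) :
    N * pht k x ≤ canDeg k L + S.card := by
  classical
  obtain ⟨D, hD⟩ := exists_der (k := k) (K := L)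
  have hsm : ∀ (c : L) (D' : Derivation k L L), Φ (fun _ => c • D') = c * Φ (fun _ => D') := by
    intro c D'
    have h1 := hΦ (Matrix.of fun _ _ => c) (fun _ => D')
    rw [Matrix.det_fin_one, pow_one] at h1
    simp only [Matrix.of_apply, Fin.sum_univ_one] at h1
    rw [← h1]
  obtain ⟨ω, hω⟩ : ∃ ω, ω = Φ (fun _ => D) := ⟨_, rfl⟩
  have hω0 : ω ≠ 0 := by
    intro h0
    obtain ⟨D', hD'⟩ := hΦ0
    obtain ⟨c, hc⟩ := der_smul (D' := D' 0) hD
    apply hD'
    have h1 : D' = fun _ => c • D := by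
      funext i
      rw [Fin.fin_one_eq_zero i, hc]
    rw [h1, hsm, ← hω, h0, mul_zero]
  have hx : ∃ j, x j ≠ 0 := ⟨c0, by rw [hx1]; exact one_ne_zero⟩
  have hloc : ∀ Q : Place k L, 0 ≤ N * pord Q x - vo Q D + Q.ord ω + (if Q ∈ S then 1 else 0) := by
    intro Q
    obtain ⟨j, hj, hj'⟩ := exists_pord Q hx
    have hπ := ord_unif Q
    have hπ0 : unif Q ≠ 0 := by
      intro h
      rw [h, Q.ord_zero] at hπ
      omega
    have hDπ : D (unif Q) ≠ 0 := der_pi_ne_zero hD Q hπ
    obtain ⟨E, hE⟩ : ∃ E : Derivation k L L, E = (D (unif Q))⁻¹ • D := ⟨_, rfl⟩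
    have hE1 : E (unif Q) = 1 := by
      rw [hE]
      exact inv_mul_cancel₀ hDπ
    have hEr : DerReg Q E := fun f hf => Pool.Agent.W603.LV.der_reg Q hπ E hE1 hf
    have hprod : (∏ _k : Fin N, x j) = x j ^ N := by
      rw [Finset.prod_const, Finset.card_univ, Fintype.card_fin]
    have hΦE : Φ (fun _ => E) = (D (unif Q))⁻¹ * ω := by
      rw [hE, hsm, hω]
    have hne : x j ^ N * ((D (unif Q))⁻¹ * ω) ≠ 0 :=
      mul_ne_zero (pow_ne_zero _ hj) (mul_ne_zero (inv_ne_zero hDπ) hω0)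
    have hord : Q.ord (x j ^ N * ((D (unif Q))⁻¹ * ω)) = N * pord Q x - vo Q D + Q.ord ω := by
      rw [Q.ord_mul (pow_ne_zero _ hj) (mul_ne_zero (inv_ne_zero hDπ) hω0), Q.ord_pow, hj',
        Q.ord_mul (inv_ne_zero hDπ) hω0, Q.ord_inv]
      unfold vo
      ring
    split_ifs with hQ
    · have hl : DerLog Q (unif Q • E) := by
        refine Pool.Agent.W619.TW.log_of_pres Q _ (fun g hg => ?_) hπ0 hπ ?_
        · change Q.Reg (unif Q * E g)
          exact Q.reg_mul (Or.inr (by omega)) (hEr g hg)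
        · change Q.Reg (unif Q * E (unif Q) / unif Q)
          rw [hE1, mul_one, div_self hπ0]
          exact Q.reg_one
      have h1 := hlog (fun _ => j) Q (fun _ => unif Q • E) (fun _ => hl)
      simp only at h1
      rw [hsm, hΦE, hprod] at h1
      have h2 : x j ^ N * (unif Q * ((D (unif Q))⁻¹ * ω)) =
          unif Q * (x j ^ N * ((D (unif Q))⁻¹ * ω)) := by ring
      rw [h2] at h1
      have h3 := h1.resolve_left (mul_ne_zero hπ0 hne)
      rw [Q.ord_mul hπ0 hne, hπ, hord] at h3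
      linarith
    · have h1 := hreg (fun _ => j) Q hQ (fun _ => E) (fun _ => hEr)
      simp only at h1
      rw [hΦE, hprod] at h1
      have h3 := h1.resolve_left hne
      rw [hord] at h3
      linarith
  obtain ⟨T0, hT0⟩ := exists_supp (k := k) Finset.univ x
  obtain ⟨T1, hT1⟩ := exists_supp (k := k) (Finset.univ : Finset Unit) (fun _ => ω)
  obtain ⟨T, hT⟩ : ∃ T : Finset (Place k L), T = T0 ∪ T1 ∪ (vo_finite hD).toFinset ∪ S := ⟨_, rfl⟩
  have h1 : 0 ≤ ∑ Q ∈ T, (N * pord Q x - vo Q D + Q.ord ω + (if Q ∈ S then 1 else 0)) :=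
    Finset.sum_nonneg fun Q _ => hloc Q
  rw [Finset.sum_add_distrib, Finset.sum_add_distrib, Finset.sum_sub_distrib, ← Finset.mul_sum] at h1
  have h2 : ∑ Q ∈ T, vo Q D = - canDeg k L := canDeg_finset hD T fun P hP => by
    rw [hT]
    simp only [Finset.mem_union, Set.Finite.mem_toFinset]
    exact Or.inl (Or.inr hP)
  have h3 : ∑ Q ∈ T, Q.ord ω = 0 := sum_ord_finset ω T fun P hP => by
    rw [hT]
    have := hT1 () (Finset.mem_univ _) P hP
    simp only [Finset.mem_union]
    tauto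
  have h4 : pht k x = ∑ Q ∈ T, -pord Q x := Pool.Agent.Y221.AH.pht_sum hx T fun j P hP => by
    rw [hT]
    have := hT0 j (Finset.mem_univ _) P hP
    simp only [Finset.mem_union]
    tauto
  have h5 : ∑ Q ∈ T, (if Q ∈ S then (1 : ℤ) else 0) = S.card := by
    rw [← Finset.sum_filter, Finset.sum_const, nsmul_eq_mul, mul_one]
    congr 2
    ext Q
    rw [Finset.mem_filter, hT]
    simp only [Finset.mem_union]
    tauto
  rw [h2, h3, h5] at h1
  rw [h4, Finset.sum_neg_distrib]
  linarith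

end rh

section

variable {K : Type} [Field K] [IsAlgClosed K] [CharZero K]

theorem divisorial_one {L : Type} [Field L] [Algebra K L] (Q : Place K L) : Divisorial 1 Q := by
  refine ⟨fun _ => 0, fun F hF => ?_⟩
  have he : IsEmpty (Fin (1 - 1)) := Fin.isEmpty
  have h1 : F = MvPolynomial.C (F.coeff 0) := MvPolynomial.eq_C_of_isEmpty F
  have h2 : F.coeff 0 ≠ 0 := by
    intro h
    apply hF
    rw [h1, h, MvPolynomial.C_0]
  rw [h1, MvPolynomial.aeval_C]
  exact ⟨(map_ne_zero _).2 h2, Q.ord_const h2⟩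

/-- the function field of a curve is algebraic over the ratios of nonconstant coordinates -/
theorem alg_coords {L : Type} [Field L] [Algebra K L] [IsFF K L] {n : ℕ} {x : Fin (n + 1) → L}
    {c0 : Fin (n + 1)} (hx1 : x c0 = 1) (h : 0 < pht K x) :
    Algebra.IsAlgebraic (coords K x) L := by
  obtain ⟨Q, hQ⟩ : ∃ Q : Place K L, pord Q x ≠ 0 := by
    by_contra hcon
    push Not at hcon
    have h1 : pht K x = 0 := by
      unfold pht
      rw [finsum_congr hcon, finsum_zero, neg_zero]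
    omega
  obtain ⟨j, hj, hj'⟩ := exists_pord Q (f := x) ⟨c0, by rw [hx1]; exact one_ne_zero⟩
  have ht : Transcendental K (x j) := Q.transcendental_of_ord_ne (by rw [hj']; exact hQ)
  have hb := IsFF.basis (k := K) ht
  have h1 := hb.isAlgebraic_field
  have hle : IntermediateField.adjoin K (Set.range fun _ : Unit => x j) ≤ coords K x := by
    rw [IntermediateField.adjoin_le_iff]
    rintro _ ⟨_, rfl⟩
    refine IntermediateField.subset_adjoin K _ ⟨j, c0, ?_, ?_⟩
    · rw [hx1]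
      exact one_ne_zero
    · rw [hx1, div_one]
  refine ⟨fun y => ?_⟩
  exact Pool.Agent.TH145.MF.alg_mono
    (F1 := (IntermediateField.adjoin K (Set.range fun _ : Unit => x j)).toSubfield)
    (F2 := (coords K x).toSubfield) (fun z hz => hle hz) (h1.isAlgebraic y)

/-- Logarithmic canonical forms of subvarieties of generic pairs. -/
theorem lform_genK {k' : Type} [Field k'] [Algebra k' K] {n m w N : ℕ} {A : Type} [Fintype A]
    {d : A → ℕ} {V : Set (MvPolynomial (Fin (n + 1)) k')}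
    (hVh : ∀ f ∈ V, ∃ e, f.IsHomogeneous e) (hV : DimLE k' V m)
    {F : A → MvPolynomial (Fin (n + 1)) K} (hF : ∀ a, (F a).IsHomogeneous (d a))
    (hgen : AlgebraicIndependent k' fun p : Cf n d => (F p.1).coeff p.2.1) (hw : 0 < w)
    (Cs : Finset A) (hd : 2 * m + 1 + N ≤ ∑ a, d a + Cs.card + w) {L : Type} [Field L] [Algebra K L]
    (htr : Algebra.trdeg K L = w) (x : Fin (n + 1) → L) {c0 : Fin (n + 1)} (hx1 : x c0 = 1)
    (halg : Algebra.IsAlgebraic (coords K x) L)
    (hxV : ∀ f ∈ V, aeval x (map (algebraMap k' K) f) = 0) (hxC : ∀ a ∈ Cs, aeval x (F a) = 0)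
    (hxn : ∀ a, a ∉ Cs → aeval x (F a) ≠ 0) :
    ∃ Φ : (Fin w → Derivation K L L) → L, IsPluri 1 Φ ∧ (∃ D, Φ D ≠ 0) ∧
      ∀ (f : Fin N → Fin (n + 1)) (Q : Place K L), Divisorial w Q →
        LogAt Q (fun D => (∏ k, x (f k)) * Φ D) ∧
        ((¬ ∃ a, a ∉ Cs ∧ d a * pord Q x < Q.ord (aeval x (F a))) →
          RegAt Q (fun D => (∏ k, x (f k)) * Φ D)) := by
  classical
  have hfd : ∀ a, Finite {I : Fin (n + 1) →₀ ℕ // I.degree = d a} := fun a =>
    Pool.Agent.TH145.GH.finite_deg n (d a)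
  have hft : ∀ a, Fintype {I : Fin (n + 1) →₀ ℕ // I.degree = d a} := fun a => Fintype.ofFinite _
  obtain ⟨I0, hI0⟩ : ∃ I0 : A → Fin (n + 1) →₀ ℕ, ∀ a, (I0 a).degree = d a :=
    ⟨fun a => Finsupp.single 0 (d a), fun a => Finsupp.degree_single _ _⟩
  have h0 : ∀ a, (F a).coeff (I0 a) ≠ 0 := fun a => hgen.ne_zero ⟨a, ⟨I0 a, hI0 a⟩⟩
  have hind := ratio_fam hgen I0 hI0
  obtain ⟨Φ, h1, h2, h3⟩ := exists_logform (k0 := k') (K := K) (L := L) (n := n) (m := m) (w := w)
    (N := N) (A := A)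
    (dg := d) V hVh hV (J := fun a => {I : Fin (n + 1) →₀ ℕ // I.degree = d a})
    (fun _ I => monomial I.1 1) (fun _ I => isHomogeneous_monomial _ I.2)
    (fun a I => (F a).coeff I.1) (fun a => ⟨I0 a, hI0 a⟩) h0 (by
      have h2 := hind.comp (fun p : (Σ a : A, {j : {I : Fin (n + 1) →₀ ℕ // I.degree = d a} //
        j ≠ ⟨I0 a, hI0 a⟩}) => (⟨p.1, p.2.1.1, p.2.1.2, fun h => p.2.2 (Subtype.ext h)⟩ :
          Rt d I0)) (by
          rintro ⟨a, ⟨⟨I, hI⟩, hI2⟩⟩ ⟨a', ⟨⟨I', hI'⟩, hI2'⟩⟩ h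
          have e1 : a = a' := congrArg Sigma.fst h
          subst e1
          have e2 := eq_of_heq (Sigma.mk.inj_iff.1 h).2
          have e3 : I = I' := congrArg Subtype.val e2
          subst e3
          rfl)
      exact h2) c0 (fun _ I hI => ⟨⟨I, Pool.Agent.TH145.GD.deg_St hI⟩, rfl⟩)
    (F := F) (fun a => Pool.Agent.Q58.FI.form_eq_sum (hF a)) Cs (fun _ => 0)
    (fun _ _ => Or.inr rfl) hw (by
      simp only [Nat.div_zero, Finset.sum_const_zero]
      omega) htr x (by rw [hx1]; exact one_ne_zero) halg hxV hxC hxn (fun _ => 1)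
    (fun _ _ h => absurd rfl h)
  refine ⟨Φ, h1, h2, fun f Q hQ => ?_⟩
  obtain ⟨h4, h5⟩ := h3 f Q hQ
  have h6 : ∀ k, (x c0)⁻¹ * x (f k) = x (f k) := fun k => by
    rw [hx1, inv_one, one_mul]
  simp only [h6] at h4 h5
  refine ⟨h4, fun h => h5 ?_⟩
  rintro ⟨a, ha, -, hlt⟩
  exact h ⟨a, ha, hlt⟩

end

section

variable {k K : Type} [Field k] [Field K] [IsAlgClosed K] [CharZero K] [Algebra k K]
  {n m l M r h : ℕ}
  {V : Set (MvPolynomial (Fin (n + 1)) (algebraicClosure k K))}
  {A : Type} [Fintype A] {d : A → ℕ} {F : A → MvPolynomial (Fin (n + 1)) K}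
  {κ μ : Type} {Ψ : κ → MvPolynomial (Fin (l + 1)) K} {Φ : μ → MvPolynomial (Fin (M + 1)) K}
  {B : Fin (n + 1) → MvPolynomial (Fin (l + 1)) K}
  {G : Fin (M + 1) → MvPolynomial (Fin (l + 1)) K}

/-- Degrees of curves on the images of varieties over generic pairs. -/
theorem curve_im (C : Finset A) (hVh : ∀ f ∈ V, ∃ e, f.IsHomogeneous e)
    (hV : DimLE (algebraicClosure k K) V m)
    (hd : 2 * m + 2 * r ≤ ∑ a, d a + C.card + 1) (hF : ∀ a, (F a).IsHomogeneous (d a))
    (hgen : AlgebraicIndependent k fun p : Cf n d => (F p.1).coeff p.2.1)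
    (hΨ : ∀ e, IsForm (Ψ e)) (hB : Mor Ψ (eqs V fun c : {a // a ∈ C} => F c.1) B)
    (hG : Mor Ψ Φ G) (hon : Onto Ψ Φ G) (hfib : FibresLe Ψ G r)
    {H : MvPolynomial (Fin (M + 1)) K} (hH : H.IsHomogeneous h) (hh : ∀ b, b ∉ C → 1 ≤ h)
    (hE : ∀ x ∈ Cone Ψ, val (im G x) H ≠ 0 → ∀ b, b ∉ C → val (im B x) (F b) ≠ 0)
    {eB eG : ℕ} (hBe : ∀ j, (B j).IsHomogeneous eB) (hGe : ∀ j, (G j).IsHomogeneous eG)
    {L0 : Type} [Field L0] [Algebra K L0] [IsFF K L0] {z : Fin (M + 1) → L0} (hz : ∃ j, z j ≠ 0)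
    (hzΦ : ∀ e, val z (Φ e) = 0) (hzH : val z H ≠ 0) (hnc : 0 < pht K z)
    (S : Finset (Place K L0)) (hS : ∀ P, P ∉ S → P.ord (val z H) ≤ h * pord P z) :
    eB * ((∑ a, d a + C.card + 2 : ℕ) - 2 * m - 2 * r) * pht K z ≤
      eG * (canDeg K L0 + S.card) := by
  classical
  obtain ⟨E, i1, i2, i3, i4, i5, u, i0, c, hrk, hu0, huΨ, hc0, hcz, htop⟩ :=
    lift_point hΨ hG hon hfib (Function.ne_iff.2 hz) hzΦ
  have hff : IsFF K E := isFF_of_finite (F := L0)
  have hu : u ≠ 0 := by
    intro h0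
    rw [h0] at hu0
    exact zero_ne_one hu0
  have hu' : ∃ j, u j ≠ 0 := ⟨i0, by rw [hu0]; exact one_ne_zero⟩
  have hBu := hB.mem hu huΨ
  have hGu := hG.mem hu huΨ
  obtain ⟨j0, hj0⟩ := Function.ne_iff.1 hBu.1
  have hj0' : im B u j0 ≠ 0 := hj0
  obtain ⟨x, hx⟩ : ∃ x : Fin (n + 1) → E, x = fun j => (im B u j0)⁻¹ * im B u j := ⟨_, rfl⟩
  have hx1 : x j0 = 1 := by
    rw [hx]
    exact inv_mul_cancel₀ hj0'
  -- heights over `E`
  have ht1 : pht K (fun j => algebraMap L0 E (z j)) = eG * pht K u := by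
    have h4 : (fun j => algebraMap L0 E (z j)) = fun j => c * im G u j := funext hcz
    rw [h4, pht_scale (Function.ne_iff.1 hGu.1) hc0, pht_im hG hGe hΨ hu' huΨ]
  rw [pht_algebraMap hz] at ht1
  have ht2 : pht K x = eB * pht K u := by
    rw [hx, pht_scale ⟨j0, hj0'⟩ (inv_ne_zero hj0'), pht_im hB hBe hΨ hu' huΨ]
  have hfr : (0 : ℤ) < Module.finrank L0 E := by exact_mod_cast Module.finrank_pos
  have hupos : 0 < pht K u := by
    have h1 : 0 < (eG : ℤ) * pht K u := by
      rw [← ht1]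
      exact mul_pos hfr hnc
    by_contra hcon
    push Not at hcon
    have h2 := mul_nonpos_of_nonneg_of_nonpos (Int.natCast_nonneg eG) hcon
    omega
  have heB : 1 ≤ eB := by
    obtain ⟨e', he', hBe'⟩ := hB.form
    have h1 : val u (B j0) ≠ 0 := hj0'
    have h2 : B j0 ≠ 0 := by
      intro h0
      rw [h0] at h1
      exact h1 (map_zero _)
    rw [(hBe j0).inj_right (hBe' j0) h2]
    exact he'
  -- the field generated by the image
  obtain ⟨E1, hE1⟩ : ∃ E1 : IntermediateField L0 E,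
    E1 = IntermediateField.adjoin L0 (Set.range x) := ⟨_, rfl⟩
  have hxE : ∀ j, x j ∈ E1 := fun j => by
    rw [hE1]
    exact IntermediateField.subset_adjoin L0 _ ⟨j, rfl⟩
  obtain ⟨x1, hx1c⟩ : ∃ x1 : Fin (n + 1) → E1, ∀ j, (x1 j : E) = x j :=
    ⟨fun j => ⟨x j, hxE j⟩, fun _ => rfl⟩
  have hx11 : x1 j0 = 1 := Subtype.ext (by rw [hx1c, hx1]; rfl)
  have hx1e : ∃ j, x1 j ≠ 0 := ⟨j0, by rw [hx11]; exact one_ne_zero⟩
  have hst3 : IsScalarTower K E1 E := IsScalarTower.of_algebraMap_eq fun c => by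
    rw [IsScalarTower.algebraMap_apply K L0 E, IsScalarTower.algebraMap_apply K L0 E1,
      ← IsScalarTower.algebraMap_apply L0 E1 E]
  have hff1 : IsFF K E1 := isFF_of_finite (F := L0)
  have hr1 : Module.finrank L0 E1 ≤ r := by
    have h1 : Module.finrank L0 E1 ≤ Module.finrank L0 E :=
      (IntermediateField.finrank_le_of_le_right (le_top : E1 ≤ ⊤)).trans
        (by rw [IntermediateField.finrank_top'])
    omega
  have hr0 : 0 < Module.finrank L0 E1 := Module.finrank_pos
  have hr2 : 0 < Module.finrank E1 E := Module.finrank_pos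
  have hrr := Module.finrank_mul_finrank L0 E1 E
  have ht3 : pht K x = Module.finrank E1 E * pht K x1 := by
    rw [← pht_algebraMap hx1e]
    congr 1
    funext j
    exact (hx1c j).symm
  have hx1pos : 0 < pht K x1 := by
    have h1 : 0 < (Module.finrank E1 E : ℤ) * pht K x1 := by
      rw [← ht3, ht2]
      exact mul_pos (by exact_mod_cast heB) hupos
    by_contra hcon
    push Not at hcon
    have h2 := mul_nonpos_of_nonneg_of_nonpos (Int.natCast_nonneg (Module.finrank E1 E)) hcon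
    omega
  have haev : ∀ p : MvPolynomial (Fin (n + 1)) K, algebraMap E1 E (aeval x1 p) = aeval x p := by
    intro p
    have h2 := MvPolynomial.aeval_algebraMap_apply (R := K) E x1 p
    have h3 : (fun j => algebraMap E1 E (x1 j)) = x := funext hx1c
    rw [← h2]
    congr 1
    rw [← h3]
    rfl
  have hsc : ∀ (p : MvPolynomial (Fin (n + 1)) K) (e : ℕ), p.IsHomogeneous e →
      aeval x p = (im B u j0)⁻¹ ^ e * val (im B u) p := by
    intro p e he
    have h2 := val_smul he (im B u j0)⁻¹ (im B u)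
    rw [hx]
    exact h2
  have hval : ∀ p : MvPolynomial (Fin (n + 1)) K, IsForm p → val (im B u) p = 0 →
      aeval x1 p = 0 := by
    rintro p ⟨e, he⟩ h0
    have h1 := haev p
    rw [hsc p e he, h0, mul_zero] at h1
    exact (map_eq_zero _).1 h1
  obtain ⟨Cs, hCs⟩ : ∃ Cs : Finset A, ∀ a, a ∈ Cs ↔ aeval x1 (F a) = 0 :=
    ⟨Finset.univ.filter fun a => aeval x1 (F a) = 0, fun a => by simp⟩
  have hCC : C ⊆ Cs := by
    intro a ha
    rw [hCs]
    exact hval _ ⟨d a, hF a⟩ (hBu.2 (Sum.inr ⟨a, ha⟩))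
  have hcard := Finset.card_le_card hCC
  obtain ⟨N, hN⟩ : ∃ N, N + 2 * m = ∑ a, d a + C.card :=
    ⟨∑ a, d a + C.card - 2 * m, by omega⟩
  obtain ⟨ω, hω, hω0, hreg⟩ := lform_genK (k' := algebraicClosure k K) (N := N) (w := 1)
    hVh hV hF hgen.algebraicClosure one_pos Cs (by omega) (IsFF.trdeg (k := K) (K := E1)) x1 hx11
    (alg_coords hx11 hx1pos) (fun f hf => by
      obtain ⟨e, he⟩ := hVh f hf
      exact hval _ ⟨e, he.map _⟩ (hBu.2 (Sum.inl ⟨f, hf⟩))) (fun a ha => (hCs a).1 ha)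
      (fun a ha h => ha ((hCs a).2 h))
  choose Nb Pb hPb using fun b : {a // a ∉ C} => exists_null (B := B) (Ψ := Ψ) hG.form hH
    (hh b.1 b.2) (f := F b.1) (fun x hx h => hE x hx h b.1 b.2)
  obtain ⟨S1, hS1, hS1c⟩ := card_over (L := E1) S
  have hfm := form_ineq hx11 hω hω0 S1 (fun f Q => (hreg f Q (divisorial_one Q)).1)
    (fun f Q hQ => (hreg f Q (divisorial_one Q)).2 (by
      rintro ⟨b, hb, hlt⟩
      have hbC : b ∉ C := fun h => hb (hCC h)
      apply hQ
      apply hS1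
      by_contra hPS
      have hcon := hS _ hPS
      -- a place of `E`
      obtain ⟨T', hT'⟩ := Pool.Agent.Y221.AH.exists_over (L := E) {Q}
      have hTs := Pool.Agent.Y735.R.sum_ram (L := E) Q T' fun w => by
        rw [← hT', Finset.mem_singleton]
      obtain ⟨Q2, hQ2⟩ : T'.Nonempty := by
        rw [Finset.nonempty_iff_ne_empty]
        rintro rfl
        rw [Finset.sum_empty] at hTs
        have : (0 : ℤ) < Module.finrank E1 E := by exact_mod_cast hr2
        omega
      have hQ2' : under E1 Q2 = Q := by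
        have := (hT' Q2).2 hQ2
        rwa [Finset.mem_singleton] at this
      obtain ⟨P, hP⟩ : ∃ P, P = under L0 Q := ⟨_, rfl⟩
      obtain ⟨e1, he1⟩ : ∃ e1 : ℕ, e1 = ram E1 Q2 := ⟨_, rfl⟩
      obtain ⟨e2, he2⟩ : ∃ e2 : ℕ, e2 = ram L0 Q := ⟨_, rfl⟩
      have he1p : (0 : ℤ) < e1 := by
        rw [he1]
        exact_mod_cast (ram_spec (F := E1) Q2).1
      have he2p : (0 : ℤ) < e2 := by
        rw [he2]
        exact_mod_cast (ram_spec (F := L0) Q).1
      have ho1 : ∀ y : E1, Q2.ord (algebraMap E1 E y) = e1 * Q.ord y := fun y => by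
        rw [ord_under, hQ2', he1]
      have ho2 : ∀ y : L0, Q2.ord (algebraMap L0 E y) = e1 * e2 * P.ord y := fun y => by
        rw [IsScalarTower.algebraMap_apply L0 E1 E, ho1, ord_under (F := L0) Q, he2, hP]
        ring
      rw [← hP] at hcon
      have hzE : val (fun j => algebraMap L0 E (z j)) H = algebraMap L0 E (val z H) :=
        (val_map (IsScalarTower.toAlgHom K L0 E) H z).symm
      have h1 : val (im G u) H ≠ 0 := by
        intro h0
        have h2 : (fun j => algebraMap L0 E (z j)) = fun j => c * im G u j := funext hcz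
        rw [h2, val_smul hH, h0, mul_zero] at hzE
        exact hzH ((map_eq_zero _).1 hzE.symm)
      have hp1 : pord Q2 (fun j => algebraMap L0 E (z j)) = e1 * e2 * pord P z := by
        have h9 := Pool.Agent.Y221.AH.pord_under (K := E1) Q2
          (f := fun j => algebraMap L0 E1 (z j)) (by
            obtain ⟨j, hj⟩ := hz
            exact ⟨j, (map_ne_zero (algebraMap L0 E1)).2 hj⟩)
        have h10 := Pool.Agent.Y221.AH.pord_under (K := L0) Q (f := z) hz
        rw [hQ2', h10, ← he1, ← he2, ← hP] at h9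
        rw [mul_assoc, ← h9]
        congr 1
      have hp2 : pord Q2 x = e1 * pord Q x1 := by
        have h9 := Pool.Agent.Y221.AH.pord_under (K := E1) Q2 (f := x1) hx1e
        rw [hQ2', ← he1] at h9
        rw [← h9]
        congr 1
        funext j
        exact (hx1c j).symm
      have h2 : Q2.ord (val (im G u) H) ≤ h * pord Q2 (im G u) := by
        have h3 : (fun j => algebraMap L0 E (z j)) = fun j => c * im G u j := funext hcz
        have h5 := congrArg Q2.ord hzE
        rw [ho2, h3, val_smul hH, Q2.ord_mul (pow_ne_zero _ hc0) h1, Q2.ord_pow] at h5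
        have h6 : pord Q2 (fun j => c * im G u j) = Q2.ord c + pord Q2 (im G u) :=
          pord_scale Q2 (Function.ne_iff.1 hGu.1) hc0
        rw [h3, h6] at hp1
        have h7 : (e1 * e2 : ℤ) * P.ord (val z H) ≤ (e1 * e2) * (h * pord P z) :=
          mul_le_mul_of_nonneg_left hcon (mul_pos he1p he2p).le
        have h8 : (e1 * e2 : ℤ) * (h * pord P z) = h * (e1 * e2 * pord P z) := by ring
        rw [h8, ← hp1, mul_add] at h7
        linarith
      have h3 := bd_ord hB hG hΨ hH (hF b) (fun x hx => hPb ⟨b, hbC⟩ E x hx) hu' huΨ h1 Q2 h2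
      have h5 : Q2.ord (aeval x (F b)) = e1 * Q.ord (aeval x1 (F b)) := by
        rw [← haev, ho1]
      have h6 : val (im B u) (F b) ≠ 0 := by
        intro h0
        exact hb ((hCs b).2 (hval _ ⟨d b, hF b⟩ h0))
      have h7 : Q2.ord (aeval x (F b)) =
          -(d b * Q2.ord (im B u j0)) + Q2.ord (val (im B u) (F b)) := by
        rw [hsc _ _ (hF b), Q2.ord_mul (pow_ne_zero _ (inv_ne_zero hj0')) h6, Q2.ord_pow,
          Q2.ord_inv]
        ring
      have h8 : pord Q2 x = -Q2.ord (im B u j0) + pord Q2 (im B u) := by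
        rw [hx, pord_scale Q2 ⟨j0, hj0'⟩ (inv_ne_zero hj0'), Q2.ord_inv]
      have h9 : (e1 : ℤ) * (d b * pord Q x1) < e1 * Q.ord (aeval x1 (F b)) :=
        mul_lt_mul_of_pos_left hlt he1p
      rw [← h5, h7] at h9
      have h10 : (e1 : ℤ) * (d b * pord Q x1) = d b * (e1 * pord Q x1) := by ring
      rw [h10, ← hp2, h8] at h9
      linarith))
  -- the discriminant
  have hgen1 : IntermediateField.adjoin L0 (Set.range x1) = ⊤ := by
    subst hE1
    apply IntermediateField.lift_injective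
    rw [IntermediateField.lift_adjoin, IntermediateField.lift_top]
    congr 1
    ext y
    constructor
    · rintro ⟨_, ⟨j, rfl⟩, rfl⟩
      exact ⟨j, (hx1c j).symm⟩
    · rintro ⟨j, rfl⟩
      exact ⟨x1 j, ⟨j, rfl⟩, hx1c j⟩
  have hdisc := Pool.Agent.Y735.R.disc_le_pht (k := K) (F := L0) x1 hx11 hgen1
  have hrh := canDeg_ext (k := K) (F := L0) (L := E1)
  rw [hrh] at hfm
  -- the inequality over `E1`
  have hr1' : (Module.finrank L0 E1 : ℤ) ≤ r := by exact_mod_cast hr1
  have hN' : (N : ℤ) + 2 * m = (∑ a, d a + C.card : ℕ) := by exact_mod_cast hN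
  have hmain : ((∑ a, d a + C.card + 2 : ℕ) - 2 * m - 2 * r : ℤ) * pht K x1 ≤
      Module.finrank L0 E1 * (canDeg K L0 + S.card) := by
    have h1 : ((∑ a, d a + C.card + 2 : ℕ) - 2 * m - 2 * r : ℤ) = N + 2 - 2 * r := by
      push_cast at hN' ⊢
      linarith
    rw [h1]
    have h2 : ((N : ℤ) + 2 - 2 * r) * pht K x1 ≤
        (N + 2 - 2 * Module.finrank L0 E1) * pht K x1 :=
      mul_le_mul_of_nonneg_right (by linarith) hx1pos.le
    refine h2.trans ?_
    have h3 : (N + 2 - 2 * Module.finrank L0 E1 : ℤ) * pht K x1 =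
        N * pht K x1 - (2 * Module.finrank L0 E1 - 2) * pht K x1 := by ring
    rw [h3, mul_add]
    linarith
  -- the heights
  have hrr' : (Module.finrank L0 E : ℤ) = Module.finrank L0 E1 * Module.finrank E1 E := by
    exact_mod_cast hrr.symm
  have hrel : (eB : ℤ) * Module.finrank L0 E1 * pht K z = eG * pht K x1 := by
    have h1 : (Module.finrank E1 E : ℤ) ≠ 0 := by exact_mod_cast hr2.ne'
    apply mul_left_cancel₀ h1
    have h2 : (Module.finrank E1 E : ℤ) * (eB * Module.finrank L0 E1 * pht K z) =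
        eB * (Module.finrank L0 E * pht K z) := by
      rw [hrr']
      ring
    have h3 : (Module.finrank E1 E : ℤ) * (eG * pht K x1) = eG * (eB * pht K u) := by
      rw [← ht2, ht3]
      ring
    rw [h2, h3, ht1]
    ring
  have hr0' : (0 : ℤ) < Module.finrank L0 E1 := by exact_mod_cast hr0
  have hfin := mul_le_mul_of_nonneg_left hmain (Int.natCast_nonneg eG)
  have h1 : (eG : ℤ) * (((∑ a, d a + C.card + 2 : ℕ) - 2 * m - 2 * r) * pht K x1) =
      Module.finrank L0 E1 *
        (eB * ((∑ a, d a + C.card + 2 : ℕ) - 2 * m - 2 * r) * pht K z) := by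
    linear_combination (-((∑ a, d a + C.card + 2 : ℕ) - 2 * m - 2 * r : ℤ)) * hrel
  have h2 : (eG : ℤ) * (Module.finrank L0 E1 * (canDeg K L0 + S.card)) =
      Module.finrank L0 E1 * (eG * (canDeg K L0 + S.card)) := by ring
  rw [h1, h2] at hfin
  exact le_of_mul_le_mul_left hfin hr0'

end

end Pool.Agent.Q58.LG
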