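import Pool.Agent.Y184.NT.GT2
import Pool.Agent.Y184.NT.Main2
import Pool.Agent.Y184.NT.Dom
import Pool.Agent.Y297.NT.Pull
import Pool.Agent.Y71.NT.Abh

/-!
Logarithmic forms of varieties which correspond to a variety with many logarithmic forms.
-/

set_option autoImplicit false
set_option linter.overlappingInstances false
set_option linter.unusedSectionVars false

open FF Module Polynomial Pool.Agent.W602.GT Pool.Agent.W603.LV Pool.Agent.W619.PQ Pool.Agent.Y172

namespace Pool.Agent.Q58.LG

open Pool.Agent.Y954.NT (exists_lift trace_der cst mem_cst const_of_alg rel2 line_of)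
open Pool.Agent.Y184.NT

/-- the ratios of the traces separate the tangent vectors, for correspondences -/
theorem gt_corr2 (hCB2 : StCB2) {L K : Type} [Field L] [Field K] [Algebra ℂ L] [Algebra ℂ K]
    [Algebra L K] [IsScalarTower ℂ L K] [FiniteDimensional L K] {N m : ℕ}
    {x : Fin N → K} {j0 : Fin N} (hj0 : x j0 = 1)
    (hgenL : IntermediateField.adjoin L (Set.range x) = ⊤)
    (hder : ∀ D : Derivation ℂ K K, (∀ j, D (x j) = 0) → D = 0)
    (hfin : 2 * Module.finrank L K ≤ m + 1)
    {h : K} (hh : h ≠ 0) {T : (Fin m → Fin N) → L}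
    (hT : ∀ f, T f = Algebra.trace L K ((∏ k, x (f k)) * h)) (D : Derivation ℂ L L)
    (hTD : ∀ f g, T f * D (T g) = T g * D (T f)) : D = 0 := by
  classical
  have hchar : CharZero L := charZero_of_injective_algebraMap (algebraMap ℂ L).injective
  let Ω := AlgebraicClosure L
  have hcard : Fintype.card (K →ₐ[L] Ω) = finrank L K := AlgHom.card L K Ω
  by_contra hD
  -- a nonzero trace
  obtain ⟨g, hg⟩ : ∃ g, T g ≠ 0 := by
    by_contra hcon
    push Not at hcon
    have h1 := (Pool.Agent.Y614.NT.stLine Pool.Agent.Y153.NT.stCB L K N m x j0 hj0 hgenL h hh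
      (fun f => by rw [← hT, hcon]) (by omega)).1
    omega
  obtain ⟨lam, hlam⟩ : ∃ lam : L, ∀ f, D (T f) = lam * T f := by
    refine ⟨D (T g) / T g, fun f => ?_⟩
    have h1 := hTD f g
    rw [div_mul_eq_mul_div, eq_div_iff hg]
    linear_combination -h1
  obtain ⟨D', hD'⟩ := exists_lift (K := K) D
  -- the tangent vector is not zero
  have hx : ∃ j, D' (x j) ≠ 0 := by
    by_contra hcon
    push Not at hcon
    apply hD
    have h1 : D' = 0 := hder D' hcon
    ext y
    have h2 : D' (algebraMap L K y) = 0 := by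
      rw [h1]
      rfl
    rw [hD'] at h2
    exact (map_eq_zero _).1 h2
  have hx0 : D' (x j0) = 0 := by
    rw [hj0]
    exact D'.map_one_eq_zero
  -- the relation
  have htr : ∀ f : Fin m → Fin N, Algebra.trace L K ((D' h - algebraMap L K lam * h) *
      ∏ k, x (f k) + h * ∑ j, D' (x (f j)) * ∏ k ∈ Finset.univ.erase j, x (f k)) = 0 := by
    intro f
    have hprod : ∀ s : Finset (Fin m), D' (∏ k ∈ s, x (f k)) =
        ∑ j ∈ s, D' (x (f j)) * ∏ k ∈ s.erase j, x (f k) := by
      intro s
      induction s using Finset.induction_on with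
      | empty => simp [D'.map_one_eq_zero]
      | insert i s hi ih =>
        rw [Finset.prod_insert hi, D'.leibniz, ih, Finset.sum_insert hi, Finset.erase_insert hi,
          smul_eq_mul, smul_eq_mul, Finset.mul_sum, add_comm, mul_comm (∏ k ∈ s, x (f k))]
        congr 1
        refine Finset.sum_congr rfl fun j hj => ?_
        have hji : i ≠ j := fun e => hi (e ▸ hj)
        rw [Finset.erase_insert_of_ne hji, Finset.prod_insert
          (fun e => hi (Finset.mem_of_mem_erase e))]
        ring
    have h1 : D' ((∏ k, x (f k)) * h) = D' h * ∏ k, x (f k) +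
        h * ∑ j, D' (x (f j)) * ∏ k ∈ Finset.univ.erase j, x (f k) := by
      rw [D'.leibniz, hprod, smul_eq_mul, smul_eq_mul]
      ring
    have h2 := trace_der hD' ((∏ k, x (f k)) * h)
    rw [← hT, hlam, h1] at h2
    have h3 : (D' h - algebraMap L K lam * h) * ∏ k, x (f k) +
        h * ∑ j, D' (x (f j)) * ∏ k ∈ Finset.univ.erase j, x (f k) =
        (D' h * ∏ k, x (f k) + h * ∑ j, D' (x (f j)) * ∏ k ∈ Finset.univ.erase j, x (f k)) -
        lam • ((∏ k, x (f k)) * h) := by
      rw [Algebra.smul_def]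
      ring
    rw [h3, map_sub, map_smul, h2, ← hT, smul_eq_mul, sub_self]
  obtain ⟨hm2, -⟩ := hCB2 Ω N (K →ₐ[L] Ω) m Finset.univ (fun σ j => σ (x j))
    (fun σ j => σ (D' (x j))) (fun σ => σ (D' h - algebraMap L K lam * h)) (fun σ => σ h)
    (by
      rw [← Finset.card_pos, Finset.card_univ, hcard]
      exact finrank_pos)
    (fun σ _ => by
      rw [_root_.map_ne_zero]
      exact hh)
    (fun σ _ => by
      rw [LinearIndependent.pair_iff]
      intro s t hst
      have h1 := congrFun hst j0
      simp only [Pi.add_apply, Pi.smul_apply, smul_eq_mul, hj0, map_one, mul_one,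
        Pi.zero_apply, D'.map_one_eq_zero, map_zero, mul_zero, add_zero] at h1
      obtain ⟨j, hj⟩ := hx
      have h2 := congrFun hst j
      simp only [Pi.add_apply, Pi.smul_apply, smul_eq_mul, Pi.zero_apply, h1, zero_mul,
        zero_add] at h2
      exact ⟨h1, (mul_eq_zero.1 h2).resolve_right fun e => hj ((_root_.map_eq_zero σ).1 e)⟩)
    (fun σ _ σ' _ hne => by
      rw [LinearIndependent.pair_iff]
      intro s t hst
      have h1 := congrFun hst j0
      simp only [Pi.add_apply, Pi.smul_apply, smul_eq_mul, hj0, map_one, mul_one,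
        Pi.zero_apply] at h1
      have h2 : t = -s := by linear_combination h1
      subst h2
      by_cases hs : s = 0
      · simp [hs]
      · exfalso
        apply hne
        apply Pool.Agent.Y614.NT.emb_ext x hgenL
        intro j
        have h3 := congrFun hst j
        simp only [Pi.add_apply, Pi.smul_apply, smul_eq_mul, Pi.zero_apply] at h3
        have h4 : s * (σ (x j) - σ' (x j)) = 0 := by linear_combination h3
        rcases mul_eq_zero.1 h4 with h5 | h5
        · exact absurd h5 hs
        · exact sub_eq_zero.1 h5)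
    (fun l => rel2 x (fun j => D' (x j)) h _ htr l)
    (by rw [Finset.card_univ, hcard]; omega)
  rw [Finset.card_univ, hcard] at hm2
  omega

section

variable {K L : Type} [Field K] [Field L] [Algebra ℂ K] [Algebra ℂ L] [Algebra K L]
  [IsScalarTower ℂ K L] [FiniteDimensional K L] [Algebra.EssFiniteType ℂ K]
  [Algebra.EssFiniteType ℂ L] {n : ℕ}

/-- the trace form on other coordinates -/
theorem tr_coord {y : Fin n → K} {E : Fin n → Derivation ℂ K K}
    (hy : IsTranscendenceBasis ℂ y) (hE : ∀ i j, E i (y j) = if i = j then 1 else 0)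
    {E' : Fin n → Derivation ℂ L L}
    (hE' : ∀ i f, E' i (algebraMap K L f) = algebraMap K L (E i f))
    {W : (Fin n → Derivation ℂ L L) → L} (hW : IsPluri 1 W)
    {yP : Fin n → K} {EP : Fin n → Derivation ℂ K K} (hyP : IsTranscendenceBasis ℂ yP)
    (hEP : ∀ i j, EP i (yP j) = if i = j then 1 else 0)
    {EP' : Fin n → Derivation ℂ L L}
    (hEP' : ∀ i f, EP' i (algebraMap K L f) = algebraMap K L (EP i f))
    (G : Fin n → Derivation ℂ K K) :
    trForm y (Algebra.trace K L (W E')) G =
      (Matrix.of fun i j => G i (yP j) : Matrix (Fin n) (Fin n) K).det *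
        Algebra.trace K L (W EP') := by
  classical
  obtain ⟨B, hB⟩ : ∃ B : Matrix (Fin n) (Fin n) K, B = Matrix.of fun i j => E i (yP j) :=
    ⟨_, rfl⟩
  have hC : (Matrix.of fun i j => G i (yP j) : Matrix (Fin n) (Fin n) K).det =
      (Matrix.of fun i j => G i (y j) : Matrix (Fin n) (Fin n) K).det * B.det := by
    rw [← Matrix.det_mul]
    congr 1
    ext i j
    rw [Matrix.of_apply, Matrix.mul_apply, hB]
    have h1 := Pool.Agent.W73.PG.PULL.expand y hy E hE (G i)
    conv_lhs => rw [← h1]
    rw [sum_smul_apply]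
    rfl
  have hWB : W E' = algebraMap K L B.det * W EP' := by
    have h1 := pluri_coord (hyP.algebraMap_comp (A := L)) (lift_dual hEP hEP') hW E'
    rw [h1, pow_one]
    congr 1
    rw [hB, RingHom.map_det]
    congr 1
    ext i j
    rw [Matrix.of_apply, RingHom.mapMatrix_apply, Matrix.map_apply, Matrix.of_apply]
    exact hE' i (yP j)
  change (Matrix.of fun i j => G i (y j) : Matrix (Fin n) (Fin n) K).det *
      Algebra.trace K L (W E') = _
  rw [hC, hWB, ← Algebra.smul_def, map_smul, smul_eq_mul]
  ring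

/-- traces of canonical forms which are regular over a place are regular at the place -/
theorem tr_reg (hn : Algebra.trdeg ℂ K = n) {y : Fin n → K} {E : Fin n → Derivation ℂ K K}
    (hy : IsTranscendenceBasis ℂ y) (hE : ∀ i j, E i (y j) = if i = j then 1 else 0)
    {E' : Fin n → Derivation ℂ L L}
    (hE' : ∀ i f, E' i (algebraMap K L f) = algebraMap K L (E i f))
    (W : (Fin n → Derivation ℂ L L) → L) (hW : IsPluri 1 W) (P : Place ℂ K) (hP : Divisorial n P)
    (hreg : ∀ (Q : Place ℂ L) (e : ℕ), Over Q P e → RegAt Q W) :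
    RegAt P (trForm y (Algebra.trace K L (W E'))) := by
  classical
  have hnL : Algebra.trdeg ℂ L = n := trdeg_up (K := K) hn
  intro G hG
  obtain ⟨yP, EP, i0, hl⟩ := exists_loc hn hP
  choose EP' hEP' using fun i => Pool.Agent.Y172.exists_lift (L := L) hn (EP i)
  rw [tr_coord hy hE hE' hW hl.bas hl.dual hEP']
  refine P.reg_mul ?_ ?_
  · have h9 : Ge P 0 (Matrix.of fun i j => G i (yP j) : Matrix (Fin n) (Fin n) K).det :=
      ge_det P _ _ (fun _ _ => 0) (fun a b => hG a _ (hl.reg b)) fun σ => by simp
    exact h9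
  · refine Pool.Agent.Y692.NT.trace_reg P (W EP') fun Q e hQ => ?_
    have hQd : Divisorial n Q := divisorial_up hQ hP
    have h1 := down_ge hnL hQ hQd hl hEP' hW (c := 0) (fun G' hG' => by
      rcases hreg Q e hQ G' hG' with h | h
      · exact Or.inl h
      · exact Or.inr (by exact_mod_cast h))
    rcases h1 with h1 | h1
    · exact Or.inl h1
    · right
      have h2 : ((1 - e : ℤ) : ℝ) ≤ (Q.ord (W EP') : ℝ) := by
        push_cast
        push_cast at h1
        linarith
      exact_mod_cast h2

/-- traces of forms which are logarithmic over a place are logarithmic at the place -/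
theorem tr_log (hn : Algebra.trdeg ℂ K = n) {y : Fin n → K} {E : Fin n → Derivation ℂ K K}
    (hy : IsTranscendenceBasis ℂ y) (hE : ∀ i j, E i (y j) = if i = j then 1 else 0)
    {E' : Fin n → Derivation ℂ L L}
    (hE' : ∀ i f, E' i (algebraMap K L f) = algebraMap K L (E i f))
    (W : (Fin n → Derivation ℂ L L) → L) (hW : IsPluri 1 W) (P : Place ℂ K) (hP : Divisorial n P)
    (hlog : ∀ (Q : Place ℂ L) (e : ℕ), Over Q P e → LogAt Q W) :
    LogAt P (trForm y (Algebra.trace K L (W E'))) := by
  classical
  intro G hG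
  obtain ⟨yP, EP, i0, hl⟩ := exists_loc hn hP
  choose EP' hEP' using fun i => Pool.Agent.Y172.exists_lift (L := L) hn (EP i)
  rw [tr_coord hy hE hE' hW hl.bas hl.dual hEP']
  have h1 : Ge P 1 (Matrix.of fun i j => G i (yP j) : Matrix (Fin n) (Fin n) K).det := by
    rw [← Matrix.det_transpose]
    refine ge_det P _ 1 (fun a _ => if a = i0 then 1 else 0) (fun a b => ?_) fun σ => ?_
    · change Ge P (if a = i0 then 1 else 0) (G b (yP a))
      split_ifs with ha
      · rw [ha]
        exact DerLog.ge (hG b) (Or.inr (by rw [hl.unif]))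
      · exact DerLog.ge (hG b) (hl.reg a)
    · have h3 : ∑ i, (if σ i = i0 then (1 : ℤ) else 0) = 1 := by
        rw [Finset.sum_eq_single (σ.symm i0)]
        · simp
        · intro i _ hi
          rw [if_neg]
          intro h
          exact hi (by rw [← h]; simp)
        · intro h
          exact absurd (Finset.mem_univ _) h
      exact h3.ge
  have h2 : P.Reg (yP i0 * Algebra.trace K L (W EP')) := by
    have h3 : yP i0 * Algebra.trace K L (W EP') =
        Algebra.trace K L (W fun i => algebraMap K L (lc yP i0 i) • EP' i) := by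
      rw [pluri_diag hW (fun i => algebraMap K L (lc yP i0 i)) EP', ← map_prod, prod_lc, pow_one,
        ← Algebra.smul_def, map_smul, smul_eq_mul]
    rw [h3]
    refine Pool.Agent.Y692.NT.trace_reg P _ fun Q e hQ => ?_
    have h4 := hlog Q e hQ (fun i => algebraMap K L (lc yP i0 i) • EP' i)
      (fun i => lift_log hQ (hl.log i) fun f => by
        change algebraMap K L (lc yP i0 i) * EP' i (algebraMap K L f) =
          algebraMap K L (lc yP i0 i * EP i f)
        rw [hEP', map_mul])
    have h5 : (1 : ℤ) ≤ e := by exact_mod_cast hQ.1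
    have h6 : Ge Q (1 - e) (W fun i => algebraMap K L (lc yP i0 i) • EP' i) :=
      Ge.mono (by omega) (show Ge Q 0 _ from h4)
    exact h6
  have h3 : Ge P (-1) (Algebra.trace K L (W EP')) := by
    have h4 := ge_div hl.ne (show Ge P 0 (yP i0 * Algebra.trace K L (W EP')) from h2)
    rw [hl.unif, mul_div_cancel_left₀ _ hl.ne] at h4
    simpa using h4
  have h4 := h1.mul h3
  have h5 : (1 : ℤ) + -1 = 0 := by norm_num
  rw [h5] at h4
  exact h4

end

section

variable {M K : Type} [Field M] [Field K] [Algebra ℂ M] [Algebra ℂ K] [Algebra M K]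
  [IsScalarTower ℂ M K] [FiniteDimensional M K] [Algebra.EssFiniteType ℂ M] {n : ℕ}

/-- pull-backs of forms which are regular at a place are regular over the place -/
theorem pull_regAt (hM : Algebra.trdeg ℂ M = n) {z : Fin n → M} {EM : Fin n → Derivation ℂ M M}
    (hz : IsTranscendenceBasis ℂ z) (hEM : ∀ i j, EM i (z j) = if i = j then 1 else 0)
    {ω : (Fin n → Derivation ℂ M M) → M} (hω : IsPluri 1 ω) {P : Place ℂ M} (hP : Divisorial n P)
    (hreg : RegAt P ω) {Q : Place ℂ K} {e : ℕ} (hQ : Over Q P e) :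
    RegAt Q (pull z (ω EM) : (Fin n → Derivation ℂ K K) → K) := by
  classical
  intro D hD
  obtain ⟨yP, EP, i0, hl⟩ := exists_loc hM hP
  have h1 := Pool.Agent.W73.PG.PULL.form_eq (L := K) z yP hz hl.bas EM EP hEM hl.dual
    (m := 1) ω hω D
  rw [pow_one, pow_one] at h1
  unfold pull
  rw [h1]
  refine Q.reg_mul ?_ ?_
  · have h9 : Ge Q 0 (Matrix.of fun a c => D a (algebraMap M K (yP c)) :
        Matrix (Fin n) (Fin n) K).det :=
      ge_det Q _ _ (fun _ _ => 0) (fun a b => hD a _ (hQ.reg.2 (hl.reg b))) fun σ => by simp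
    exact h9
  · exact hQ.reg.2 (hreg EP hl.pres)

/-- pull-backs of forms which are logarithmic at a place are logarithmic over the place -/
theorem pull_logAt (hM : Algebra.trdeg ℂ M = n) {z : Fin n → M} {EM : Fin n → Derivation ℂ M M}
    (hz : IsTranscendenceBasis ℂ z) (hEM : ∀ i j, EM i (z j) = if i = j then 1 else 0)
    {ω : (Fin n → Derivation ℂ M M) → M} (hω : IsPluri 1 ω) {P : Place ℂ M} (hP : Divisorial n P)
    (hlog : LogAt P ω) {Q : Place ℂ K} {e : ℕ} (hQ : Over Q P e) :
    LogAt Q (pull z (ω EM) : (Fin n → Derivation ℂ K K) → K) := by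
  classical
  intro D hD
  obtain ⟨yP, EP, i0, hl⟩ := exists_loc hM hP
  have h1 := Pool.Agent.W73.PG.PULL.form_eq (L := K) z yP hz hl.bas EM EP hEM hl.dual
    (m := 1) ω hω D
  have h2 := pull_log hQ hl hD hω (b := 0) (hlog _ fun i => hl.log i)
  rw [pow_one, pow_one] at h1
  rw [pow_one, mul_zero] at h2
  unfold pull
  rw [h1]
  exact h2

end

section

variable {M K L : Type} [Field M] [Field K] [Field L] [Algebra ℂ M] [Algebra ℂ K] [Algebra ℂ L]
  [Algebra M K] [Algebra L K] [IsScalarTower ℂ M K] [IsScalarTower ℂ L K]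
  [FiniteDimensional M K] [FiniteDimensional L K] {n N m : ℕ}

/-- A place of a finite extension is over a place of the field. -/
theorem exists_below
    {Q : Place ℂ K} (hQ : Divisorial n Q) : ∃ (e : ℕ) (P : Place ℂ M), Over Q P e ∧
      Divisorial n P := by
  have htriv : ∃ f : M, Q.ord (algebraMap M K f) ≠ 0 := by
    by_contra hcon
    push Not at hcon
    have h1 : Q.Reg (unif Q)⁻¹ := Q.reg_of_isIntegral (A := M) (fun a => by
      by_cases h0 : algebraMap M K a = 0
      · exact Or.inl h0
      · exact Or.inr (hcon a).ge) (Algebra.IsIntegral.isIntegral _)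
    have hu := ord_unif Q
    have hu0 : unif Q ≠ 0 := by
      intro h0
      rw [h0, Q.ord_zero] at hu
      omega
    rcases h1 with h1 | h1
    · exact inv_ne_zero hu0 h1
    · rw [Q.ord_inv, hu] at h1
      omega
  obtain ⟨e, P, hP⟩ := exists_over Q htriv
  exact ⟨e, P, hP, divisorial_down hP hQ⟩

/-- **Logarithmic forms of varieties which correspond to a variety with many logarithmic
forms.** -/
theorem log_dom [Algebra.EssFiniteType ℂ M] (hn : 1 ≤ n)
    (hM : Algebra.trdeg ℂ M = n) {x : Fin N → M} {j0 : Fin N} (hj0 : x j0 = 1)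
    (hgen : IntermediateField.adjoin ℂ (Set.range x) = ⊤)
    {ω : (Fin n → Derivation ℂ M M) → M} (hω : IsPluri 1 ω) (hω0 : ∃ D, ω D ≠ 0)
    {BM : Place ℂ M → Prop}
    (hlog : ∀ (f : Fin m → Fin N) (P : Place ℂ M), Divisorial n P →
      LogAt P (fun D => (∏ k, x (f k)) * ω D))
    (hreg : ∀ (f : Fin m → Fin N) (P : Place ℂ M), Divisorial n P → ¬ BM P →
      RegAt P (fun D => (∏ k, x (f k)) * ω D))
    (hgenL : IntermediateField.adjoin L (Set.range fun j => algebraMap M K (x j)) = ⊤)
    {BL : Place ℂ L → Prop}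
    (hB : ∀ (P : Place ℂ L) (Q : Place ℂ K) (P' : Place ℂ M) (e e' : ℕ), Divisorial n P →
      Over Q P e → Over Q P' e' → ¬ BL P → ¬ BM P')
    (hr : 2 * Module.finrank L K ≤ m + 1) : LogGeneralType ℂ L n BL := by
  classical
  have hessMK : Algebra.EssFiniteType M K := inferInstance
  have hessK : Algebra.EssFiniteType ℂ K := Algebra.EssFiniteType.comp ℂ M K
  have hessL : Algebra.EssFiniteType ℂ L := Pool.Agent.TH466.QG.ess_below (K := K)
  have hcL : CharZero L := charZero_of_injective_algebraMap (algebraMap ℂ L).injective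
  have hK : Algebra.trdeg ℂ K = n := Pool.Agent.Y172.trdeg_up (K := M) hM
  have hL : Algebra.trdeg ℂ L = n := trdeg_below (K := K) hK
  obtain ⟨z, EM, hz, hEM⟩ := Pool.Agent.Y172.exists_crd (k := ℂ) (K := M) hM
  choose EK hEK using fun i => Pool.Agent.Y172.exists_lift (k := ℂ) (K := M) (L := K) hM (EM i)
  have hzK : IsTranscendenceBasis ℂ (fun j => algebraMap M K (z j)) := hz.algebraMap_comp
  have hEKd := Pool.Agent.Y172.lift_dual hEM hEK
  obtain ⟨y, E, hy, hE⟩ := Pool.Agent.Y172.exists_crd (k := ℂ) (K := L) hL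
  choose E' hE' using fun i => Pool.Agent.Y172.exists_lift (k := ℂ) (K := L) (L := K) hL (E i)
  have hEind : LinearIndependent K E' := lift_ind hE hE'
  -- the forms
  have hωE : ω EM ≠ 0 := by
    intro h0
    obtain ⟨D, hD⟩ := hω0
    apply hD
    rw [Pool.Agent.Y172.pluri_coord hz hEM hω D, h0, mul_zero]
  have hp : ∀ f : Fin m → Fin N, IsPluri 1 (fun D => (∏ k, x (f k)) * ω D) := by
    intro f A D
    change (∏ k, x (f k)) * ω (fun i => ∑ j, A i j • D j) = _
    rw [hω A D]
    ring
  obtain ⟨W, hWdef⟩ : ∃ W : (Fin m → Fin N) → (Fin n → Derivation ℂ K K) → K,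
    W = fun f => pull z ((∏ k, x (f k)) * ω EM) := ⟨_, rfl⟩
  have hWp : ∀ f, IsPluri 1 (W f) := fun f => by
    rw [hWdef]
    exact pull_pluri _ _
  have hWl : ∀ f (Q : Place ℂ K), Divisorial n Q → LogAt Q (W f) := by
    intro f Q hQ
    obtain ⟨e, P, hP, hPd⟩ := exists_below (M := M) hQ
    rw [hWdef]
    exact pull_logAt hM hz hEM (hp f) hPd (hlog f P hPd) hP
  have hWr : ∀ f (Q : Place ℂ K) (P : Place ℂ M) (e : ℕ), Over Q P e → Divisorial n Q → ¬ BM P →
      RegAt Q (W f) := by
    intro f Q P e hP hQ hBP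
    have hPd : Divisorial n P := divisorial_down hP hQ
    rw [hWdef]
    exact pull_regAt hM hz hEM (hp f) hPd (hreg f P hPd hBP) hP
  obtain ⟨h, hhdef⟩ : ∃ h : K, h = pull z (ω EM) E' := ⟨_, rfl⟩
  have hh : h ≠ 0 := by
    rw [hhdef]
    exact mul_ne_zero (minor_ne hzK hEKd hEind) (by simpa using hωE)
  have hWE : ∀ f, W f E' = (∏ k, algebraMap M K (x (f k))) * h := by
    intro f
    rw [hWdef, hhdef]
    simp only [pull]
    rw [map_mul, map_prod]
    ring
  obtain ⟨T, hT⟩ : ∃ T : (Fin m → Fin N) → L,
    ∀ f, T f = Algebra.trace L K ((∏ k, algebraMap M K (x (f k))) * h) := ⟨_, fun _ => rfl⟩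
  -- the trace forms
  have hθp : ∀ f, IsPluri 1 (trForm y (T f)) := fun f => trForm_pluri y (T f)
  have hθl : ∀ f (P : Place ℂ L), Divisorial n P → LogAt P (trForm y (T f)) := by
    intro f P hP
    rw [hT, ← hWE]
    exact tr_log hL hy hE hE' (W f) (hWp f) P hP fun Q e hQ =>
      hWl f Q (divisorial_up hQ hP)
  have hθr : ∀ f (P : Place ℂ L), Divisorial n P → ¬ BL P → RegAt P (trForm y (T f)) := by
    intro f P hP hBP
    rw [hT, ← hWE]
    refine tr_reg hL hy hE hE' (W f) (hWp f) P hP fun Q e hQ => ?_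
    have hQd := divisorial_up hQ hP
    obtain ⟨e', P', hP', -⟩ := exists_below (M := M) hQd
    exact hWr f Q P' e' hP' hQd (hB P Q P' e e' hP hQ hP' hBP)
  have hθE : ∀ t, trForm y t E = t := by
    intro t
    have h1 : (Matrix.of fun i j => E i (y j) : Matrix (Fin n) (Fin n) L) = 1 := by
      ext i j
      rw [Matrix.of_apply, hE, Matrix.one_apply]
    rw [trForm, h1, Matrix.det_one, one_mul]
  have hj0' : algebraMap M K (x j0) = 1 := by rw [hj0, map_one]
  have hder : ∀ D : Derivation ℂ K K, (∀ j, D (algebraMap M K (x j)) = 0) → D = 0 := by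
    intro D hD
    let C0 : IntermediateField ℂ M :=
      { carrier := {f | D (algebraMap M K f) = 0}
        mul_mem' := fun {f g} hf hg => by
          change D (algebraMap M K (f * g)) = 0
          rw [map_mul, D.leibniz, show D (algebraMap M K f) = 0 from hf,
            show D (algebraMap M K g) = 0 from hg]
          simp
        add_mem' := fun {f g} hf hg => by
          change D (algebraMap M K (f + g)) = 0
          rw [map_add, map_add, show D (algebraMap M K f) = 0 from hf,
            show D (algebraMap M K g) = 0 from hg, add_zero]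
        algebraMap_mem' := fun c => by
          change D (algebraMap M K (algebraMap ℂ M c)) = 0
          rw [← IsScalarTower.algebraMap_apply]
          exact D.map_algebraMap c
        inv_mem' := fun f hf => by
          change D (algebraMap M K f⁻¹) = 0
          rw [map_inv₀, Derivation.leibniz_inv, show D (algebraMap M K f) = 0 from hf,
            smul_zero] }
    have h2 : IntermediateField.adjoin ℂ (Set.range x) ≤ C0 := by
      rw [IntermediateField.adjoin_le_iff]
      rintro _ ⟨j, rfl⟩
      exact hD j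
    have h1 := Pool.Agent.W73.PG.PULL.expand _ hzK EK hEKd D
    rw [← h1]
    refine Finset.sum_eq_zero fun j _ => ?_
    have h3 : z j ∈ IntermediateField.adjoin ℂ (Set.range x) := by
      rw [hgen]
      trivial
    have h4 : D (algebraMap M K (z j)) = 0 := h2 h3
    rw [h4, zero_smul]
  have hsep := gt_corr2 Pool.Agent.Y141.NT.stCB2 hj0' hgenL hder hr hh hT
  obtain ⟨s, hs0, hs⟩ := exists_ratios hn hL T hsep
  refine ⟨hL, 1, one_pos, fun j => trForm y (T (s j)), fun j => hθp _,
    fun P hP j => hθl _ P hP, fun P hP hBP j => hθr _ P hP hBP, E, ?_, ?_⟩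
  · change trForm y (T (s 0)) E ≠ 0
    rw [hθE]
    exact hs0
  · simp only [hθE]
    exact hs

end

end Pool.Agent.Q58.LG
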