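import Pool.Agent.Q58.LG.LForm
import Pool.Agent.Q58.LG.Dom
import Pool.Agent.Q58.LG.Null
import Pool.Agent.Q58.FI.Gen

/-!
Subvarieties of the images of varieties over generic pairs are of log general type.
-/

set_option autoImplicit false
set_option linter.overlappingInstances false

open MvPolynomial FF Pool.Agent.W602.GT Pool.Agent.W603.PV Pool.Agent.Y221.FQ
open Pool.Agent.TH145.MG (DimLE)
open Pool.Agent.TH145.GC (Rt Cf finite_cf)
open Pool.Agent.Q58.FI (eqs ratio_fam)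

namespace Pool.Agent.Q58.LG

theorem exists_above {K K' : Type} [Field K] [Field K'] [Algebra ℂ K] [Algebra ℂ K'] [Algebra K K']
    [IsScalarTower ℂ K K'] [FiniteDimensional K K'] (q : Place ℂ K) :
    ∃ (e : ℕ) (w : Place ℂ K'), Over w q e := by
  obtain ⟨S, T, -, hT, hsum⟩ := exists_places_over (K' := K') q
  have hpos : 0 < Module.finrank K K' := Module.finrank_pos
  obtain ⟨w, hw⟩ : S.Nonempty := by
    rw [Finset.nonempty_iff_ne_empty]
    rintro rfl
    rw [Finset.sum_empty] at hsum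
    omega
  obtain ⟨e, h, -⟩ := hT w hw
  exact ⟨e, w, h⟩

theorem pord_over {K K' : Type} [Field K] [Field K'] [Algebra ℂ K] [Algebra ℂ K'] [Algebra K K']
    [IsScalarTower ℂ K K'] {Q : Place ℂ K'} {P : Place ℂ K} {e : ℕ} (h : Over Q P e) {n : ℕ}
    {f : Fin (n + 1) → K} (hf : ∃ j, f j ≠ 0) :
    pord Q (fun j => algebraMap K K' (f j)) = e * pord P f := by
  apply le_antisymm
  · obtain ⟨j, hj, hj'⟩ := exists_pord P hf
    rw [← hj', ← h.2]
    exact pord_le Q (f := fun j => algebraMap K K' (f j)) ((map_ne_zero _).2 hj)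
  · obtain ⟨j0, hj0⟩ := hf
    rw [Pool.Agent.Y221.AH.pord_le_iff Q ⟨j0, (map_ne_zero (algebraMap K K')).2 hj0⟩]
    intro j
    by_cases hj : f j = 0
    · left
      rw [hj, map_zero]
    · right
      rw [h.2]
      exact mul_le_mul_of_nonneg_left (pord_le P hj) (Int.natCast_nonneg _)

/-- A variety over which there is a point of small degree, on a variety with many logarithmic
canonical forms, is of log general type. -/
theorem lgt_of_point {L0 E : Type} [Field L0] [Field E] [Algebra ℂ L0] [Algebra ℂ E] [Algebra L0 E]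
    [IsScalarTower ℂ L0 E] [FiniteDimensional L0 E] [Algebra.EssFiniteType ℂ L0] {n N w : ℕ}
    (hw : 1 ≤ w) (htr : Algebra.trdeg ℂ L0 = w) {x : Fin n → E} {j0 : Fin n} (hx1 : x j0 = 1)
    {M0 : IntermediateField ℂ E} (hM0 : M0 = IntermediateField.adjoin ℂ (Set.range x))
    (halg : Algebra.IsAlgebraic M0 E) {x0 : Fin n → M0} (hx0 : ∀ j, (x0 j : E) = x j)
    {ω : (Fin w → Derivation ℂ M0 M0) → M0} (hω : IsPluri 1 ω) (hω0 : ∃ D, ω D ≠ 0)
    {BM : Place ℂ M0 → Prop}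
    (hlog : ∀ (f : Fin N → Fin n) (P : Place ℂ M0), Divisorial w P →
      LogAt P (fun D => (∏ k, x0 (f k)) * ω D))
    (hreg : ∀ (f : Fin N → Fin n) (P : Place ℂ M0), Divisorial w P → ¬ BM P →
      RegAt P (fun D => (∏ k, x0 (f k)) * ω D))
    {BL : Place ℂ L0 → Prop}
    (hB : ∀ (P : Place ℂ L0) (Q : Place ℂ E) (P' : Place ℂ M0) (e e' : ℕ),
      Over Q P e → Over Q P' e' → ¬ BL P → ¬ BM P')
    (hr : 2 * Module.finrank L0 E ≤ N + 1) : LogGeneralType ℂ L0 w BL := by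
  classical
  obtain ⟨E', hE'⟩ : ∃ E' : IntermediateField L0 E,
    E' = IntermediateField.adjoin L0 (Set.range x) := ⟨_, rfl⟩
  have hxE : ∀ j, x j ∈ E' := fun j => by
    rw [hE']
    exact IntermediateField.subset_adjoin L0 _ ⟨j, rfl⟩
  have hle : ∀ y : E, y ∈ M0 → y ∈ E' := by
    have h1 : M0 ≤ E'.restrictScalars ℂ := by
      rw [hM0, IntermediateField.adjoin_le_iff]
      rintro _ ⟨j, rfl⟩
      exact hxE j
    exact fun y hy => h1 hy
  let ι : M0 →+* E' :=
    { toFun := fun y => ⟨y.1, hle _ y.2⟩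
      map_one' := rfl
      map_zero' := rfl
      map_mul' := fun _ _ => rfl
      map_add' := fun _ _ => rfl }
  let _ : Algebra M0 E' := ι.toAlgebra
  have hst : IsScalarTower ℂ M0 E' := IsScalarTower.of_algebraMap_eq fun c => Subtype.ext rfl
  have hst2 : IsScalarTower M0 E' E := IsScalarTower.of_algebraMap_eq fun c => rfl
  have hfin1 : 2 * Module.finrank L0 E' ≤ N + 1 := by
    have h1 : Module.finrank L0 E' ≤ Module.finrank L0 E :=
      (IntermediateField.finrank_le_of_le_right (le_top : E' ≤ ⊤)).trans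
        (by rw [IntermediateField.finrank_top'])
    omega
  have hessE : Algebra.EssFiniteType ℂ E' := Algebra.EssFiniteType.comp ℂ L0 E'
  have hessM : Algebra.EssFiniteType M0 E' := Algebra.EssFiniteType.of_comp ℂ M0 E'
  have halg' : Algebra.IsAlgebraic M0 E' := by
    refine ⟨fun y => ?_⟩
    have h1 := halg.isAlgebraic (y : E)
    exact (isAlgebraic_algebraMap_iff (A := E) (FaithfulSMul.algebraMap_injective E' E)).1 h1
  have hfd : FiniteDimensional M0 E' := Algebra.finite_of_essFiniteType_of_isAlgebraic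
  have hessM0 : Algebra.EssFiniteType ℂ M0 := by
    rw [hM0, IntermediateField.essFiniteType_iff]
    exact ⟨Finset.univ.image x, by
      rw [Finset.coe_image, Finset.coe_univ, Set.image_univ]⟩
  have htrM : Algebra.trdeg ℂ M0 = w := by
    rw [← Pool.Agent.TH466.QG.trdeg_alg (k := ℂ) (E := M0) (K := E'),
      Pool.Agent.TH466.QG.trdeg_alg (k := ℂ) (E := L0) (K := E'), htr]
  have hx01 : x0 j0 = 1 := Subtype.ext (by rw [hx0, hx1]; rfl)
  have hgen : IntermediateField.adjoin ℂ (Set.range x0) = ⊤ := by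
    subst hM0
    apply IntermediateField.lift_injective
    rw [IntermediateField.lift_adjoin, IntermediateField.lift_top]
    congr 1
    ext y
    constructor
    · rintro ⟨_, ⟨j, rfl⟩, rfl⟩
      exact ⟨j, (hx0 j).symm⟩
    · rintro ⟨j, rfl⟩
      exact ⟨x0 j, ⟨j, rfl⟩, hx0 j⟩
  have hgenL : IntermediateField.adjoin L0 (Set.range fun j => algebraMap M0 E' (x0 j)) = ⊤ := by
    subst hE'
    apply IntermediateField.lift_injective
    rw [IntermediateField.lift_adjoin, IntermediateField.lift_top]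
    congr 1
    ext y
    constructor
    · rintro ⟨_, ⟨j, rfl⟩, rfl⟩
      exact ⟨j, (hx0 j).symm⟩
    · rintro ⟨j, rfl⟩
      exact ⟨algebraMap M0 _ (x0 j), ⟨j, rfl⟩, hx0 j⟩
  refine log_dom (M := M0) (K := E') (L := L0) hw htrM hx01 hgen hω hω0 hlog hreg
    hgenL (BL := BL) (fun P Q P' e e' _ hP hP' hBL => ?_) hfin1
  have hst3 : IsScalarTower ℂ E' E := IsScalarTower.of_algebraMap_eq fun c => by
    rw [IsScalarTower.algebraMap_apply ℂ L0 E, IsScalarTower.algebraMap_apply ℂ L0 E',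
      ← IsScalarTower.algebraMap_apply L0 E' E]
  obtain ⟨e2, Q2, hQ2⟩ := exists_above (K' := E) Q
  refine hB P Q2 P' (e2 * e) (e2 * e') ⟨Nat.mul_pos hQ2.1 hP.1, fun f => ?_⟩
    ⟨Nat.mul_pos hQ2.1 hP'.1, fun f => ?_⟩ hBL
  · rw [IsScalarTower.algebraMap_apply L0 E' E, hQ2.2, hP.2]
    push_cast
    ring
  · rw [IsScalarTower.algebraMap_apply M0 E' E, hQ2.2, hP'.2]
    push_cast
    ring

/-- Logarithmic canonical forms of subvarieties of generic pairs. -/
theorem lform_gen {k' : Type} [Field k'] [Algebra k' ℂ] {n m w N : ℕ} {A : Type} [Fintype A]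
    {d : A → ℕ} {V : Set (MvPolynomial (Fin (n + 1)) k')}
    (hVh : ∀ f ∈ V, ∃ e, f.IsHomogeneous e) (hV : DimLE k' V m)
    {F : A → MvPolynomial (Fin (n + 1)) ℂ} (hF : ∀ a, (F a).IsHomogeneous (d a))
    (hgen : AlgebraicIndependent k' fun p : Cf n d => (F p.1).coeff p.2.1) (hw : 0 < w)
    (Cs : Finset A) (hd : 2 * m + 1 + N ≤ ∑ a, d a + Cs.card + w) {L : Type} [Field L] [Algebra ℂ L]
    (htr : Algebra.trdeg ℂ L = w) (x : Fin (n + 1) → L) {c0 : Fin (n + 1)} (hx1 : x c0 = 1)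
    (halg : Algebra.IsAlgebraic (coords ℂ x) L)
    (hxV : ∀ f ∈ V, aeval x (map (algebraMap k' ℂ) f) = 0) (hxC : ∀ a ∈ Cs, aeval x (F a) = 0)
    (hxn : ∀ a, a ∉ Cs → aeval x (F a) ≠ 0) :
    ∃ Φ : (Fin w → Derivation ℂ L L) → L, IsPluri 1 Φ ∧ (∃ D, Φ D ≠ 0) ∧
      ∀ (f : Fin N → Fin (n + 1)) (Q : Place ℂ L), Divisorial w Q →
        LogAt Q (fun D => (∏ k, x (f k)) * Φ D) ∧
        ((¬ ∃ a, a ∉ Cs ∧ d a * pord Q x < Q.ord (aeval x (F a))) →
          RegAt Q (fun D => (∏ k, x (f k)) * Φ D)) := by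
  classical
  have hfd : ∀ a, Finite {I : Fin (n + 1) →₀ ℕ // I.degree = d a} := fun a =>
    Pool.Agent.TH145.GH.finite_deg n (d a)
  have hft : ∀ a, Fintype {I : Fin (n + 1) →₀ ℕ // I.degree = d a} := fun a => Fintype.ofFinite _
  obtain ⟨I0, hI0⟩ : ∃ I0 : A → Fin (n + 1) →₀ ℕ, ∀ a, (I0 a).degree = d a :=
    ⟨fun a => Finsupp.single 0 (d a), fun a => Finsupp.degree_single _ _⟩
  have h0 : ∀ a, (F a).coeff (I0 a) ≠ 0 := fun a => hgen.ne_zero ⟨a, ⟨I0 a, hI0 a⟩⟩
  have hind := ratio_fam hgen I0 hI0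
  obtain ⟨Φ, h1, h2, h3⟩ := exists_logform (k0 := k') (K := ℂ) (L := L) (n := n) (m := m) (w := w)
    (N := N) (A := A)
    (dg := d) V hVh hV (J := fun a => {I : Fin (n + 1) →₀ ℕ // I.degree = d a})
    (fun _ I => monomial I.1 1) (fun _ I => isHomogeneous_monomial _ I.2)
    (fun a I => (F a).coeff I.1) (fun a => ⟨I0 a, hI0 a⟩) h0 (by
      have h2 := hind.comp (fun p : (Σ a : A, {j : {I : Fin (n + 1) →₀ ℕ // I.degree = d a} //
        j ≠ ⟨I0 a, hI0 a⟩}) => (⟨p.1, p.2.1.1, p.2.1.2, fun h => p.2.2 (Subtype.ext h)⟩ :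
          Rt d I0)) (by
          rintro ⟨a, ⟨⟨I, hI⟩, hI2⟩⟩ ⟨a', ⟨⟨I', hI'⟩, hI2'⟩⟩ h
          have e1 : a = a' := congrArg Sigma.fst h
          subst e1
          have e2 := eq_of_heq (Sigma.mk.inj_iff.1 h).2
          have e3 : I = I' := congrArg Subtype.val e2
          subst e3
          rfl)
      exact h2) c0 (fun _ I hI => ⟨⟨I, Pool.Agent.TH145.GD.deg_St hI⟩, rfl⟩)
    (F := F) (fun a => Pool.Agent.Q58.FI.form_eq_sum (hF a)) Cs (fun _ => 0)
    (fun _ _ => Or.inr rfl) hw (by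
      simp only [Nat.div_zero, Finset.sum_const_zero]
      omega) htr x (by rw [hx1]; exact one_ne_zero) halg hxV hxC hxn (fun _ => 1)
    (fun _ _ h => absurd rfl h)
  refine ⟨Φ, h1, h2, fun f Q hQ => ?_⟩
  obtain ⟨h4, h5⟩ := h3 f Q hQ
  have h6 : ∀ k, (x c0)⁻¹ * x (f k) = x (f k) := fun k => by
    rw [hx1, inv_one, one_mul]
  simp only [h6] at h4 h5
  refine ⟨h4, fun h => h5 ?_⟩
  rintro ⟨a, ha, -, hlt⟩
  exact h ⟨a, ha, hlt⟩

section

variable {k : Type} [Field k] [Algebra k ℂ] {n m l M r h : ℕ}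
  {V : Set (MvPolynomial (Fin (n + 1)) (algebraicClosure k ℂ))}
  {A : Type} [Fintype A] {d : A → ℕ} {F : A → MvPolynomial (Fin (n + 1)) ℂ}
  {κ μ : Type} {Ψ : κ → MvPolynomial (Fin (l + 1)) ℂ} {Φ : μ → MvPolynomial (Fin (M + 1)) ℂ}
  {B : Fin (n + 1) → MvPolynomial (Fin (l + 1)) ℂ}
  {G : Fin (M + 1) → MvPolynomial (Fin (l + 1)) ℂ}

/-- Subvarieties of the images of varieties over generic pairs are of log general type. -/
theorem log_general_im (C : Finset A) (hVh : ∀ f ∈ V, ∃ e, f.IsHomogeneous e)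
    (hV : DimLE (algebraicClosure k ℂ) V m)
    (hd : 2 * m + 2 * r ≤ ∑ a, d a + C.card + 1) (hF : ∀ a, (F a).IsHomogeneous (d a))
    (hgen : AlgebraicIndependent k fun p : Cf n d => (F p.1).coeff p.2.1)
    (hΨ : ∀ e, IsForm (Ψ e)) (hB : Mor Ψ (eqs V fun c : {a // a ∈ C} => F c.1) B)
    (hG : Mor Ψ Φ G) (hon : Onto Ψ Φ G) (hfib : FibresLe Ψ G r)
    {H : MvPolynomial (Fin (M + 1)) ℂ} (hH : H.IsHomogeneous h) (hh : 1 ≤ h)
    (hE : ∀ x ∈ Cone Ψ, val (im G x) H ≠ 0 → ∀ b, b ∉ C → val (im B x) (F b) ≠ 0)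
    (L0 : Type) [Field L0] [Algebra ℂ L0] (w : ℕ) (z : Fin (M + 1) → L0) (hw : 1 ≤ w)
    (hz : SubVar Φ L0 w z) (hzH : val z H ≠ 0) :
    LogGeneralType ℂ L0 w fun P : Place ℂ L0 => h * pord P z < P.ord (val z H) := by
  classical
  obtain ⟨E, i1, i2, i3, i4, i5, u, i0, c, hrk, hu0, huΨ, hc0, hcz, htop⟩ :=
    lift_point hΨ hG hon hfib hz.ne hz.mem
  have halg : Algebra.IsAlgebraic (coords ℂ (im B u)) E :=
    lift_alg hΨ hB hz.gen hu0 huΨ hc0 hcz htop
  have hu : u ≠ 0 := by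
    intro h0
    rw [h0] at hu0
    exact zero_ne_one hu0
  have hu' : ∃ j, u j ≠ 0 := ⟨i0, by rw [hu0]; exact one_ne_zero⟩
  have hBu := hB.mem hu huΨ
  obtain ⟨j0, hj0⟩ := Function.ne_iff.1 hBu.1
  have hj0' : im B u j0 ≠ 0 := hj0
  obtain ⟨x, hx⟩ : ∃ x : Fin (n + 1) → E, x = fun j => (im B u j0)⁻¹ * im B u j := ⟨_, rfl⟩
  have hx1 : x j0 = 1 := by
    rw [hx]
    exact inv_mul_cancel₀ hj0'
  obtain ⟨M0, hM0⟩ : ∃ M0 : IntermediateField ℂ E,
    M0 = IntermediateField.adjoin ℂ (Set.range x) := ⟨_, rfl⟩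
  have hco : coords ℂ (im B u) ≤ M0 := by
    unfold coords
    rw [IntermediateField.adjoin_le_iff]
    rintro _ ⟨i, j, hj, rfl⟩
    have h1 : ∀ i, x i ∈ M0 := fun i => by
      rw [hM0]
      exact IntermediateField.subset_adjoin ℂ _ ⟨i, rfl⟩
    have h2 : im B u i / im B u j = x i / x j := by
      rw [hx]
      simp only
      rw [mul_div_mul_left _ _ (inv_ne_zero hj0')]
    rw [h2]
    exact div_mem (h1 i) (h1 j)
  have halgM : Algebra.IsAlgebraic M0 E := by
    refine ⟨fun y => ?_⟩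
    exact Pool.Agent.TH145.MF.alg_mono (F1 := (coords ℂ (im B u)).toSubfield)
      (F2 := M0.toSubfield) (fun z hz => hco hz) (halg.isAlgebraic y)
  have hxM : ∀ j, x j ∈ M0 := fun j => by
    rw [hM0]
    exact IntermediateField.subset_adjoin ℂ _ ⟨j, rfl⟩
  obtain ⟨x0, hx0⟩ : ∃ x0 : Fin (n + 1) → M0, ∀ j, (x0 j : E) = x j :=
    ⟨fun j => ⟨x j, hxM j⟩, fun _ => rfl⟩
  have htrE : Algebra.trdeg ℂ E = w := by
    rw [Pool.Agent.TH466.QG.trdeg_alg (k := ℂ) (E := L0) (K := E), hz.dim]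
  have htrM : Algebra.trdeg ℂ M0 = w := by
    rw [← Pool.Agent.TH466.QG.trdeg_alg (k := ℂ) (E := M0) (K := E), htrE]
  have hx01 : x0 j0 = 1 := Subtype.ext (by rw [hx0, hx1]; rfl)
  have hcoM : coords ℂ x0 = ⊤ := by
    have h1 : IntermediateField.adjoin ℂ (Set.range x0) = ⊤ := by
      subst hM0
      apply IntermediateField.lift_injective
      rw [IntermediateField.lift_adjoin, IntermediateField.lift_top]
      congr 1
      ext y
      constructor
      · rintro ⟨_, ⟨j, rfl⟩, rfl⟩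
        exact ⟨j, (hx0 j).symm⟩
      · rintro ⟨j, rfl⟩
        exact ⟨x0 j, ⟨j, rfl⟩, hx0 j⟩
    rw [_root_.eq_top_iff, ← h1, IntermediateField.adjoin_le_iff]
    rintro _ ⟨j, rfl⟩
    refine IntermediateField.subset_adjoin ℂ _ ⟨j, j0, ?_, ?_⟩
    · rw [hx01]
      exact one_ne_zero
    · rw [hx01, div_one]
  have hcoA : Algebra.IsAlgebraic (coords ℂ x0) M0 := by
    rw [hcoM]
    infer_instance
  have haev : ∀ p : MvPolynomial (Fin (n + 1)) ℂ, algebraMap M0 E (aeval x0 p) = aeval x p := by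
    intro p
    have h2 : ((aeval x0 p : M0) : E) = aeval (fun j => (x0 j : E)) p :=
      comp_aeval_apply (φ := M0.val) x0 p
    rw [funext hx0] at h2
    exact h2
  have hsc : ∀ (p : MvPolynomial (Fin (n + 1)) ℂ) (e : ℕ), p.IsHomogeneous e →
      aeval x p = (im B u j0)⁻¹ ^ e * val (im B u) p := by
    intro p e he
    have h2 := val_smul he (im B u j0)⁻¹ (im B u)
    rw [hx]
    exact h2
  have hval : ∀ p : MvPolynomial (Fin (n + 1)) ℂ, IsForm p → val (im B u) p = 0 →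
      aeval x0 p = 0 := by
    rintro p ⟨e, he⟩ h0
    have h1 := haev p
    rw [hsc p e he, h0, mul_zero] at h1
    exact (map_eq_zero _).1 h1
  obtain ⟨Cs, hCs⟩ : ∃ Cs : Finset A, ∀ a, a ∈ Cs ↔ aeval x0 (F a) = 0 :=
    ⟨Finset.univ.filter fun a => aeval x0 (F a) = 0, fun a => by simp⟩
  have hCC : C ⊆ Cs := by
    intro a ha
    rw [hCs]
    exact hval _ ⟨d a, hF a⟩ (hBu.2 (Sum.inr ⟨a, ha⟩))
  have hcard := Finset.card_le_card hCC
  have hr : 0 < r := lt_of_lt_of_le Module.finrank_pos hrk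
  obtain ⟨ω, hω, hω0, hreg⟩ := lform_gen (k' := algebraicClosure k ℂ) (N := 2 * r - 1) (w := w)
    hVh hV hF hgen.algebraicClosure hw Cs (by omega) htrM x0 hx01 hcoA (fun f hf => by
      obtain ⟨e, he⟩ := hVh f hf
      exact hval _ ⟨e, he.map _⟩ (hBu.2 (Sum.inl ⟨f, hf⟩))) (fun a ha => (hCs a).1 ha)
      (fun a ha h => ha ((hCs a).2 h))
  have hess : Algebra.EssFiniteType ℂ L0 := Pool.Agent.TH466.QG.SubVar.ess hz
  choose Nb Pb hPb using fun b : {a // a ∉ C} => exists_null (B := B) (Ψ := Ψ) hG.form hH hh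
    (f := F b.1) (fun x hx h => hE x hx h b.1 b.2)
  refine lgt_of_point hw hz.dim hx1 hM0 halgM hx0 hω hω0
    (BM := fun Q => ∃ a, a ∉ Cs ∧ d a * pord Q x0 < Q.ord (aeval x0 (F a)))
    (fun f P hP => (hreg f P hP).1) (fun f P hP h => (hreg f P hP).2 h)
    (fun P Q P' e e' hP hP' hBL => ?_) (by omega)
  rintro ⟨b, hb, hlt⟩
  have hbC : b ∉ C := fun h => hb (hCC h)
  apply hBL
  by_contra hcon
  rw [not_lt] at hcon
  -- the boundary equation of the image at `Q`
  have hzE : val (fun j => algebraMap L0 E (z j)) H = algebraMap L0 E (val z H) :=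
    (val_map (IsScalarTower.toAlgHom ℂ L0 E) H z).symm
  have h1 : val (im G u) H ≠ 0 := by
    intro h0
    have h2 : (fun j => algebraMap L0 E (z j)) = fun j => c * im G u j := funext hcz
    rw [h2, val_smul hH, h0, mul_zero] at hzE
    exact hzH ((map_eq_zero _).1 hzE.symm)
  have h2 : Q.ord (val (im G u) H) ≤ h * pord Q (im G u) := by
    have h3 : (fun j => algebraMap L0 E (z j)) = fun j => c * im G u j := funext hcz
    have h4 : pord Q (fun j => algebraMap L0 E (z j)) = e * pord P z :=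
      pord_over hP (Function.ne_iff.1 hz.ne)
    have h5 := congrArg Q.ord hzE
    rw [hP.2, h3, val_smul hH, Q.ord_mul (pow_ne_zero _ hc0) h1, Q.ord_pow] at h5
    have h6 : pord Q (fun j => c * im G u j) = Q.ord c + pord Q (im G u) :=
      pord_scale Q (pord_im' hG hG.form.choose_spec.2 hΨ hu' huΨ Q).2 hc0
    rw [h3, h6] at h4
    have h7 : (e : ℤ) * P.ord (val z H) ≤ e * (h * pord P z) :=
      mul_le_mul_of_nonneg_left hcon (Int.natCast_nonneg _)
    have h8 : (e : ℤ) * (h * pord P z) = h * (e * pord P z) := by ring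
    rw [h8, ← h4, mul_add] at h7
    linarith
  have h3 := bd_ord hB hG hΨ hH (hF b) (fun x hx => hPb ⟨b, hbC⟩ E x hx) hu' huΨ h1 Q h2
  -- down to `M0`
  have h4 : pord Q x = e' * pord P' x0 := by
    have h0 := pord_over hP' (f := x0) ⟨j0, by rw [hx01]; exact one_ne_zero⟩
    rw [← h0]
    congr 1
    funext j
    exact (hx0 j).symm
  have h5 : Q.ord (aeval x (F b)) = e' * P'.ord (aeval x0 (F b)) := by
    rw [← haev, hP'.2]
  have h6 : val (im B u) (F b) ≠ 0 := by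
    intro h0
    exact hb ((hCs b).2 (hval _ ⟨d b, hF b⟩ h0))
  have h7 : Q.ord (aeval x (F b)) = -(d b * Q.ord (im B u j0)) + Q.ord (val (im B u) (F b)) := by
    rw [hsc _ _ (hF b), Q.ord_mul (pow_ne_zero _ (inv_ne_zero hj0')) h6, Q.ord_pow, Q.ord_inv]
    ring
  have h8 : pord Q x = -Q.ord (im B u j0) + pord Q (im B u) := by
    rw [hx, pord_scale Q ⟨j0, hj0'⟩ (inv_ne_zero hj0'), Q.ord_inv]
  have h9 : (e' : ℤ) * (d b * pord P' x0) < e' * P'.ord (aeval x0 (F b)) :=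
    mul_lt_mul_of_pos_left hlt (by exact_mod_cast hP'.1)
  rw [← h5, h7] at h9
  have h10 : (e' : ℤ) * (d b * pord P' x0) = d b * (e' * pord P' x0) := by ring
  rw [h10, ← h4, h8] at h9
  linarith

end

end Pool.Agent.Q58.LG
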