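import Pool.Agent.Q58.LG.Cmp
import Pool.Agent.Q58.CI.Corr

/-!
Lines on complete intersections of small degree, and their images.
-/

set_option autoImplicit false
set_option linter.overlappingInstances false
set_option linter.unusedSectionVars false

open MvPolynomial FF Pool.Agent.W602.GT Pool.Agent.Y221.FQ
open Pool.Agent.TH145.GC (Cf finite_cf)

namespace Pool.Agent.Q58.LG

/-- finitely many independent numbers over a countable field -/
theorem exists_indep {k₁ : Type} [Field k₁] [Algebra k₁ ℂ] [Countable k₁] (ι : Type) [Finite ι] :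
    ∃ u : ι → ℂ, AlgebraicIndependent k₁ u := by
  classical
  obtain ⟨s, hs⟩ := exists_isTranscendenceBasis k₁ ℂ
  have hinf : Infinite s := by
    rw [← not_finite_iff_infinite]
    intro hfin
    have h1 := IsAlgClosed.cardinal_le_max_transcendence_basis (fun x : s => (x : ℂ)) hs
    have h2 : (max (max (Cardinal.mk k₁) (Cardinal.mk s)) Cardinal.aleph0) ≤ Cardinal.aleph0 := by
      refine max_le (max_le ?_ ?_) le_rfl
      · exact Cardinal.mk_le_aleph0
      · exact (Cardinal.lt_aleph0_of_finite s).le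
    have h3 : Cardinal.mk ℂ ≤ Cardinal.aleph0 := by
      simpa using h1.trans (by simp)
    rw [Cardinal.mk_complex] at h3
    exact absurd h3 (not_le.2 Cardinal.aleph0_lt_continuum)
  have hft := Fintype.ofFinite ι
  let f : ι ↪ s := ((Fintype.equivFin ι).toEmbedding.trans ⟨Fin.val, Fin.val_injective⟩).trans
    (Infinite.natEmbedding s)
  exact ⟨fun i => (f i : ℂ), hs.1.comp f f.injective⟩

/-- nearby generic forms -/
theorem exists_near {n : ℕ} {A : Type} [Fintype A] {d : A → ℕ}
    (F : A → MvPolynomial (Fin (n + 1)) ℂ) :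
    ∃ (k₁ : Type) (_ : Field k₁) (_ : Algebra k₁ ℂ) (U : A → MvPolynomial (Fin (n + 1)) ℂ),
      (∀ a, (U a).IsHomogeneous (d a)) ∧ ∀ m : ℕ, AlgebraicIndependent k₁ fun p : Cf n d =>
        (F p.1 + C ((1 : ℂ) / (m + 1)) * U p.1).coeff p.2.1 := by
  classical
  have hfin : Finite (Cf n d) := finite_cf n d
  obtain ⟨k₁, hk⟩ : ∃ k₁ : IntermediateField ℚ ℂ, k₁ = IntermediateField.adjoin ℚ
    (Set.range fun p : Cf n d => (F p.1).coeff p.2.1) := ⟨_, rfl⟩
  have hc : Countable k₁ := by
    rw [← Cardinal.mk_le_aleph0_iff, hk]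
    refine (IntermediateField.cardinalMk_adjoin_le ℚ _).trans ?_
    refine max_le (max_le Cardinal.mk_le_aleph0 ?_) le_rfl
    exact (Set.finite_range _).countable.le_aleph0
  obtain ⟨u, hu⟩ := exists_indep (k₁ := k₁) (Cf n d)
  have hfd : ∀ a, Finite {I : Fin (n + 1) →₀ ℕ // I.degree = d a} := fun a =>
    Pool.Agent.TH145.GH.finite_deg n (d a)
  have hft : ∀ a, Fintype {I : Fin (n + 1) →₀ ℕ // I.degree = d a} := fun a => Fintype.ofFinite _
  obtain ⟨U, hU⟩ : ∃ U : A → MvPolynomial (Fin (n + 1)) ℂ, ∀ a, U a =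
      ∑ I : {I : Fin (n + 1) →₀ ℕ // I.degree = d a}, monomial I.1 (u ⟨a, I⟩) := ⟨_, fun _ => rfl⟩
  have hUc : ∀ p : Cf n d, (U p.1).coeff p.2.1 = u p := by
    rintro ⟨a, I⟩
    rw [hU, coeff_sum, Finset.sum_eq_single I]
    · rw [coeff_monomial, if_pos rfl]
    · intro J _ hJ
      rw [coeff_monomial, if_neg fun h => hJ (Subtype.ext h)]
    · intro h
      exact absurd (Finset.mem_univ _) h
  refine ⟨k₁, inferInstance, inferInstance, U, fun a => ?_, fun m => ?_⟩
  · rw [hU]
    exact IsHomogeneous.sum _ _ _ fun I _ => isHomogeneous_monomial _ I.2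
  · have hmem : ∀ p : Cf n d, (F p.1).coeff p.2.1 ∈ k₁ := fun p => by
      rw [hk]
      exact IntermediateField.subset_adjoin _ _ ⟨p, rfl⟩
    have h1 := hu.polynomial_aeval_of_transcendental (f := fun p : Cf n d =>
      Polynomial.C ((1 : k₁) / (m + 1)) * Polynomial.X + Polynomial.C ⟨_, hmem p⟩) (by
        intro p
        have h2 : (1 : k₁) / (m + 1) ≠ 0 := by
          apply one_div_ne_zero
          exact_mod_cast Nat.succ_ne_zero m
        refine Polynomial.transcendental _ ?_ ?_
        · rw [Polynomial.natDegree_linear h2]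
          exact one_ne_zero
        · rw [Polynomial.leadingCoeff_linear h2]
          exact mem_nonZeroDivisors_of_ne_zero h2)
    have h3 : (fun p : Cf n d => (F p.1 + C ((1 : ℂ) / (m + 1)) * U p.1).coeff p.2.1) =
        fun p : Cf n d => Polynomial.aeval (u p) (Polynomial.C ((1 : k₁) / (m + 1)) *
          Polynomial.X + Polynomial.C ⟨_, hmem p⟩) := by
      funext p
      rw [coeff_add, coeff_C_mul, hUc]
      simp only [map_add, map_mul, Polynomial.aeval_C, Polynomial.aeval_X, map_div₀, map_one,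
        map_natCast]
      rw [add_comm]
      rfl
    rw [h3]
    exact h1

/-- a plane has a unitary basis -/
theorem exists_unitary {n : ℕ} {W : Submodule ℂ (Fin (n + 1) → ℂ)} (hW : Module.finrank ℂ W = 2) :
    ∃ a ∈ W, ∃ b ∈ W, (∑ i, ‖a i‖ ^ 2 = 1) ∧ (∑ i, ‖b i‖ ^ 2 = 1) ∧
      ∑ i, a i * (starRingEnd ℂ) (b i) = 0 := by
  classical
  let e : (Fin (n + 1) → ℂ) ≃ₗ[ℂ] EuclideanSpace ℂ (Fin (n + 1)) :=
    (WithLp.linearEquiv 2 ℂ (Fin (n + 1) → ℂ)).symm
  let W' : Submodule ℂ (EuclideanSpace ℂ (Fin (n + 1))) := W.map e.toLinearMap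
  have hW' : Module.finrank ℂ W' = 2 := by
    rw [← hW]
    exact LinearEquiv.finrank_map_eq e W
  let v := (stdOrthonormalBasis ℂ W').reindex (finCongr hW')
  have hmem : ∀ j, (WithLp.linearEquiv 2 ℂ (Fin (n + 1) → ℂ)) (v j : EuclideanSpace ℂ _) ∈ W := by
    intro j
    obtain ⟨x, hx, hxv⟩ := (v j).2
    rw [← hxv]
    exact hx
  have hn : ∀ j, ∑ i, ‖(WithLp.linearEquiv 2 ℂ (Fin (n + 1) → ℂ)) (v j : EuclideanSpace ℂ _) i‖ ^ 2
      = 1 := by
    intro j
    have h1 := v.orthonormal.1 j
    have h2 : ‖(v j : EuclideanSpace ℂ (Fin (n + 1)))‖ ^ 2 = 1 := by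
      have h3 : ‖(v j : EuclideanSpace ℂ (Fin (n + 1)))‖ = 1 := h1
      rw [h3, one_pow]
    rw [EuclideanSpace.norm_sq_eq] at h2
    exact h2
  refine ⟨_, hmem 0, _, hmem 1, hn 0, hn 1, ?_⟩
  have h1 := v.orthonormal.2 (show (1 : Fin 2) ≠ 0 by decide)
  have h2 : inner ℂ (v 1 : EuclideanSpace ℂ (Fin (n + 1))) (v 0 : EuclideanSpace ℂ (Fin (n + 1))) =
      0 := h1
  rw [EuclideanSpace.inner_eq_star_dotProduct] at h2
  exact h2

/-- **Lines.** A projective set defined by complex forms of positive degrees `d a` with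
`∑ (d a + 1) ≤ 2 (n - 1)` contains a line. -/
theorem line_any {n : ℕ} (hn : 1 ≤ n) {A : Type} [Fintype A] {d : A → ℕ} (hd0 : ∀ a, 0 < d a)
    {F : A → MvPolynomial (Fin (n + 1)) ℂ} (hF : ∀ a, (F a).IsHomogeneous (d a))
    (hC : ∑ a, (d a + 1) ≤ 2 * (n - 1)) :
    ∃ a b : Fin (n + 1) → ℂ, LinearIndependent ℂ ![a, b] ∧
      ∀ (s t : ℂ) i, eval (s • a + t • b) (F i) = 0 := by
  classical
  obtain ⟨k₁, _, _, U, hU, hind⟩ := exists_near (d := d) F
  have hW : ∀ m : ℕ, ∃ W : Submodule ℂ (Fin (n + 1) → ℂ), Module.finrank ℂ W = 2 ∧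
      ∀ i, ∀ v ∈ W, eval v (F i + C ((1 : ℂ) / (m + 1)) * U i) = 0 := fun m =>
    exists_line hn hd0 (fun i => (hF i).add (by
      have h1 := (isHomogeneous_C (Fin (n + 1)) ((1 : ℂ) / (m + 1))).mul (hU i)
      rwa [zero_add] at h1)) (hind m) hC
  choose W hW2 hWF using hW
  choose a ha b hb hna hnb hab using fun m => exists_unitary (hW2 m)
  -- a convergent subsequence
  have hbd : ∀ x : Fin (n + 1) → ℂ, ∑ i, ‖x i‖ ^ 2 = 1 → x ∈ Metric.closedBall 0 1 := by
    intro x hx
    rw [mem_closedBall_zero_iff, pi_norm_le_iff_of_nonneg zero_le_one]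
    intro i
    have h1 : ‖x i‖ ^ 2 ≤ 1 := by
      rw [← hx]
      exact Finset.single_le_sum (f := fun i => ‖x i‖ ^ 2) (fun _ _ => by positivity)
        (Finset.mem_univ i)
    exact (sq_le_one_iff₀ (norm_nonneg _)).1 h1
  obtain ⟨⟨a₀, b₀⟩, -, φ, hφ, hlim⟩ := ((isCompact_closedBall (0 : Fin (n + 1) → ℂ) 1).prod
    (isCompact_closedBall (0 : Fin (n + 1) → ℂ) 1)).tendsto_subseq
    (x := fun m => (a m, b m)) fun m => ⟨hbd _ (hna m), hbd _ (hnb m)⟩
  have hla : Filter.Tendsto (fun m => a (φ m)) Filter.atTop (nhds a₀) := by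
    have := (continuous_fst.tendsto (a₀, b₀)).comp hlim
    exact this
  have hlb : Filter.Tendsto (fun m => b (φ m)) Filter.atTop (nhds b₀) := by
    have := (continuous_snd.tendsto (a₀, b₀)).comp hlim
    exact this
  have hna0 : ∑ i, ‖a₀ i‖ ^ 2 = 1 := by
    have hc : Continuous fun x : Fin (n + 1) → ℂ => ∑ i, ‖x i‖ ^ 2 := by fun_prop
    exact tendsto_nhds_unique ((hc.tendsto a₀).comp hla)
      (tendsto_const_nhds.congr fun m => (hna (φ m)).symm)
  have hnb0 : ∑ i, ‖b₀ i‖ ^ 2 = 1 := by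
    have hc : Continuous fun x : Fin (n + 1) → ℂ => ∑ i, ‖x i‖ ^ 2 := by fun_prop
    exact tendsto_nhds_unique ((hc.tendsto b₀).comp hlb)
      (tendsto_const_nhds.congr fun m => (hnb (φ m)).symm)
  have hab0 : ∑ i, a₀ i * (starRingEnd ℂ) (b₀ i) = 0 := by
    have hc : Continuous fun x : (Fin (n + 1) → ℂ) × (Fin (n + 1) → ℂ) =>
        ∑ i, x.1 i * (starRingEnd ℂ) (x.2 i) := by
      refine continuous_finsetSum _ fun i _ => ?_
      exact ((continuous_apply i).comp continuous_fst).mul
        (Complex.continuous_conj.comp ((continuous_apply i).comp continuous_snd))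
    exact tendsto_nhds_unique ((hc.tendsto (a₀, b₀)).comp hlim)
      (tendsto_const_nhds.congr fun m => (hab (φ m)).symm)
  have hsq : ∀ x : Fin (n + 1) → ℂ, ∑ i, ‖x i‖ ^ 2 = 1 → ∑ i, x i * (starRingEnd ℂ) (x i) = 1 := by
    intro x hx
    have h1 : ∑ i, x i * (starRingEnd ℂ) (x i) = ((∑ i, ‖x i‖ ^ 2 : ℝ) : ℂ) := by
      push_cast
      refine Finset.sum_congr rfl fun i _ => ?_
      rw [Complex.mul_conj, Complex.normSq_eq_norm_sq]
      push_cast
      rfl
    rw [h1, hx, Complex.ofReal_one]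
  refine ⟨a₀, b₀, ?_, fun s t i => ?_⟩
  · rw [LinearIndependent.pair_iff]
    intro s t hst
    -- pair with `b₀`
    have h1 : ∀ y : Fin (n + 1) → ℂ, s * ∑ i, a₀ i * (starRingEnd ℂ) (y i) +
        t * ∑ i, b₀ i * (starRingEnd ℂ) (y i) = 0 := by
      intro y
      rw [Finset.mul_sum, Finset.mul_sum, ← Finset.sum_add_distrib]
      refine Finset.sum_eq_zero fun i _ => ?_
      have h2 := congrFun hst i
      simp only [Pi.add_apply, Pi.smul_apply, smul_eq_mul, Pi.zero_apply] at h2
      linear_combination (starRingEnd ℂ) (y i) * h2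
    have h2 := h1 b₀
    rw [hab0, hsq b₀ hnb0, mul_zero, zero_add, mul_one] at h2
    have h3 := h1 a₀
    rw [h2, zero_mul, add_zero, hsq a₀ hna0, mul_one] at h3
    exact ⟨h3, h2⟩
  · have hv : Filter.Tendsto (fun m => s • a (φ m) + t • b (φ m)) Filter.atTop
        (nhds (s • a₀ + t • b₀)) := (hla.const_smul s).add (hlb.const_smul t)
    have h1 : Filter.Tendsto (fun m => eval (s • a (φ m) + t • b (φ m)) (F i)) Filter.atTop
        (nhds (eval (s • a₀ + t • b₀) (F i))) :=
      ((MvPolynomial.continuous_eval (F i)).tendsto _).comp hv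
    have h2 : Filter.Tendsto (fun m => eval (s • a (φ m) + t • b (φ m)) (U i)) Filter.atTop
        (nhds (eval (s • a₀ + t • b₀) (U i))) :=
      ((MvPolynomial.continuous_eval (U i)).tendsto _).comp hv
    have h3 : Filter.Tendsto (fun m : ℕ => (1 : ℂ) / ((φ m : ℂ) + 1)) Filter.atTop (nhds 0) :=
      (tendsto_one_div_add_atTop_nhds_zero_nat (𝕜 := ℂ)).comp hφ.tendsto_atTop
    have h4 := h1.add (h3.mul h2)
    rw [zero_mul, add_zero] at h4
    refine tendsto_nhds_unique h4 (tendsto_const_nhds.congr fun m => ?_)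
    have h5 := hWF (φ m) i (s • a (φ m) + t • b (φ m))
      ((W (φ m)).add_mem ((W (φ m)).smul_mem s (ha _)) ((W (φ m)).smul_mem t (hb _)))
    rw [map_add, map_mul, eval_C] at h5
    exact h5.symm

/-- The forms `P 0, ..., P M` in two variables define a nonconstant morphism from the projective line
to the projective variety `{Φ = 0}`. -/
structure RatCurve {M : ℕ} {μ : Type} (Φ : μ → MvPolynomial (Fin (M + 1)) ℂ)
    (P : Fin (M + 1) → MvPolynomial (Fin 2) ℂ) : Prop where
  form : ∃ e, ∀ j, (P j).IsHomogeneous e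
  mem : ∀ u : Fin 2 → ℂ, u ≠ 0 → (fun j => eval u (P j)) ∈ Cone Φ
  nonconst : ∃ u v : Fin 2 → ℂ, u ≠ 0 ∧ v ≠ 0 ∧
    LinearIndependent ℂ ![fun j => eval u (P j), fun j => eval v (P j)]

section

variable {n M : ℕ} {A μ : Type} {F : A → MvPolynomial (Fin (n + 1)) ℂ}
  {Φ : μ → MvPolynomial (Fin (M + 1)) ℂ} {G : Fin (M + 1) → MvPolynomial (Fin (n + 1)) ℂ}

/-- a rational curve gives an entire curve -/
theorem RatCurve.entire {P : Fin (M + 1) → MvPolynomial (Fin 2) ℂ} (h : RatCurve Φ P) :
    ∃ f, Entire Φ f := by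
  obtain ⟨e, he⟩ := h.form
  obtain ⟨u, v, hu, hv, hli⟩ := h.nonconst
  -- `u` and `v` are independent
  have huv : ∀ t : ℂ, (1 - t) • u + t • v ≠ 0 := by
    intro t h0
    by_cases ht : t = 0
    · rw [ht, sub_zero, one_smul, zero_smul, add_zero] at h0
      exact hu h0
    · have h1 : v = (-(1 - t) / t) • u := by
        funext i
        have h2 := congrFun h0 i
        simp only [Pi.add_apply, Pi.smul_apply, smul_eq_mul, Pi.zero_apply] at h2 ⊢
        field_simp
        linear_combination h2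
      have h2 : ∀ j, eval v (P j) = (-(1 - t) / t) ^ e * eval u (P j) := by
        intro j
        have h3 : v = fun i => (-(1 - t) / t) * u i := h1
        rw [h3]
        exact val_smul (he j) _ u
      rw [LinearIndependent.pair_iff] at hli
      have h3 := hli (-(-(1 - t) / t) ^ e) 1 (by
        funext j
        simp only [Pi.add_apply, Pi.smul_apply, smul_eq_mul, Pi.zero_apply]
        rw [h2 j]
        ring)
      exact one_ne_zero h3.2
  refine ⟨fun t j => eval ((1 - t) • u + t • v) (P j), fun j => ?_, fun t => h.mem _ (huv t), 0, 1,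
    ?_⟩
  · have h1 : (fun t : ℂ => eval ((1 - t) • u + t • v) (P j)) = fun t : ℂ =>
        (aeval (fun i => Polynomial.C (u i) + (Polynomial.C (v i - u i)) * Polynomial.X)
          (P j)).eval t := by
      funext t
      have h2 : (Polynomial.aeval t : Polynomial ℂ →ₐ[ℂ] ℂ).comp (MvPolynomial.aeval
          (fun i => Polynomial.C (u i) + (Polynomial.C (v i - u i)) * Polynomial.X)) =
          MvPolynomial.aeval ((1 - t) • u + t • v) := by
        apply MvPolynomial.algHom_ext
        intro i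
        simp
        ring
      have h3 := DFunLike.congr_fun h2 (P j)
      rw [AlgHom.comp_apply, Polynomial.coe_aeval_eq_eval] at h3
      exact h3.symm
    rw [h1]
    exact Polynomial.differentiable _
  · simpa using hli

/-- the image of a line -/
theorem rat_of_line (hF : ∀ a, IsForm (F a)) (hG : Mor F Φ G) {a b : Fin (n + 1) → ℂ}
    (hab : LinearIndependent ℂ ![a, b]) (h : ∀ (s t : ℂ) i, eval (s • a + t • b) (F i) = 0) :
    ∃ P, RatCurve Φ P := by
  classical
  obtain ⟨e, he, hGe⟩ := hG.form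
  rw [LinearIndependent.pair_iff] at hab
  have hcone : ∀ u : Fin 2 → ℂ, u ≠ 0 → (fun i => u 0 * a i + u 1 * b i) ∈ Cone F := by
    intro u hu
    refine ⟨fun h0 => hu ?_, fun i => ?_⟩
    · have h1 := hab (u 0) (u 1) (by
        funext i
        exact congrFun h0 i)
      funext i
      fin_cases i
      · exact h1.1
      · exact h1.2
    · exact h (u 0) (u 1) i
  have hev : ∀ (u : Fin 2 → ℂ) j, eval u (aeval (fun i => C (a i) * X 0 + C (b i) * X 1 :
      Fin (n + 1) → MvPolynomial (Fin 2) ℂ) (G j)) = im G (fun i => u 0 * a i + u 1 * b i) j := by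
    intro u j
    have h2 : (MvPolynomial.aeval u : MvPolynomial (Fin 2) ℂ →ₐ[ℂ] ℂ).comp (MvPolynomial.aeval
        (fun i => C (a i) * X 0 + C (b i) * X 1 : Fin (n + 1) → MvPolynomial (Fin 2) ℂ)) =
        MvPolynomial.aeval (fun i => u 0 * a i + u 1 * b i) := by
      apply MvPolynomial.algHom_ext
      intro i
      simp
      ring
    have h3 := DFunLike.congr_fun h2 (G j)
    rw [AlgHom.comp_apply] at h3
    exact h3
  refine ⟨fun j => aeval (fun i => C (a i) * X 0 + C (b i) * X 1 :
    Fin (n + 1) → MvPolynomial (Fin 2) ℂ) (G j), ⟨1 * e, fun j => ?_⟩, fun u hu => ?_, ?_⟩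
  · refine (hGe j).aeval _ fun i => ?_
    have h1 : ∀ (c : ℂ) (i : Fin 2), (C c * X i : MvPolynomial (Fin 2) ℂ).IsHomogeneous 1 := by
      intro c i
      have := (isHomogeneous_C (Fin 2) c).mul (isHomogeneous_X ℂ i)
      rwa [zero_add] at this
    exact (h1 _ _).add (h1 _ _)
  · simp only [hev]
    exact hG.maps _ (hcone u hu)
  · have hgm : GmCurve F fun i => Polynomial.C (a i) + Polynomial.C (b i) * Polynomial.X := by
      have hpt : ∀ t : ℂ, (fun i => (Polynomial.C (a i) + Polynomial.C (b i) *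
          Polynomial.X).eval t) = fun i => (![1, t] : Fin 2 → ℂ) 0 * a i +
            (![1, t] : Fin 2 → ℂ) 1 * b i := by
        intro t
        funext i
        simp
        ring
      have h1t : ∀ t : ℂ, (![1, t] : Fin 2 → ℂ) ≠ 0 := fun t h0 => by
        have := congrFun h0 0
        simp at this
      refine ⟨fun t _ => ?_, fun t _ i => ?_, 1, 2, one_ne_zero, two_ne_zero, ?_⟩
      · rw [hpt]
        exact (hcone _ (h1t t)).1
      · rw [hpt]
        exact (hcone _ (h1t t)).2 i
      · rw [LinearIndependent.pair_iff]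
        intro s t hst
        obtain ⟨h2, h3⟩ := hab (s + t) (s + 2 * t) (by
          funext i
          have h4 := congrFun hst i
          simp only [Pi.add_apply, Pi.smul_apply, smul_eq_mul, Pi.zero_apply, Polynomial.eval_add,
            Polynomial.eval_C, Polynomial.eval_mul, Polynomial.eval_X] at h4 ⊢
          linear_combination h4)
        have h4 : t = 0 := by linear_combination h3 - h2
        refine ⟨?_, h4⟩
        rw [h4, add_zero] at h2
        exact h2
    obtain ⟨t, t', -, -, hli⟩ := (gm_im hF hG hgm).nonconst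
    refine ⟨![1, t], ![1, t'], fun h0 => ?_, fun h0 => ?_, ?_⟩
    · have := congrFun h0 0
      simp at this
    · have := congrFun h0 0
      simp at this
    · rw [eval_im, eval_im] at hli
      have h5 : ∀ t : ℂ, (fun j => eval (![1, t] : Fin 2 → ℂ) (aeval (fun i => C (a i) * X 0 +
          C (b i) * X 1 : Fin (n + 1) → MvPolynomial (Fin 2) ℂ) (G j))) =
          im G fun i => (Polynomial.C (a i) + Polynomial.C (b i) * Polynomial.X).eval t := by
        intro t
        funext j
        rw [hev]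
        congr 1
        funext i
        simp
        ring
      rw [h5, h5]
      exact hli

end

end Pool.Agent.Q58.LG
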