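import Pool.Agent.Q58.LG.WdgM
import Pool.Agent.Q58.FI.Corr

/-!
Varieties which correspond to products.
-/

set_option autoImplicit false
set_option linter.overlappingInstances false
set_option linter.unusedSectionVars false

open MvPolynomial FF Module Pool.Agent.W602.GT Pool.Agent.W603.LV Pool.Agent.Y172
open Pool.Agent.TH145.MG (DimLE)
open Pool.Agent.TH145.GC (Cf)
open Pool.Agent.W603.PV Pool.Agent.Y184.NT

namespace Pool.Agent.Q58.LG

/-- `x` is the generic point of a variety which is finite over a cyclic cover of a subvariety, of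
dimension `b`, of a generic complete intersection, in the range for degree `r`: `V` is a closed
subset of `ℙⁿ` of dimension at most `m`, the `F a` are forms with independent coefficients over `k`;
`F a (x) = 0` for `a` in `C`, and `F a (x)` is a nonzero `q a`-th power for the other `a`. -/
def OverGeneric (k : Type) [Field k] [Algebra k ℂ] (r : ℕ) (M : Type) [Field M] [Algebra ℂ M]
    (b : ℕ) {n : ℕ} (x : Fin (n + 1) → M) : Prop :=
  ∃ (A : Type) (_ : Fintype A) (_ : DecidableEq A) (d : A → ℕ)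
    (F : A → MvPolynomial (Fin (n + 1)) ℂ)
    (V : Set (MvPolynomial (Fin (n + 1)) (algebraicClosure k ℂ))) (m : ℕ) (C : Finset A)
    (q : A → ℕ),
    (∀ a, (F a).IsHomogeneous (d a)) ∧
    AlgebraicIndependent k (fun p : (a : A) × {I : Fin (n + 1) →₀ ℕ // I.degree = d a} =>
      (F p.1).coeff p.2.1) ∧
    (∀ f ∈ V, ∃ e, f.IsHomogeneous e) ∧ DimLE (algebraicClosure k ℂ) V m ∧
    (∀ a, a ∉ C → q a ∣ d a ∧ q a ≠ 0) ∧
    1 ≤ b ∧ Algebra.IsAlgebraic (IntermediateField.adjoin ℂ (Set.range x)) M ∧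
    (∀ f ∈ V, aeval x (map (algebraMap (algebraicClosure k ℂ) ℂ) f) = 0) ∧
    (∀ a ∈ C, aeval x (F a) = 0) ∧
    (∀ a, a ∉ C → ∃ η : M, η ≠ 0 ∧ aeval x (F a) = η ^ q a) ∧
    2 * m + r + ∑ a ∈ Cᶜ, d a / q a ≤ ∑ a, d a + C.card + b

theorem coords_alg {M : Type} [Field M] [Algebra ℂ M] {n : ℕ} {x : Fin (n + 1) → M}
    {c0 : Fin (n + 1)} (hx1 : x c0 = 1)
    (h : Algebra.IsAlgebraic (IntermediateField.adjoin ℂ (Set.range x)) M) :
    Algebra.IsAlgebraic (coords ℂ x) M := by
  have hco : IntermediateField.adjoin ℂ (Set.range x) ≤ coords ℂ x := by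
    rw [IntermediateField.adjoin_le_iff]
    rintro _ ⟨j, rfl⟩
    refine IntermediateField.subset_adjoin ℂ _ ⟨j, c0, ?_, ?_⟩
    · rw [hx1]
      exact one_ne_zero
    · rw [hx1, div_one]
  refine ⟨fun z => ?_⟩
  exact Pool.Agent.TH145.MF.alg_mono
    (F1 := (IntermediateField.adjoin ℂ (Set.range x)).toSubfield)
    (F2 := (coords ℂ x).toSubfield) (fun z hz => hco hz) (h.isAlgebraic z)

/-- the forms of a variety over a generic complete intersection -/
theorem many_gen {k : Type} [Field k] [Algebra k ℂ] {N : ℕ} {M : Type} [Field M] [Algebra ℂ M]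
    {b n : ℕ} (hM : Algebra.trdeg ℂ M = b) {x : Fin (n + 1) → M} {c0 : Fin (n + 1)}
    (hx1 : x c0 = 1) (h : OverGeneric k (N + 1) M b x) :
    Many M b N x (fun _ => False) := by
  classical
  obtain ⟨A, iA, iD, d, F, V, m, C, q, hF, hgen, hVh, hV, hq, hb, halg, hxV, hxC, hxn, hd⟩ := h
  have hS : ∀ S : Finset A, (∀ a, a ∈ S ↔ a ∉ C) → S = Cᶜ := fun S hS => by
    ext a
    rw [hS, Finset.mem_compl]
  obtain ⟨Φ, h1, h2, h3⟩ := lform_q (N := N) hVh hV hF hgen.algebraicClosure
    (show 0 < b by omega) C (q := q)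
    (fun a ha => Or.inl (hq a ha).1) (fun S h => by rw [hS S h]; omega) hM x hx1
    (coords_alg hx1 halg) hxV hxC (fun a ha => by
      obtain ⟨η, hη, h⟩ := hxn a ha
      rw [h]
      exact pow_ne_zero _ hη) (fun a ha _ => by
      obtain ⟨η, -, h⟩ := hxn a ha
      exact ⟨η, h⟩)
  refine ⟨Φ, h1, h2, fun f P hP => ⟨(h3 f P hP).1, fun _ => (h3 f P hP).2 ?_⟩⟩
  rintro ⟨a, ha, h0, -⟩
  exact (hq a ha).2 h0

/-- There is a nonzero canonical form on the smooth projective models: `p_g > 0`. -/
def HasForm (M : Type) [Field M] [Algebra ℂ M] (b : ℕ) : Prop :=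
  ∃ ω : (Fin b → Derivation ℂ M M) → M, IsPluri 1 ω ∧
    (∀ P : Place ℂ M, Divisorial b P → RegAt P ω) ∧ ∃ D, ω D ≠ 0

theorem many_form {N : ℕ} {M : Type} [Field M] [Algebra ℂ M] {b n : ℕ} {x : Fin n → M}
    (hx : ∀ j, x j = 1) (h : HasForm M b) : Many M b N x (fun _ => False) := by
  obtain ⟨Φ, h1, h2, h3⟩ := h
  have h4 : ∀ f : Fin N → Fin n, (fun D => (∏ k, x (f k)) * Φ D) = Φ := by
    intro f
    funext D
    rw [Finset.prod_eq_one fun k _ => hx (f k), one_mul]
  refine ⟨Φ, h1, h3, fun f P hP => ?_⟩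
  rw [h4]
  exact ⟨fun D hD => h2 P hP D fun i => Pool.Agent.TH466.QG.derReg_of_log (hD i),
    fun _ => h2 P hP⟩

section

variable {K L E : Type} [Field K] [Field L] [Field E] [Algebra ℂ K] [Algebra ℂ L] [Algebra ℂ E]
  [Algebra K L] [IsScalarTower ℂ K L] [FiniteDimensional K L]
  [Algebra L E] [IsScalarTower ℂ L E] [FiniteDimensional L E] [Algebra.EssFiniteType ℂ K]

/-- **Varieties which correspond to products.** -/
theorem prod_dom {s w N : ℕ} {b n : Fin s → ℕ} (hK : Algebra.trdeg ℂ K = w) (hw : w = ∑ i, b i)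
    (hunr : ∀ (P : Place ℂ K) (Q : Place ℂ L) (e : ℕ), Divisorial w P → Over Q P e → e = 1)
    (M : Fin s → IntermediateField ℂ E) [∀ i, Algebra.EssFiniteType ℂ (M i)]
    (hM : ∀ i, Algebra.trdeg ℂ (M i) = b i)
    (halg : Algebra.IsAlgebraic (⨆ i, M i : IntermediateField ℂ E) E)
    {x : ∀ i, Fin (n i + 1) → M i} {j0 : ∀ i, Fin (n i + 1)} (hx1 : ∀ i, x i (j0 i) = 1)
    (hgenL : IntermediateField.adjoin L (⋃ i, Set.range fun j => ((x i j : M i) : E)) = ⊤)
    (h : ∀ i, Many (M i) (b i) N (x i) (fun _ => False)) :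
    (finrank L E ≤ N + 1 → KodGe ℂ K w (fun _ => False) 0) ∧
    (1 ≤ w → (∀ D : Derivation ℂ E E, (∀ i j, D ((x i j : M i) : E) = 0) → D = 0) →
      2 * finrank L E ≤ N + 1 → KodGe ℂ K w (fun _ => False) w) := by
  classical
  have hessL : Algebra.EssFiniteType ℂ L := Algebra.EssFiniteType.comp ℂ K L
  have hessE : Algebra.EssFiniteType ℂ E := Algebra.EssFiniteType.comp ℂ L E
  have hE : Algebra.trdeg ℂ E = w :=
    Pool.Agent.Y172.trdeg_up (K := L) (Pool.Agent.Y172.trdeg_up (K := K) hK)
  obtain ⟨n', ⟨eJ⟩⟩ : ∃ n' : ℕ, Nonempty (Fin n' ≃ (∀ i, Fin (n i + 1))) :=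
    ⟨_, ⟨(Fintype.equivFin _).symm⟩⟩
  obtain ⟨X, hX⟩ : ∃ X : Fin n' → E, ∀ j, X j = ∏ i, ((x i (eJ j i) : M i) : E) :=
    ⟨_, fun _ => rfl⟩
  have hX1 : X (eJ.symm j0) = 1 := by
    rw [hX, Equiv.apply_symm_apply]
    refine Finset.prod_eq_one fun i _ => ?_
    rw [hx1]
    rfl
  have hXx : ∀ i j, X (eJ.symm (Function.update j0 i j)) = ((x i j : M i) : E) := by
    intro i j
    rw [hX, Equiv.apply_symm_apply, Finset.prod_eq_single i]
    · rw [Function.update_self]
    · intro i' _ hi
      rw [Function.update_of_ne hi, hx1]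
      rfl
    · intro h
      exact absurd (Finset.mem_univ i) h
  have hgenX : IntermediateField.adjoin L (Set.range X) = ⊤ := by
    rw [_root_.eq_top_iff, ← hgenL, IntermediateField.adjoin_le_iff]
    rintro _ ⟨_, ⟨i, rfl⟩, ⟨j, rfl⟩⟩
    exact IntermediateField.subset_adjoin L _ ⟨_, hXx i j⟩
  obtain ⟨Φ, h1, h2, h3⟩ := prod_many hE hw M hM halg h (X := X) (fun i j => eJ j i) hX
  obtain ⟨h4, h5⟩ := open_dom (K := K) (L := L) (m := N) hK (Bd := fun _ => False)
    (fun P Q e hP hQ _ => hunr P Q e hP hQ) hX1 hgenX h1 h2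
    (BK := fun Q => ∃ (i : Fin s) (P : Place ℂ (M i)) (e : ℕ), Over Q P e ∧ False)
    (fun f Q hQ => (h3 f Q hQ).1) (fun f Q hQ hB => (h3 f Q hQ).2 hB)
    (fun P Q1 Q e e1 _ _ _ hB => by
      obtain ⟨i, P', e', -, hF⟩ := hB
      exact hF)
  refine ⟨h4, fun hw1 hder hr => h5 hw1 (fun D hD => hder D fun i j => ?_) hr⟩
  rw [← hXx]
  exact hD _

end

/-- a rational factor makes a product uniruled -/
theorem uni_of_factor {E : Type} [Field E] [Algebra ℂ E] {s w : ℕ} {b : Fin s → ℕ}
    (hE : Algebra.trdeg ℂ E = w) (hw : w = ∑ i, b i)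
    (M : Fin s → IntermediateField ℂ E) [∀ i, Algebra.EssFiniteType ℂ (M i)]
    (hM : ∀ i, Algebra.trdeg ℂ (M i) = b i) (hsup : (⨆ i, M i) = ⊤) {i0 : Fin s}
    (hb : b i0 = 1) {t : M i0} (ht : IntermediateField.adjoin ℂ {t} = ⊤) :
    Pool.Agent.W619.PQ.IsUniruled ℂ E w := by
  classical
  obtain ⟨R, hR⟩ : ∃ R : IntermediateField ℂ E, R = ⨆ i : {i // i ≠ i0}, M i := ⟨_, rfl⟩
  -- `R` is generated by finitely many elements
  have hfg : ∀ i, (M i).FG := fun i =>
    IntermediateField.essFiniteType_iff.1 inferInstance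
  have hRfg : R.FG := by
    rw [hR]
    exact IntermediateField.fg_iSup fun i => hfg i
  have hessR : Algebra.EssFiniteType ℂ R := IntermediateField.essFiniteType_iff.2 hRfg
  -- `E = R (t)`
  have hRt : IntermediateField.adjoin R {(t : E)} = ⊤ := by
    rw [_root_.eq_top_iff]
    have h1 : (⨆ i, M i) ≤ (IntermediateField.adjoin R {(t : E)}).restrictScalars ℂ := by
      refine iSup_le fun i => ?_
      by_cases hi : i = i0
      · subst hi
        have h2 : M i = IntermediateField.adjoin ℂ {(t : E)} := by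
          have h3 := congrArg (IntermediateField.lift (F := M i)) ht
          rw [IntermediateField.lift_adjoin, IntermediateField.lift_top, Set.image_singleton] at h3
          exact h3.symm
        refine h2.le.trans ?_
        rw [IntermediateField.adjoin_le_iff]
        rintro _ rfl
        exact IntermediateField.mem_adjoin_simple_self R _
      · intro z hz
        have h2 : z ∈ R := by
          rw [hR]
          exact (le_iSup (fun i : {i // i ≠ i0} => M i) ⟨i, hi⟩) hz
        exact (IntermediateField.adjoin R {(t : E)}).algebraMap_mem ⟨z, h2⟩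
    rw [hsup] at h1
    exact fun z _ => h1 trivial
  -- the transcendence degree of `R`
  choose y hy using fun i => exists_isTranscendenceBasis' (R := ℂ) (A := M i)
  have htrR : Algebra.trdeg ℂ R ≤ (w - 1 : ℕ) := by
    choose y EM hy hEM using fun i => Pool.Agent.Y172.exists_crd (k := ℂ) (K := M i) (hM i)
    have hMR : ∀ (i : Fin s), i ≠ i0 → M i ≤ R := fun i hi => by
      rw [hR]
      exact le_iSup (fun i : {i // i ≠ i0} => M i) ⟨i, hi⟩
    obtain ⟨Y, hY⟩ : ∃ Y : (Σ i : {i // i ≠ i0}, Fin (b i)) → R,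
      ∀ p, ((Y p : R) : E) = ((y p.1 p.2 : M p.1) : E) :=
      ⟨fun p => ⟨_, hMR p.1 p.1.2 (y p.1 p.2).2⟩, fun _ => rfl⟩
    have h1 : Algebra.IsAlgebraic (Algebra.adjoin ℂ (Set.range Y)) R := by
      refine ⟨fun f => IntermediateField.isAlgebraic_adjoin_iff.1 ?_⟩
      obtain ⟨T, hT⟩ : ∃ T : IntermediateField ℂ R,
        T = IntermediateField.adjoin ℂ (Set.range Y) := ⟨_, rfl⟩
      rw [← hT]
      -- the elements of the factors
      have h2 : ∀ i (hi : i ≠ i0) (z : M i), IsAlgebraic T (⟨z, hMR i hi z.2⟩ : R) := by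
        intro i hi z
        let g : M i →ₐ[ℂ] R := IntermediateField.inclusion (hMR i hi)
        have h3 : IsAlgebraic (IntermediateField.adjoin ℂ (Set.range (y i))) z :=
          IntermediateField.isAlgebraic_adjoin_iff.2 ((hy i).isAlgebraic.isAlgebraic _)
        obtain ⟨S, hS⟩ : ∃ S : IntermediateField ℂ R,
          S = (IntermediateField.adjoin ℂ (Set.range (y i))).map g := ⟨_, rfl⟩
        have h4 : IsAlgebraic S (g z) := by
          obtain ⟨p, hp, hp0⟩ := h3
          let g' : IntermediateField.adjoin ℂ (Set.range (y i)) →+* S :=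
            { toFun := fun u => ⟨g u, by
                rw [hS]
                exact ⟨u, u.2, rfl⟩⟩
              map_one' := Subtype.ext (map_one g)
              map_zero' := Subtype.ext (map_zero g)
              map_mul' := fun _ _ => Subtype.ext (map_mul g _ _)
              map_add' := fun _ _ => Subtype.ext (map_add g _ _) }
          refine ⟨p.map g', (Polynomial.map_ne_zero_iff g'.injective).2 hp, ?_⟩
          rw [Polynomial.aeval_def, Polynomial.eval₂_map]
          have h5 := congrArg g.toRingHom hp0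
          rw [map_zero, Polynomial.aeval_def, Polynomial.hom_eval₂] at h5
          exact h5
        have hST : S ≤ T := by
          rw [hS, IntermediateField.adjoin_map, IntermediateField.adjoin_le_iff]
          rintro _ ⟨_, ⟨c, rfl⟩, rfl⟩
          rw [hT]
          refine IntermediateField.subset_adjoin ℂ _ ⟨⟨⟨i, hi⟩, c⟩, ?_⟩
          exact Subtype.ext (hY _)
        exact Pool.Agent.TH145.MF.alg_mono (F1 := S.toSubfield) (F2 := T.toSubfield)
          (fun z hz => hST hz) h4
      have h3 : R ≤ ((algebraicClosure T R).restrictScalars ℂ).map R.val := by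
        conv_lhs => rw [hR]
        refine iSup_le fun i z hz => ?_
        exact ⟨⟨z, hMR i.1 i.2 hz⟩, mem_algebraicClosure_iff.2 (h2 i.1 i.2 ⟨z, hz⟩), rfl⟩
      obtain ⟨f', hf', hff⟩ := h3 f.2
      have h4 : f' = f := Subtype.ext hff
      rw [← h4]
      exact mem_algebraicClosure_iff.1 hf'
    have h2 := Algebra.IsAlgebraic.trdeg_le_cardinalMk ℂ (Set.range Y)
    refine h2.trans ?_
    refine Cardinal.mk_range_le.trans ?_
    rw [Cardinal.mk_fintype, Nat.cast_le, Fintype.card_sigma]
    have h3 : ∑ i : {i // i ≠ i0}, Fintype.card (Fin (b i)) + 1 = w := by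
      rw [hw, ← Finset.add_sum_erase _ _ (Finset.mem_univ i0), hb, add_comm]
      congr 1
      simp only [Fintype.card_fin]
      rw [← Finset.sum_subtype (Finset.univ.erase i0) (fun i => by simp) (fun i => b i)]
    omega
  have hw1 : 1 ≤ w := by
    rw [hw, ← hb]
    exact Finset.single_le_sum (f := b) (fun _ _ => Nat.zero_le _) (Finset.mem_univ i0)
  have htt : Transcendental R (t : E) := by
    intro halg
    have h1 : Algebra.IsAlgebraic R E := by
      have h2 : Algebra.IsAlgebraic R (IntermediateField.adjoin R {(t : E)}) :=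
        IntermediateField.isAlgebraic_adjoin_simple halg.isIntegral
      refine ⟨fun z => ?_⟩
      have hz : z ∈ IntermediateField.adjoin R {(t : E)} := by rw [hRt]; trivial
      exact (isAlgebraic_algebraMap_iff
        (algebraMap (IntermediateField.adjoin R {(t : E)}) E).injective).2
          (h2.isAlgebraic ⟨z, hz⟩)
    have h3 := Pool.Agent.TH466.QG.trdeg_alg (k := ℂ) (E := R) (K := E)
    rw [hE] at h3
    rw [← h3, Nat.cast_le] at htrR
    omega
  have hRle : Algebra.trdeg ℂ R + 1 = w := by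
    have h1 := _root_.trdeg_add_eq ℂ R (A := E)
    have h2 : Algebra.trdeg R E = 1 := by
      have h3 : AlgebraicIndependent R (fun _ : Unit => (t : E)) :=
        (algebraicIndependent_unique_type_iff).2 htt
      have h4 : IsTranscendenceBasis R (fun _ : Unit => (t : E)) := by
        rw [h3.isTranscendenceBasis_iff_isAlgebraic]
        have h5 : Set.range (fun _ : Unit => (t : E)) = {(t : E)} := by simp
        rw [h5]
        refine ⟨fun f => IntermediateField.isAlgebraic_adjoin_iff.1 ?_⟩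
        have hz : f ∈ IntermediateField.adjoin R {(t : E)} := by rw [hRt]; trivial
        exact isAlgebraic_algebraMap (⟨f, hz⟩ : IntermediateField.adjoin R {(t : E)})
      have h5 := h4.cardinalMk_eq_trdeg
      rw [← h5]
      simp
    rw [h2, hE] at h1
    exact h1
  let e : RatFunc R ≃ₐ[R] E :=
    (RatFunc.algEquivOfTranscendental (t : E) htt).trans
      ((IntermediateField.equivOfEq hRt).trans IntermediateField.topEquiv)
  exact ⟨R, inferInstance, inferInstance, hessR, hRle, ⟨(e.symm.restrictScalars ℂ : E ≃ₐ[ℂ] RatFunc R)⟩⟩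

end Pool.Agent.Q58.LG
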