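import Pool.Agent.Q58.CI.Any
import Pool.Agent.Q58.CI.Corr
import Pool.Agent.Q58.LG.Kob
import Pool.Agent.Q58.LG.WdgP
import Pool.Agent.H952R2.Sextic.CommonZero

/-!
Finite images of products of smooth complete intersections.
-/

set_option autoImplicit false
set_option linter.overlappingInstances false
set_option linter.unusedSectionVars false

open MvPolynomial FF Module
open Pool.Agent.W602.GT hiding lin
open Pool.Agent.Y221.FQ (Mor im van_of_cone)

namespace Pool.Agent.Q58.LG

section segre

variable {s m : ℕ} {n : Fin s → ℕ} {R : Type} [CommRing R]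

/-- The Segre product of the vectors `y i`. Its coordinates are the products of one coordinate of
each `y i`; `e` numbers these choices. -/
def segre (e : Fin (m + 1) ≃ ∀ i, Fin (n i + 1)) (y : ∀ i, Fin (n i + 1) → R) : Fin (m + 1) → R :=
  fun J => ∏ i, y i (e J i)

theorem segre_update (e : Fin (m + 1) ≃ ∀ i, Fin (n i + 1)) (y : ∀ i, Fin (n i + 1) → R)
    (i : Fin s) (v : Fin (n i + 1) → R) (J : Fin (m + 1)) :
    segre e (Function.update y i v) J = v (e J i) * ∏ l ∈ Finset.univ.erase i, y l (e J l) := by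
  classical
  unfold segre
  rw [← Finset.mul_prod_erase _ _ (Finset.mem_univ i), Function.update_self]
  congr 1
  refine Finset.prod_congr rfl fun l hl => ?_
  rw [Function.update_of_ne (Finset.ne_of_mem_erase hl)]

theorem segre_fac (e : Fin (m + 1) ≃ ∀ i, Fin (n i + 1)) (y : ∀ i, Fin (n i + 1) → R)
    (i0 : Fin (m + 1)) (i : Fin s) (c : Fin (n i + 1)) :
    segre e y (e.symm (Function.update (e i0) i c)) =
      (∏ l ∈ Finset.univ.erase i, y l (e i0 l)) * y i c := by
  classical
  unfold segre
  rw [← Finset.mul_prod_erase _ _ (Finset.mem_univ i), Equiv.apply_symm_apply,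
    Function.update_self, mul_comm]
  congr 1
  refine Finset.prod_congr rfl fun l hl => ?_
  rw [Function.update_of_ne (Finset.ne_of_mem_erase hl)]

theorem prod_erase_pow (z : Fin s → R) :
    ∏ i, ∏ l ∈ Finset.univ.erase i, z l = (∏ l, z l) ^ (s - 1) := by
  classical
  rw [Finset.prod_comm' (t' := Finset.univ) (s' := fun l => Finset.univ.erase l) (by
    intro x y
    simp [eq_comm])]
  rw [← Finset.prod_pow]
  refine Finset.prod_congr rfl fun l _ => ?_
  rw [Finset.prod_const, Finset.card_erase_of_mem (Finset.mem_univ l), Finset.card_univ,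
    Fintype.card_fin]

end segre

/-- `{Ψ = 0}` is the product of the projective varieties `{F i = 0}`, in its Segre embedding. -/
structure IsProduct {s m : ℕ} {n : Fin s → ℕ} {A : Fin s → Type} {κ : Type}
    (F : ∀ i, A i → MvPolynomial (Fin (n i + 1)) ℂ) (e : Fin (m + 1) ≃ ∀ i, Fin (n i + 1))
    (Ψ : κ → MvPolynomial (Fin (m + 1)) ℂ) : Prop where
  form : ∀ b, IsForm (Ψ b)
  cone : ∀ x, x ∈ Cone Ψ ↔ ∃ y : ∀ i, Fin (n i + 1) → ℂ, (∀ i, y i ∈ Cone (F i)) ∧ x = segre e y

section

variable {s m : ℕ} {n : Fin s → ℕ} {A : Fin s → Type} {κ : Type}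
  {F : ∀ i, A i → MvPolynomial (Fin (n i + 1)) ℂ} {e : Fin (m + 1) ≃ ∀ i, Fin (n i + 1)}
  {Ψ : κ → MvPolynomial (Fin (m + 1)) ℂ}

/-- the factors of a point of a product -/
theorem prod_point {d : ∀ i, A i → ℕ} (hd : ∀ i a, (F i a).IsHomogeneous (d i a))
    (hΨ : IsProduct F e Ψ) {E : Type} [Field E] [Algebra ℂ E]
    {u : Fin (m + 1) → E} {i0 : Fin (m + 1)} (hu0 : u i0 = 1) (huΨ : ∀ b, val u (Ψ b) = 0) :
    (∀ J, u J = ∏ i, u (e.symm (Function.update (e i0) i (e J i)))) ∧
      ∀ i a, aeval (fun c => u (e.symm (Function.update (e i0) i c))) (F i a) = 0 := by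
  classical
  have hu : u ≠ 0 := by
    intro h0
    rw [h0] at hu0
    exact zero_ne_one hu0
  constructor
  · intro J
    have h1 := van_of_cone (Φ := Ψ) (H := X J * X i0 ^ (s - 1) -
      ∏ i, X (e.symm (Function.update (e i0) i (e J i)))) hu huΨ (by
      intro q hq
      obtain ⟨y, -, rfl⟩ := (hΨ.cone q).1 hq
      unfold Pool.Agent.W602.GT.val
      rw [map_sub, map_mul, map_pow, map_prod, aeval_X, aeval_X, sub_eq_zero]
      simp only [aeval_X]
      rw [Finset.prod_congr rfl fun i _ => segre_fac e y i0 i (e J i), Finset.prod_mul_distrib,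
        prod_erase_pow]
      rw [mul_comm]
      rfl)
    unfold Pool.Agent.W602.GT.val at h1
    rw [map_sub, map_mul, map_pow, map_prod, aeval_X, aeval_X, hu0, one_pow, mul_one,
      sub_eq_zero] at h1
    simp only [aeval_X] at h1
    exact h1
  · intro i a
    have h1 := van_of_cone (Φ := Ψ) (H := rename (fun c => e.symm (Function.update (e i0) i c))
      (F i a)) hu huΨ (by
      intro q hq
      obtain ⟨y, hy, rfl⟩ := (hΨ.cone q).1 hq
      unfold Pool.Agent.W602.GT.val
      rw [aeval_rename]
      have h2 : (segre e y ∘ fun c => e.symm (Function.update (e i0) i c)) =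
          fun c => (∏ l ∈ Finset.univ.erase i, y l (e i0 l)) * y i c := by
        funext c
        exact segre_fac e y i0 i c
      rw [h2]
      have h3 := val_smul (hd i a) (∏ l ∈ Finset.univ.erase i, y l (e i0 l)) (y i)
      have h4 := (hy i).2 a
      rw [h4, mul_zero] at h3
      exact h3)
    unfold Pool.Agent.W602.GT.val at h1
    rw [aeval_rename] at h1
    exact h1

/-- a product which has a factor with a line contains a line -/
theorem line_prod (hΨ : IsProduct F e Ψ) (hpt : ∀ i, ∃ y, y ∈ Cone (F i)) {i : Fin s}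
    {a b : Fin (n i + 1) → ℂ} (hab : LinearIndependent ℂ ![a, b])
    (h : ∀ (s t : ℂ) j, eval (s • a + t • b) (F i j) = 0) :
    ∃ a' b' : Fin (m + 1) → ℂ, LinearIndependent ℂ ![a', b'] ∧
      ∀ (s t : ℂ) j, eval (s • a' + t • b') (Ψ j) = 0 := by
  classical
  choose y hy using hpt
  have hlin : ∀ s t : ℂ, s • segre e (Function.update y i a) + t • segre e (Function.update y i b) =
      segre e (Function.update y i (s • a + t • b)) := by
    intro s t
    funext J
    simp only [Pi.add_apply, Pi.smul_apply, smul_eq_mul, segre_update]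
    ring
  rw [LinearIndependent.pair_iff] at hab
  have hmem : ∀ s t : ℂ, (s ≠ 0 ∨ t ≠ 0) →
      segre e (Function.update y i (s • a + t • b)) ∈ Cone Ψ := by
    intro s t hst
    rw [hΨ.cone]
    refine ⟨_, fun l => ?_, rfl⟩
    by_cases hl : l = i
    · subst hl
      rw [Function.update_self]
      refine ⟨fun h0 => ?_, fun j => h s t j⟩
      obtain ⟨h1, h2⟩ := hab s t h0
      rcases hst with h3 | h3
      · exact h3 h1
      · exact h3 h2
    · rw [Function.update_of_ne hl]
      exact hy l
  refine ⟨segre e (Function.update y i a), segre e (Function.update y i b), ?_, fun s t j => ?_⟩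
  · rw [LinearIndependent.pair_iff]
    intro s t hst
    rw [hlin] at hst
    by_contra hcon
    rw [not_and_or] at hcon
    exact (hmem s t hcon).1 hst
  · rw [hlin]
    by_cases hst : s ≠ 0 ∨ t ≠ 0
    · exact (hmem s t hst).2 j
    · push Not at hst
      obtain ⟨rfl, rfl⟩ := hst
      obtain ⟨e', he'⟩ := hΨ.form j
      have h1 := val_smul he' (0 : ℂ) (segre e (Function.update y i ((1 : ℂ) • a + (0 : ℂ) • b)))
      have h2 : val (segre e (Function.update y i ((1 : ℂ) • a + (0 : ℂ) • b))) (Ψ j) = 0 :=
        (hmem 1 0 (Or.inl one_ne_zero)).2 j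
      rw [h2, mul_zero] at h1
      have h3 : (fun J => (0 : ℂ) * segre e (Function.update y i ((1 : ℂ) • a + (0 : ℂ) • b)) J) =
          segre e (Function.update y i ((0 : ℂ) • a + (0 : ℂ) • b)) := by
        funext J
        simp only [segre_update]
        simp
      rw [h3] at h1
      exact h1

end

end Pool.Agent.Q58.LG
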