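import Pool.Agent.Q58.LG.KobP

/-!
Varieties which correspond to products of smooth complete intersections.
-/

set_option autoImplicit false
set_option linter.overlappingInstances false
set_option linter.unusedSectionVars false

open MvPolynomial FF Module
open Pool.Agent.W602.GT hiding lin
open Pool.Agent.TH145.SP (SmoothCI)
open Pool.Agent.Q58.CI (exists_res dim_le corr_any)
open Pool.Agent.Q58.FI (coords_top)

namespace Pool.Agent.Q58.LG

/-- a field which is generated by subfields is algebraic over their transcendence bases -/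
theorem alg_of_blocks {E : Type} [Field E] [Algebra ℂ E] {s : ℕ} {b : Fin s → ℕ}
    (M : Fin s → IntermediateField ℂ E)
    (halg : Algebra.IsAlgebraic (⨆ i, M i : IntermediateField ℂ E) E)
    {y : ∀ i, Fin (b i) → M i} (hy : ∀ i, IsTranscendenceBasis ℂ (y i)) :
    Algebra.trdeg ℂ E ≤ ((∑ i, b i : ℕ) : Cardinal) := by
  classical
  obtain ⟨Y, hY⟩ : ∃ Y : (Σ i, Fin (b i)) → E, Y = fun c => ((y c.1 c.2 : M c.1) : E) := ⟨_, rfl⟩
  obtain ⟨T, hT⟩ : ∃ T : IntermediateField ℂ E, T = IntermediateField.adjoin ℂ (Set.range Y) :=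
    ⟨_, rfl⟩
  have hyT : ∀ i c, ((y i c : M i) : E) ∈ T := by
    intro i c
    rw [hT]
    refine IntermediateField.subset_adjoin ℂ _ ⟨⟨i, c⟩, ?_⟩
    rw [hY]
  -- the subfields are algebraic over `T`
  have h1 : ∀ i, ∀ z ∈ M i, IsAlgebraic T z := by
    intro i z hz
    have h2 : IsAlgebraic (Algebra.adjoin ℂ (Set.range (y i))) (⟨z, hz⟩ : M i) :=
      (hy i).isAlgebraic.isAlgebraic _
    have h3 : IsAlgebraic (IntermediateField.adjoin ℂ (Set.range (y i))) (⟨z, hz⟩ : M i) :=
      IntermediateField.isAlgebraic_adjoin_iff.2 h2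
    -- push to `E`
    obtain ⟨S, hS⟩ : ∃ S : IntermediateField ℂ E,
      S = (IntermediateField.adjoin ℂ (Set.range (y i))).map (M i).val := ⟨_, rfl⟩
    have h4 : IsAlgebraic S z := by
      obtain ⟨p, hp, hp0⟩ := h3
      let g : IntermediateField.adjoin ℂ (Set.range (y i)) →+* S :=
        { toFun := fun u => ⟨((u : M i) : E), by
            rw [hS]
            exact ⟨u, u.2, rfl⟩⟩
          map_one' := rfl
          map_zero' := rfl
          map_mul' := fun _ _ => rfl
          map_add' := fun _ _ => rfl }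
      refine ⟨p.map g, (Polynomial.map_ne_zero_iff g.injective).2 hp, ?_⟩
      rw [Polynomial.aeval_def, Polynomial.eval₂_map]
      have h5 := congrArg (algebraMap (M i) E) hp0
      rw [map_zero, Polynomial.aeval_def, Polynomial.hom_eval₂] at h5
      exact h5
    have hST : S ≤ T := by
      rw [hS, IntermediateField.adjoin_map, IntermediateField.adjoin_le_iff]
      rintro _ ⟨_, ⟨c, rfl⟩, rfl⟩
      exact hyT i c
    exact Pool.Agent.TH145.MF.alg_mono (F1 := S.toSubfield) (F2 := T.toSubfield)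
      (fun z hz => hST hz) h4
  have h2 : (⨆ i, M i : IntermediateField ℂ E) ≤
      (algebraicClosure T E).restrictScalars ℂ := by
    refine iSup_le fun i z hz => ?_
    change z ∈ algebraicClosure T E
    exact mem_algebraicClosure_iff.2 (h1 i z hz)
  have h3 : Algebra.IsAlgebraic T E := by
    refine ⟨fun z => ?_⟩
    have h4 : IsAlgebraic (algebraicClosure T E) z :=
      Pool.Agent.TH145.MF.alg_mono (F1 := (⨆ i, M i : IntermediateField ℂ E).toSubfield)
        (F2 := (algebraicClosure T E).toSubfield) (fun z hz => h2 hz) (halg.isAlgebraic z)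
    exact IsAlgebraic.restrictScalars T h4
  have h4 : Algebra.IsAlgebraic (Algebra.adjoin ℂ (Set.range Y)) E := by
    subst hT
    exact ⟨fun f => IntermediateField.isAlgebraic_adjoin_iff.1 (h3.isAlgebraic f)⟩
  refine (Algebra.IsAlgebraic.trdeg_le_cardinalMk ℂ (Set.range Y)).trans ?_
  refine Cardinal.mk_range_le.trans ?_
  rw [Cardinal.mk_fintype, Nat.cast_le, Fintype.card_sigma]
  simp

/-- **Varieties which correspond to products of smooth complete intersections.** -/
theorem corr_prod {s w N : ℕ} (hw : 1 ≤ w) {n b : Fin s → ℕ} {A : Fin s → Type}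
    [∀ i, Fintype (A i)] {d : ∀ i, A i → ℕ} {F : ∀ i, A i → MvPolynomial (Fin (n i + 1)) ℂ}
    (hd : ∀ i a, (F i a).IsHomogeneous (d i a)) (hsm : ∀ i, SmoothCI (F i))
    (hN : ∀ i, N + n i + 1 ≤ ∑ a, d i a) (hp : ∀ i, b i + Fintype.card (A i) = n i)
    (hwb : w = ∑ i, b i) {m : ℕ} {e : Fin (m + 1) ≃ ∀ i, Fin (n i + 1)} {κ : Type}
    {Ψ : κ → MvPolynomial (Fin (m + 1)) ℂ} (hΨ : IsProduct F e Ψ)
    {L E : Type} [Field L] [Field E] [Algebra ℂ L] [Algebra ℂ E] [Algebra L E]
    [IsScalarTower ℂ L E] [FiniteDimensional L E] [Algebra.EssFiniteType ℂ L]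
    (htr : Algebra.trdeg ℂ L = w) {u : Fin (m + 1) → E} {i0 : Fin (m + 1)} (hu0 : u i0 = 1)
    (huΨ : ∀ b, val u (Ψ b) = 0) (halg : Algebra.IsAlgebraic (coords ℂ u) E) :
    (finrank L E ≤ N → GeneralType ℂ L w) ∧
    (finrank L E ≤ N + 1 →
      ∃ θ : (Fin w → Derivation ℂ L L) → L, IsPluri 1 θ ∧
        (∀ P : Place ℂ L, Divisorial w P → RegAt P θ) ∧ ∃ D, θ D ≠ 0) := by
  classical
  obtain ⟨hseg, hF⟩ := prod_point hd hΨ hu0 huΨ
  -- the function field of the product
  obtain ⟨M0, hM0⟩ : ∃ M0 : IntermediateField ℂ E,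
    M0 = IntermediateField.adjoin ℂ (Set.range u) := ⟨_, rfl⟩
  have huM : ∀ j, u j ∈ M0 := fun j => by
    rw [hM0]
    exact IntermediateField.subset_adjoin ℂ _ ⟨j, rfl⟩
  obtain ⟨v, hv⟩ : ∃ v : Fin (m + 1) → M0, ∀ j, (v j : E) = u j :=
    ⟨fun j => ⟨u j, huM j⟩, fun _ => rfl⟩
  have hv1 : v i0 = 1 := Subtype.ext (by rw [hv, hu0]; rfl)
  have hgenv : IntermediateField.adjoin ℂ (Set.range v) = ⊤ := by
    subst hM0
    apply IntermediateField.lift_injective
    rw [IntermediateField.lift_adjoin, IntermediateField.lift_top]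
    congr 1
    ext t
    constructor
    · rintro ⟨_, ⟨j, rfl⟩, rfl⟩
      exact ⟨j, (hv j).symm⟩
    · rintro ⟨j, rfl⟩
      exact ⟨v j, ⟨j, rfl⟩, hv j⟩
  have hco : coords ℂ u ≤ M0 := by
    unfold coords
    rw [IntermediateField.adjoin_le_iff]
    rintro _ ⟨i, j, hj, rfl⟩
    exact div_mem (huM i) (huM j)
  have halgM : Algebra.IsAlgebraic M0 E := by
    refine ⟨fun t => ?_⟩
    exact Pool.Agent.TH145.MF.alg_mono (F1 := (coords ℂ u).toSubfield)
      (F2 := M0.toSubfield) (fun z hz => hco hz) (halg.isAlgebraic t)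
  have hEtr : Algebra.trdeg ℂ E = w := by
    rw [Pool.Agent.TH466.QG.trdeg_alg (k := ℂ) (E := L) (K := E), htr]
  have hMtr : Algebra.trdeg ℂ M0 = w := by
    rw [← Pool.Agent.TH466.QG.trdeg_alg (k := ℂ) (E := M0) (K := E), hEtr]
  have hessM0 : Algebra.EssFiniteType ℂ M0 := by
    rw [← IntermediateField.fg_top_iff]
    exact ⟨Finset.univ.image v, by
      rw [Finset.coe_image, Finset.coe_univ, Set.image_univ, hgenv]⟩
  -- the function fields of the factors
  obtain ⟨M, hM⟩ : ∃ M : Fin s → IntermediateField ℂ M0, ∀ i, M i = IntermediateField.adjoin ℂ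
    (Set.range fun c => v (e.symm (Function.update (e i0) i c))) := ⟨_, fun _ => rfl⟩
  have hxM : ∀ i c, v (e.symm (Function.update (e i0) i c)) ∈ M i := fun i c => by
    rw [hM]
    exact IntermediateField.subset_adjoin ℂ _ ⟨c, rfl⟩
  obtain ⟨x, hx⟩ : ∃ x : ∀ i, Fin (n i + 1) → M i, ∀ i c,
    ((x i c : M i) : M0) = v (e.symm (Function.update (e i0) i c)) :=
    ⟨fun i c => ⟨_, hxM i c⟩, fun _ _ => rfl⟩
  have hx1 : ∀ i, x i (e i0 i) = 1 := fun i => Subtype.ext (by
    rw [hx, Function.update_eq_self, Equiv.symm_apply_apply, hv1]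
    rfl)
  have hgen : ∀ i, IntermediateField.adjoin ℂ (Set.range (x i)) = ⊤ := by
    intro i
    apply IntermediateField.lift_injective
    rw [IntermediateField.lift_adjoin, IntermediateField.lift_top]
    refine Eq.trans ?_ (hM i).symm
    congr 1
    ext t
    constructor
    · rintro ⟨_, ⟨j, rfl⟩, rfl⟩
      exact ⟨j, (hx i j).symm⟩
    · rintro ⟨j, rfl⟩
      exact ⟨x i j, ⟨j, rfl⟩, hx i j⟩
  have hessM : ∀ i, Algebra.EssFiniteType ℂ (M i) := fun i => by
    rw [← IntermediateField.fg_top_iff]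
    exact ⟨Finset.univ.image (x i), by
      rw [Finset.coe_image, Finset.coe_univ, Set.image_univ, hgen]⟩
  have hcoM : ∀ i, Algebra.IsAlgebraic (coords ℂ (x i)) (M i) := fun i => by
    rw [coords_top (hx1 i) (hgen i)]
    infer_instance
  have hFx : ∀ i a, aeval (x i) (F i a) = 0 := by
    intro i a
    apply Subtype.ext
    apply Subtype.ext
    have h2 : ((((aeval (x i) (F i a) : M i) : M0) : E)) =
        aeval (fun c => ((x i c : M i) : M0)) (F i a) := by
      rw [show ((aeval (x i) (F i a) : M i) : M0) = aeval (fun c => ((x i c : M i) : M0)) (F i a)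
        from comp_aeval_apply (φ := (M i).val) (x i) (F i a)]
    rw [h2]
    have h3 : ((aeval (fun c => ((x i c : M i) : M0)) (F i a) : M0) : E) =
        aeval (fun c => (((x i c : M i) : M0) : E)) (F i a) :=
      comp_aeval_apply (φ := M0.val) _ (F i a)
    rw [h3]
    simp only [hx, hv]
    rw [hF]
    rfl
  -- the dimensions of the factors
  have hfin : ∀ i, ∃ w' : ℕ, Algebra.trdeg ℂ (M i) = w' := by
    intro i
    have h1 : Algebra.trdeg ℂ (M i) ≤ Algebra.trdeg ℂ M0 :=
      _root_.trdeg_le_of_injective (M i).val (M i).val.toRingHom.injective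
    rw [hMtr] at h1
    exact Cardinal.lt_aleph0.1 (lt_of_le_of_lt h1 Cardinal.natCast_lt_aleph0)
  choose w' hw' using hfin
  choose l hl using fun i => Pool.Agent.TH145.GF.exists_coord_basis (hw' i) (hcoM i)
  have hle : ∀ i, w' i ≤ b i := fun i => dim_le (hd i) (hsm i) (hp i) (hFx i) (hx1 i) (hl i).1
  have hsup : (⨆ i, M i : IntermediateField ℂ M0) = ⊤ := by
    rw [_root_.eq_top_iff, ← hgenv, IntermediateField.adjoin_le_iff]
    rintro _ ⟨J, rfl⟩
    have h1 : v J = ∏ i, v (e.symm (Function.update (e i0) i (e J i))) := by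
      apply Subtype.ext
      rw [hv, hseg J]
      push_cast
      exact Finset.prod_congr rfl fun i _ => (hv _).symm
    rw [h1]
    exact prod_mem fun i _ => (le_iSup M i) (hxM i _)
  have halgS : Algebra.IsAlgebraic (⨆ i, M i : IntermediateField ℂ M0) M0 := by
    rw [hsup]
    exact ⟨fun z => isAlgebraic_algebraMap (⟨z, trivial⟩ : (⊤ : IntermediateField ℂ M0))⟩
  have hsum : w ≤ ∑ i, w' i := by
    have h1 := alg_of_blocks M halgS hl
    rw [hMtr] at h1
    exact_mod_cast h1
  have heq : ∀ i, w' i = b i := by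
    have h1 : ∑ i, w' i = ∑ i, b i :=
      le_antisymm (Finset.sum_le_sum fun i _ => hle i) (by rw [← hwb]; exact hsum)
    intro i
    exact (Finset.sum_eq_sum_iff_of_le fun i _ => hle i).1 h1 i (Finset.mem_univ i)
  -- the forms
  have hmany : ∀ i, Many (M i) (b i) N (x i) (fun _ => False) := by
    intro i
    obtain ⟨w1, hw1⟩ : ∃ w1, w1 = w' i := ⟨_, rfl⟩
    have hs : ∃ s' : Fin (b i) → Fin (n i + 1), AlgebraicIndependent ℂ fun c => x i (s' c) := by
      rw [← heq i]
      exact ⟨l i, (hl i).1⟩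
    obtain ⟨s', hs'⟩ := hs
    obtain ⟨N', hN'⟩ : ∃ N' : ℕ, N' + n i + 1 = ∑ a, d i a :=
      ⟨∑ a, d i a - n i - 1, by have := hN i; omega⟩
    obtain ⟨ω, h1, h2, h3⟩ := exists_res (hd i) (hsm i) hN' (hp i) (x := x i) (hFx i) (hx1 i) hs'
    have hNN : N ≤ N' := by have := hN i; omega
    have h4 : ∀ (f : Fin N → Fin (n i + 1)) (P : Place ℂ (M i)),
        RegAt P (fun D => (∏ k, x i (f k)) * ω D) := by
      intro f P
      have h5 := h3 (fun k => if h : (k : ℕ) < N then f ⟨k, h⟩ else e i0 i) P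
      have h6 : (∏ k : Fin N', x i (if h : (k : ℕ) < N then f ⟨k, h⟩ else e i0 i)) =
          ∏ k, x i (f k) := by
        obtain ⟨t, rfl⟩ := Nat.exists_eq_add_of_le hNN
        rw [Fin.prod_univ_add]
        have h7 : ∀ k : Fin t, x i (if h : ((Fin.natAdd N k : Fin (N + t)) : ℕ) < N then
            f ⟨_, h⟩ else e i0 i) = 1 := by
          intro k
          rw [dif_neg (by simp), hx1]
        rw [Finset.prod_congr rfl fun k _ => h7 k, Finset.prod_const_one, mul_one]
        refine Finset.prod_congr rfl fun k _ => ?_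
        rw [dif_pos (by simp)]
        rfl
      rw [h6] at h5
      exact h5
    refine ⟨ω, h1, h2, fun f P _ => ⟨?_, fun _ => h4 f P⟩⟩
    intro D hD
    exact h4 f P D fun i => Pool.Agent.TH466.QG.derReg_of_log (hD i)
  have hMi : ∀ i, Algebra.trdeg ℂ (M i) = b i := fun i => by rw [hw' i, heq i]
  obtain ⟨Φ, h1, h2, h3⟩ := prod_many hMtr hwb M hMi halgS hmany (X := v) (fun i J => e J i)
    (fun J => by
      simp only [hx]
      apply Subtype.ext
      rw [hv, hseg J]
      push_cast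
      exact Finset.prod_congr rfl fun i _ => (hv _).symm)
  have h := corr_any (N := N) hw hMtr hv1 hgenv (L := L) (E := E) h1 h2 (fun f P hP =>
    (h3 f P hP).2 (by rintro ⟨i, P', e', -, h⟩; exact h)) halgM
  exact ⟨h.1, fun hr => h.2 (Or.inl hr)⟩

end Pool.Agent.Q58.LG
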