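import Pool.Agent.Q58.LG.Gen
import Pool.Agent.Y172.Cov5
import Pool.Agent.Y172.Dim

/-!
Sections of `R (K_X + Δ)` from logarithmic forms on a variety which corresponds to a cover of `X`.
-/

set_option autoImplicit false
set_option linter.overlappingInstances false
set_option linter.unusedSectionVars false

open FF Module Polynomial Pool.Agent.W602.GT Pool.Agent.W603.LV Pool.Agent.W619.PQ Pool.Agent.Y172

namespace Pool.Agent.Q58.LG

open Pool.Agent.Y184.NT

section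

variable {L K : Type} [Field L] [Field K] [Algebra ℂ L] [Algebra ℂ K] [Algebra L K]
  [IsScalarTower ℂ L K] [FiniteDimensional L K] [Algebra.EssFiniteType ℂ L] {n N m : ℕ}

/-- traces of a space of forms -/
theorem tr_forms (hL : Algebra.trdeg ℂ L = n) {x : Fin N → K}
    {W0 : (Fin n → Derivation ℂ K K) → K} (hW : IsPluri 1 W0) (hW0 : ∃ D, W0 D ≠ 0)
    {BK : Place ℂ K → Prop}
    (hlog : ∀ (f : Fin m → Fin N) (Q : Place ℂ K), Divisorial n Q →
      LogAt Q (fun D => (∏ k, x (f k)) * W0 D))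
    (hreg : ∀ (f : Fin m → Fin N) (Q : Place ℂ K), Divisorial n Q → ¬ BK Q →
      RegAt Q (fun D => (∏ k, x (f k)) * W0 D))
    {BL : Place ℂ L → Prop}
    (hB : ∀ (P : Place ℂ L) (Q : Place ℂ K) (e : ℕ), Divisorial n P → Over Q P e → ¬ BL P →
      ¬ BK Q) :
    ∃ (y : Fin n → L) (E : Fin n → Derivation ℂ L L) (T : (Fin m → Fin N) → L) (h : K), h ≠ 0 ∧
      (∀ f, T f = Algebra.trace L K ((∏ k, x (f k)) * h)) ∧
      (∀ f, IsPluri 1 (trForm y (T f))) ∧
      (∀ f (P : Place ℂ L), Divisorial n P → LogAt P (trForm y (T f))) ∧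
      (∀ f (P : Place ℂ L), Divisorial n P → ¬ BL P → RegAt P (trForm y (T f))) ∧
      ∀ t, trForm y t E = t := by
  classical
  have hessK : Algebra.EssFiniteType ℂ K := Algebra.EssFiniteType.comp ℂ L K
  obtain ⟨y, E, hy, hE⟩ := Pool.Agent.Y172.exists_crd (k := ℂ) (K := L) hL
  choose E' hE' using fun i => Pool.Agent.Y172.exists_lift (k := ℂ) (K := L) (L := K) hL (E i)
  have hyK : IsTranscendenceBasis ℂ (fun j => algebraMap L K (y j)) := hy.algebraMap_comp
  have hEK := Pool.Agent.Y172.lift_dual hE hE'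
  have hp : ∀ f : Fin m → Fin N, IsPluri 1 (fun D => (∏ k, x (f k)) * W0 D) := by
    intro f A D
    change (∏ k, x (f k)) * W0 (fun i => ∑ j, A i j • D j) = _
    rw [hW A D]
    ring
  have hh : W0 E' ≠ 0 := by
    intro h0
    obtain ⟨D, hD⟩ := hW0
    apply hD
    rw [Pool.Agent.Y172.pluri_coord hyK hEK hW D, h0, mul_zero]
  refine ⟨y, E, fun f => Algebra.trace L K ((∏ k, x (f k)) * W0 E'), W0 E', hh, fun _ => rfl,
    fun f => trForm_pluri y _, fun f P hP => ?_, fun f P hP hBP => ?_, fun t => ?_⟩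
  · exact tr_log hL hy hE hE' _ (hp f) P hP fun Q e hQ => hlog f Q (divisorial_up hQ hP)
  · exact tr_reg hL hy hE hE' _ (hp f) P hP fun Q e hQ =>
      hreg f Q (divisorial_up hQ hP) (hB P Q e hP hQ hBP)
  · have h1 : (Matrix.of fun i j => E i (y j) : Matrix (Fin n) (Fin n) L) = 1 := by
      ext i j
      rw [Matrix.of_apply, hE, Matrix.one_apply]
    rw [trForm, h1, Matrix.det_one, one_mul]

/-- the order of a logarithmic form -/
theorem ge_of_log (hL : Algebra.trdeg ℂ L = n) {P : Place ℂ L} (hP : Divisorial n P)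
    {ω : (Fin n → Derivation ℂ L L) → L} (hω : IsPluri 1 ω) (hlog : LogAt P ω)
    {G : Fin n → Derivation ℂ L L} (hG : ∀ i, DerReg P (G i)) : Ge P (-1) (ω G) := by
  classical
  obtain ⟨yP, EP, i0, hl⟩ := exists_loc hL hP
  rw [pluri_coord hl.bas hl.dual hω G, pow_one]
  have h1 : Ge P 0 (Matrix.of fun i j => G i (yP j) : Matrix (Fin n) (Fin n) L).det :=
    ge_det P _ _ (fun _ _ => 0) (fun a b => hG a _ (hl.reg b)) fun σ => by simp
  have h2 : P.Reg (yP i0 * ω EP) := by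
    have h3 := hlog _ fun i => hl.log i
    rw [pluri_diag hω (fun i => lc yP i0 i) EP, prod_lc, pow_one] at h3
    exact h3
  have h3 : Ge P (-1) (ω EP) := by
    have h4 := ge_div hl.ne (show Ge P 0 (yP i0 * ω EP) from h2)
    rw [hl.unif, mul_div_cancel_left₀ _ hl.ne] at h4
    simpa using h4
  have h4 := h1.mul h3
  rwa [zero_add] at h4

end

section

variable {K L E : Type} [Field K] [Field L] [Field E] [Algebra ℂ K] [Algebra ℂ L] [Algebra ℂ E]
  [Algebra K L] [IsScalarTower ℂ K L] [FiniteDimensional K L]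
  [Algebra L E] [IsScalarTower ℂ L E] [FiniteDimensional L E] {M n N m : ℕ}

/-- **Sections of `R (K_X + Δ)`.** -/
theorem sec_dom {y : Fin (M + 1) → K} (hy : NormalModel y) (hn : Algebra.trdeg ℂ K = n)
    {Δ : Place ℂ K → ℚ} (hΔ : Effective y Δ)
    (had : ∀ (P : Place ℂ K) (Q : Place ℂ L) (e : ℕ), IsPrimeDivisor y P → Over Q P e → Δ P < 1 →
      (e : ℚ) * (1 - Δ P) ≤ 1)
    {x : Fin N → E} {j0 : Fin N} (hj0 : x j0 = 1)
    (hgenL : IntermediateField.adjoin L (Set.range x) = ⊤)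
    {W0 : (Fin n → Derivation ℂ E E) → E} (hW : IsPluri 1 W0) (hW0 : ∃ D, W0 D ≠ 0)
    {BK : Place ℂ E → Prop}
    (hlog : ∀ (f : Fin m → Fin N) (Q : Place ℂ E), Divisorial n Q →
      LogAt Q (fun D => (∏ k, x (f k)) * W0 D))
    (hreg : ∀ (f : Fin m → Fin N) (Q : Place ℂ E), Divisorial n Q → ¬ BK Q →
      RegAt Q (fun D => (∏ k, x (f k)) * W0 D))
    (hB : ∀ (P : Place ℂ K) (Q1 : Place ℂ L) (Q : Place ℂ E) (e e1 : ℕ), IsPrimeDivisor y P →
      Over Q1 P e → Over Q Q1 e1 → BK Q → 1 ≤ Δ P) :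
    (finrank L E ≤ m + 1 → ∃ R : ℕ, 1 ≤ R ∧ ∃ ω, IsSection y n R (R • Δ) ω ∧ ω ≠ 0) ∧
    (1 ≤ n → (∀ D : Derivation ℂ E E, (∀ j, D (x j) = 0) → D = 0) →
      2 * finrank L E ≤ m + 1 → ∃ R : ℕ, 1 ≤ R ∧ ∃ ω : Fin (n + 1) → (Fin n → Derivation ℂ K K) → K,
        (∀ j, IsSection y n R (R • Δ) (ω j)) ∧ ∃ G, ω 0 G ≠ 0 ∧
          AlgebraicIndependent ℂ fun i : Fin n => ω i.succ G / ω 0 G) := by
  classical
  have hess : Algebra.EssFiniteType ℂ K := hy.ess
  have hessL : Algebra.EssFiniteType ℂ L := Algebra.EssFiniteType.comp ℂ K L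
  have hcL : CharZero L := charZero_of_injective_algebraMap (algebraMap ℂ L).injective
  have hL : Algebra.trdeg ℂ L = n := Pool.Agent.Y172.trdeg_up (K := K) hn
  obtain ⟨BL, hBL⟩ : ∃ BL : Place ℂ L → Prop, ∀ Q1, BL Q1 ↔ ∃ (Q : Place ℂ E) (e : ℕ),
    Over Q Q1 e ∧ BK Q := ⟨fun Q1 => ∃ (Q : Place ℂ E) (e : ℕ), Over Q Q1 e ∧ BK Q,
      fun _ => Iff.rfl⟩
  obtain ⟨z, EL, T, h, hh, hT, hTp, hTl, hTr, hTE⟩ := tr_forms (L := L) (K := E) hL (x := x) hW hW0
    (BK := BK) hlog hreg (BL := BL) (fun P Q e _ hQ hP hB => hP ((hBL P).2 ⟨Q, e, hQ, hB⟩))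
  obtain ⟨d0, hd0, hint⟩ := exists_den_mul hΔ
  -- the orders on the cover
  have hord : ∀ f, ∀ P ∈ {P : Place ℂ K | IsPrimeDivisor y P}, ∀ (Q : Place ℂ L) (e : ℕ),
      Over Q P e → ∀ G : Fin n → Derivation ℂ L L, (∀ i, DerReg Q (G i)) →
        trForm z (T f) G ^ d0 = 0 ∨
          -(d0 * (1 - e * (1 - (Δ P : ℝ)))) ≤ (Q.ord (trForm z (T f) G ^ d0) : ℝ) := by
    intro f P hP Q e hQ G hG
    have hPd : Divisorial n P := hP.divisorial hy hn
    have hQd : Divisorial n Q := divisorial_up hQ hPd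
    by_cases h0 : trForm z (T f) G = 0
    · left
      rw [h0, zero_pow (by omega)]
    right
    rw [Q.ord_pow]
    have he : (1 : ℝ) ≤ e := by exact_mod_cast hQ.1
    have hd : (0 : ℝ) ≤ d0 := Nat.cast_nonneg _
    by_cases h1 : 1 ≤ Δ P
    · have h2 := (ge_of_log hL hQd (hTp f) (hTl f Q hQd) hG).resolve_left h0
      have h3 : (-1 : ℝ) ≤ (Q.ord (trForm z (T f) G) : ℝ) := by exact_mod_cast h2
      have h4 : (1 : ℝ) ≤ (Δ P : ℝ) := by exact_mod_cast h1
      push_cast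
      have h5 : (e : ℝ) * (1 - (Δ P : ℝ)) ≤ 0 :=
        mul_nonpos_of_nonneg_of_nonpos (by linarith) (by linarith)
      nlinarith
    · rw [not_le] at h1
      have hBQ : ¬ BL Q := by
        rw [hBL]
        rintro ⟨Q', e', hQ', hB'⟩
        exact absurd (hB P Q Q' e e' hP hQ hQ' hB') (not_le.2 h1)
      have h2 : (0 : ℤ) ≤ Q.ord (trForm z (T f) G) := (hTr f Q hQd hBQ G hG).resolve_left h0
      have h3 : (0 : ℝ) ≤ (Q.ord (trForm z (T f) G) : ℝ) := by exact_mod_cast h2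
      have h4 : (e : ℝ) * (1 - (Δ P : ℝ)) ≤ 1 := by exact_mod_cast had P Q e hP hQ h1
      push_cast
      have h5 : 0 ≤ (d0 : ℝ) * (Q.ord (trForm z (T f) G) : ℝ) := mul_nonneg hd h3
      have h6 : 0 ≤ (d0 : ℝ) * (1 - e * (1 - (Δ P : ℝ))) := mul_nonneg hd (by linarith)
      linarith
  have hX : ∀ P ∈ {P : Place ℂ K | IsPrimeDivisor y P}, Divisorial n P :=
    fun P hP => IsPrimeDivisor.divisorial hy hn hP
  have hpl : ∀ f, IsPluri d0 (fun G => trForm z (T f) G ^ d0) := by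
    intro f
    have h1 := pluri_pow (hTp f) d0
    rwa [one_mul] at h1
  refine ⟨fun hr => ?_, fun hn1 hder hr => ?_⟩
  · obtain ⟨g, hg⟩ : ∃ g, T g ≠ 0 := by
      by_contra hcon
      push Not at hcon
      have h1 := (Pool.Agent.Y614.NT.stLine Pool.Agent.Y153.NT.stCB L E N m x j0 hj0 hgenL h hh
        (fun f => by rw [← hT, hcon]) (by omega)).1
      omega
    obtain ⟨R, Ω, hR, hΩ, hΩr, G, hG, -⟩ := descend1 (k := ℂ) (K := K) (L := L) hn (h := 0)
      (M := d0) (X := {P : Place ℂ K | IsPrimeDivisor y P}) hX (Δ := Δ)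
      (fun P hP => hint P hP) (W := fun _ G => trForm z (T g) G ^ d0) (fun _ => hpl g)
      (fun P hP Q e hQ _ G hG => hord g P hP Q e hQ G hG) (G0 := EL) (by
        rw [hTE]
        exact pow_ne_zero _ hg) (by
        rw [algebraicIndependent_empty_type_iff]
        exact (algebraMap ℂ L).injective)
    refine ⟨d0 * R, Nat.mul_pos hd0 hR, Ω 0, ⟨hΩ 0, fun P hP G hG => ?_⟩, fun h0 => hG ?_⟩
    · rcases hΩr P hP 0 G hG with h1 | h1
      · exact Or.inl h1
      · right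
        rw [Pi.smul_apply, nsmul_eq_mul]
        exact_mod_cast h1
    · rw [h0]
      rfl
  · have hsep := gt_corr2 Pool.Agent.Y141.NT.stCB2 hj0 hgenL hder hr hh hT
    obtain ⟨s, hs0, hs⟩ := exists_ratios hn1 hL T hsep
    obtain ⟨R, Ω, hR, hΩ, hΩr, G, hG, hG2⟩ := descend1 (k := ℂ) (K := K) (L := L) hn (h := n)
      (M := d0) (X := {P : Place ℂ K | IsPrimeDivisor y P}) hX (Δ := Δ)
      (fun P hP => hint P hP) (W := fun j G => trForm z (T (s j)) G ^ d0) (fun j => hpl (s j))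
      (fun P hP Q e hQ j G hG => hord (s j) P hP Q e hQ G hG) (G0 := EL) (by
        rw [hTE]
        exact pow_ne_zero _ hs0) (by
        have h1 : AlgebraicIndependent ℂ fun i : Fin n => (T (s i.succ) / T (s 0)) ^ d0 := by
          have h2 := hs.polynomial_aeval_of_transcendental
            (f := fun _ => (Polynomial.X : Polynomial ℂ) ^ d0)
            fun _ => (Polynomial.transcendental_X ℂ).pow (by omega)
          simpa using h2
        have h2 : (fun i : Fin n => trForm z (T (s i.succ)) EL ^ d0 / trForm z (T (s 0)) EL ^ d0) =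
            fun i => (T (s i.succ) / T (s 0)) ^ d0 := by
          funext i
          rw [hTE, hTE, div_pow]
        rw [h2]
        exact h1)
    refine ⟨d0 * R, Nat.mul_pos hd0 hR, Ω, fun j => ⟨hΩ j, fun P hP G hG => ?_⟩, G, hG, hG2⟩
    rcases hΩr P hP j G hG with h1 | h1
    · exact Or.inl h1
    · right
      rw [Pi.smul_apply, nsmul_eq_mul]
      exact_mod_cast h1

end

end Pool.Agent.Q58.LG
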