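import Pool.Agent.Q58.LG.Prs

/-!
Pairs which correspond to generic orbifold pairs.
-/

set_option autoImplicit false
set_option linter.overlappingInstances false
set_option linter.unusedSectionVars false

open MvPolynomial FF Module Pool.Agent.W602.GT Pool.Agent.W603.LV Pool.Agent.Y172
open Pool.Agent.TH145.MG (DimLE)
open Pool.Agent.TH145.GD (St)
open Pool.Agent.TH145.GC (Rt Cf finite_cf)
open Pool.Agent.Q58.FI (eqs ratio_fam)
open Pool.Agent.W603.PV Pool.Agent.Y221.FQ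

namespace Pool.Agent.Q58.LG

/-- Logarithmic canonical forms of subvarieties of cyclic covers of generic orbifold pairs. -/
theorem lform_q {k' : Type} [Field k'] [Algebra k' ℂ] {n m w N : ℕ} {A : Type} [Fintype A]
    {d : A → ℕ} {V : Set (MvPolynomial (Fin (n + 1)) k')}
    (hVh : ∀ f ∈ V, ∃ e, f.IsHomogeneous e) (hV : DimLE k' V m)
    {F : A → MvPolynomial (Fin (n + 1)) ℂ} (hF : ∀ a, (F a).IsHomogeneous (d a))
    (hgen : AlgebraicIndependent k' fun p : Cf n d => (F p.1).coeff p.2.1) (hw : 0 < w)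
    (Cs : Finset A) {q : A → ℕ} (hq : ∀ a, a ∉ Cs → q a ∣ d a ∨ q a = 0)
    (hd : ∀ S : Finset A, (∀ a, a ∈ S ↔ a ∉ Cs) →
      2 * m + 1 + N + ∑ a ∈ S, d a / q a ≤ ∑ a, d a + Cs.card + w)
    {L : Type} [Field L] [Algebra ℂ L]
    (htr : Algebra.trdeg ℂ L = w) (x : Fin (n + 1) → L) {c0 : Fin (n + 1)} (hx1 : x c0 = 1)
    (halg : Algebra.IsAlgebraic (coords ℂ x) L)
    (hxV : ∀ f ∈ V, aeval x (map (algebraMap k' ℂ) f) = 0) (hxC : ∀ a ∈ Cs, aeval x (F a) = 0)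
    (hxn : ∀ a, a ∉ Cs → aeval x (F a) ≠ 0)
    (hxq : ∀ a, a ∉ Cs → q a ≠ 0 → ∃ η : L, aeval x (F a) = η ^ q a) :
    ∃ Φ : (Fin w → Derivation ℂ L L) → L, IsPluri 1 Φ ∧ (∃ D, Φ D ≠ 0) ∧
      ∀ (f : Fin N → Fin (n + 1)) (Q : Place ℂ L), Divisorial w Q →
        LogAt Q (fun D => (∏ k, x (f k)) * Φ D) ∧
        ((¬ ∃ a, a ∉ Cs ∧ q a = 0 ∧ d a * pord Q x < Q.ord (aeval x (F a))) →
          RegAt Q (fun D => (∏ k, x (f k)) * Φ D)) := by
  classical
  have hfd : ∀ a, Finite {I : Fin (n + 1) →₀ ℕ // I.degree = d a} := fun a =>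
    Pool.Agent.TH145.GH.finite_deg n (d a)
  have hft : ∀ a, Fintype {I : Fin (n + 1) →₀ ℕ // I.degree = d a} := fun a => Fintype.ofFinite _
  obtain ⟨I0, hI0⟩ : ∃ I0 : A → Fin (n + 1) →₀ ℕ, ∀ a, (I0 a).degree = d a :=
    ⟨fun a => Finsupp.single 0 (d a), fun a => Finsupp.degree_single _ _⟩
  have h0 : ∀ a, (F a).coeff (I0 a) ≠ 0 := fun a => hgen.ne_zero ⟨a, ⟨I0 a, hI0 a⟩⟩
  have hind := ratio_fam hgen I0 hI0
  obtain ⟨yv, hyv⟩ : ∃ yv : A → L, ∀ a, a ∉ Cs → q a ≠ 0 → aeval x (F a) = yv a ^ q a := by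
    refine ⟨fun a => if h : a ∉ Cs ∧ q a ≠ 0 then (hxq a h.1 h.2).choose else 0, ?_⟩
    intro a ha hqa
    change _ = (if h : a ∉ Cs ∧ q a ≠ 0 then (hxq a h.1 h.2).choose else 0) ^ q a
    rw [dif_pos ⟨ha, hqa⟩]
    exact (hxq a ha hqa).choose_spec
  obtain ⟨Φ, h1, h2, h3⟩ := exists_logform (k0 := k') (K := ℂ) (L := L) (n := n) (m := m) (w := w)
    (N := N) (A := A)
    (dg := d) V hVh hV (J := fun a => {I : Fin (n + 1) →₀ ℕ // I.degree = d a})
    (fun _ I => monomial I.1 1) (fun _ I => isHomogeneous_monomial _ I.2)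
    (fun a I => (F a).coeff I.1) (fun a => ⟨I0 a, hI0 a⟩) h0 (by
      have h2 := hind.comp (fun p : (Σ a : A, {j : {I : Fin (n + 1) →₀ ℕ // I.degree = d a} //
        j ≠ ⟨I0 a, hI0 a⟩}) => (⟨p.1, p.2.1.1, p.2.1.2, fun h => p.2.2 (Subtype.ext h)⟩ :
          Rt d I0)) (by
          rintro ⟨a, ⟨⟨I, hI⟩, hI2⟩⟩ ⟨a', ⟨⟨I', hI'⟩, hI2'⟩⟩ h
          have e1 : a = a' := congrArg Sigma.fst h
          subst e1
          have e2 := eq_of_heq (Sigma.mk.inj_iff.1 h).2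
          have e3 : I = I' := congrArg Subtype.val e2
          subst e3
          rfl)
      exact h2) c0 (fun _ I hI => ⟨⟨I, Pool.Agent.TH145.GD.deg_St hI⟩, rfl⟩)
    (F := F) (fun a => Pool.Agent.Q58.FI.form_eq_sum (hF a)) Cs q hq hw
    (hd _ fun a => by rw [Finset.mem_filter]; simp) htr x (by rw [hx1]; exact one_ne_zero) halg hxV
    hxC hxn yv hyv
  refine ⟨Φ, h1, h2, fun f Q hQ => ?_⟩
  obtain ⟨h4, h5⟩ := h3 f Q hQ
  have h6 : ∀ k, (x c0)⁻¹ * x (f k) = x (f k) := fun k => by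
    rw [hx1, inv_one, one_mul]
  simp only [h6] at h4 h5
  exact ⟨h4, h5⟩

/-- **Pairs which correspond to generic orbifold pairs.** -/
theorem pair_gen {k' : Type} [Field k'] [Algebra k' ℂ] {n m w N M : ℕ} {A : Type} [Fintype A]
    {d : A → ℕ} {V : Set (MvPolynomial (Fin (n + 1)) k')}
    (hVh : ∀ f ∈ V, ∃ e, f.IsHomogeneous e) (hV : DimLE k' V m)
    {F : A → MvPolynomial (Fin (n + 1)) ℂ} (hF : ∀ a, (F a).IsHomogeneous (d a))
    (hgen : AlgebraicIndependent k' fun p : Cf n d => (F p.1).coeff p.2.1) (hw : 1 ≤ w)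
    (Cs : Finset A) {q : A → ℕ} (hq : ∀ a, a ∉ Cs → q a ∣ d a ∨ q a = 0)
    (hd : ∀ S : Finset A, (∀ a, a ∈ S ↔ a ∉ Cs) →
      2 * m + 1 + N + ∑ a ∈ S, d a / q a ≤ ∑ a, d a + Cs.card + w)
    {K L E : Type} [Field K] [Field L] [Field E] [Algebra ℂ K] [Algebra ℂ L] [Algebra ℂ E]
    [Algebra K L] [IsScalarTower ℂ K L] [FiniteDimensional K L]
    [Algebra L E] [IsScalarTower ℂ L E] [FiniteDimensional L E]
    {y : Fin (M + 1) → K} (hy : NormalModel y) (hn : Algebra.trdeg ℂ K = w)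
    {Δ : Place ℂ K → ℚ} (hΔ : Effective y Δ)
    (had : ∀ (P : Place ℂ K) (Q : Place ℂ L) (e : ℕ), IsPrimeDivisor y P → Over Q P e → Δ P < 1 →
      (e : ℚ) * (1 - Δ P) ≤ 1)
    {x : Fin (n + 1) → E} {c0 : Fin (n + 1)} (hx1 : x c0 = 1)
    (hgenL : IntermediateField.adjoin L (Set.range x) = ⊤)
    (halg : Algebra.IsAlgebraic (IntermediateField.adjoin ℂ (Set.range x)) E)
    (hxV : ∀ f ∈ V, aeval x (map (algebraMap k' ℂ) f) = 0) (hxC : ∀ a ∈ Cs, aeval x (F a) = 0)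
    (hxn : ∀ a, a ∉ Cs → aeval x (F a) ≠ 0)
    (hxq : ∀ a, a ∉ Cs → q a ≠ 0 → ∃ η : E, aeval x (F a) = η ^ q a)
    (hB : ∀ (P : Place ℂ K) (Q1 : Place ℂ L) (Q : Place ℂ E) (e e1 : ℕ), IsPrimeDivisor y P →
      Over Q1 P e → Over Q Q1 e1 →
      (∃ a, a ∉ Cs ∧ q a = 0 ∧ d a * pord Q x < Q.ord (aeval x (F a))) → 1 ≤ Δ P) :
    (finrank L E ≤ N + 1 → ∃ R : ℕ, 1 ≤ R ∧ ∃ ω, IsSection y w R (R • Δ) ω ∧ ω ≠ 0) ∧
    (2 * finrank L E ≤ N + 1 →
      ∃ R : ℕ, 1 ≤ R ∧ ∃ ω : Fin (w + 1) → (Fin w → Derivation ℂ K K) → K,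
        (∀ j, IsSection y w R (R • Δ) (ω j)) ∧ ∃ G, ω 0 G ≠ 0 ∧
          AlgebraicIndependent ℂ fun i : Fin w => ω i.succ G / ω 0 G) := by
  classical
  have htrE : Algebra.trdeg ℂ E = w :=
    Pool.Agent.Y172.trdeg_up (K := L) (Pool.Agent.Y172.trdeg_up (K := K) hn)
  have hco : IntermediateField.adjoin ℂ (Set.range x) ≤ coords ℂ x := by
    rw [IntermediateField.adjoin_le_iff]
    rintro _ ⟨j, rfl⟩
    refine IntermediateField.subset_adjoin ℂ _ ⟨j, c0, ?_, ?_⟩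
    · rw [hx1]
      exact one_ne_zero
    · rw [hx1, div_one]
  have halg2 : Algebra.IsAlgebraic (coords ℂ x) E := by
    refine ⟨fun z => ?_⟩
    exact Pool.Agent.TH145.MF.alg_mono
      (F1 := (IntermediateField.adjoin ℂ (Set.range x)).toSubfield)
      (F2 := (coords ℂ x).toSubfield) (fun z hz => hco hz) (halg.isAlgebraic z)
  obtain ⟨Φ, h1, h2, h3⟩ := lform_q hVh hV hF hgen (show 0 < w by omega) Cs hq hd htrE x hx1 halg2
    hxV hxC hxn hxq
  obtain ⟨h4, h5⟩ := sec_dom (m := N) hy hn hΔ had hx1 hgenL h1 h2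
    (BK := fun Q => ∃ a, a ∉ Cs ∧ q a = 0 ∧ d a * pord Q x < Q.ord (aeval x (F a)))
    (fun f Q hQ => (h3 f Q hQ).1) (fun f Q hQ hB => (h3 f Q hQ).2 hB) hB
  refine ⟨h4, h5 hw fun D hD => ?_⟩
  -- derivations which kill the coordinates
  have h6 : ∀ z ∈ IntermediateField.adjoin ℂ (Set.range x), D z = 0 := by
    intro z hz
    let C0 : IntermediateField ℂ E :=
      { carrier := {f | D f = 0}
        mul_mem' := fun {f g} hf hg => by
          change D (f * g) = 0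
          rw [D.leibniz, show D f = 0 from hf, show D g = 0 from hg]
          simp
        add_mem' := fun {f g} hf hg => by
          change D (f + g) = 0
          rw [map_add, show D f = 0 from hf, show D g = 0 from hg, add_zero]
        algebraMap_mem' := fun c => D.map_algebraMap c
        inv_mem' := fun f hf => by
          change D f⁻¹ = 0
          rw [Derivation.leibniz_inv, show D f = 0 from hf, smul_zero] }
    have h7 : IntermediateField.adjoin ℂ (Set.range x) ≤ C0 := by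
      rw [IntermediateField.adjoin_le_iff]
      rintro _ ⟨j, rfl⟩
      exact hD j
    exact h7 hz
  ext z
  exact Pool.Agent.Y172.kills_alg (M := IntermediateField.adjoin ℂ (Set.range x)) h6
    (halg.isAlgebraic z)

end Pool.Agent.Q58.LG
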