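import Pool.Agent.Q58.LG.PrsG
import Pool.Agent.W602.GT.KDefs

/-!
Open varieties with an étale cover which corresponds to a generic orbifold pair.
-/

set_option autoImplicit false
set_option linter.overlappingInstances false
set_option linter.unusedSectionVars false

open MvPolynomial FF Module Pool.Agent.W602.GT Pool.Agent.W603.LV Pool.Agent.Y172
open Pool.Agent.TH145.MG (DimLE)
open Pool.Agent.TH145.GC (Cf)
open Pool.Agent.W603.PV Pool.Agent.Y184.NT

namespace Pool.Agent.Q58.LG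

/-- Descent of logarithmic forms on an étale cover. -/
theorem desc_log {K L : Type} [Field K] [Field L] [Algebra ℂ K] [Algebra ℂ L] [Algebra K L]
    [IsScalarTower ℂ K L] [FiniteDimensional K L] [Algebra.EssFiniteType ℂ K] {n h : ℕ}
    (hn : Algebra.trdeg ℂ K = n) {Bd : Place ℂ K → Prop}
    {θ : Fin (h + 1) → (Fin n → Derivation ℂ L L) → L} (hθ : ∀ j, IsPluri 1 (θ j))
    (hlog : ∀ j (Q : Place ℂ L), Divisorial n Q → LogAt Q (θ j))
    (hreg : ∀ j (P : Place ℂ K) (Q : Place ℂ L) (e : ℕ), Divisorial n P → Over Q P e → ¬ Bd P →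
      RegAt Q (θ j))
    (hunr : ∀ (P : Place ℂ K) (Q : Place ℂ L) (e : ℕ), Divisorial n P → Over Q P e → ¬ Bd P → e = 1)
    {G0 : Fin n → Derivation ℂ L L} (hG0 : θ 0 G0 ≠ 0)
    (hind : AlgebraicIndependent ℂ fun i : Fin h => θ i.succ G0 / θ 0 G0) : KodGe ℂ K n Bd h := by
  classical
  have hessL : Algebra.EssFiniteType ℂ L := Algebra.EssFiniteType.comp ℂ K L
  have hL : Algebra.trdeg ℂ L = n := Pool.Agent.Y172.trdeg_up (K := K) hn
  obtain ⟨Δ, hΔ⟩ : ∃ Δ : Place ℂ K → ℚ, ∀ P, Δ P = if Bd P then 1 else 0 := ⟨_, fun _ => rfl⟩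
  obtain ⟨R, Ω, hR, hΩ, hΩr, G, hG, hG2⟩ := descend1 (k := ℂ) (K := K) (L := L) hn (h := h)
    (M := 1) (X := {P : Place ℂ K | Divisorial n P}) (fun P hP => hP) (Δ := Δ)
    (fun P _ => by
      rw [hΔ]
      split_ifs
      · exact ⟨1, by norm_num⟩
      · exact ⟨0, by norm_num⟩) (W := θ) hθ
    (fun P hP Q e hQ j G hG => by
      have hQd : Divisorial n Q := divisorial_up hQ hP
      have he : (1 : ℝ) ≤ e := by exact_mod_cast hQ.1
      rw [hΔ]
      by_cases hB : Bd P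
      · rw [if_pos hB]
        rcases ge_of_log hL hQd (hθ j) (hlog j Q hQd) hG with h0 | h0
        · exact Or.inl h0
        · right
          have h3 : (-1 : ℝ) ≤ (Q.ord (θ j G) : ℝ) := by exact_mod_cast h0
          push_cast
          linarith
      · rw [if_neg hB]
        rcases hreg j P Q e hP hQ hB G hG with h0 | h0
        · exact Or.inl h0
        · right
          have h3 : (0 : ℝ) ≤ (Q.ord (θ j G) : ℝ) := by exact_mod_cast h0
          rw [hunr P Q e hP hQ hB]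
          push_cast
          linarith) hG0 hind
  have hge : ∀ P : Place ℂ K, Divisorial n P → ∀ j (G : Fin n → Derivation ℂ K K),
      (∀ i, DerReg P (G i)) → Ω j G = 0 ∨ -((R : ℝ) * (Δ P : ℝ)) ≤ P.ord (Ω j G) := by
    intro P hP j G hG
    rcases hΩr P hP j G hG with h0 | h0
    · exact Or.inl h0
    · right
      have h1 : -((R : ℚ) * Δ P) ≤ ((P.ord (Ω j G) : ℤ) : ℚ) := by
        have h2 : ((1 * R : ℕ) : ℚ) = R := by push_cast; ring
        rwa [h2] at h0
      exact_mod_cast h1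
  refine ⟨R, hR, Ω, fun j => ⟨?_, fun P hP G hG => ?_, fun P hP hB G hG => ?_⟩, G, hG, hG2⟩
  · have h1 := hΩ j
    rwa [one_mul] at h1
  · have h1 := hΩ j
    rw [one_mul] at h1
    rcases log_gain hn hP h1 (hge P hP j) hG with h2 | h2
    · exact Or.inl h2
    · right
      have h3 : (Δ P : ℝ) ≤ 1 := by
        rw [hΔ]
        split_ifs <;> norm_num
      have h4 : (0 : ℝ) ≤ R := Nat.cast_nonneg _
      have h5 : (0 : ℝ) ≤ (P.ord (Ω j G) : ℝ) := by nlinarith
      exact_mod_cast h5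
  · rcases hge P hP j G hG with h2 | h2
    · exact Or.inl h2
    · right
      rw [hΔ, if_neg hB] at h2
      have h5 : (0 : ℝ) ≤ (P.ord (Ω j G) : ℝ) := by
        push_cast at h2
        linarith
      exact_mod_cast h5

section

variable {K L E : Type} [Field K] [Field L] [Field E] [Algebra ℂ K] [Algebra ℂ L] [Algebra ℂ E]
  [Algebra K L] [IsScalarTower ℂ K L] [FiniteDimensional K L]
  [Algebra L E] [IsScalarTower ℂ L E] [FiniteDimensional L E] [Algebra.EssFiniteType ℂ K]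
  {n N m : ℕ}

/-- Logarithmic forms of an open variety with an étale cover which corresponds to a variety with
many logarithmic forms. -/
theorem open_dom (hn : Algebra.trdeg ℂ K = n) {Bd : Place ℂ K → Prop}
    (hunr : ∀ (P : Place ℂ K) (Q : Place ℂ L) (e : ℕ), Divisorial n P → Over Q P e → ¬ Bd P → e = 1)
    {x : Fin N → E} {j0 : Fin N} (hj0 : x j0 = 1)
    (hgenL : IntermediateField.adjoin L (Set.range x) = ⊤)
    {W0 : (Fin n → Derivation ℂ E E) → E} (hW : IsPluri 1 W0) (hW0 : ∃ D, W0 D ≠ 0)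
    {BK : Place ℂ E → Prop}
    (hlog : ∀ (f : Fin m → Fin N) (Q : Place ℂ E), Divisorial n Q →
      LogAt Q (fun D => (∏ k, x (f k)) * W0 D))
    (hreg : ∀ (f : Fin m → Fin N) (Q : Place ℂ E), Divisorial n Q → ¬ BK Q →
      RegAt Q (fun D => (∏ k, x (f k)) * W0 D))
    (hB : ∀ (P : Place ℂ K) (Q1 : Place ℂ L) (Q : Place ℂ E) (e e1 : ℕ), Divisorial n P →
      Over Q1 P e → Over Q Q1 e1 → BK Q → Bd P) :
    (finrank L E ≤ m + 1 → KodGe ℂ K n Bd 0) ∧
    (1 ≤ n → (∀ D : Derivation ℂ E E, (∀ j, D (x j) = 0) → D = 0) →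
      2 * finrank L E ≤ m + 1 → KodGe ℂ K n Bd n) := by
  classical
  have hcL : CharZero L := charZero_of_injective_algebraMap (algebraMap ℂ L).injective
  have hessL : Algebra.EssFiniteType ℂ L := Algebra.EssFiniteType.comp ℂ K L
  have hL : Algebra.trdeg ℂ L = n := Pool.Agent.Y172.trdeg_up (K := K) hn
  obtain ⟨BL, hBL⟩ : ∃ BL : Place ℂ L → Prop, ∀ Q1, BL Q1 ↔ ∃ (Q : Place ℂ E) (e : ℕ),
    Over Q Q1 e ∧ BK Q := ⟨fun Q1 => ∃ (Q : Place ℂ E) (e : ℕ), Over Q Q1 e ∧ BK Q,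
      fun _ => Iff.rfl⟩
  obtain ⟨z, EL, T, h, hh, hT, hTp, hTl, hTr, hTE⟩ := tr_forms (L := L) (K := E) hL (x := x) hW hW0
    (BK := BK) hlog hreg (BL := BL) (fun P Q e _ hQ hP hB => hP ((hBL P).2 ⟨Q, e, hQ, hB⟩))
  have hr0 : ∀ f (P : Place ℂ K) (Q : Place ℂ L) (e : ℕ), Divisorial n P → Over Q P e → ¬ Bd P →
      RegAt Q (trForm z (T f)) := by
    intro f P Q e hP hQ hBP
    refine hTr f Q (divisorial_up hQ hP) fun hBQ => ?_
    obtain ⟨Q', e', hQ', hB'⟩ := (hBL Q).1 hBQ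
    exact hBP (hB P Q Q' e e' hP hQ hQ' hB')
  refine ⟨fun hr => ?_, fun hn1 hder hr => ?_⟩
  · obtain ⟨g, hg⟩ : ∃ g, T g ≠ 0 := by
      by_contra hcon
      push Not at hcon
      have h1 := (Pool.Agent.Y614.NT.stLine Pool.Agent.Y153.NT.stCB L E N m x j0 hj0 hgenL h hh
        (fun f => by rw [← hT, hcon]) (by omega)).1
      omega
    refine desc_log (L := L) hn (h := 0) (θ := fun _ => trForm z (T g)) (fun _ => hTp g)
      (fun _ Q hQ => hTl g Q hQ) (fun _ P Q e hP hQ hBP => hr0 g P Q e hP hQ hBP) hunr (G0 := EL)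
      (by rw [hTE]; exact hg) (by
        rw [algebraicIndependent_empty_type_iff]
        exact (algebraMap ℂ L).injective)
  · have hsep := gt_corr2 Pool.Agent.Y141.NT.stCB2 hj0 hgenL hder hr hh hT
    obtain ⟨s, hs0, hs⟩ := exists_ratios hn1 hL T hsep
    refine desc_log (L := L) hn (h := n) (θ := fun j => trForm z (T (s j))) (fun j => hTp _)
      (fun j Q hQ => hTl _ Q hQ) (fun j P Q e hP hQ hBP => hr0 _ P Q e hP hQ hBP) hunr (G0 := EL)
      (by rw [hTE]; exact hs0) (by simpa only [hTE] using hs)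

/-- **Open varieties with an étale cover which corresponds to a generic orbifold pair.** -/
theorem open_gen {k' : Type} [Field k'] [Algebra k' ℂ] {w : ℕ} {A : Type} [Fintype A]
    {d : A → ℕ} {V : Set (MvPolynomial (Fin (n + 1)) k')}
    (hVh : ∀ f ∈ V, ∃ e, f.IsHomogeneous e) (hV : DimLE k' V m)
    {F : A → MvPolynomial (Fin (n + 1)) ℂ} (hF : ∀ a, (F a).IsHomogeneous (d a))
    (hgen : AlgebraicIndependent k' fun p : Cf n d => (F p.1).coeff p.2.1) (hw : 1 ≤ w)
    (Cs : Finset A) {q : A → ℕ} (hq : ∀ a, a ∉ Cs → q a ∣ d a ∨ q a = 0)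
    (hd : ∀ S : Finset A, (∀ a, a ∈ S ↔ a ∉ Cs) →
      2 * m + 1 + N + ∑ a ∈ S, d a / q a ≤ ∑ a, d a + Cs.card + w)
    (hn : Algebra.trdeg ℂ K = w) {Bd : Place ℂ K → Prop}
    (hunr : ∀ (P : Place ℂ K) (Q : Place ℂ L) (e : ℕ), Divisorial w P → Over Q P e → ¬ Bd P → e = 1)
    {x : Fin (n + 1) → E} {c0 : Fin (n + 1)} (hx1 : x c0 = 1)
    (hgenL : IntermediateField.adjoin L (Set.range x) = ⊤)
    (halg : Algebra.IsAlgebraic (IntermediateField.adjoin ℂ (Set.range x)) E)
    (hxV : ∀ f ∈ V, aeval x (map (algebraMap k' ℂ) f) = 0) (hxC : ∀ a ∈ Cs, aeval x (F a) = 0)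
    (hxn : ∀ a, a ∉ Cs → aeval x (F a) ≠ 0)
    (hxq : ∀ a, a ∉ Cs → q a ≠ 0 → ∃ η : E, aeval x (F a) = η ^ q a)
    (hB : ∀ (P : Place ℂ K) (Q1 : Place ℂ L) (Q : Place ℂ E) (e e1 : ℕ), Divisorial w P →
      Over Q1 P e → Over Q Q1 e1 →
      (∃ a, a ∉ Cs ∧ q a = 0 ∧ d a * pord Q x < Q.ord (aeval x (F a))) → Bd P) :
    (finrank L E ≤ N + 1 → KodGe ℂ K w Bd 0) ∧ (2 * finrank L E ≤ N + 1 → KodGe ℂ K w Bd w) := by
  classical
  have htrE : Algebra.trdeg ℂ E = w :=
    Pool.Agent.Y172.trdeg_up (K := L) (Pool.Agent.Y172.trdeg_up (K := K) hn)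
  have hco : IntermediateField.adjoin ℂ (Set.range x) ≤ coords ℂ x := by
    rw [IntermediateField.adjoin_le_iff]
    rintro _ ⟨j, rfl⟩
    refine IntermediateField.subset_adjoin ℂ _ ⟨j, c0, ?_, ?_⟩
    · rw [hx1]
      exact one_ne_zero
    · rw [hx1, div_one]
  have halg2 : Algebra.IsAlgebraic (coords ℂ x) E := by
    refine ⟨fun z => ?_⟩
    exact Pool.Agent.TH145.MF.alg_mono
      (F1 := (IntermediateField.adjoin ℂ (Set.range x)).toSubfield)
      (F2 := (coords ℂ x).toSubfield) (fun z hz => hco hz) (halg.isAlgebraic z)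
  obtain ⟨Φ, h1, h2, h3⟩ := lform_q hVh hV hF hgen (show 0 < w by omega) Cs hq hd htrE x hx1 halg2
    hxV hxC hxn hxq
  obtain ⟨h4, h5⟩ := open_dom (m := N) hn hunr hx1 hgenL h1 h2
    (BK := fun Q => ∃ a, a ∉ Cs ∧ q a = 0 ∧ d a * pord Q x < Q.ord (aeval x (F a)))
    (fun f Q hQ => (h3 f Q hQ).1) (fun f Q hQ hB => (h3 f Q hQ).2 hB) hB
  refine ⟨h4, h5 hw fun D hD => ?_⟩
  -- derivations which kill the coordinates
  have h6 : ∀ z ∈ IntermediateField.adjoin ℂ (Set.range x), D z = 0 := by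
    intro z hz
    let C0 : IntermediateField ℂ E :=
      { carrier := {f | D f = 0}
        mul_mem' := fun {f g} hf hg => by
          change D (f * g) = 0
          rw [D.leibniz, show D f = 0 from hf, show D g = 0 from hg]
          simp
        add_mem' := fun {f g} hf hg => by
          change D (f + g) = 0
          rw [map_add, show D f = 0 from hf, show D g = 0 from hg, add_zero]
        algebraMap_mem' := fun c => D.map_algebraMap c
        inv_mem' := fun f hf => by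
          change D f⁻¹ = 0
          rw [Derivation.leibniz_inv, show D f = 0 from hf, smul_zero] }
    have h7 : IntermediateField.adjoin ℂ (Set.range x) ≤ C0 := by
      rw [IntermediateField.adjoin_le_iff]
      rintro _ ⟨j, rfl⟩
      exact hD j
    exact h7 hz
  ext z
  exact Pool.Agent.Y172.kills_alg (M := IntermediateField.adjoin ℂ (Set.range x)) h6
    (halg.isAlgebraic z)

end

end Pool.Agent.Q58.LG
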