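import Pool.Agent.W602.RG.Defs2
import Pool.Agent.W602.GT.SpDefs

/-!
Pointed maps to projective varieties.
-/

set_option autoImplicit false

open FF Pool.Agent.W602.RG
open Pool.Agent.W602.GT (val)
open scoped LinearAlgebra.Projectivization

namespace Pool.Agent.Q58.LG

variable {k : Type} [Field k] {M : ℕ} {μ : Type}

/-- The morphisms from the smooth projective curve with function field `L` to the projective variety
`{Φ = 0}` that map the point `c` to the point with homogeneous coordinates `x`. -/
def Pointed (Φ : μ → MvPolynomial (Fin (M + 1)) k) {L : Type} [Field L] [Algebra k L]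
    (c : Place k L) (x : Fin (M + 1) → k) : Set (ℙ L (Fin (M + 1) → L)) :=
  {φ | ∃ (f : Fin (M + 1) → L) (hf : f ≠ 0), (∀ e, val f (Φ e) = 0) ∧ HasValue c x f ∧
    φ = Projectivization.mk L f hf}

/-- For all smooth projective curves (with function field `L`), all points `c` of the curve and all
points `x`, there are only finitely many morphisms from the curve to the projective variety
`{Φ = 0}` that map `c` to `x`. -/
def GeomHyp (Φ : μ → MvPolynomial (Fin (M + 1)) k) : Prop :=
  ∀ (L : Type) [Field L] [Algebra k L] [IsFF k L] (c : Place k L) (x : Fin (M + 1) → k), x ≠ 0 →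
    (Pointed Φ c x).Finite

end Pool.Agent.Q58.LG
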