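import Pool.Agent.Q58.LG.Cmp
import Pool.Agent.Q58.LG.PtDefs
import Pool.Agent.Y216.Point
import Pool.Agent.Y221.PB.Rat

/-!
Finiteness of pointed maps to bounded projective varieties.
-/

set_option autoImplicit false
set_option linter.overlappingInstances false
set_option linter.unusedSectionVars false

open FF MvPolynomial Pool.Agent.W603.LV Pool.Agent.W603.PV Pool.Agent.W602.RG
open Pool.Agent.W602.GT (val IsForm val_smul val_map GmCurve)
open Pool.Agent.W603.CX (BoundedOnCurves AlgHyperbolic hgt_le_pht)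
open Pool.Agent.Y221.FQ (AllGeneral Mor Onto FibresLe)
open scoped LinearAlgebra.Projectivization
open IntermediateField

namespace Pool.Agent.Q58.LG

variable {k : Type} [Field k] [IsAlgClosed k] [CharZero k] {M : ℕ} {μ : Type}
  {Φ : μ → MvPolynomial (Fin (M + 1)) k}

/-- Rational curves give curves of unbounded degree. -/
theorem not_bounded_rat {g : Fin (M + 1) → RatFunc k} {j0 j1 : Fin (M + 1)} (hg0 : g j0 = 1)
    (hj1 : g j1 ∉ Set.range (algebraMap k (RatFunc k))) (hgΦ : ∀ e, val g (Φ e) = 0) :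
    ¬ BoundedOnCurves Φ := by
  intro hb
  obtain ⟨D, hD⟩ := hb (RatFunc k)
  obtain ⟨q, hq⟩ : ∃ q : ℕ, q = D.toNat + 1 := ⟨_, rfl⟩
  have hq0 : q ≠ 0 := by omega
  obtain ⟨T, hTd⟩ : ∃ T : RatFunc k, T = RatFunc.X := ⟨_, rfl⟩
  have hTt : Transcendental k T := hTd ▸ RatFunc.transcendental_X
  have hT0 : T ≠ 0 := by rw [hTd]; exact RatFunc.X_ne_zero
  have hT1 : 1 ≤ hgt k T := by
    by_contra hcon
    obtain ⟨c, hc⟩ := Pool.Agent.Y216.const_of_hgt (k := k) (u := T) (by omega)
    exact hTt (hc ▸ isAlgebraic_algebraMap c)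
  have hTq : Transcendental k (T ^ q) := hTt.pow (by omega)
  let σ : RatFunc k →ₐ[k] RatFunc k := RatFunc.liftAlgHom (Polynomial.aeval (T ^ q)) (by
    intro p hp
    rw [Submonoid.mem_comap, mem_nonZeroDivisors_iff_ne_zero]
    exact fun h => nonZeroDivisors.ne_zero hp ((transcendental_iff_injective.1 hTq) (by
      rw [map_zero]; exact h)))
  have hσ : ∀ x : RatFunc k, σ x ∈ k⟮T ^ q⟯ := by
    intro x
    have h1 : ∀ p : Polynomial k, (Polynomial.aeval (T ^ q) p : RatFunc k) ∈ k⟮T ^ q⟯ := by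
      intro p
      rw [Polynomial.aeval_eq_sum_range]
      refine sum_mem fun a _ => ?_
      exact (k⟮T ^ q⟯).smul_mem (_root_.pow_mem (mem_adjoin_simple_self k (T ^ q)) _)
    have h2 : σ x = Polynomial.aeval (T ^ q) x.num / Polynomial.aeval (T ^ q) x.denom := by
      exact RatFunc.liftAlgHom_apply _ _ _
    rw [h2]
    exact div_mem (h1 _) (h1 _)
  have hne : ∃ j, σ (g j) ≠ 0 := ⟨j0, by rw [hg0, map_one]; exact one_ne_zero⟩
  have h1 := hD (fun j => σ (g j)) hne fun e => by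
    have h2 := val_map σ (Φ e) g
    rw [hgΦ, map_zero] at h2
    exact h2.symm
  have hgt1 : Transcendental k (g j1) := by
    intro halg
    apply hj1
    have h2 := IsAlgClosed.degree_eq_one_of_irreducible k (minpoly.irreducible halg.isIntegral)
    exact minpoly.mem_range_of_degree_eq_one k _ h2
  have hσt : Transcendental k (σ (g j1)) := fun h =>
    hgt1 ((isAlgebraic_algHom_iff σ σ.injective).1 h)
  have hσ0 : σ (g j1) ≠ 0 := by
    intro h0
    rw [h0] at hσt
    exact hσt isAlgebraic_zero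
  have h2 := hgt_le_pht (k := k) (fun j => σ (g j)) (j := j1) (l := j0) hσ0 (by
    rw [hg0, map_one]
    exact one_ne_zero)
  rw [hg0, map_one, div_one] at h2
  have h3 := Pool.Agent.Y221.AH.hgt_sub_ge hTq hσt (hσ _)
  rw [Pool.Agent.W603.LV.hgt_pow hT0] at h3
  have h4 : (q : ℤ) ≤ q * hgt k T := by nlinarith [(Nat.cast_nonneg q : (0 : ℤ) ≤ q)]
  omega

/-- **Pointed maps to bounded varieties.** -/
theorem geom_of_bounded (hΦ : ∀ e, IsForm (Φ e)) (hb : BoundedOnCurves Φ) : GeomHyp Φ := by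
  classical
  intro L _ _ _ c x hx
  obtain ⟨B, hB⟩ := hb L
  by_contra hfin
  have hinf : (Pointed Φ c x).Infinite := hfin
  obtain ⟨j0, hj0⟩ := Function.ne_iff.1 hx
  have hj0 : x j0 ≠ 0 := hj0
  set S : Set (Fin (M + 1) → L) := {f | f j0 = 1 ∧ (∀ e, val f (Φ e) = 0) ∧ HasValue c x f} with hS
  have hSinf : S.Infinite := by
    intro hSfin
    obtain ⟨φ0, -⟩ := hinf.nonempty
    let g : (Fin (M + 1) → L) → ℙ L (Fin (M + 1) → L) := fun f =>
      if h : f ≠ 0 then Projectivization.mk L f h else φ0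
    refine hinf ((hSfin.image g).subset ?_)
    rintro φ ⟨f, hf, hmap, hval, rfl⟩
    have hfne : ∃ j, f j ≠ 0 := Function.ne_iff.1 hf
    have hfj0 := Pool.Agent.W273.RG.FNW.hv_ne hfne hval hj0
    have hc0 : (f j0)⁻¹ ≠ 0 := inv_ne_zero hfj0
    have hf' : (fun j => (f j0)⁻¹ * f j) ≠ 0 := by
      intro h0
      have := congrFun h0 j0
      simp only [Pi.zero_apply] at this
      exact (mul_ne_zero hc0 hfj0) this
    refine ⟨fun j => (f j0)⁻¹ * f j, ⟨inv_mul_cancel₀ hfj0, ?_,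
      Pool.Agent.W273.RG.FNW.hv_scale hfne hval hc0⟩, ?_⟩
    · intro e
      obtain ⟨d, hd⟩ := hΦ e
      rw [val_smul hd, hmap e, mul_zero]
    · change (if h : (fun j => (f j0)⁻¹ * f j) ≠ 0 then
        Projectivization.mk L (fun j => (f j0)⁻¹ * f j) h else φ0) = _
      rw [dif_pos hf', Projectivization.mk_eq_mk_iff']
      exact ⟨(f j0)⁻¹, by funext j; rfl⟩
  have hvalues : ∀ f ∈ S, ∀ j, f j = algebraMap k L (x j / x j0) ∨
      0 < c.ord (f j - algebraMap k L (x j / x j0)) := by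
    rintro f ⟨hf0, hmap, hval⟩ j
    have hp := Pool.Agent.W273.RG.FNW.pord_zero hval hj0 hf0
    have hxj0 : algebraMap k L (x j0) ≠ 0 := (map_ne_zero _).2 hj0
    have e : algebraMap k L (x j0) * f j - algebraMap k L (x j) * f j0 =
        algebraMap k L (x j0) * (f j - algebraMap k L (x j / x j0)) := by
      rw [hf0, map_div₀]
      field_simp
    rcases hval j0 j with h3 | h3
    · left
      rw [e] at h3
      exact sub_eq_zero.1 ((mul_eq_zero.1 h3).resolve_left hxj0)
    · by_cases h4 : f j - algebraMap k L (x j / x j0) = 0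
      · left; exact sub_eq_zero.1 h4
      · right
        rw [e, c.ord_mul hxj0 h4, c.ord_const hj0, zero_add, hp] at h3
        exact h3
  have hBn : 0 ≤ max B 0 := le_max_right _ _
  have hhgt : ∀ f ∈ S, ∀ j, hgt k (f j) ≤ max B 0 := by
    intro f hf j
    by_cases h0 : f j = 0
    · have h7 : hgt k (f j) = 0 := by
        rw [h0]
        exact hgt_algebraic (k := k) (K := L) (f := 0) isAlgebraic_zero
      rw [h7]
      exact hBn
    · have h6 := hgt_le_pht (k := k) f (j := j) (l := j0) h0 (by rw [hf.1]; exact one_ne_zero)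
      rw [hf.1, div_one] at h6
      exact (h6.trans (hB f ⟨j0, by rw [hf.1]; exact one_ne_zero⟩ hf.2.1)).trans (le_max_left _ _)
  -- bend and break
  let z : ℕ ↪ S := hSinf.natEmbedding S
  obtain ⟨g, ⟨j1, hj1⟩, hg1, -⟩ := Pool.Agent.TH152.BB.bb_val Pool.Agent.TH152.BB.bb_all c
    (fun m => (z m : Fin (M + 1) → L)) (fun j => x j / x j0) (max B 0)
    (fun a b hab => z.injective (Subtype.ext hab)) (fun m j => hvalues _ (z m).2 j)
    (fun m j => hhgt _ (z m).2 j)
  have hg0 : g j0 = 1 := by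
    have h1 := hg1 (X j0 - 1) (fun m => by
      rw [map_sub, aeval_X, map_one, (z m).2.1, sub_self])
    rw [map_sub, aeval_X, map_one] at h1
    exact sub_eq_zero.1 h1
  exact not_bounded_rat hg0 hj1 (fun e => hg1 (Φ e) fun m => (z m).2.2.1 e) hb

/-- A rational curve gives infinitely many pointed maps. -/
theorem not_geom_poly {P : Fin (M + 1) → Polynomial k} (h0 : (fun j => (P j).eval 0) ≠ 0)
    (hΦ : ∀ e, IsForm (Φ e)) (hmem : ∀ e, MvPolynomial.aeval P (Φ e) = 0)
    (hnc : ∃ i j a b, (P i).eval a * (P j).eval b ≠ (P j).eval a * (P i).eval b) :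
    ¬ GeomHyp Φ := by
  classical
  intro hgeo
  obtain ⟨x, hx⟩ : ∃ x : Fin (M + 1) → RatFunc k,
    x = fun l => Polynomial.aeval (RatFunc.X : RatFunc k) (P l) := ⟨_, rfl⟩
  have hR : Pool.Agent.Y221.PB.RatThrough x (fun j => (P j).eval 0) P := ⟨fun G _ hG => by
    rw [hx, Pool.Agent.Y221.PB.aeval_poly] at hG
    exact (transcendental_iff_injective.1 (RatFunc.transcendental_X (K := k)))
      (by rw [hG, map_zero]), fun _ => rfl, h0, hnc⟩
  have hxΦ : ∀ e, val x (Φ e) = 0 := fun e => by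
    rw [hx, Pool.Agent.Y221.PB.aeval_poly, hmem, map_zero]
  obtain ⟨c, i, j, hmaps⟩ := hR.maps
  have hf := hgeo (RatFunc k) c _ h0
  let ht : ℙ (RatFunc k) (Fin (M + 1) → RatFunc k) → ℤ := fun φ => hgt k (φ.rep i / φ.rep j)
  obtain ⟨D, hD⟩ : ∃ D : ℤ, ∀ φ ∈ Pointed Φ c (fun j => (P j).eval 0), ht φ ≤ D := by
    obtain ⟨D, hD⟩ := (hf.image ht).bddAbove
    exact ⟨D, fun φ hφ => hD ⟨φ, hφ, rfl⟩⟩
  obtain ⟨q, hq⟩ : ∃ q : ℕ, q = D.toNat + 1 := ⟨_, rfl⟩
  obtain ⟨h1, h2, -, h3, h4, h5⟩ := hmaps q (by omega)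
  have hne : (fun l => Polynomial.aeval ((RatFunc.X : RatFunc k) ^ q) (P l)) ≠ 0 :=
    fun h0 => h3 (congrFun h0 i)
  have h6 := hD (Projectivization.mk (RatFunc k) _ hne)
    ⟨_, hne, fun e => h1.2 _ (hΦ e) (hxΦ e), h2, rfl⟩
  obtain ⟨a, ha⟩ := Projectivization.exists_smul_eq_mk_rep (RatFunc k) _ hne
  have h7 : ht (Projectivization.mk (RatFunc k) _ hne) =
      hgt k (Polynomial.aeval ((RatFunc.X : RatFunc k) ^ q) (P i) /
        Polynomial.aeval ((RatFunc.X : RatFunc k) ^ q) (P j)) := by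
    change hgt k ((Projectivization.mk (RatFunc k) _ hne).rep i /
      (Projectivization.mk (RatFunc k) _ hne).rep j) = _
    rw [← ha]
    congr 1
    simp only [Pi.smul_apply, Units.smul_def, smul_eq_mul]
    rw [mul_div_mul_left _ _ a.ne_zero]
  rw [h7] at h6
  omega

theorem exists_minor {u v : Fin (M + 1) → k} (h : LinearIndependent k ![u, v]) :
    ∃ i j, u i * v j ≠ u j * v i := by
  rw [LinearIndependent.pair_iff] at h
  by_contra hcon
  push Not at hcon
  have hu : u = 0 := by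
    funext i
    have h1 := h (v i) (-(u i)) (by
      funext j
      simp only [Pi.add_apply, Pi.smul_apply, smul_eq_mul, Pi.zero_apply]
      linear_combination hcon j i)
    exact neg_eq_zero.1 h1.2
  exact one_ne_zero (h 1 0 (by rw [hu]; simp)).1

/-- The image of a line. -/
theorem not_geom_line {n : ℕ} {A : Type} {F : A → MvPolynomial (Fin (n + 1)) k}
    (hF : ∀ a, IsForm (F a)) (hΦ : ∀ e, IsForm (Φ e))
    {G : Fin (M + 1) → MvPolynomial (Fin (n + 1)) k} (hG : Mor F Φ G)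
    {W : Submodule k (Fin (n + 1) → k)} (hW : Module.finrank k W = 2)
    (h : ∀ a, ∀ v ∈ W, eval v (F a) = 0) : ¬ GeomHyp Φ := by
  classical
  have hinf : Infinite k := IsAlgClosed.instInfinite
  have hfin : Module.Finite k W := Module.finite_of_finrank_pos (by omega)
  obtain ⟨b, hb⟩ : ∃ b : Module.Basis (Fin 2) k W, b = (Module.finBasis k W).reindex (finCongr hW) :=
    ⟨_, rfl⟩
  have hli : LinearIndependent k fun i => (b i : Fin (n + 1) → k) :=
    b.linearIndependent.map' W.subtype (Submodule.ker_subtype W)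
  have hli2 : LinearIndependent k ![(b 0 : Fin (n + 1) → k), (b 1 : Fin (n + 1) → k)] := by
    convert hli using 1
    funext i
    fin_cases i <;> rfl
  rw [LinearIndependent.pair_iff] at hli2
  obtain ⟨P, hP⟩ : ∃ P : Fin (n + 1) → Polynomial k, P = fun i =>
    Polynomial.C ((b 0 : Fin (n + 1) → k) i) +
      Polynomial.C ((b 1 : Fin (n + 1) → k) i) * Polynomial.X := ⟨_, rfl⟩
  have hev : ∀ t : k, (fun i => (P i).eval t) =
      (1 : k) • (b 0 : Fin (n + 1) → k) + t • (b 1 : Fin (n + 1) → k) := by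
    intro t
    funext i
    rw [hP]
    simp only [Polynomial.eval_add, Polynomial.eval_C, Polynomial.eval_mul, Polynomial.eval_X,
      Pi.add_apply, Pi.smul_apply, smul_eq_mul]
    ring
  have hcone : ∀ t : k, (fun i => (P i).eval t) ∈ Pool.Agent.W602.GT.Cone F := by
    intro t
    rw [hev]
    refine ⟨fun h0 => one_ne_zero (hli2 1 t h0).1, fun a => ?_⟩
    exact h a _ (W.add_mem (W.smul_mem _ (b 0).2) (W.smul_mem _ (b 1).2))
  have hgm : GmCurve F P := by
    refine ⟨fun t _ => (hcone t).1, fun t _ => (hcone t).2, 1, 2, one_ne_zero, two_ne_zero, ?_⟩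
    rw [hev, hev, LinearIndependent.pair_iff]
    intro s t hst
    have h1 : (s + t) • (b 0 : Fin (n + 1) → k) + (s + 2 * t) • (b 1 : Fin (n + 1) → k) = 0 := by
      rw [← hst]
      module
    obtain ⟨h2, h3⟩ := hli2 _ _ h1
    have h4 : t = 0 := by linear_combination h3 - h2
    refine ⟨?_, h4⟩
    rw [h4, add_zero] at h2
    exact h2
  have hgm2 := Pool.Agent.Y221.FQ.gm_im hF hG hgm
  have him : ∀ t : k, (fun j => (MvPolynomial.aeval P (G j)).eval t) =
      Pool.Agent.Y221.FQ.im G (fun i => (P i).eval t) := by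
    intro t
    funext j
    have h3 := Pool.Agent.Y221.PB.aeval_poly P t (G j)
    rw [Polynomial.coe_aeval_eq_eval] at h3
    exact h3.symm
  refine not_geom_poly (P := fun j => MvPolynomial.aeval P (G j)) ?_ hΦ (fun e => ?_) ?_
  · rw [him]
    exact (hG.maps _ (hcone 0)).1
  · refine Polynomial.funext fun t => ?_
    have h3 := Pool.Agent.Y221.PB.aeval_poly (fun j => MvPolynomial.aeval P (G j)) t (Φ e)
    rw [Polynomial.coe_aeval_eq_eval] at h3
    rw [← h3, him, Polynomial.eval_zero]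
    exact (hG.maps _ (hcone t)).2 e
  · obtain ⟨s, t, -, -, h3⟩ := hgm2.nonconst
    obtain ⟨i, j, h4⟩ := exists_minor h3
    exact ⟨i, j, s, t, h4⟩

section

variable {k : Type} [Field k] [Algebra k ℂ]
  {n M r : ℕ} {A : Type} [Fintype A] {d : A → ℕ} {F : A → MvPolynomial (Fin (n + 1)) ℂ}
  {μ : Type} {Φ : μ → MvPolynomial (Fin (M + 1)) ℂ}

/-- The equivalences for the images of generic complete intersections. -/
theorem tfae_geo (hn : 1 ≤ n) (hd0 : ∀ a, 0 < d a)
    (hF : ∀ a, (F a).IsHomogeneous (d a))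
    (hgen : AlgebraicIndependent k fun p : Pool.Agent.TH145.GC.Cf n d => (F p.1).coeff p.2.1)
    (hΦ : ∀ e, IsForm (Φ e)) {G : Fin (M + 1) → MvPolynomial (Fin (n + 1)) ℂ}
    (hG : Mor F Φ G) (hon : Onto F Φ G) (hfib : FibresLe F G r)
    (hd : ∑ a, (d a + 1) ≤ 2 * n - 2 ∨ 2 * n + 1 + r ≤ ∑ a, (d a + 1)) :
    [GeomHyp Φ, BoundedOnCurves Φ, ∀ P, ¬ GmCurve Φ P, AllGeneral Φ,
      2 * n - 1 ≤ ∑ a, (d a + 1)].TFAE := by
  classical
  have hF' : ∀ a, IsForm (F a) := fun a => ⟨_, hF a⟩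
  have hX : Mor F (Pool.Agent.Q58.FI.eqs
      (∅ : Set (MvPolynomial (Fin (n + 1)) (algebraicClosure k ℂ))) F)
      fun i => MvPolynomial.X i := by
    refine ⟨⟨1, le_rfl, fun j => MvPolynomial.isHomogeneous_X _ _⟩, fun x hx => ?_⟩
    rw [Pool.Agent.Y221.AH.im_Xk]
    refine ⟨hx.1, ?_⟩
    rintro (f | a)
    · exact absurd f.2 (Set.notMem_empty _)
    · exact hx.2 a
  have hV := Pool.Agent.TH145.GC.dimLE_univ (algebraicClosure k ℂ) n
  tfae_have 5 → 2 := fun h => Pool.Agent.Q58.FI.bounded_im (by simp) hV (by omega) hF hgen hF' hX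
    hG hon hfib
  tfae_have 2 → 1 := fun h => geom_of_bounded hΦ h
  tfae_have 1 → 5 := by
    intro h
    by_contra hcon
    obtain ⟨W, hW1, hW2⟩ := exists_line hn hd0 hF hgen (by omega)
    exact not_geom_line hF' hΦ hG hW1 hW2 h
  tfae_have 3 → 5 := by
    intro h
    by_contra hcon
    obtain ⟨W, hW1, hW2⟩ := exists_line hn hd0 hF hgen (by omega)
    obtain ⟨P, hP⟩ := gm_of_line hW1 hW2
    exact h _ (Pool.Agent.Y221.FQ.gm_im hF' hG hP)
  tfae_have 5 → 4 := fun h => Pool.Agent.Q58.FI.general_im (by simp) hV (by omega) hF hgen hF' hX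
    hG hon hfib
  tfae_have 4 → 3 := fun h P => gm_of_general hΦ h P
  tfae_finish

end

end Pool.Agent.Q58.LG
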