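import Pool.Agent.Q58.FI.Corr
import Pool.Agent.TH466.QG.Lang

/-!
Subvarieties of the varieties which are dominated by covers of subvarieties of generic complete
intersections.
-/

set_option autoImplicit false
set_option linter.overlappingInstances false
set_option linter.unusedSectionVars false

open MvPolynomial FF
open Pool.Agent.W602.GT hiding lin
open Pool.Agent.TH145.MG (DimLE)
open Pool.Agent.TH145.GC (Cf)
open Pool.Agent.Q58.FI (eqs)
open Pool.Agent.TH466.QG (Sp spread adjoin_norm hz_form val_hz alg_spec alg_over trdeg_alg SubOf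
  StronglyGeneral)

namespace Pool.Agent.Q58.LG

variable {k : Type} [Field k] [Algebra k ℂ]
  {n m w : ℕ} {V : Set (MvPolynomial (Fin (n + 1)) (algebraicClosure k ℂ))}
  {A : Type} [Fintype A] {d : A → ℕ} {F : A → MvPolynomial (Fin (n + 1)) ℂ}

/-- **Dominated varieties are strongly of general type.** -/
theorem strong_dom (hVh : ∀ f ∈ V, ∃ e, f.IsHomogeneous e)
    (hV : DimLE (algebraicClosure k ℂ) V m) {r : ℕ}
    (hd : 2 * m + r ≤ ∑ a, (d a + 1)) (hF : ∀ a, (F a).IsHomogeneous (d a))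
    (hgen : AlgebraicIndependent k fun p : Cf n d => (F p.1).coeff p.2.1)
    {K : Type} [Field K] [Algebra ℂ K] {y : Fin (n + 1) → K} (hy : SubVar (eqs V F) K w y)
    {K' L : Type} [Field K'] [Field L] [Algebra ℂ K'] [Algebra ℂ L] [Algebra K K']
    [Algebra L K'] [IsScalarTower ℂ K K'] [IsScalarTower ℂ L K'] [Algebra.IsAlgebraic K K']
    [FiniteDimensional L K'] (hr : Module.finrank L K' ≤ r) {M : ℕ} {x : Fin (M + 1) → L}
    (hx : x ≠ 0) (hxg : coords ℂ x = ⊤) : StronglyGeneral ℂ x := by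
  classical
  obtain ⟨i1, hi1'⟩ := Function.ne_iff.1 hx
  have hi1 : x i1 ≠ 0 := hi1'
  obtain ⟨i0, hi0'⟩ := Function.ne_iff.1 hy.ne
  have hi0 : y i0 ≠ 0 := hi0'
  obtain ⟨Θ2, hΘ2, halgs⟩ := alg_spec (K' := K') hy.gen hi0
    (fun m => algebraMap L K' (x m / x i1))
  obtain ⟨H, hH, hspread⟩ := spread (K' := K') (adjoin_norm hxg hi1)
    (Θ := algebraMap K K' '' ({(y i0)⁻¹} ∪ (Θ2 ∪ Set.range y)))
    (((Set.finite_singleton _).union (hΘ2.union (Set.finite_range y))).image _)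
  refine ⟨MvPolynomial.X i1 * Pool.Agent.TH466.QG.hz i1 H, ?_, ?_, ?_⟩
  · obtain ⟨d, hd⟩ := hz_form i1 H
    exact ⟨1 + d, (MvPolynomial.isHomogeneous_X ℂ i1).mul hd⟩
  · change MvPolynomial.aeval x _ ≠ 0
    rw [map_mul, MvPolynomial.aeval_X]
    refine mul_ne_zero hi1 ?_
    change val x _ ≠ 0
    rw [val_hz H hi1]
    exact mul_ne_zero (pow_ne_zero _ hi1) hH
  intro E _ _ w' z hz hzR hw1 htr
  change MvPolynomial.aeval z _ ≠ 0 at hzR
  rw [map_mul, MvPolynomial.aeval_X] at hzR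
  have hz1 : z i1 ≠ 0 := left_ne_zero_of_mul hzR
  have hzH : MvPolynomial.aeval (fun i => z i / z i1) H ≠ 0 := by
    have h1 : val z (Pool.Agent.TH466.QG.hz i1 H) ≠ 0 := right_ne_zero_of_mul hzR
    rw [val_hz H hz1] at h1
    exact right_ne_zero_of_mul h1
  have hsp : ∀ G : MvPolynomial (Fin (M + 1)) ℂ,
      MvPolynomial.aeval (fun i => x i / x i1) G = 0 →
      MvPolynomial.aeval (fun i => z i / z i1) G = 0 := by
    intro G hG
    have h1 : val x (Pool.Agent.TH466.QG.hz i1 G) = 0 := by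
      rw [val_hz G hi1, hG, mul_zero]
    have h2 := hz.spec _ (hz_form i1 G) h1
    rw [val_hz G hz1] at h2
    exact (mul_eq_zero.1 h2).resolve_left (pow_ne_zero _ hz1)
  obtain ⟨K'', i1', i2', i3', i4', i5', hrk, S, hSx, hSΘ⟩ := hspread E
    (fun i => z i / z i1) hsp hzH
  have hSy : ∀ i, ∃ t, S.T (algebraMap K K' (y i)) t := fun i =>
    hSΘ _ ⟨y i, Or.inr (Or.inr ⟨i, rfl⟩), rfl⟩
  choose y' hy' using hSy
  have halg : Algebra.IsAlgebraic (coords ℂ y') K'' := by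
    refine alg_over (adjoin_norm hz.gen hz1) _ fun m => ?_
    exact halgs K'' S (fun ϑ hϑ => hSΘ _ ⟨ϑ, Or.inr (Or.inl hϑ), rfl⟩) y' hy'
      (fun m => algebraMap E K'' (z m / z i1)) hSx m
  let S0 : Sp ℂ K K'' := S.res
  have hy0 : ∀ i, S0.T (y i) (y' i) := hy'
  have hi0y : y' i0 ≠ 0 := S0.ne_zero (hy0 i0) (hSΘ _ ⟨(y i0)⁻¹, Or.inl rfl, rfl⟩) hi0
  have hyX' : ∀ p, MvPolynomial.aeval y' (eqs V F p) = 0 := fun p =>
    S0.eq_zero (S0.val hy0 _) (hy.mem p)
  have hess : Algebra.EssFiniteType ℂ E := essFinite hz.gen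
  exact (Pool.Agent.Q58.FI.corr (N := r) hVh hV (by omega) hF hgen.algebraicClosure hw1 htr
    (x := y') (fun h0 => hi0y (by rw [h0]; rfl)) hyX' halg).1 (hrk.trans hr)

end Pool.Agent.Q58.LG
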