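import Pool.Agent.Q58.LG.Str
import Pool.Agent.Q58.LG.Gen

/-!
Subvarieties of the quasi-projective varieties which are dominated, properly, by varieties over
generic pairs.
-/

set_option autoImplicit false
set_option linter.overlappingInstances false
set_option linter.unusedSectionVars false

open MvPolynomial FF
open Pool.Agent.W602.GT hiding lin
open Pool.Agent.TH145.MG (DimLE)
open Pool.Agent.TH145.GC (Cf)
open Pool.Agent.W603.PV (pord exists_pord pord_le)
open Pool.Agent.W603.LV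
open Pool.Agent.Q58.FI (eqs)
open Pool.Agent.TH466.QG (Sp spread adjoin_norm hz_form val_hz alg_spec alg_over trdeg_alg SubOf)

namespace Pool.Agent.Q58.LG

theorem ge_aeval {E : Type} [Field E] [Algebra ℂ E] (Q : Place ℂ E) {σ : Type}
    {u : σ → E} (hu : ∀ i, Ge Q 0 (u i)) (P : MvPolynomial σ ℂ) : Ge Q 0 (aeval u P) := by
  induction P using MvPolynomial.induction_on with
  | C c =>
    rw [aeval_C]
    by_cases hc : c = 0
    · left
      rw [hc, map_zero]
    · right
      rw [Q.ord_const hc]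
  | add p q hp hq =>
    rw [map_add]
    exact hp.add hq
  | mul_X p i hp =>
    rw [map_mul, aeval_X]
    have := hp.mul (hu i)
    rwa [zero_add] at this

theorem sp_aeval {K' K'' : Type} [Field K'] [Field K''] [Algebra ℂ K'] [Algebra ℂ K'']
    (S : Sp ℂ K' K'') {σ : Type} {u : σ → K'} {u' : σ → K''} (hu : ∀ i, S.T (u i) (u' i))
    (P : MvPolynomial σ ℂ) : S.T (aeval u P) (aeval u' P) := by
  induction P using MvPolynomial.induction_on with
  | C c =>
    rw [aeval_C, aeval_C]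
    exact S.const c
  | add p q hp hq =>
    rw [map_add, map_add]
    exact S.add hp hq
  | mul_X p i hp =>
    rw [map_mul, aeval_X, map_mul, aeval_X]
    exact S.mul hp (hu i)

/-- The centre of a place in an affine space: a complex point of the closure of the centre which is
not on a hypersurface which does not contain the centre. -/
theorem exists_centre {E : Type} [Field E] [Algebra ℂ E] (Q : Place ℂ E) {σ : Type} [Finite σ]
    {u : σ → E} (hu : ∀ i, Ge Q 0 (u i)) {a : MvPolynomial σ ℂ} (ha : aeval u a ≠ 0)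
    (ha0 : Q.ord (aeval u a) = 0) :
    ∃ c : σ → ℂ, eval c a ≠ 0 ∧ ∀ P : MvPolynomial σ ℂ, Ge Q 1 (aeval u P) → eval c P = 0 := by
  classical
  have hreg : ∀ P : MvPolynomial σ ℂ, Ge Q 0 (aeval u P) := ge_aeval Q hu
  let I : Ideal (MvPolynomial σ ℂ) :=
    { carrier := {P | Ge Q 1 (aeval u P)}
      add_mem' := fun {p q} hp hq => by
        change Ge Q 1 (aeval u (p + q))
        rw [map_add]
        exact Ge.add hp hq
      zero_mem' := Or.inl (map_zero _)
      smul_mem' := fun p q hq => by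
        change Ge Q 1 (aeval u (p * q))
        rw [map_mul]
        have := (hreg p).mul (show Ge Q 1 (aeval u q) from hq)
        rwa [zero_add] at this }
  have hnot : a ∉ I.radical := by
    intro h
    obtain ⟨N, hN⟩ := Ideal.mem_radical_iff.1 h
    have h1 : Ge Q 1 (aeval u (a ^ N)) := hN
    rw [map_pow] at h1
    rcases h1 with h1 | h1
    · exact pow_ne_zero _ ha h1
    · rw [Q.ord_pow, ha0, mul_zero] at h1
      omega
  rw [← vanishingIdeal_zeroLocus_eq_radical (K := ℂ), mem_vanishingIdeal_iff] at hnot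
  push Not at hnot
  obtain ⟨c, hc, hca⟩ := hnot
  refine ⟨c, by simpa [MvPolynomial.coe_aeval_eq_eval] using hca, fun P hP => ?_⟩
  rw [mem_zeroLocus_iff] at hc
  have := hc P hP
  simpa [MvPolynomial.coe_aeval_eq_eval] using this

/-- `P` is a form in the first variables, and a form in the second variables. -/
def BiForm {M n : ℕ} (P : MvPolynomial (Fin (M + 1) ⊕ Fin (n + 1)) ℂ) : Prop :=
  ∃ e e' : ℕ, ∀ α ∈ P.support, ∑ i, α (Sum.inl i) = e ∧ ∑ j, α (Sum.inr j) = e'

theorem biForm_scale {M n : ℕ} {P : MvPolynomial (Fin (M + 1) ⊕ Fin (n + 1)) ℂ} (hP : BiForm P)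
    {E : Type} [Field E] [Algebra ℂ E] {s t : E} (hs : s ≠ 0) (ht : t ≠ 0)
    (z : Fin (M + 1) → E) (y : Fin (n + 1) → E) :
    aeval (Sum.elim (fun i => s * z i) (fun j => t * y j)) P = 0 ↔
      aeval (Sum.elim z y) P = 0 := by
  classical
  obtain ⟨e, e', h⟩ := hP
  have h1 : aeval (Sum.elim (fun i => s * z i) (fun j => t * y j)) P =
      s ^ e * t ^ e' * aeval (Sum.elim z y) P := by
    rw [aeval_def, aeval_def, eval₂_eq', eval₂_eq', Finset.mul_sum]
    refine Finset.sum_congr rfl fun α hα => ?_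
    obtain ⟨h2, h3⟩ := h α hα
    rw [Fintype.prod_sum_type, Fintype.prod_sum_type]
    simp only [Sum.elim_inl, Sum.elim_inr, mul_pow, Finset.prod_mul_distrib, Finset.prod_pow_eq_pow_sum]
    rw [h2, h3]
    ring
  rw [h1]
  constructor
  · intro h2
    exact (mul_eq_zero.1 h2).resolve_left (mul_ne_zero (pow_ne_zero _ hs) (pow_ne_zero _ ht))
  · intro h2
    rw [h2, mul_zero]


section

variable {k : Type} [Field k] [Algebra k ℂ] {n m : ℕ}
  {V : Set (MvPolynomial (Fin (n + 1)) (algebraicClosure k ℂ))}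
  {A : Type} [Fintype A] {d : A → ℕ} {F : A → MvPolynomial (Fin (n + 1)) ℂ}

/-- **Open varieties dominated by varieties over generic pairs are strongly of log general type.** -/
theorem strong_open (C : Finset A) (hVh : ∀ f ∈ V, ∃ e, f.IsHomogeneous e)
    (hV : DimLE (algebraicClosure k ℂ) V m) {r w0 : ℕ} (hw0 : 1 ≤ w0)
    (hd : 2 * m + 2 * r ≤ ∑ a, d a + C.card + w0) (hF : ∀ a, (F a).IsHomogeneous (d a))
    (hgen : AlgebraicIndependent k fun p : Cf n d => (F p.1).coeff p.2.1)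
    {L K' : Type} [Field L] [Field K'] [Algebra ℂ L] [Algebra ℂ K'] [Algebra L K']
    [IsScalarTower ℂ L K'] [FiniteDimensional L K'] (hr : Module.finrank L K' ≤ r) {M : ℕ}
    {x : Fin (M + 1) → L} (hx : x ≠ 0) (hxg : coords ℂ x = ⊤) {y : Fin (n + 1) → K'} (hy : y ≠ 0)
    (hyX : ∀ p, val y (eqs V (fun c : {a // a ∈ C} => F c.1) p) = 0)
    (halg : Algebra.IsAlgebraic (coords ℂ y) K') {h : ℕ} {H : MvPolynomial (Fin (M + 1)) ℂ}
    (hH : H.IsHomogeneous h)
    (hbd : ∀ (q : Fin (M + 1) → ℂ) (p : Fin (n + 1) → ℂ), q ≠ 0 → p ≠ 0 →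
      (∀ P : MvPolynomial (Fin (M + 1) ⊕ Fin (n + 1)) ℂ, BiForm P →
        aeval (Sum.elim (fun i => algebraMap L K' (x i)) y) P = 0 →
          eval (Sum.elim q p) P = 0) →
      eval q H ≠ 0 → ∀ b, b ∉ C → eval p (F b) ≠ 0) :
    ∃ R : MvPolynomial (Fin (M + 1)) ℂ, IsForm R ∧ val x R ≠ 0 ∧
      ∀ (E : Type) [Field E] [Algebra ℂ E] (w : ℕ) (z : Fin (M + 1) → E), SubOf ℂ x z →
        val z R ≠ 0 → val z H ≠ 0 → w0 ≤ w → Algebra.trdeg ℂ E = w →
        LogGeneralType ℂ E w fun P : Place ℂ E => h * pord P z < P.ord (val z H) := by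
  classical
  obtain ⟨i1, hi1'⟩ := Function.ne_iff.1 hx
  have hi1 : x i1 ≠ 0 := hi1'
  obtain ⟨j0, hj0⟩ := Function.ne_iff.1 hy
  have hj0' : y j0 ≠ 0 := hj0
  -- the normalized point
  obtain ⟨u, hu⟩ : ∃ u : Fin (n + 1) → K', u = fun j => (y j0)⁻¹ * y j := ⟨_, rfl⟩
  have hu1 : u j0 = 1 := by
    rw [hu]
    exact inv_mul_cancel₀ hj0'
  obtain ⟨M0, hM0⟩ : ∃ M0 : IntermediateField ℂ K',
    M0 = IntermediateField.adjoin ℂ (Set.range u) := ⟨_, rfl⟩
  have huM : ∀ j, u j ∈ M0 := fun j => by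
    rw [hM0]
    exact IntermediateField.subset_adjoin ℂ _ ⟨j, rfl⟩
  have hco : coords ℂ y ≤ M0 := by
    unfold coords
    rw [IntermediateField.adjoin_le_iff]
    rintro _ ⟨i, j, hj, rfl⟩
    have h2 : y i / y j = u i / u j := by
      rw [hu]
      simp only
      rw [mul_div_mul_left _ _ (inv_ne_zero hj0')]
    rw [h2]
    exact div_mem (huM i) (huM j)
  have halgM : Algebra.IsAlgebraic M0 K' := by
    refine ⟨fun t => ?_⟩
    exact Pool.Agent.TH145.MF.alg_mono (F1 := (coords ℂ y).toSubfield)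
      (F2 := M0.toSubfield) (fun z hz => hco hz) (halg.isAlgebraic t)
  obtain ⟨u0, hu0⟩ : ∃ u0 : Fin (n + 1) → M0, ∀ j, (u0 j : K') = u j :=
    ⟨fun j => ⟨u j, huM j⟩, fun _ => rfl⟩
  have hu01 : u0 j0 = 1 := Subtype.ext (by rw [hu0, hu1]; rfl)
  have hcoM : coords ℂ u0 = ⊤ := by
    have h1 : IntermediateField.adjoin ℂ (Set.range u0) = ⊤ := by
      subst hM0
      apply IntermediateField.lift_injective
      rw [IntermediateField.lift_adjoin, IntermediateField.lift_top]
      congr 1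
      ext t
      constructor
      · rintro ⟨_, ⟨j, rfl⟩, rfl⟩
        exact ⟨j, (hu0 j).symm⟩
      · rintro ⟨j, rfl⟩
        exact ⟨u0 j, ⟨j, rfl⟩, hu0 j⟩
    rw [_root_.eq_top_iff, ← h1, IntermediateField.adjoin_le_iff]
    rintro _ ⟨j, rfl⟩
    refine IntermediateField.subset_adjoin ℂ _ ⟨j, j0, ?_, ?_⟩
    · rw [hu01]
      exact one_ne_zero
    · rw [hu01, div_one]
  obtain ⟨Θ2, hΘ2, halgs⟩ := alg_spec (K' := K') hcoM (i0 := j0) (by rw [hu01]; exact one_ne_zero)
    (fun m => algebraMap L K' (x m / x i1))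
  obtain ⟨G, hG, hspread⟩ := spread (K' := K') (adjoin_norm hxg hi1)
    (Θ := algebraMap M0 K' '' (Θ2 ∪ Set.range u0)) ((hΘ2.union (Set.finite_range u0)).image _)
  refine ⟨MvPolynomial.X i1 * Pool.Agent.TH466.QG.hz i1 G, ?_, ?_, ?_⟩
  · obtain ⟨d, hd⟩ := hz_form i1 G
    exact ⟨1 + d, (MvPolynomial.isHomogeneous_X ℂ i1).mul hd⟩
  · change MvPolynomial.aeval x _ ≠ 0
    rw [map_mul, MvPolynomial.aeval_X]
    refine mul_ne_zero hi1 ?_
    change val x _ ≠ 0
    rw [val_hz G hi1]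
    exact mul_ne_zero (pow_ne_zero _ hi1) hG
  intro E _ _ w z hz hzR hzH hw htr
  change MvPolynomial.aeval z _ ≠ 0 at hzR
  rw [map_mul, MvPolynomial.aeval_X] at hzR
  have hz1 : z i1 ≠ 0 := left_ne_zero_of_mul hzR
  have hzG : MvPolynomial.aeval (fun i => z i / z i1) G ≠ 0 := by
    have h1 : val z (Pool.Agent.TH466.QG.hz i1 G) ≠ 0 := right_ne_zero_of_mul hzR
    rw [val_hz G hz1] at h1
    exact right_ne_zero_of_mul h1
  have hsp : ∀ G : MvPolynomial (Fin (M + 1)) ℂ,
      MvPolynomial.aeval (fun i => x i / x i1) G = 0 →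
      MvPolynomial.aeval (fun i => z i / z i1) G = 0 := by
    intro G hG
    have h1 : val x (Pool.Agent.TH466.QG.hz i1 G) = 0 := by
      rw [val_hz G hi1, hG, mul_zero]
    have h2 := hz.spec _ (hz_form i1 G) h1
    rw [val_hz G hz1] at h2
    exact (mul_eq_zero.1 h2).resolve_left (pow_ne_zero _ hz1)
  obtain ⟨K'', i1', i2', i3', i4', i5', hrk, S, hSx, hSΘ⟩ := hspread E
    (fun i => z i / z i1) hsp hzG
  have hSy : ∀ i, ∃ t, S.T (algebraMap M0 K' (u0 i)) t := fun i =>
    hSΘ _ ⟨u0 i, Or.inr ⟨i, rfl⟩, rfl⟩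
  choose y' hy' using hSy
  have halg' : Algebra.IsAlgebraic (coords ℂ y') K'' := by
    refine alg_over (adjoin_norm hz.gen hz1) _ fun m => ?_
    exact halgs K'' S (fun ϑ hϑ => hSΘ _ ⟨ϑ, Or.inl hϑ, rfl⟩) y' hy'
      (fun m => algebraMap E K'' (z m / z i1)) hSx m
  have hyu : ∀ j, S.T (u j) (y' j) := fun j => by
    rw [← hu0]
    exact hy' j
  have hy1 : y' j0 = 1 := by
    refine S.ext (hyu j0) ?_
    rw [hu1]
    exact S.one
  -- the equations at the specialization
  have hsc : ∀ (p : MvPolynomial (Fin (n + 1)) ℂ) (e : ℕ), p.IsHomogeneous e →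
      val y p = 0 → val y' p = 0 := by
    intro p e he h0
    refine S.eq_zero (S.val hyu p) ?_
    have h2 := val_smul he (y j0)⁻¹ y
    rw [h0, mul_zero] at h2
    rw [hu]
    exact h2
  have hess : Algebra.EssFiniteType ℂ E := essFinite hz.gen
  obtain ⟨M1, hM1⟩ : ∃ M1 : IntermediateField ℂ K'',
    M1 = IntermediateField.adjoin ℂ (Set.range y') := ⟨_, rfl⟩
  have hyM : ∀ j, y' j ∈ M1 := fun j => by
    rw [hM1]
    exact IntermediateField.subset_adjoin ℂ _ ⟨j, rfl⟩
  have hco' : coords ℂ y' ≤ M1 := by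
    unfold coords
    rw [IntermediateField.adjoin_le_iff]
    rintro _ ⟨i, j, hj, rfl⟩
    exact div_mem (hyM i) (hyM j)
  have halgM' : Algebra.IsAlgebraic M1 K'' := by
    refine ⟨fun t => ?_⟩
    exact Pool.Agent.TH145.MF.alg_mono (F1 := (coords ℂ y').toSubfield)
      (F2 := M1.toSubfield) (fun z hz => hco' hz) (halg'.isAlgebraic t)
  obtain ⟨v, hv⟩ : ∃ v : Fin (n + 1) → M1, ∀ j, (v j : K'') = y' j :=
    ⟨fun j => ⟨y' j, hyM j⟩, fun _ => rfl⟩
  have htrE : Algebra.trdeg ℂ K'' = w := by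
    rw [trdeg_alg (k := ℂ) (E := E) (K := K''), htr]
  have htrM : Algebra.trdeg ℂ M1 = w := by
    rw [← trdeg_alg (k := ℂ) (E := M1) (K := K''), htrE]
  have hv1 : v j0 = 1 := Subtype.ext (by rw [hv, hy1]; rfl)
  have hcov : coords ℂ v = ⊤ := by
    have h1 : IntermediateField.adjoin ℂ (Set.range v) = ⊤ := by
      subst hM1
      apply IntermediateField.lift_injective
      rw [IntermediateField.lift_adjoin, IntermediateField.lift_top]
      congr 1
      ext t
      constructor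
      · rintro ⟨_, ⟨j, rfl⟩, rfl⟩
        exact ⟨j, (hv j).symm⟩
      · rintro ⟨j, rfl⟩
        exact ⟨v j, ⟨j, rfl⟩, hv j⟩
    rw [_root_.eq_top_iff, ← h1, IntermediateField.adjoin_le_iff]
    rintro _ ⟨j, rfl⟩
    refine IntermediateField.subset_adjoin ℂ _ ⟨j, j0, ?_, ?_⟩
    · rw [hv1]
      exact one_ne_zero
    · rw [hv1, div_one]
  have hcoA : Algebra.IsAlgebraic (coords ℂ v) M1 := by
    rw [hcov]
    infer_instance
  have haev : ∀ p : MvPolynomial (Fin (n + 1)) ℂ, algebraMap M1 K'' (aeval v p) = aeval y' p := by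
    intro p
    have h2 : ((aeval v p : M1) : K'') = aeval (fun j => (v j : K'')) p :=
      comp_aeval_apply (φ := M1.val) v p
    rw [funext hv] at h2
    exact h2
  have hval : ∀ p : MvPolynomial (Fin (n + 1)) ℂ, IsForm p → val y p = 0 → aeval v p = 0 := by
    rintro p ⟨e, he⟩ h0
    have h1 := haev p
    rw [show aeval y' p = 0 from hsc p e he h0] at h1
    exact (map_eq_zero _).1 h1
  obtain ⟨Cs, hCs⟩ : ∃ Cs : Finset A, ∀ a, a ∈ Cs ↔ aeval v (F a) = 0 :=
    ⟨Finset.univ.filter fun a => aeval v (F a) = 0, fun a => by simp⟩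
  have hCC : C ⊆ Cs := by
    intro a ha
    rw [hCs]
    exact hval _ ⟨d a, hF a⟩ (hyX (Sum.inr ⟨a, ha⟩))
  have hcard := Finset.card_le_card hCC
  have hrr : 0 < r := lt_of_lt_of_le Module.finrank_pos hr
  obtain ⟨ω, hω, hω0, hreg⟩ := lform_gen (k' := algebraicClosure k ℂ) (N := 2 * r - 1) (w := w)
    hVh hV hF hgen.algebraicClosure (by omega) Cs (by omega) htrM v hv1 hcoA (fun f hf => by
      obtain ⟨e, he⟩ := hVh f hf
      exact hval _ ⟨e, he.map _⟩ (hyX (Sum.inl ⟨f, hf⟩))) (fun a ha => (hCs a).1 ha)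
      (fun a ha h => ha ((hCs a).2 h))
  refine lgt_of_point (by omega) htr hy1 hM1 halgM' hv hω hω0
    (BM := fun Q => ∃ a, a ∉ Cs ∧ d a * pord Q v < Q.ord (aeval v (F a)))
    (fun f P hP => (hreg f P hP).1) (fun f P hP h => (hreg f P hP).2 h)
    (fun P Q P' e e' hP hP' hBL => ?_) (by omega)
  rintro ⟨b, hb, hlt⟩
  have hbC : b ∉ C := fun h => hb (hCC h)
  apply hBL
  by_contra hcon
  rw [not_lt] at hcon
  -- the orders at `Q`
  obtain ⟨zQ, hzQ⟩ : ∃ zQ : Fin (M + 1) → K'', zQ = fun i => algebraMap E K'' (z i) := ⟨_, rfl⟩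
  have hzQ1 : zQ i1 ≠ 0 := by
    rw [hzQ]
    exact (map_ne_zero _).2 hz1
  have hpz : pord Q zQ = e * pord P z := by
    rw [hzQ]
    exact pord_over hP ⟨i1, hz1⟩
  have hHz : val zQ H = algebraMap E K'' (val z H) := by
    rw [hzQ]
    exact (val_map (IsScalarTower.toAlgHom ℂ E K'') H z).symm
  have hHz0 : val zQ H ≠ 0 := by
    rw [hHz]
    exact (map_ne_zero _).2 hzH
  have hordH : Q.ord (val zQ H) ≤ h * pord Q zQ := by
    rw [hHz, hP.2, hpz]
    have h7 : (e : ℤ) * P.ord (val z H) ≤ e * (h * pord P z) :=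
      mul_le_mul_of_nonneg_left hcon (Int.natCast_nonneg _)
    linarith [show (e : ℤ) * (h * pord P z) = h * (e * pord P z) by ring]
  have hpy : pord Q y' = e' * pord P' v := by
    have h0 := pord_over hP' (f := v) ⟨j0, by rw [hv1]; exact one_ne_zero⟩
    rw [← h0]
    congr 1
    funext j
    exact (hv j).symm
  have hFb : Q.ord (aeval y' (F b)) = e' * P'.ord (aeval v (F b)) := by
    rw [← haev, hP'.2]
  have hFb0 : aeval y' (F b) ≠ 0 := by
    rw [← haev]
    exact (map_ne_zero _).2 fun h0 => hb ((hCs b).2 h0)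
  have hlt2 : d b * pord Q y' < Q.ord (aeval y' (F b)) := by
    rw [hpy, hFb]
    have h9 : (e' : ℤ) * (d b * pord P' v) < e' * P'.ord (aeval v (F b)) :=
      mul_lt_mul_of_pos_left hlt (by exact_mod_cast hP'.1)
    linarith [show (e' : ℤ) * (d b * pord P' v) = d b * (e' * pord P' v) by ring]
  -- scaled coordinates
  obtain ⟨i2, hi2, hi2'⟩ := exists_pord Q (f := zQ) ⟨i1, hzQ1⟩
  obtain ⟨j2, hj2, hj2'⟩ := exists_pord Q (f := y') ⟨j0, by rw [hy1]; exact one_ne_zero⟩
  have hgz : ∀ i, Ge Q 0 ((zQ i2)⁻¹ * zQ i) := by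
    intro i
    by_cases h0 : zQ i = 0
    · left
      rw [h0, mul_zero]
    · right
      have h1 := pord_le Q (f := zQ) h0
      rw [Q.ord_mul (inv_ne_zero hi2) h0, Q.ord_inv]
      omega
  have hgy : ∀ j, Ge Q 0 ((y' j2)⁻¹ * y' j) := by
    intro j
    by_cases h0 : y' j = 0
    · left
      rw [h0, mul_zero]
    · right
      have h1 := pord_le Q (f := y') h0
      rw [Q.ord_mul (inv_ne_zero hj2) h0, Q.ord_inv]
      omega
  obtain ⟨U, hU⟩ : ∃ U : Fin (M + 1) ⊕ Fin (n + 1) → K'',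
    U = Sum.elim (fun i => (zQ i2)⁻¹ * zQ i) (fun j => (y' j2)⁻¹ * y' j) := ⟨_, rfl⟩
  have hUg : ∀ i, Ge Q 0 (U i) := by
    rw [hU]
    rintro (i | j)
    · exact hgz i
    · exact hgy j
  have hUH : aeval U (rename Sum.inl H) = (zQ i2)⁻¹ ^ h * val zQ H := by
    rw [aeval_rename, hU]
    exact val_smul hH (zQ i2)⁻¹ zQ
  have hUF : aeval U (rename Sum.inr (F b)) = (y' j2)⁻¹ ^ d b * val y' (F b) := by
    rw [aeval_rename, hU]
    exact val_smul (hF b) (y' j2)⁻¹ y'
  have hUH0 : aeval U (rename Sum.inl H) ≠ 0 := by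
    rw [hUH]
    exact mul_ne_zero (pow_ne_zero _ (inv_ne_zero hi2)) hHz0
  have hUHo : Q.ord (aeval U (rename Sum.inl H)) = 0 := by
    apply le_antisymm
    · rw [hUH, Q.ord_mul (pow_ne_zero _ (inv_ne_zero hi2)) hHz0, Q.ord_pow, Q.ord_inv, hi2']
      linarith
    · exact (ge_aeval Q hUg _).resolve_left hUH0
  obtain ⟨c, hcH, hc⟩ := exists_centre Q hUg hUH0 hUHo
  have hc2 : c = Sum.elim (fun i => c (Sum.inl i)) (fun j => c (Sum.inr j)) := by
    funext i
    rcases i with i | j <;> rfl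
  refine hbd (fun i => c (Sum.inl i)) (fun j => c (Sum.inr j)) ?_ ?_ ?_ ?_ b hbC ?_
  · intro h0
    have h1 := hc (X (Sum.inl i2) - 1) (Or.inl (by
      rw [map_sub, aeval_X, map_one, hU]
      change (zQ i2)⁻¹ * zQ i2 - 1 = 0
      rw [inv_mul_cancel₀ hi2, sub_self]))
    rw [map_sub, eval_X, map_one, show c (Sum.inl i2) = 0 from congrFun h0 i2] at h1
    norm_num at h1
  · intro h0
    have h1 := hc (X (Sum.inr j2) - 1) (Or.inl (by
      rw [map_sub, aeval_X, map_one, hU]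
      change (y' j2)⁻¹ * y' j2 - 1 = 0
      rw [inv_mul_cancel₀ hj2, sub_self]))
    rw [map_sub, eval_X, map_one, show c (Sum.inr j2) = 0 from congrFun h0 j2] at h1
    norm_num at h1
  · intro B hB hB0
    rw [← hc2]
    refine hc B (Or.inl ?_)
    have hxK : algebraMap L K' (x i1) ≠ 0 := (map_ne_zero _).2 hi1
    have h1 := (biForm_scale hB (inv_ne_zero hxK) (inv_ne_zero hj0')
      (fun i => algebraMap L K' (x i)) y).2 hB0
    have h2 := S.eq_zero (sp_aeval S (u' := Sum.elim (fun i => algebraMap E K'' (z i / z i1)) y')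
      (by
        rintro (i | j)
        · change S.T ((algebraMap L K' (x i1))⁻¹ * algebraMap L K' (x i)) _
          have h3 := hSx i
          rwa [map_div₀ (algebraMap L K'), div_eq_inv_mul] at h3
        · change S.T ((y j0)⁻¹ * y j) (y' j)
          have h3 := hyu j
          rwa [hu] at h3) B) h1
    have h3 : aeval (Sum.elim zQ y') B = 0 := by
      refine (biForm_scale hB (inv_ne_zero hzQ1) (one_ne_zero (α := K'')) zQ y').1 ?_
      rw [← h2]
      congr 2
      funext i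
      rcases i with i | j
      · change (zQ i1)⁻¹ * zQ i = algebraMap E K'' (z i / z i1)
        rw [hzQ, map_div₀, div_eq_inv_mul]
      · change 1 * y' j = y' j
        rw [one_mul]
    rw [hU]
    exact (biForm_scale hB (inv_ne_zero hi2) (inv_ne_zero hj2) zQ y').2 h3
  · rw [eval_rename] at hcH
    exact hcH
  · have h1 := hc (rename Sum.inr (F b)) (Or.inr (by
      have h4 : val y' (F b) ≠ 0 := hFb0
      have h5 : Q.ord (val y' (F b)) = Q.ord (aeval y' (F b)) := rfl
      rw [hUF, Q.ord_mul (pow_ne_zero _ (inv_ne_zero hj2)) h4, Q.ord_pow, Q.ord_inv, hj2', h5]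
      linarith))
    rw [eval_rename] at h1
    exact h1

end

end Pool.Agent.Q58.LG
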