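import Pool.Agent.Q58.FI.Dom2
import Pool.Agent.TH466.QT.Tens

/-!
Traces of tensor differentials.
-/

set_option autoImplicit false
set_option linter.overlappingInstances false
set_option linter.unusedSectionVars false

open FF Pool.Agent.W602.GT Pool.Agent.W603.LV Pool.Agent.Y172
open Pool.Agent.W619.TW (TensorVanish)
open Pool.Agent.W619.PQ (IsDivisorial)

namespace Pool.Agent.Q58.LG

theorem det_exp {R : Type} [CommRing R] {b n : ℕ} (A : Matrix (Fin b) (Fin n) R)
    (B : Matrix (Fin n) (Fin b) R) :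
    (A * B).det = ∑ r : Fin b → Fin n, (∏ i, A i (r i)) *
      (Matrix.of fun i j => B (r i) j : Matrix (Fin b) (Fin b) R).det := by
  classical
  have h1 : (A * B).det = (Matrix.detRowAlternating (n := Fin b) (R := R)).toMultilinearMap
      fun i => ∑ c, A i c • B c := by
    change _ = Matrix.det _
    congr 1
    ext i j
    rw [Matrix.mul_apply, Finset.sum_apply]
    rfl
  rw [h1, MultilinearMap.map_sum]
  refine Finset.sum_congr rfl fun r _ => ?_
  rw [MultilinearMap.map_smul_univ]
  rfl

theorem ge_sumF {k L : Type} [Field k] [Field L] [Algebra k L] {P : Place k L} {N : ℤ}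
    {ι : Type} (s : Finset ι) {f : ι → L} (h : ∀ i ∈ s, Ge P N (f i)) :
    Ge P N (∑ i ∈ s, f i) := by
  classical
  induction s using Finset.induction_on with
  | empty => exact Or.inl (by simp)
  | insert a s ha ih =>
    rw [Finset.sum_insert ha]
    exact (h a (Finset.mem_insert_self _ _)).add
      (ih fun i hi => h i (Finset.mem_insert_of_mem hi))

section loc

variable {k L : Type} [Field k] [Field L] [Algebra k L] {n b : ℕ}

/-- the form `h dz_1 ∧ … ∧ dz_b ∧ ⋯` on a frame -/
theorem block {X : Fin n → Derivation k L L} {y : Fin n → L}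
    (hX : ∀ i j, X i (y j) = if i = j then 1 else 0) {r : Fin b → Fin n}
    (hr : Function.Injective r) {z : Fin b → L} {g : Fin n → L} (hg1 : ∀ j, g (r j) = z j)
    (hg2 : ∀ c, c ∉ Set.range r → g c = y c) :
    (Matrix.of fun i j => X i (g j) : Matrix (Fin n) (Fin n) L).det =
      (Matrix.of fun i j => X (r i) (z j) : Matrix (Fin b) (Fin b) L).det := by
  classical
  have key : ∀ (i1 : Fintype {c // c ∈ Set.range r}) (i2 : DecidableEq {c // c ∈ Set.range r})
      (M : Matrix {c // c ∈ Set.range r} {c // c ∈ Set.range r} L),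
      @Matrix.det _ i2 i1 _ _ M = (Matrix.of fun i j => M ⟨r i, ⟨i, rfl⟩⟩ ⟨r j, ⟨j, rfl⟩⟩ :
        Matrix (Fin b) (Fin b) L).det := by
    intro i1 i2 M
    let e : Fin b ≃ {c // c ∈ Set.range r} := Equiv.ofInjective r hr
    exact (Matrix.det_submatrix_equiv_self e M).symm
  rw [Matrix.twoBlockTriangular_det' _ (fun c => c ∈ Set.range r)]
  · have h1 : (Matrix.toSquareBlockProp (Matrix.of fun i j => X i (g j) :
        Matrix (Fin n) (Fin n) L) fun c => ¬ c ∈ Set.range r) = 1 := by
      ext i j
      rw [Matrix.toSquareBlockProp_def, Matrix.of_apply, Matrix.of_apply, hg2 _ j.2, hX,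
        Matrix.one_apply]
      simp only [Subtype.ext_iff]
    rw [h1, Matrix.det_one, mul_one, key]
    congr 1
    ext i j
    rw [Matrix.of_apply, Matrix.toSquareBlockProp_def, Matrix.of_apply, Matrix.of_apply,
      Matrix.of_apply]
    change X (r i) (g (r j)) = _
    rw [hg1]
  · rintro i ⟨a, rfl⟩ j hj
    rw [Matrix.of_apply, hg2 _ hj, hX, if_neg]
    rintro rfl
    exact hj ⟨a, rfl⟩

end loc

section

variable {K L : Type} [Field K] [Field L] [Algebra ℂ K] [Algebra ℂ L] [Algebra K L]
  [IsScalarTower ℂ K L] [FiniteDimensional K L] [Algebra.EssFiniteType ℂ K]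
  [Algebra.EssFiniteType ℂ L] {n b : ℕ}

/-- A regular `b`-form on vector fields which are lifted from the base. -/
theorem local_ge (hnL : Algebra.trdeg ℂ L = n) {Q : Place ℂ L} {P : Place ℂ K} {e : ℕ}
    (hQ : Over Q P e) (hQd : Divisorial n Q) {yP : Fin n → K} {EP : Fin n → Derivation ℂ K K}
    {i0 : Fin n} (hl : Loc P yP EP i0) {EP' : Fin n → Derivation ℂ L L}
    (hEP' : ∀ i f, EP' i (algebraMap K L f) = algebraMap K L (EP i f)) {h : L} (hh : Q.Reg h)
    {z : Fin b → L} (hz : ∀ c, Q.Reg (z c)) (r : Fin b → Fin n) :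
    Ge Q (1 - e) (h * (Matrix.of fun i j => EP' (r i) (z j) : Matrix (Fin b) (Fin b) L).det) := by
  classical
  by_cases hr : Function.Injective r
  swap
  · left
    unfold Function.Injective at hr
    push Not at hr
    obtain ⟨a, c, hac, hne⟩ := hr
    rw [Matrix.det_zero_of_row_eq hne (by
      funext j
      rw [Matrix.of_apply, Matrix.of_apply, hac]), mul_zero]
  obtain ⟨g, hg⟩ : ∃ g : Fin n → L, ∀ c, g c =
      if hc : ∃ j, r j = c then z hc.choose else algebraMap K L (yP c) := ⟨_, fun _ => rfl⟩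
  have hg1 : ∀ j, g (r j) = z j := by
    intro j
    have hc : ∃ i, r i = r j := ⟨j, rfl⟩
    rw [hg, dif_pos hc, hr hc.choose_spec]
  have hg2 : ∀ c, c ∉ Set.range r → g c = algebraMap K L (yP c) := by
    intro c hc
    rw [hg, dif_neg]
    rintro ⟨j, hj⟩
    exact hc ⟨j, hj⟩
  have hgr : ∀ c, Q.Reg (g c) := by
    intro c
    by_cases hc : c ∈ Set.range r
    · obtain ⟨j, rfl⟩ := hc
      rw [hg1]
      exact hz j
    · rw [hg2 c hc]
      have h1 := (over_ge hQ (c := 0) (f := yP c)).2 (by
        rcases hl.reg c with h0 | h0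
        · exact Or.inl h0
        · exact Or.inr (by exact_mod_cast h0))
      rcases h1 with h1 | h1
      · exact Or.inl h1
      · right
        rw [mul_zero] at h1
        exact_mod_cast h1
  obtain ⟨W, hW⟩ : ∃ W : (Fin n → Derivation ℂ L L) → L, W = fun D =>
    (Matrix.of fun i j => D i (g j) : Matrix (Fin n) (Fin n) L).det * h := ⟨_, rfl⟩
  have hWp : IsPluri 1 W := by
    intro A D
    have e1 : (Matrix.of fun a b => (∑ j, A a j • D j) (g b)) =
        A * Matrix.of fun a b => D a (g b) := by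
      ext a b
      rw [Matrix.of_apply, Matrix.mul_apply, Pool.Agent.Y172.sum_smul_apply]
      rfl
    rw [hW]
    change (Matrix.of fun a b => (∑ j, A a j • D j) (g b)).det * _ = _
    rw [e1, Matrix.det_mul, pow_one, mul_assoc]
  have h1 := down_ge hnL hQ hQd hl hEP' hWp (c := 0) (fun G hG => by
    have h2 : Ge Q 0 (W G) := by
      rw [hW]
      change Ge Q 0 ((Matrix.of fun i j => G i (g j) : Matrix (Fin n) (Fin n) L).det * h)
      have h3 : Ge Q 0 (Matrix.of fun i j => G i (g j) : Matrix (Fin n) (Fin n) L).det :=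
        Pool.Agent.W619.PQ.ge_det Q _ fun i j => hG i _ (hgr j)
      have h4 := h3.mul (show Ge Q 0 h from hh)
      rwa [add_zero] at h4
    rcases h2 with h2 | h2
    · exact Or.inl h2
    · exact Or.inr (by exact_mod_cast h2))
  have h5 : W EP' = h * (Matrix.of fun i j => EP' (r i) (z j) :
      Matrix (Fin b) (Fin b) L).det := by
    rw [hW]
    change (Matrix.of fun i j => EP' i (g j) : Matrix (Fin n) (Fin n) L).det * h = _
    rw [block (lift_dual hl.dual hEP') hr hg1 hg2, mul_comm]
  rw [h5] at h1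
  rcases h1 with h1 | h1
  · exact Or.inl h1
  · right
    have h2 : ((1 - e : ℤ) : ℝ) ≤ (Q.ord (h * (Matrix.of fun i j => EP' (r i) (z j) :
        Matrix (Fin b) (Fin b) L).det) : ℝ) := by
      push_cast
      push_cast at h1
      linarith
    exact_mod_cast h2

/-- evaluation of vector fields at a function -/
def evD (y : K) : Derivation ℂ K K →ₗ[K] K where
  toFun D := D y
  map_add' _ _ := rfl
  map_smul' _ _ := rfl

/-- a tensor differential in coordinates -/
noncomputable def ten (Y : Fin n → K) (T : (Fin b → Fin n) → K) :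
    MultilinearMap K (fun _ : Fin b => Derivation ℂ K K) K :=
  ∑ r, T r • (MultilinearMap.mkPiAlgebra K (Fin b) K).compLinearMap fun i => evD (Y (r i))

theorem ten_apply (Y : Fin n → K) (T : (Fin b → Fin n) → K) (D : Fin b → Derivation ℂ K K) :
    ten Y T D = ∑ r, T r * ∏ i, D i (Y (r i)) := by
  unfold ten
  rw [_root_.sum_apply]
  refine Finset.sum_congr rfl fun r _ => ?_
  rfl

/-- the trace of the `b`-form `a dy_1 ∧ … ∧ dy_b` on vector fields of the base -/
theorem tr_exp {Y : Fin n → K} {E : Fin n → Derivation ℂ K K}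
    (hY : IsTranscendenceBasis ℂ Y)
    (hE : ∀ i j, E i (Y j) = if i = j then 1 else 0) {E' : Fin n → Derivation ℂ L L}
    (hE' : ∀ i f, E' i (algebraMap K L f) = algebraMap K L (E i f)) (a : L) (y : Fin b → L)
    {D : Fin b → Derivation ℂ K K} {D' : Fin b → Derivation ℂ L L}
    (hD : ∀ i f, D' i (algebraMap K L f) = algebraMap K L (D i f)) :
    Algebra.trace K L (a * (Matrix.of fun i j => D' i (y j) : Matrix (Fin b) (Fin b) L).det) =
      ∑ r : Fin b → Fin n, Algebra.trace K L (a * (Matrix.of fun i j => E' (r i) (y j) :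
        Matrix (Fin b) (Fin b) L).det) * ∏ i, D i (Y (r i)) := by
  classical
  have h1 : (Matrix.of fun i j => D' i (y j) : Matrix (Fin b) (Fin b) L) =
      (Matrix.of fun i c => algebraMap K L (D i (Y c)) : Matrix (Fin b) (Fin n) L) *
        (Matrix.of fun c j => E' c (y j) : Matrix (Fin n) (Fin b) L) := by
    ext i j
    rw [Matrix.of_apply, Matrix.mul_apply]
    have h2 := Pool.Agent.W73.PG.PULL.expand (fun c => algebraMap K L (Y c))
      hY.algebraMap_comp E' (lift_dual hE hE') (D' i)
    conv_lhs => rw [← h2]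
    rw [Pool.Agent.Y172.sum_smul_apply]
    refine Finset.sum_congr rfl fun c _ => ?_
    rw [hD]
    rfl
  rw [h1, det_exp, Finset.mul_sum, map_sum]
  refine Finset.sum_congr rfl fun r _ => ?_
  have h3 : a * ((∏ i, (Matrix.of fun i c => algebraMap K L (D i (Y c)) :
      Matrix (Fin b) (Fin n) L) i (r i)) * (Matrix.of fun i j =>
        (Matrix.of fun c j => E' c (y j) : Matrix (Fin n) (Fin b) L) (r i) j :
          Matrix (Fin b) (Fin b) L).det) = (∏ i, D i (Y (r i))) • (a *
        (Matrix.of fun i j => E' (r i) (y j) : Matrix (Fin b) (Fin b) L).det) := by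
    rw [Algebra.smul_def, map_prod]
    change a * ((∏ i, algebraMap K L (D i (Y (r i)))) *
      (Matrix.of fun i j => E' (r i) (y j) : Matrix (Fin b) (Fin b) L).det) = _
    ring
  rw [h3, map_smul, smul_eq_mul, mul_comm]

/-- the trace of a regular `b`-form of a subfield is regular -/
theorem ten_reg (hn : Algebra.trdeg ℂ K = n) {Y : Fin n → K} {E : Fin n → Derivation ℂ K K}
    (hY : IsTranscendenceBasis ℂ Y) (hE : ∀ i j, E i (Y j) = if i = j then 1 else 0)
    {E' : Fin n → Derivation ℂ L L}
    (hE' : ∀ i f, E' i (algebraMap K L f) = algebraMap K L (E i f))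
    (M0 : IntermediateField ℂ L) [Algebra.EssFiniteType ℂ M0] (hM : Algebra.trdeg ℂ M0 = b)
    {η : (Fin b → Derivation ℂ M0 M0) → M0} (hη : IsPluri 1 η)
    (hreg : ∀ P : Place ℂ M0, Divisorial b P → RegAt P η) {y : Fin b → M0}
    {EM : Fin b → Derivation ℂ M0 M0} (hy : IsTranscendenceBasis ℂ y)
    (hEM : ∀ i j, EM i (y j) = if i = j then 1 else 0) (P : Place ℂ K) (hP : Divisorial n P)
    {D : Fin b → Derivation ℂ K K} (hD : ∀ i, DerReg P (D i)) :
    P.Reg (ten Y (fun r => Algebra.trace K L (((η EM : M0) : L) *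
      (Matrix.of fun i j => E' (r i) (y j : L) : Matrix (Fin b) (Fin b) L).det)) D) := by
  classical
  have hnL : Algebra.trdeg ℂ L = n := trdeg_up (K := K) hn
  choose D' hD' using fun i => exists_lift (L := L) hn (D i)
  obtain ⟨yP, EP, i0, hl⟩ := exists_loc hn hP
  choose EP' hEP' using fun i => exists_lift (L := L) hn (EP i)
  rw [ten_apply, ← tr_exp hY hE hE' _ (fun j => (y j : L)) hD',
    tr_exp hl.bas hl.dual hEP' _ (fun j => (y j : L)) hD']
  change Ge P 0 _
  refine ge_sumF Finset.univ (fun r _ => ?_)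
  have h1 : Ge P 0 (Algebra.trace K L (((η EM : M0) : L) *
      (Matrix.of fun i j => EP' (r i) (y j : L) : Matrix (Fin b) (Fin b) L).det)) := by
    refine Pool.Agent.Y692.NT.trace_reg P _ fun Q e hQ => ?_
    have hQd : Divisorial n Q := divisorial_up hQ hP
    obtain ⟨Z, z, hz, hZ, hge⟩ := Pool.Agent.W619.Y.pYLOC.{0, 0} ℂ L M0 b n 1 hM hnL
      (fun y hy => Pool.Agent.W619.Y.fin_over y hy) η hη hreg y EM hy hEM Q hQd
    have h2 : (Matrix.of fun i j => EP' (r i) (y j : L) : Matrix (Fin b) (Fin b) L).det =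
        Z.det * (Matrix.of fun i c => EP' (r i) (z c) : Matrix (Fin b) (Fin b) L).det := by
      have h3 : (Matrix.of fun i j => EP' (r i) (y j : L) : Matrix (Fin b) (Fin b) L) =
          (Matrix.of fun i c => EP' (r i) (z c)) * Z.transpose := by
        ext i j
        rw [Matrix.mul_apply, Matrix.of_apply, hZ]
        exact Finset.sum_congr rfl fun c _ => by
          rw [Matrix.of_apply, Matrix.transpose_apply, mul_comm]
      rw [h3, Matrix.det_mul, Matrix.det_transpose, mul_comm]
    rw [h2, ← mul_assoc]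
    rw [pow_one] at hge
    exact local_ge hnL hQ hQd hl hEP' hge hz r
  have h2 : Ge P 0 (∏ i, D i (yP (r i))) := by
    have h4 := Pool.Agent.W619.TW.ge_prod (v := P) (a := 0)
      (f := fun i : Fin b => D i (yP (r i))) (fun i => hD i _ (hl.reg _))
    simpa using h4
  have h3 := h1.mul h2
  rwa [add_zero] at h3

/-- **Tensor differentials of a variety over which there is a point of small degree on a variety
with many canonical forms.** -/
theorem not_vanish_tr (hn : Algebra.trdeg ℂ K = n) (M0 : IntermediateField ℂ L)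
    [Algebra.EssFiniteType ℂ M0] (hM : Algebra.trdeg ℂ M0 = b) (hb : 1 ≤ b) {q m : ℕ}
    {x : Fin q → L} {j0 : Fin q} (hx1 : x j0 = 1)
    (hgenL : IntermediateField.adjoin K (Set.range x) = ⊤) {x0 : Fin q → M0}
    (hx0 : ∀ j, (x0 j : L) = x j) {ω : (Fin b → Derivation ℂ M0 M0) → M0} (hω : IsPluri 1 ω)
    (hω0 : ∃ D, ω D ≠ 0)
    (hreg : ∀ (f : Fin m → Fin q) (P : Place ℂ M0), Divisorial b P →
      RegAt P (fun D => (∏ k, x0 (f k)) * ω D))
    (hr : Module.finrank K L ≤ m + 1) : ¬ TensorVanish ℂ K n := by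
  classical
  intro hT
  have hcK : CharZero K := charZero_of_injective_algebraMap (algebraMap ℂ K).injective
  obtain ⟨y, EM, hy, hEM⟩ := exists_crd (k := ℂ) (K := M0) hM
  obtain ⟨Y, E, hY, hE⟩ := exists_crd (k := ℂ) (K := K) hn
  choose E' hE' using fun i => exists_lift (k := ℂ) (K := K) (L := L) hn (E i)
  have hωE : ω EM ≠ 0 := by
    intro h0
    obtain ⟨D, hD⟩ := hω0
    apply hD
    rw [pluri_coord hy hEM hω D, h0, mul_zero]
  have hωL : ((ω EM : M0) : L) ≠ 0 := fun h => hωE (Subtype.ext h)
  have hp : ∀ f : Fin m → Fin q, IsPluri 1 (fun D => (∏ k, x0 (f k)) * ω D) := by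
    intro f A D
    change (∏ k, x0 (f k)) * ω (fun i => ∑ j, A i j • D j) = _
    rw [hω A D]
    ring
  have hzero : ∀ (f : Fin m → Fin q) (r : Fin b → Fin n), Algebra.trace K L
      ((∏ k, x (f k)) * (((ω EM : M0) : L) *
        (Matrix.of fun i j => E' (r i) (y j : L) : Matrix (Fin b) (Fin b) L).det)) = 0 := by
    intro f r
    have h1 := hT b hb (ten Y (fun r => Algebra.trace K L
      (((((∏ k, x0 (f k)) * ω EM : M0)) : L) *
      (Matrix.of fun i j => E' (r i) (y j : L) : Matrix (Fin b) (Fin b) L).det))) (by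
        intro v hv D hD
        exact ten_reg hn hY hE hE' M0 hM (hp f) (hreg f) hy hEM v hv hD)
    have h2 := congrArg (fun ω => ω fun i => E (r i)) h1
    simp only [_root_.zero_apply] at h2
    rw [ten_apply, Finset.sum_eq_single r] at h2
    · have h3 : ∏ i, E (r i) (Y (r i)) = 1 := Finset.prod_eq_one fun i _ => by
        rw [hE, if_pos rfl]
      rw [h3, mul_one] at h2
      rw [← h2]
      congr 1
      have h4 : ((((∏ k, x0 (f k)) * ω EM : M0)) : L) = (∏ k, x (f k)) * ((ω EM : M0) : L) := by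
        change (M0.val ((∏ k, x0 (f k)) * ω EM) : L) = _
        rw [map_mul, map_prod]
        congr 1
        exact Finset.prod_congr rfl fun k _ => hx0 _
      rw [h4, mul_assoc]
    · intro r' _ hne
      obtain ⟨i, hi⟩ := Function.ne_iff.1 hne
      have h3 : ∏ i, E (r i) (Y (r' i)) = 0 :=
        Finset.prod_eq_zero (Finset.mem_univ i) (by rw [hE, if_neg (Ne.symm hi)])
      rw [h3, mul_zero]
    · intro h
      exact absurd (Finset.mem_univ r) h
  have hdet : ∀ r : Fin b → Fin n,
      (Matrix.of fun i j => E' (r i) (y j : L) : Matrix (Fin b) (Fin b) L).det = 0 := by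
    intro r
    by_contra hne
    obtain ⟨h1, -⟩ := Pool.Agent.Y614.NT.stLine Pool.Agent.Y153.NT.stCB K L q m x j0 hx1 hgenL
      _ (mul_ne_zero hωL hne) (fun f => hzero f r) (by omega)
    omega
  have hyL : AlgebraicIndependent ℂ (fun i => (y i : L)) :=
    hy.1.map' (f := M0.val) M0.val.toRingHom.injective
  obtain ⟨X, hX⟩ := Pool.Agent.TH466.QT.exists_dual_of_indep hyL
  have h1 : (Matrix.of fun i j => X i (y j : L) : Matrix (Fin b) (Fin b) L) =
      (Matrix.of fun i c => X i (algebraMap K L (Y c)) : Matrix (Fin b) (Fin n) L) *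
        (Matrix.of fun c j => E' c (y j : L) : Matrix (Fin n) (Fin b) L) := by
    ext i j
    rw [Matrix.of_apply, Matrix.mul_apply]
    have h2 := Pool.Agent.W73.PG.PULL.expand (fun c => algebraMap K L (Y c))
      hY.algebraMap_comp E' (lift_dual hE hE') (X i)
    conv_lhs => rw [← h2]
    rw [Pool.Agent.Y172.sum_smul_apply]
    rfl
  have h2 : (Matrix.of fun i j => X i (y j : L) : Matrix (Fin b) (Fin b) L) = 1 := by
    ext i j
    rw [Matrix.of_apply, hX i j, Matrix.one_apply]
    by_cases h : i = j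
    · subst h; simp
    · rw [if_neg h, if_neg (Ne.symm h)]
  have h3 : (1 : L) = 0 := by
    rw [← Matrix.det_one (n := Fin b), ← h2, h1, det_exp]
    refine Finset.sum_eq_zero fun r _ => ?_
    change _ * (Matrix.of fun i j => E' (r i) (y j : L) : Matrix (Fin b) (Fin b) L).det = 0
    rw [hdet r, mul_zero]
  exact one_ne_zero h3

end

end Pool.Agent.Q58.LG
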