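import Pool.Agent.Q58.LG.Ten
import Pool.Agent.Q58.FI.Corr

/-!
Tensor differentials of the varieties which correspond to generic complete intersections.
-/

set_option autoImplicit false
set_option linter.overlappingInstances false
set_option linter.unusedSectionVars false

open FF
open Pool.Agent.W602.GT hiding lin
open Pool.Agent.TH145.MG (DimLE)
open Pool.Agent.TH145.GC (Rt Cf finite_cf)
open Pool.Agent.W619.TW (TensorVanish)
open Pool.Agent.Q58.FI (eqs form_gen coords_top)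
open Pool.Agent.Y221.FQ (Mor Onto FibresLe im lift_point fin_alg)

namespace Pool.Agent.Q58.LG

/-- The point with homogeneous coordinates `x` over the field `E` is not constant: the ratios of its
coordinates are not all complex numbers. -/
def Nonconst {n : ℕ} {E : Type} [Field E] [Algebra ℂ E] (x : Fin (n + 1) → E) : Prop :=
  ∃ i j, x j ≠ 0 ∧ ∀ c : ℂ, x i / x j ≠ algebraMap ℂ E c

theorem const_of_alg' {E : Type} [Field E] [Algebra ℂ E] {z : E} (hz : IsAlgebraic ℂ z) :
    ∃ c : ℂ, z = algebraMap ℂ E c := by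
  have h1 : z ∈ (⊥ : IntermediateField ℂ E) := by
    have h2 : IsIntegral ℂ z := hz.isIntegral
    have h3 := IsAlgClosed.degree_eq_one_of_irreducible ℂ (minpoly.irreducible h2)
    rw [IntermediateField.mem_bot]
    exact minpoly.mem_range_of_degree_eq_one ℂ z h3
  rw [IntermediateField.mem_bot] at h1
  obtain ⟨c, hc⟩ := h1
  exact ⟨c, hc.symm⟩

section

variable {k' : Type} [Field k'] [Algebra k' ℂ] {n m N : ℕ} {A : Type} [Fintype A]
    {d : A → ℕ} {V : Set (MvPolynomial (Fin (n + 1)) k')}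
    {F : A → MvPolynomial (Fin (n + 1)) ℂ}

/-- Tensor differentials. -/
theorem ten_gen (hVh : ∀ f ∈ V, ∃ e, f.IsHomogeneous e) (hV : DimLE k' V m)
    (hd : 2 * m + N ≤ ∑ a, (d a + 1)) (hF : ∀ a, (F a).IsHomogeneous (d a))
    (hgen : AlgebraicIndependent k' fun p : Cf n d => (F p.1).coeff p.2.1)
    {L E : Type} [Field L] [Field E] [Algebra ℂ L] [Algebra ℂ E] [Algebra L E]
    [IsScalarTower ℂ L E] [FiniteDimensional L E] [Algebra.EssFiniteType ℂ L] {w : ℕ}
    (htr : Algebra.trdeg ℂ L = w) {x : Fin (n + 1) → E} (hx : x ≠ 0)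
    (hxX : ∀ p, MvPolynomial.aeval x (eqs V F p) = 0) (hnc : Nonconst x)
    (hr : Module.finrank L E ≤ N + 1) : ¬ TensorVanish ℂ L w := by
  classical
  obtain ⟨j0, hj0⟩ := Function.ne_iff.1 hx
  have hj0' : x j0 ≠ 0 := hj0
  obtain ⟨u, hu⟩ : ∃ u : Fin (n + 1) → E, u = fun j => (x j0)⁻¹ * x j := ⟨_, rfl⟩
  have hu1 : u j0 = 1 := by
    rw [hu]
    exact inv_mul_cancel₀ hj0'
  obtain ⟨E1, hE1⟩ : ∃ E1 : IntermediateField L E,
    E1 = IntermediateField.adjoin L (Set.range u) := ⟨_, rfl⟩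
  have huE : ∀ j, u j ∈ E1 := fun j => by
    rw [hE1]
    exact IntermediateField.subset_adjoin L _ ⟨j, rfl⟩
  obtain ⟨v, hv⟩ : ∃ v : Fin (n + 1) → E1, ∀ j, (v j : E) = u j :=
    ⟨fun j => ⟨u j, huE j⟩, fun _ => rfl⟩
  have hv1 : v j0 = 1 := Subtype.ext (by rw [hv, hu1]; rfl)
  obtain ⟨M0, hM0⟩ : ∃ M0 : IntermediateField ℂ E1,
    M0 = IntermediateField.adjoin ℂ (Set.range v) := ⟨_, rfl⟩
  have hvM : ∀ j, v j ∈ M0 := fun j => by
    rw [hM0]
    exact IntermediateField.subset_adjoin ℂ _ ⟨j, rfl⟩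
  obtain ⟨u0, hu0⟩ : ∃ u0 : Fin (n + 1) → M0, ∀ j, (u0 j : E1) = v j :=
    ⟨fun j => ⟨v j, hvM j⟩, fun _ => rfl⟩
  have hfin1 : Module.finrank L E1 ≤ N + 1 := by
    refine le_trans ?_ hr
    exact (IntermediateField.finrank_le_of_le_right (le_top : E1 ≤ ⊤)).trans
      (by rw [IntermediateField.finrank_top'])
  have hessE : Algebra.EssFiniteType ℂ E1 := Algebra.EssFiniteType.comp ℂ L E1
  have hessM : Algebra.EssFiniteType ℂ M0 := by
    rw [hM0, IntermediateField.essFiniteType_iff]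
    exact ⟨Finset.univ.image v, by
      rw [Finset.coe_image, Finset.coe_univ, Set.image_univ]⟩
  have htrE : Algebra.trdeg ℂ E1 = w := by
    rw [Pool.Agent.TH466.QG.trdeg_alg (k := ℂ) (E := L) (K := E1), htr]
  obtain ⟨b, hb⟩ : ∃ b : ℕ, Algebra.trdeg ℂ M0 = b := by
    have hle := trdeg_le_of_injective M0.val M0.val.toRingHom.injective
    rw [htrE] at hle
    exact Cardinal.lt_aleph0.1 (hle.trans_lt Cardinal.natCast_lt_aleph0)
  have hb1 : 1 ≤ b := by
    rw [Nat.one_le_iff_ne_zero]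
    rintro rfl
    rw [Nat.cast_zero, trdeg_eq_zero_iff] at hb
    obtain ⟨i, j, hj, hc⟩ := hnc
    have h1 : IsAlgebraic ℂ (u0 i / u0 j) := hb.isAlgebraic _
    obtain ⟨c, h2⟩ := const_of_alg' h1
    apply hc c
    have h3 : x i / x j = u i / u j := by
      rw [hu]
      simp only
      rw [mul_div_mul_left _ _ (inv_ne_zero hj0')]
    rw [h3, ← hv, ← hv, ← hu0, ← hu0]
    have h4 := congrArg (fun z : M0 => ((z : E1) : E)) h2
    exact h4
  have hu01 : u0 j0 = 1 := Subtype.ext (by rw [hu0, hv1]; rfl)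
  have hgen0 : IntermediateField.adjoin ℂ (Set.range u0) = ⊤ := by
    subst hM0
    apply IntermediateField.lift_injective
    rw [IntermediateField.lift_adjoin, IntermediateField.lift_top]
    congr 1
    ext y
    constructor
    · rintro ⟨_, ⟨j, rfl⟩, rfl⟩
      exact ⟨j, (hu0 j).symm⟩
    · rintro ⟨j, rfl⟩
      exact ⟨u0 j, ⟨j, rfl⟩, hu0 j⟩
  have hcoA : Algebra.IsAlgebraic (coords ℂ u0) M0 := by
    rw [coords_top hu01 hgen0]
    infer_instance
  have hval : ∀ (p : MvPolynomial (Fin (n + 1)) ℂ) (e : ℕ), p.IsHomogeneous e →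
      MvPolynomial.aeval x p = 0 → MvPolynomial.aeval u0 p = 0 := by
    intro p e he h0
    have h1 : MvPolynomial.aeval u p = 0 := by
      have h2 := val_smul he (x j0)⁻¹ x
      have h3 : val x p = 0 := h0
      rw [h3, mul_zero] at h2
      rw [hu]
      exact h2
    apply Subtype.ext
    apply Subtype.ext
    have h2 : ((MvPolynomial.aeval u0 p : M0) : E1) =
        MvPolynomial.aeval (fun j => (u0 j : E1)) p :=
      MvPolynomial.comp_aeval_apply (φ := M0.val) u0 p
    have h3 : ((MvPolynomial.aeval v p : E1) : E) = MvPolynomial.aeval (fun j => (v j : E)) p :=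
      MvPolynomial.comp_aeval_apply (φ := (E1.restrictScalars ℂ).val) v p
    change (((MvPolynomial.aeval u0 p : M0) : E1) : E) = 0
    rw [h2, funext hu0, h3, funext hv, h1]
  have hxV : ∀ f ∈ V, MvPolynomial.aeval x (MvPolynomial.map (algebraMap k' ℂ) f) = 0 :=
    fun f hf => hxX (Sum.inl ⟨f, hf⟩)
  have hxC : ∀ a, MvPolynomial.aeval x (F a) = 0 := fun a => hxX (Sum.inr a)
  obtain ⟨ω, hω, hω0, hreg⟩ := form_gen (k' := k') (N := N) (w := b) hV hF
    hgen hb1 (by omega) hb u0 hu01 hcoA (fun f hf => by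
      obtain ⟨e, he⟩ := hVh f hf
      exact hval _ e (he.map _) (hxV f hf)) (fun a => hval _ (d a) (hF a) (hxC a))
  have hgenL : IntermediateField.adjoin L (Set.range v) = ⊤ := by
    subst hE1
    apply IntermediateField.lift_injective
    rw [IntermediateField.lift_adjoin, IntermediateField.lift_top]
    congr 1
    ext y
    constructor
    · rintro ⟨_, ⟨j, rfl⟩, rfl⟩
      exact ⟨j, (hv j).symm⟩
    · rintro ⟨j, rfl⟩
      exact ⟨v j, ⟨j, rfl⟩, hv j⟩
  exact not_vanish_tr htr M0 hb hb1 hv1 hgenL hu0 hω hω0 hreg hfin1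

/-- Tensor differentials of the varieties which correspond to finite images. -/
theorem ten_im (hVh : ∀ f ∈ V, ∃ e, f.IsHomogeneous e) (hV : DimLE k' V m)
    (hd : 2 * m + N ≤ ∑ a, (d a + 1)) (hF : ∀ a, (F a).IsHomogeneous (d a))
    (hgen : AlgebraicIndependent k' fun p : Cf n d => (F p.1).coeff p.2.1) {l M t : ℕ}
    {κ μ : Type} {Ψ : κ → MvPolynomial (Fin (l + 1)) ℂ} (hΨ : ∀ e, IsForm (Ψ e))
    {Φ : μ → MvPolynomial (Fin (M + 1)) ℂ} {B : Fin (n + 1) → MvPolynomial (Fin (l + 1)) ℂ}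
    (hB : Mor Ψ (eqs V F) B) {G : Fin (M + 1) → MvPolynomial (Fin (l + 1)) ℂ} (hG : Mor Ψ Φ G)
    (hon : Onto Ψ Φ G) (hfib : FibresLe Ψ G t)
    {L E : Type} [Field L] [Field E] [Algebra ℂ L] [Algebra ℂ E] [Algebra L E]
    [IsScalarTower ℂ L E] [FiniteDimensional L E] [Algebra.EssFiniteType ℂ L] {w : ℕ}
    (htr : Algebra.trdeg ℂ L = w) {z : Fin (M + 1) → E} (hz : z ≠ 0)
    (hzΦ : ∀ e, val z (Φ e) = 0) (hnc : Nonconst z)
    (hr : Module.finrank L E * t ≤ N + 1) : ¬ TensorVanish ℂ L w := by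
  classical
  obtain ⟨E2, i1, i2, i3, i4, i5, u, i0, c, hrk, hu0, huΨ, hc0, hcz, -⟩ :=
    lift_point hΨ hG hon hfib hz hzΦ
  have hu : u ≠ 0 := by
    intro h0
    rw [h0] at hu0
    exact zero_ne_one hu0
  have hBu := hB.mem hu huΨ
  let iA : Algebra L E2 := ((algebraMap E E2).comp (algebraMap L E)).toAlgebra
  have iT1 : IsScalarTower L E E2 := IsScalarTower.of_algebraMap_eq fun _ => rfl
  have iT2 : IsScalarTower ℂ L E2 := IsScalarTower.of_algebraMap_eq fun c => by
    change _ = algebraMap E E2 (algebraMap L E (algebraMap ℂ L c))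
    rw [← IsScalarTower.algebraMap_apply ℂ L E, ← IsScalarTower.algebraMap_apply ℂ E E2]
  have iF : FiniteDimensional L E2 := FiniteDimensional.trans L E E2
  have hfr : Module.finrank L E2 ≤ N + 1 := by
    rw [← Module.finrank_mul_finrank L E E2]
    exact (Nat.mul_le_mul_left _ hrk).trans hr
  refine ten_gen hVh hV hd hF hgen htr (x := im B u) hBu.1 (fun p => hBu.2 p) ?_ hfr
  by_contra hcon
  have hcon' : ∀ i j, im B u j ≠ 0 → ∃ c : ℂ, im B u i / im B u j = algebraMap ℂ E2 c := by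
    intro i j hj
    by_contra h1
    push Not at h1
    exact hcon ⟨i, j, hj, h1⟩
  have hbot : coords ℂ (im B u) = ⊥ := by
    rw [eq_bot_iff]
    unfold coords
    rw [IntermediateField.adjoin_le_iff]
    rintro _ ⟨i, j, hj, rfl⟩
    obtain ⟨c, hc⟩ := hcon' i j hj
    rw [hc]
    exact IntermediateField.algebraMap_mem _ _
  have hcu : ∀ i, ∃ a : ℂ, u i = algebraMap ℂ E2 a := by
    intro i
    have h1 := fin_alg hΨ hB (i0 := i0) (by rw [hu0]; exact one_ne_zero) huΨ i
    rw [hu0, div_one] at h1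
    have h2 : IsAlgebraic ℂ (u i) := by
      have h3 : Algebra.IsAlgebraic ℂ (coords ℂ (im B u)) := by
        rw [hbot]
        infer_instance
      exact h1.restrictScalars ℂ
    exact const_of_alg' h2
  choose a ha using hcu
  obtain ⟨i, j, hj, hc⟩ := hnc
  have hGu : ∀ j, im G u j = algebraMap ℂ E2 (im G a j) := by
    intro j
    have h1 : u = fun i => Algebra.ofId ℂ E2 (a i) := funext ha
    unfold im
    rw [h1]
    exact (val_map (Algebra.ofId ℂ E2) (G j) a).symm
  apply hc (im G a i / im G a j)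
  apply (algebraMap E E2).injective
  rw [map_div₀, hcz, hcz, mul_div_mul_left _ _ hc0, hGu, hGu, ← map_div₀,
    ← IsScalarTower.algebraMap_apply ℂ E E2]

end

end Pool.Agent.Q58.LG
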