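import Pool.Agent.Q58.LG.Curve
import Pool.Agent.Q58.FI.Low
import Pool.Agent.Q58.FI.Lift
import Pool.Agent.Y735.R3.DataS
import Pool.Agent.Y735.LB.Ineq

/-!
Height inequalities over function fields for generic pairs, and orders of the values of forms with
coefficients in a function field.
-/

set_option autoImplicit false
set_option linter.overlappingInstances false
set_option linter.unusedSectionVars false

open MvPolynomial FF Pool.Agent.W603.LV Pool.Agent.W603.PV Pool.Agent.TH145.GH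
open Pool.Agent.TH145.MG (DimLE)
open Pool.Agent.TH145

namespace Pool.Agent.Q58.LG

open Pool.Agent.Y735.R3 Pool.Agent.TH812.GV Pool.Agent.TH812.GV2

/-- The height inequality with boundary over finite extensions. -/
theorem ineq_S {k0 κ F L : Type} [Field k0] [Field κ] [Field F] [Field L] [IsAlgClosed κ]
    [CharZero κ] [Algebra κ F] [IsFF κ F] [Algebra κ L] [Algebra F L] [IsScalarTower κ F L]
    [FiniteDimensional F L] [IsFF κ L] (ψ : k0 →+* F) {n m : ℕ} {A : Type} [Fintype A]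
    {dg : A → ℕ} {G : A → MvPolynomial (Fin (n + 1)) F}
    {D : A → (Fin (n + 1) →₀ ℕ) → Derivation ℤ F F} {q : Place κ F → ℤ}
    (hdat : DataS κ G dg D q) (hDk : ∀ a I (r : k0), D a I (ψ r) = 0)
    (V : Set (MvPolynomial (Fin (n + 1)) k0)) (hV : DimLE k0 V m)
    {x : Fin (n + 1) → L} (hx : x ≠ 0)
    (hxV : ∀ f ∈ V, eval₂ ((algebraMap F L).comp ψ) x f = 0)
    (Cs : Finset A) (hCs : ∀ a, a ∈ Cs ↔ eval x (map (algebraMap F L) (G a)) = 0)
    (S : Finset (Place κ L)) (hS : ∀ P, P ∉ S → ∀ a, a ∉ Cs →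
      P.ord (eval x (map (algebraMap F L) (G a))) ≤ dg a * pord P x)
    (T : Finset (Place κ F)) (hT : ∀ v, q v ≠ 0 → v ∈ T) :
    (∑ a, (dg a : ℤ) + Cs.card - 2 * m - 1) * pht κ x ≤ disc κ F L + S.card +
      (Fintype.card A + m + 3) * (Module.finrank F L * ∑ v ∈ T, q v) := by
  classical
  have hF : CharZero F := charZero_of_injective_algebraMap (algebraMap κ F).injective
  have hL : CharZero L := charZero_of_injective_algebraMap (algebraMap κ L).injective
  let _ : Algebra k0 F := ψ.toAlgebra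
  let _ : Algebra k0 L := ((algebraMap F L).comp ψ).toAlgebra
  have hst : IsScalarTower k0 F L := IsScalarTower.of_algebraMap_eq fun _ => rfl
  choose D' hD1 hDl using fun a I => hdat.ext L a I
  have hD0 : ∀ a I (r : k0), D' a I (algebraMap k0 L r) = 0 := fun a I r => by
    have h1 := hD1 a I (ψ r)
    rw [hDk, map_zero] at h1
    exact h1
  obtain ⟨ql, hql⟩ : ∃ ql : Place κ L → ℤ, ∀ P, ql P = ram F P * q (under F P) :=
    ⟨_, fun _ => rfl⟩
  obtain ⟨el, hel⟩ : ∃ el : Place κ L → ℤ, ∀ P, el P = ((ram F P : ℤ) - 1) + ql P :=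
    ⟨_, fun _ => rfl⟩
  have hql0 : ∀ P, 0 ≤ ql P := fun P => by
    rw [hql]
    exact mul_nonneg (by positivity) (hdat.nn _)
  have hram1 : ∀ P : Place κ L, (1 : ℤ) ≤ ram F P := fun P => by
    exact_mod_cast (ram_spec (F := F) P).1
  have hqfin : {P : Place κ L | ql P ≠ 0}.Finite := by
    refine (finite_over_set (L := L) hdat.fin).subset fun P hP => ?_
    have hP' : ql P ≠ 0 := hP
    rw [hql] at hP'
    exact right_ne_zero_of_mul hP'
  have hrfin : {P : Place κ L | (ram F P : ℤ) - 1 ≠ 0}.Finite :=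
    ram_finite (F := F)
  have hefin : {P : Place κ L | el P ≠ 0}.Finite := by
    refine (hrfin.union hqfin).subset fun P hP => ?_
    by_contra hcon
    simp only [Set.mem_union, Set.mem_ofPred_eq, not_or, not_not] at hcon
    apply hP
    rw [hel, hcon.1, hcon.2, add_zero]
  have hsys : SysS κ (fun a => map (algebraMap F L) (G a)) dg D' (fun _ _ => 0) ql el := by
    refine ⟨fun a => (hdat.hom a).map _, ?_, hql0, fun P => ?_, fun P a I hI => ?_,
      fun P δ hδ a I hI g f hf => ?_, hqfin, hefin⟩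
    · intro a b I J hI hJ
      rw [coeff_map]
      rw [hD1]
      have h1 := hdat.dual a b I J hI hJ
      by_cases hab : a = b
      · by_cases hIJ : I = J
        · rw [h1.1 hab hIJ, if_pos hab, if_pos hIJ]
          simp
        · rw [h1.2 (Or.inr hIJ), if_pos hab, if_neg hIJ]
          simp
      · rw [h1.2 (Or.inl hab), if_neg hab, map_zero]
    · rw [hel]
      have h1 := hram1 P
      have h2 := hql0 P
      omega
    · rw [hel, hql]
      exact (hDl a I P).1
    · rw [hql]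
      exact (hDl a I P).2 δ hδ g f hf
  have htr : Algebra.trdeg k0 (Pool.Agent.W602.GT.coords k0 x) ≤ m := by
    refine hV L x hx fun f hf => ?_
    exact hxV f hf
  obtain ⟨W, hWm, hxW, hDW⟩ := exists_W hx htr
  have key := ineq2 hsys hx W hWm hxW fun a I _ => hDW (D' a I) (hD0 a I)
  have hc1 : (Finset.univ.filter fun a => eval x (map (algebraMap F L) (G a)) = 0) = Cs := by
    ext a
    rw [Finset.mem_filter, hCs]
    exact ⟨fun h => h.2, fun h => ⟨Finset.mem_univ _, h⟩⟩
  have hc2 : ((Finset.univ.filter fun a => eval x (map (algebraMap F L) (G a)) ≠ 0).card : ℤ) ≤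
      Fintype.card A := by
    exact_mod_cast Finset.card_le_univ _
  rw [hc1] at key
  obtain ⟨N, hN⟩ : ∃ N : ℤ, N = (Finset.univ.filter fun a =>
    eval x (map (algebraMap F L) (G a)) ≠ 0).card := ⟨_, rfl⟩
  rw [← hN] at key hc2
  obtain ⟨h1, h2⟩ := Pool.Agent.Y735.LB.sum_losses (κ := κ) (F := F) (L := L) (q := q) hql hel
    hqfin (N + m + 2)
  have hifS : ∀ P : Place κ L, (if ∃ a, eval x (map (algebraMap F L) (G a)) ≠ 0 ∧
      dg a * pord P x < P.ord (eval x (map (algebraMap F L) (G a))) then (1 : ℤ) else 0) ≤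
      if P ∈ S then 1 else 0 := fun P => by
    by_cases hP : P ∈ S
    · rw [if_pos hP]
      split_ifs <;> norm_num
    · rw [if_neg hP, if_neg]
      rintro ⟨a, ha, hlt⟩
      have ha' : a ∉ Cs := fun h => ha ((hCs a).1 h)
      exact absurd (hS P hP a ha') (not_le.2 hlt)
  have hsub : (Function.support fun P : Place κ L =>
      (if ∃ a, eval x (map (algebraMap F L) (G a)) ≠ 0 ∧
      dg a * pord P x < P.ord (eval x (map (algebraMap F L) (G a))) then (1 : ℤ) else 0)) ⊆
      (S : Set (Place κ L)) := by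
    intro P hP
    rw [Function.mem_support] at hP
    by_contra hcon
    have h3 := hifS P
    rw [if_neg (fun h : P ∈ S => hcon (Finset.mem_coe.2 h))] at h3
    apply hP
    refine le_antisymm h3 ?_
    split_ifs <;> norm_num
  rw [finsum_add_distrib (S.finite_toSet.subset hsub) h1, h2] at key
  have h3 : ∑ᶠ P : Place κ L, (if ∃ a, eval x (map (algebraMap F L) (G a)) ≠ 0 ∧
      dg a * pord P x < P.ord (eval x (map (algebraMap F L) (G a))) then (1 : ℤ) else 0) ≤
      S.card := by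
    rw [finsum_eq_sum_of_support_subset _ hsub]
    refine (Finset.sum_le_card_nsmul _ _ 1 fun P hP => ?_).trans (by simp)
    exact (hifS P).trans (by split_ifs <;> norm_num)
  obtain ⟨T', hT'⟩ := Pool.Agent.Y221.AH.exists_over (L := L) T
  have h4 : ∑ᶠ P : Place κ L, (ram F P : ℤ) * q (under F P) =
      Module.finrank F L * ∑ v ∈ T, q v := by
    rw [← Pool.Agent.Y221.AH.sum_over (L := L) q T hT T' fun w hw => (hT' w).1 hw]
    refine finsum_eq_sum_of_support_subset _ fun P hP => ?_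
    rw [Function.mem_support] at hP
    exact Finset.mem_coe.2 ((hT' P).1 (hT _ (right_ne_zero_of_mul hP)))
  rw [h4] at key
  have h5 : 0 ≤ (Module.finrank F L : ℤ) * ∑ v ∈ T, q v :=
    mul_nonneg (by positivity) (Finset.sum_nonneg fun v _ => hdat.nn v)
  have h6 : (N + m + 2 + 1) * (Module.finrank F L * ∑ v ∈ T, q v) ≤
      ((Fintype.card A : ℤ) + m + 3) * (Module.finrank F L * ∑ v ∈ T, q v) :=
    mul_le_mul_of_nonneg_right (by linarith) h5
  linarith

section good

open Pool.Agent.W602.GT Pool.Agent.Y221.FQ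
open Pool.Agent.Q58.FI (bc ge_int)

variable {k K : Type} [Field k] [Field K] [Algebra k K] {n l M : ℕ} {κ : Type}
  {Ψ : κ → MvPolynomial (Fin (l + 1)) K}

/-- The Nullstellensatz for polynomials over a field. -/
theorem null_K {s : ℕ} (g : Fin s → MvPolynomial (Fin (l + 1)) K)
    (f : MvPolynomial (Fin (l + 1)) K)
    (h : ∀ x : Fin (l + 1) → AlgebraicClosure K, (∀ e, aeval x (Ψ e) = 0) →
      (∀ j, aeval x (g j) = 0) → aeval x f = 0) :
    ∃ (N : ℕ) (P : Fin s → MvPolynomial (Fin (l + 1)) K),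
      ∀ (E : Type) [Field E] [Algebra K E] (x : Fin (l + 1) → E),
        (∀ e, aeval x (Ψ e) = 0) → aeval x f ^ N = ∑ j, aeval x (P j) * aeval x (g j) := by
  classical
  have h1 : f ∈ (Ideal.span (Set.range Ψ ∪ Set.range g)).radical := by
    rw [← vanishingIdeal_zeroLocus_eq_radical (K := AlgebraicClosure K), mem_vanishingIdeal_iff]
    intro x hx
    rw [mem_zeroLocus_iff] at hx
    exact h x (fun e => hx _ (Ideal.subset_span (Or.inl ⟨e, rfl⟩)))
      (fun j => hx _ (Ideal.subset_span (Or.inr ⟨j, rfl⟩)))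
  obtain ⟨N, hN⟩ := Ideal.mem_radical_iff.1 h1
  have h2 : Ideal.span (Set.range Ψ ∪ Set.range g) =
      Ideal.span (Set.range Ψ) ⊔ Ideal.span (Set.range g) := Ideal.span_union _ _
  rw [h2, Submodule.mem_sup] at hN
  obtain ⟨u, hu, v, hv, huv⟩ := hN
  obtain ⟨P, hP⟩ := (Ideal.mem_span_range_iff_exists_fun).1 hv
  refine ⟨N, P, fun E _ _ x hx => ?_⟩
  have h3 : aeval x u = 0 := by
    have h4 : Ideal.span (Set.range Ψ) ≤ RingHom.ker (aeval x :
        MvPolynomial (Fin (l + 1)) K →ₐ[K] E).toRingHom := by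
      rw [Ideal.span_le]
      rintro _ ⟨e, rfl⟩
      exact hx e
    exact h4 hu
  have h5 := congrArg (aeval x : MvPolynomial (Fin (l + 1)) K →ₐ[K] E) huv
  rw [map_pow, map_add, h3, zero_add, ← hP, map_sum] at h5
  rw [← h5]
  exact Finset.sum_congr rfl fun j _ => map_mul _ _ _

/-- The coefficients of the polynomial are regular at the place. -/
def Cg {E : Type} [Field E] [Algebra k E] [Algebra K E] {s : ℕ} (Q : Place k E)
    (p : MvPolynomial (Fin (s + 1)) K) : Prop :=
  ∀ α ∈ p.support, Ge Q 0 (algebraMap K E (p.coeff α))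

variable {E : Type} [Field E] [Algebra k E] [Algebra K E]

/-- Scaled coordinates at a place. -/
theorem scaledK (hΨ : ∀ e, IsForm (Ψ e)) {u : Fin (l + 1) → E}
    (hu : ∃ j, u j ≠ 0) (huΨ : ∀ e, aeval u (Ψ e) = 0) (Q : Place k E) :
    ∃ (j0 : Fin (l + 1)) (v : Fin (l + 1) → E), u j0 ≠ 0 ∧ Q.ord (u j0) = pord Q u ∧ v j0 = 1 ∧
      u = (fun j => u j0 * v j) ∧ (∀ e, aeval v (Ψ e) = 0) ∧
      ∀ p : MvPolynomial (Fin (l + 1)) K, Cg Q p → Ge Q 0 (aeval v p) := by
  obtain ⟨j0, hj0, hj0'⟩ := exists_pord Q hu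
  obtain ⟨v, hv⟩ : ∃ v : Fin (l + 1) → E, v = fun j => (u j0)⁻¹ * u j := ⟨_, rfl⟩
  have hv0 : v j0 = 1 := by
    rw [hv]
    exact inv_mul_cancel₀ hj0
  have hvG : ∀ j, Ge Q 0 (v j) := by
    intro j
    have h0 : Ge Q (Q.ord (u j0)⁻¹) (u j0)⁻¹ := Or.inr le_rfl
    have h1 := h0.mul (ge_pord Q u j)
    rw [Q.ord_inv, hj0'] at h1
    rw [hv]
    exact h1.mono (by omega)
  have hvΨ : ∀ e, aeval v (Ψ e) = 0 := by
    intro e'
    obtain ⟨d, hd⟩ := hΨ e'
    have h1 : aeval v (Ψ e') = (u j0)⁻¹ ^ d * aeval u (Ψ e') := by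
      rw [hv]
      exact val_smul hd _ _
    rw [h1, huΨ, mul_zero]
  refine ⟨j0, v, hj0, hj0', hv0, ?_, hvΨ, fun p hp => ge_int Q hvG hp⟩
  funext j
  rw [hv]
  simp only
  rw [mul_inv_cancel_left₀ hj0]

/-- Orders of the images under a morphism, at the places where some coefficients are regular. -/
theorem pord_im_good {G : Fin (M + 1) → MvPolynomial (Fin (l + 1)) K} {e : ℕ}
    (he : ∀ j, (G j).IsHomogeneous e) (hΨ : ∀ e, IsForm (Ψ e))
    {N : Fin (l + 1) → ℕ} {P : Fin (l + 1) → Fin (M + 1) → MvPolynomial (Fin (l + 1)) K}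
    (hP : ∀ i, ∀ (x : Fin (l + 1) → E), (∀ e, aeval x (Ψ e) = 0) →
      aeval x (X i : MvPolynomial (Fin (l + 1)) K) ^ N i = ∑ j, aeval x (P i j) * aeval x (G j))
    {u : Fin (l + 1) → E} (hu : ∃ j, u j ≠ 0) (huΨ : ∀ e, aeval u (Ψ e) = 0) (Q : Place k E)
    (hcG : ∀ j, Cg Q (G j)) (hcP : ∀ i j, Cg Q (P i j)) :
    pord Q (fun j => aeval u (G j)) = e * pord Q u ∧ ∃ j, aeval u (G j) ≠ 0 := by
  obtain ⟨j0, v, hj0, hj0', hv0, huv, hvΨ, hreg⟩ := scaledK hΨ hu huΨ Q
  have h1 := hP j0 v hvΨ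
  rw [aeval_X, hv0, one_pow] at h1
  obtain ⟨b, hb0, hb⟩ : ∃ b, aeval v (G b) ≠ 0 ∧ Q.ord (aeval v (G b)) ≤ 0 := by
    by_contra hcon
    push Not at hcon
    have h3 : Ge Q 1 (1 : E) := by
      rw [h1]
      refine Ge.sum _ _ fun j _ => ?_
      by_cases h4 : aeval v (G j) = 0
      · rw [h4, mul_zero]
        exact Ge.zero
      · have h5 : Ge Q 1 (aeval v (G j)) := Or.inr (by have := hcon j h4; omega)
        have h6 := (hreg (P j0 j) (hcP j0 j)).mul h5
        rwa [zero_add] at h6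
    rcases h3 with h3 | h3
    · exact one_ne_zero h3
    · rw [Q.ord_one] at h3
      omega
  have hb' : Q.ord (aeval v (G b)) = 0 := le_antisymm hb ((hreg (G b) (hcG b)).resolve_left hb0)
  have hsc : ∀ j, aeval u (G j) = u j0 ^ e * aeval v (G j) := by
    intro j
    conv_lhs => rw [huv]
    exact val_smul (he j) _ _
  have hub0 : aeval u (G b) ≠ 0 := by
    rw [hsc]
    exact mul_ne_zero (pow_ne_zero _ hj0) hb0
  refine ⟨le_antisymm ?_ ?_, b, hub0⟩
  · refine (pord_le Q (f := fun j => aeval u (G j)) hub0).trans (le_of_eq ?_)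
    rw [hsc, Q.ord_mul (pow_ne_zero _ hj0) hb0, Q.ord_pow, hb', hj0', add_zero]
  · rw [Pool.Agent.Y221.AH.pord_le_iff Q ⟨b, hub0⟩]
    intro j
    rw [hsc]
    have h2 : Ge Q (e * pord Q u) (u j0 ^ e) := Or.inr (by rw [Q.ord_pow, hj0'])
    have h3 := h2.mul (hreg (G j) (hcG j))
    rwa [add_zero] at h3

/-- The boundary of the image: orders of the equations, at the places where some coefficients are
regular. -/
theorem bd_good {B : Fin (n + 1) → MvPolynomial (Fin (l + 1)) K}
    {G : Fin (M + 1) → MvPolynomial (Fin (l + 1)) K} (hΨ : ∀ e, IsForm (Ψ e)) {eB eG : ℕ}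
    (hBe : ∀ j, (B j).IsHomogeneous eB) (hGe : ∀ j, (G j).IsHomogeneous eG) {h : ℕ}
    {H : MvPolynomial (Fin (M + 1)) K} (hH : H.IsHomogeneous h)
    {f : MvPolynomial (Fin (n + 1)) K} {d : ℕ} (hf : f.IsHomogeneous d) {N : ℕ}
    {P : MvPolynomial (Fin (l + 1)) K}
    (hP : ∀ x : Fin (l + 1) → E, (∀ e, aeval x (Ψ e) = 0) →
      aeval (fun j => aeval x (G j)) H ^ N = aeval (fun j => aeval x (B j)) f * aeval x P)
    {u : Fin (l + 1) → E} (hu : ∃ j, u j ≠ 0) (huΨ : ∀ e, aeval u (Ψ e) = 0)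
    (hH0 : aeval (fun j => aeval u (G j)) H ≠ 0) (Q : Place k E) (hcP : Cg Q P)
    (hpB : pord Q (fun j => aeval u (B j)) = eB * pord Q u)
    (hpG : pord Q (fun j => aeval u (G j)) = eG * pord Q u)
    (hQ : Q.ord (aeval (fun j => aeval u (G j)) H) ≤ h * pord Q (fun j => aeval u (G j))) :
    Q.ord (aeval (fun j => aeval u (B j)) f) ≤ d * pord Q (fun j => aeval u (B j)) := by
  rw [hpG] at hQ
  rw [hpB]
  obtain ⟨j0, v, hj0, hj0', hv0, huv, hvΨ, hreg⟩ := scaledK hΨ hu huΨ Q
  have h1 : aeval (fun j => aeval u (G j)) H =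
      (u j0 ^ eG) ^ h * aeval (fun j => aeval v (G j)) H := by
    have h2 : (fun j => aeval u (G j)) = fun j => u j0 ^ eG * aeval v (G j) := by
      funext j
      conv_lhs => rw [huv]
      exact val_smul (hGe j) _ _
    rw [h2]
    exact val_smul hH _ _
  have h2 : aeval (fun j => aeval u (B j)) f =
      (u j0 ^ eB) ^ d * aeval (fun j => aeval v (B j)) f := by
    have h2 : (fun j => aeval u (B j)) = fun j => u j0 ^ eB * aeval v (B j) := by
      funext j
      conv_lhs => rw [huv]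
      exact val_smul (hBe j) _ _
    rw [h2]
    exact val_smul hf _ _
  have hvH : aeval (fun j => aeval v (G j)) H ≠ 0 := by
    rw [h1] at hH0
    exact right_ne_zero_of_mul hH0
  have h3 := hP v hvΨ
  have h4 : aeval (fun j => aeval v (B j)) f * aeval v P ≠ 0 := by
    rw [← h3]
    exact pow_ne_zero _ hvH
  have hvf := left_ne_zero_of_mul h4
  have hvP := right_ne_zero_of_mul h4
  have h5 := congrArg Q.ord h3
  rw [Q.ord_pow, Q.ord_mul hvf hvP] at h5
  have h6 : 0 ≤ Q.ord (aeval v P) := (hreg P hcP).resolve_left hvP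
  have h7 : Q.ord (aeval (fun j => aeval v (G j)) H) ≤ 0 := by
    rw [h1, Q.ord_mul (pow_ne_zero _ (pow_ne_zero _ hj0)) hvH, Q.ord_pow, Q.ord_pow, hj0'] at hQ
    linarith
  have h8 : (N : ℤ) * Q.ord (aeval (fun j => aeval v (G j)) H) ≤ 0 :=
    mul_nonpos_of_nonneg_of_nonpos (Int.natCast_nonneg _) h7
  rw [h2, Q.ord_mul (pow_ne_zero _ (pow_ne_zero _ hj0)) hvf, Q.ord_pow, Q.ord_pow, hj0']
  linarith

end good

/-- Finitely many elements of a function field are regular outside of finitely many places. -/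
theorem exists_bad {k K : Type} [Field k] [IsAlgClosed k] [CharZero k] [Field K] [Algebra k K]
    [IsFF k K] {s : ℕ} {I : Type} [Finite I] (p : I → MvPolynomial (Fin (s + 1)) K) :
    ∃ S0 : Finset (Place k K), ∀ (E : Type) [Field E] [Algebra k E] [Algebra K E]
      [IsScalarTower k K E] [FiniteDimensional K E] [IsFF k E] (Q : Place k E), under K Q ∉ S0 →
      ∀ i, Cg Q (p i) := by
  classical
  have := Fintype.ofFinite I
  obtain ⟨S0, hS0⟩ := exists_supp (k := k) (Finset.univ : Finset ((i : I) × {α // α ∈ (p i).support}))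
    fun c => (p c.1).coeff c.2.1
  refine ⟨S0, fun E _ _ _ _ _ _ Q hQ i α hα => ?_⟩
  by_contra hcon
  have h1 : algebraMap K E ((p i).coeff α) ≠ 0 := fun h => hcon (by rw [h]; exact Ge.zero)
  apply hQ
  refine hS0 ⟨i, α, hα⟩ (Finset.mem_univ _) _ fun h => ?_
  apply hcon
  refine Or.inr ?_
  rw [ord_under, h, mul_zero]

end Pool.Agent.Q58.LG
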