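import Pool.Agent.Q58.LG.PrsL
import Pool.Agent.W619.Y.Parts

/-!
Exterior products of forms of subfields.
-/

set_option autoImplicit false
set_option linter.overlappingInstances false
set_option linter.unusedSectionVars false

open FF Module Pool.Agent.W602.GT Pool.Agent.W603.LV Pool.Agent.W619.PQ Pool.Agent.Y172
open Pool.Agent.Y184.NT

namespace Pool.Agent.Q58.LG

/-- the determinant of a block diagonal matrix -/
theorem det_bd {R : Type} [CommRing R] {s : ℕ} {b : Fin s → ℕ}
    (d : ∀ i, Matrix (Fin (b i)) (Fin (b i)) R) :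
    (Matrix.blockDiagonal' d).det = ∏ i, (d i).det := by
  classical
  rw [(Matrix.blockTriangular_blockDiagonal' d).det_fintype]
  refine Finset.prod_congr rfl fun k _ => ?_
  have key : ∀ (i1 : Fintype {a : (Σ i, Fin (b i)) // a.1 = k})
      (i2 : DecidableEq {a : (Σ i, Fin (b i)) // a.1 = k})
      (M : Matrix {a : (Σ i, Fin (b i)) // a.1 = k} {a : (Σ i, Fin (b i)) // a.1 = k} R),
      @Matrix.det _ i2 i1 _ _ M = (Matrix.of fun i j => M ⟨⟨k, i⟩, rfl⟩ ⟨⟨k, j⟩, rfl⟩ :
        Matrix (Fin (b k)) (Fin (b k)) R).det := by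
    intro i1 i2 M
    let e : Fin (b k) ≃ {a : (Σ i, Fin (b i)) // a.1 = k} :=
      { toFun := fun i => ⟨⟨k, i⟩, rfl⟩
        invFun := fun a => Fin.cast (congrArg b a.2) a.1.2
        left_inv := fun i => rfl
        right_inv := by
          rintro ⟨⟨k', i⟩, h⟩
          subst h
          rfl }
    exact (Matrix.det_submatrix_equiv_self e M).symm
  rw [Matrix.toSquareBlock, Matrix.toSquareBlockProp_def, key]
  congr 1
  ext i j
  rw [Matrix.of_apply, Matrix.of_apply, Matrix.blockDiagonal'_apply_eq]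

section

variable {E : Type} [Field E] [Algebra ℂ E]

/-- The form `a dy` is regular at `Q`: it is `a' dz` with `a'` and the coordinates `z` regular. -/
def RGood (Q : Place ℂ E) {b : ℕ} (y : Fin b → E) (a : E) : Prop :=
  ∃ (Z : Matrix (Fin b) (Fin b) E) (z : Fin b → E),
    (∀ (D : Derivation ℂ E E) l, D (y l) = ∑ c, Z l c * D (z c)) ∧ (∀ c, Q.Reg (z c)) ∧
      Q.Reg (a * Z.det)

/-- The form `a dy` is logarithmic at `Q`. -/
def LGood (Q : Place ℂ E) {b : ℕ} (y : Fin b → E) (a : E) : Prop :=
  ∃ (Z : Matrix (Fin b) (Fin b) E) (z l0 : Fin b → E),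
    (∀ (D : Derivation ℂ E E) l, D (y l) = ∑ c, Z l c * D (z c)) ∧ (∀ c, l0 c ≠ 0) ∧
      (∀ D : Derivation ℂ E E, DerLog Q D → ∀ c, Q.Reg (D (z c) / l0 c)) ∧
        Q.Reg (a * Z.det * ∏ c, l0 c)

variable {s w : ℕ} {b : Fin s → ℕ}

theorem det_wedge (e : Fin w ≃ (Σ i, Fin (b i))) {y z : ∀ i, Fin (b i) → E}
    {Z : ∀ i, Matrix (Fin (b i)) (Fin (b i)) E}
    (hZ : ∀ i (D : Derivation ℂ E E) l, D (y i l) = ∑ c, Z i l c * D (z i c))
    (G : Fin w → Derivation ℂ E E) :
    (Matrix.of fun r c => G r (y (e c).1 (e c).2) : Matrix (Fin w) (Fin w) E).det =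
      (Matrix.of fun r c => G r (z (e c).1 (e c).2) : Matrix (Fin w) (Fin w) E).det *
        ∏ i, (Z i).det := by
  classical
  have h1 : (Matrix.of fun r c => G r (y (e c).1 (e c).2) : Matrix (Fin w) (Fin w) E) =
      (Matrix.of fun r c => G r (z (e c).1 (e c).2) : Matrix (Fin w) (Fin w) E) *
        (Matrix.blockDiagonal' fun i => (Z i).transpose).submatrix e e := by
    ext r c
    rw [Matrix.of_apply, Matrix.mul_apply]
    simp only [Matrix.of_apply, Matrix.submatrix_apply]
    rw [Equiv.sum_comp e (fun p => G r (z p.1 p.2) *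
      (Matrix.blockDiagonal' fun i => (Z i).transpose) p (e c))]
    obtain ⟨i0, l⟩ := e c
    rw [Fintype.sum_sigma, Finset.sum_eq_single i0]
    · rw [hZ]
      refine Finset.sum_congr rfl fun c' _ => ?_
      rw [Matrix.blockDiagonal'_apply_eq, Matrix.transpose_apply, mul_comm]
    · intro i _ hi
      refine Finset.sum_eq_zero fun c' _ => ?_
      rw [Matrix.blockDiagonal'_apply_ne _ _ _ hi, mul_zero]
    · intro h
      exact absurd (Finset.mem_univ _) h
  rw [h1, Matrix.det_mul, Matrix.det_submatrix_equiv_self, det_bd]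
  simp only [Matrix.det_transpose]

theorem prod_reg {ι : Type} (Q : Place ℂ E) (S : Finset ι) {f : ι → E}
    (h : ∀ i ∈ S, Q.Reg (f i)) : Q.Reg (∏ i ∈ S, f i) := by
  classical
  induction S using Finset.induction_on with
  | empty =>
    rw [Finset.prod_empty]
    exact Or.inr Q.ord_one.ge
  | insert a S ha ih =>
    rw [Finset.prod_insert ha]
    exact Q.reg_mul (h a (Finset.mem_insert_self _ _))
      (ih fun i hi => h i (Finset.mem_insert_of_mem hi))

/-- exterior products of regular forms are regular -/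
theorem reg_wedge (Q : Place ℂ E) (e : Fin w ≃ (Σ i, Fin (b i))) {y : ∀ i, Fin (b i) → E}
    {a : Fin s → E} (h : ∀ i, RGood Q (y i) (a i)) :
    RegAt Q (trForm (fun c => y (e c).1 (e c).2) (∏ i, a i)) := by
  classical
  intro G hG
  choose Z z hZ hz ha using h
  change Q.Reg ((Matrix.of fun r c => G r (y (e c).1 (e c).2) : Matrix (Fin w) (Fin w) E).det * _)
  rw [det_wedge e hZ, mul_assoc, mul_comm (∏ i, (Z i).det), ← Finset.prod_mul_distrib]
  refine Q.reg_mul ?_ (prod_reg Q _ fun i _ => ha i)
  have h9 : Ge Q 0 (Matrix.of fun r c => G r (z (e c).1 (e c).2) :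
      Matrix (Fin w) (Fin w) E).det :=
    ge_det Q _ _ (fun _ _ => 0) (fun a c => hG a _ (hz _ _)) fun σ => by simp
  exact h9

/-- exterior products of logarithmic forms are logarithmic -/
theorem log_wedge (Q : Place ℂ E) (e : Fin w ≃ (Σ i, Fin (b i))) {y : ∀ i, Fin (b i) → E}
    {a : Fin s → E} (h : ∀ i, LGood Q (y i) (a i)) :
    LogAt Q (trForm (fun c => y (e c).1 (e c).2) (∏ i, a i)) := by
  classical
  intro G hG
  choose Z z l0 hZ hl0 hz ha using h
  change Q.Reg ((Matrix.of fun r c => G r (y (e c).1 (e c).2) : Matrix (Fin w) (Fin w) E).det * _)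
  rw [det_wedge e hZ]
  have h1 : (Matrix.of fun r c => G r (z (e c).1 (e c).2) : Matrix (Fin w) (Fin w) E).det =
      (∏ i, ∏ c, l0 i c) * (Matrix.of fun r c => G r (z (e c).1 (e c).2) / l0 (e c).1 (e c).2 :
        Matrix (Fin w) (Fin w) E).det := by
    have h2 : (∏ i, ∏ c, l0 i c) = ∏ c : Fin w, l0 (e c).1 (e c).2 := by
      rw [Equiv.prod_comp e (fun p => l0 p.1 p.2), Fintype.prod_sigma]
    rw [h2, ← Matrix.det_mul_row]
    congr 1
    ext r c
    rw [Matrix.of_apply, Matrix.of_apply, Matrix.of_apply, mul_div_cancel₀ _ (hl0 _ _)]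
  have h3 : (Matrix.of fun r c => G r (z (e c).1 (e c).2) : Matrix (Fin w) (Fin w) E).det *
      (∏ i, (Z i).det) * ∏ i, a i = (Matrix.of fun r c => G r (z (e c).1 (e c).2) /
        l0 (e c).1 (e c).2 : Matrix (Fin w) (Fin w) E).det *
          ∏ i, (a i * (Z i).det * ∏ c, l0 i c) := by
    rw [h1, Finset.prod_mul_distrib, Finset.prod_mul_distrib]
    ring
  rw [h3]
  refine Q.reg_mul ?_ (prod_reg Q _ fun i _ => ha i)
  have h9 : Ge Q 0 (Matrix.of fun r c => G r (z (e c).1 (e c).2) / l0 (e c).1 (e c).2 :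
      Matrix (Fin w) (Fin w) E).det :=
    ge_det Q _ _ (fun _ _ => 0) (fun a c => hz _ _ (hG a) _) fun σ => by simp
  exact h9

end

section

variable {M E : Type} [Field M] [Field E] [Algebra ℂ M] [Algebra ℂ E] [Algebra M E]
  [IsScalarTower ℂ M E] [Algebra.EssFiniteType ℂ M] {b w : ℕ}

theorem coord_eq {η : (Fin b → Derivation ℂ M M) → M} (hη : IsPluri 1 η) {y : Fin b → M}
    {EM : Fin b → Derivation ℂ M M} (hy : IsTranscendenceBasis ℂ y)
    (hEM : ∀ i j, EM i (y j) = if i = j then 1 else 0) (EP : Fin b → Derivation ℂ M M) :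
    η EP = (Matrix.of fun l c => EP c (y l) : Matrix (Fin b) (Fin b) M).det * η EM := by
  rw [pluri_coord hy hEM hη EP, pow_one, ← Matrix.det_transpose]
  rfl

/-- regular forms of a subfield -/
theorem rgood_of (hM : Algebra.trdeg ℂ M = b) (hE : Algebra.trdeg ℂ E = w)
    {η : (Fin b → Derivation ℂ M M) → M} (hη : IsPluri 1 η) {y : Fin b → M}
    {EM : Fin b → Derivation ℂ M M} (hy : IsTranscendenceBasis ℂ y)
    (hEM : ∀ i j, EM i (y j) = if i = j then 1 else 0) {Q : Place ℂ E} (hQ : Divisorial w Q)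
    (hreg : ∀ (P : Place ℂ M) (e : ℕ), Over Q P e → Divisorial b P → RegAt P η) :
    RGood Q (fun l => algebraMap M E (y l)) (algebraMap M E (η EM)) := by
  classical
  by_cases htriv : ∃ f : M, Q.ord (algebraMap M E f) ≠ 0
  · obtain ⟨e, P, hP⟩ := exists_over (K := M) Q htriv
    have hPd : Divisorial b P := Pool.Agent.W619.Y.pDIVR.{0, 0} ℂ M E b w P Q e hM hE hP hQ
    obtain ⟨yP, EP, i0, hl⟩ := exists_loc hM hPd
    have hregL : ∀ f : M, P.Reg f → Q.Reg (algebraMap M E f) := by
      intro f hf
      rcases hf with hf | hf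
      · left; rw [hf, map_zero]
      · right
        rw [hP.2]
        exact mul_nonneg (by positivity) hf
    refine ⟨Matrix.of fun l c => algebraMap M E (EP c (y l)), fun c => algebraMap M E (yP c),
      fun D l => ?_, fun c => hregL _ ?_, ?_⟩
    · exact Pool.Agent.W308.PG.YLOC.expand yP EP hl.bas hl.dual D (y l)
    · exact hl.reg c
    · have h1 : (Matrix.of fun l c => algebraMap M E (EP c (y l)) :
          Matrix (Fin b) (Fin b) E).det = algebraMap M E
            (Matrix.of fun l c => EP c (y l) : Matrix (Fin b) (Fin b) M).det := by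
        rw [RingHom.map_det]
        rfl
      rw [h1, ← map_mul, mul_comm, ← coord_eq hη hy hEM EP]
      exact hregL _ (hreg P e hP hPd EP hl.pres)
  · push Not at htriv
    refine ⟨1, fun l => algebraMap M E (y l), fun D l => ?_, fun c => Or.inr (htriv (y c)).ge, ?_⟩
    · rw [Finset.sum_eq_single l]
      · rw [Matrix.one_apply_eq, one_mul]
      · intro c _ hc
        rw [Matrix.one_apply_ne (Ne.symm hc), zero_mul]
      · intro h
        exact absurd (Finset.mem_univ l) h
    · rw [Matrix.det_one, mul_one]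
      exact Or.inr (htriv (η EM)).ge

/-- logarithmic forms of a subfield -/
theorem lgood_of (hM : Algebra.trdeg ℂ M = b) (hE : Algebra.trdeg ℂ E = w)
    {η : (Fin b → Derivation ℂ M M) → M} (hη : IsPluri 1 η) {y : Fin b → M}
    {EM : Fin b → Derivation ℂ M M} (hy : IsTranscendenceBasis ℂ y)
    (hEM : ∀ i j, EM i (y j) = if i = j then 1 else 0) {Q : Place ℂ E} (hQ : Divisorial w Q)
    (hlog : ∀ (P : Place ℂ M) (e : ℕ), Over Q P e → Divisorial b P → LogAt P η) :
    LGood Q (fun l => algebraMap M E (y l)) (algebraMap M E (η EM)) := by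
  classical
  by_cases htriv : ∃ f : M, Q.ord (algebraMap M E f) ≠ 0
  · obtain ⟨e, P, hP⟩ := exists_over (K := M) Q htriv
    have hPd : Divisorial b P := Pool.Agent.W619.Y.pDIVR.{0, 0} ℂ M E b w P Q e hM hE hP hQ
    obtain ⟨yP, EP, i0, hl⟩ := exists_loc hM hPd
    have hregL : ∀ f : M, P.Reg f → Q.Reg (algebraMap M E f) := by
      intro f hf
      rcases hf with hf | hf
      · left; rw [hf, map_zero]
      · right
        rw [hP.2]
        exact mul_nonneg (by positivity) hf
    have hlc : ∀ c, lc yP i0 c ≠ 0 := by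
      intro c
      unfold lc
      split_ifs
      · exact hl.ne
      · exact one_ne_zero
    refine ⟨Matrix.of fun l c => algebraMap M E (EP c (y l)), fun c => algebraMap M E (yP c),
      fun c => algebraMap M E (lc yP i0 c), fun D l => ?_, fun c => ?_, fun D hD c => ?_, ?_⟩
    · exact Pool.Agent.W308.PG.YLOC.expand yP EP hl.bas hl.dual D (y l)
    · exact (_root_.map_ne_zero _).2 (hlc c)
    · have h1 := hD (algebraMap M E (yP c))
      by_cases hc : c = i0
      · subst hc
        have h2 : lc yP c c = yP c := if_pos rfl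
        change Q.Reg (D (algebraMap M E (yP c)) / algebraMap M E (lc yP c c))
        rw [h2]
        exact h1
      · have h2 : lc yP i0 c = 1 := if_neg hc
        change Q.Reg (D (algebraMap M E (yP c)) / algebraMap M E (lc yP i0 c))
        rw [h2, map_one, div_one]
        by_cases h0 : algebraMap M E (yP c) = 0
        · rw [h0, map_zero]
          exact Or.inl rfl
        have h3 : D (algebraMap M E (yP c)) = D (algebraMap M E (yP c)) /
            algebraMap M E (yP c) * algebraMap M E (yP c) := (div_mul_cancel₀ _ h0).symm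
        rw [h3]
        exact Q.reg_mul h1 (hregL _ (hl.reg c))
    · have h1 : (Matrix.of fun l c => algebraMap M E (EP c (y l)) :
          Matrix (Fin b) (Fin b) E).det = algebraMap M E
            (Matrix.of fun l c => EP c (y l) : Matrix (Fin b) (Fin b) M).det := by
        rw [RingHom.map_det]
        rfl
      rw [h1, ← map_mul, mul_comm (η EM), ← coord_eq hη hy hEM EP, ← map_prod, prod_lc, ← map_mul]
      apply hregL
      have h3 := hlog P e hP hPd _ fun i => hl.log i
      rw [pluri_diag hη (fun i => lc yP i0 i) EP, prod_lc, pow_one] at h3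
      rw [mul_comm]
      exact h3
  · push Not at htriv
    refine ⟨1, fun l => algebraMap M E (y l), fun _ => 1, fun D l => ?_, fun _ => one_ne_zero,
      fun D hD c => ?_, ?_⟩
    · rw [Finset.sum_eq_single l]
      · rw [Matrix.one_apply_eq, one_mul]
      · intro c _ hc
        rw [Matrix.one_apply_ne (Ne.symm hc), zero_mul]
      · intro h
        exact absurd (Finset.mem_univ l) h
    · rw [div_one]
      change Q.Reg (D (algebraMap M E (y c)))
      by_cases h0 : algebraMap M E (y c) = 0
      · rw [h0, map_zero]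
        exact Or.inl rfl
      have h3 : D (algebraMap M E (y c)) = D (algebraMap M E (y c)) /
          algebraMap M E (y c) * algebraMap M E (y c) := (div_mul_cancel₀ _ h0).symm
      rw [h3]
      exact Q.reg_mul (hD _) (Or.inr (htriv (y c)).ge)
    · rw [Matrix.det_one, mul_one, Finset.prod_const_one, mul_one]
      exact Or.inr (htriv (η EM)).ge

end

end Pool.Agent.Q58.LG
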