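import Pool.Agent.Q58.LG.WdgP
import Pool.Agent.W619.PL.LDefs

/-!
Open varieties with an étale cover which corresponds to a product of pairs.
-/

set_option autoImplicit false
set_option linter.overlappingInstances false
set_option linter.unusedSectionVars false

open MvPolynomial FF Module Pool.Agent.W602.GT Pool.Agent.W603.LV Pool.Agent.Y172
open Pool.Agent.TH145.MG (DimLE)
open Pool.Agent.TH145.GC (Cf)
open Pool.Agent.W603.PV Pool.Agent.Y184.NT

namespace Pool.Agent.Q58.LG

/-- the function field of a product over that of the other factors -/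
theorem factor_field {E : Type} [Field E] [Algebra ℂ E] {s w : ℕ} {b : Fin s → ℕ}
    (hE : Algebra.trdeg ℂ E = w) (hw : w = ∑ i, b i)
    (M : Fin s → IntermediateField ℂ E) [∀ i, Algebra.EssFiniteType ℂ (M i)]
    (hM : ∀ i, Algebra.trdeg ℂ (M i) = b i) (hsup : (⨆ i, M i) = ⊤) {i0 : Fin s}
    (hb : b i0 = 1) {t : M i0} (ht : IntermediateField.adjoin ℂ {t} = ⊤) :
    ∃ R : IntermediateField ℂ E, (∀ i, i ≠ i0 → M i ≤ R) ∧ Algebra.EssFiniteType ℂ R ∧
      Algebra.trdeg ℂ R + 1 = w ∧ ∃ e : RatFunc R ≃ₐ[R] E, e RatFunc.X = (t : E) := by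
  classical
  obtain ⟨R, hR⟩ : ∃ R : IntermediateField ℂ E, R = ⨆ i : {i // i ≠ i0}, M i := ⟨_, rfl⟩
  -- `R` is generated by finitely many elements
  have hfg : ∀ i, (M i).FG := fun i =>
    IntermediateField.essFiniteType_iff.1 inferInstance
  have hRfg : R.FG := by
    rw [hR]
    exact IntermediateField.fg_iSup fun i => hfg i
  have hessR : Algebra.EssFiniteType ℂ R := IntermediateField.essFiniteType_iff.2 hRfg
  -- `E = R (t)`
  have hRt : IntermediateField.adjoin R {(t : E)} = ⊤ := by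
    rw [_root_.eq_top_iff]
    have h1 : (⨆ i, M i) ≤ (IntermediateField.adjoin R {(t : E)}).restrictScalars ℂ := by
      refine iSup_le fun i => ?_
      by_cases hi : i = i0
      · subst hi
        have h2 : M i = IntermediateField.adjoin ℂ {(t : E)} := by
          have h3 := congrArg (IntermediateField.lift (F := M i)) ht
          rw [IntermediateField.lift_adjoin, IntermediateField.lift_top, Set.image_singleton] at h3
          exact h3.symm
        refine h2.le.trans ?_
        rw [IntermediateField.adjoin_le_iff]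
        rintro _ rfl
        exact IntermediateField.mem_adjoin_simple_self R _
      · intro z hz
        have h2 : z ∈ R := by
          rw [hR]
          exact (le_iSup (fun i : {i // i ≠ i0} => M i) ⟨i, hi⟩) hz
        exact (IntermediateField.adjoin R {(t : E)}).algebraMap_mem ⟨z, h2⟩
    rw [hsup] at h1
    exact fun z _ => h1 trivial
  -- the transcendence degree of `R`
  have hMR' : ∀ (i : Fin s), i ≠ i0 → M i ≤ R := fun i hi => by
    rw [hR]
    exact le_iSup (fun i : {i // i ≠ i0} => M i) ⟨i, hi⟩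
  have htrR : Algebra.trdeg ℂ R ≤ (w - 1 : ℕ) := by
    choose y EM hy hEM using fun i => Pool.Agent.Y172.exists_crd (k := ℂ) (K := M i) (hM i)
    have hMR := hMR'
    obtain ⟨Y, hY⟩ : ∃ Y : (Σ i : {i // i ≠ i0}, Fin (b i)) → R,
      ∀ p, ((Y p : R) : E) = ((y p.1 p.2 : M p.1) : E) :=
      ⟨fun p => ⟨_, hMR p.1 p.1.2 (y p.1 p.2).2⟩, fun _ => rfl⟩
    have h1 : Algebra.IsAlgebraic (Algebra.adjoin ℂ (Set.range Y)) R := by
      refine ⟨fun f => IntermediateField.isAlgebraic_adjoin_iff.1 ?_⟩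
      obtain ⟨T, hT⟩ : ∃ T : IntermediateField ℂ R,
        T = IntermediateField.adjoin ℂ (Set.range Y) := ⟨_, rfl⟩
      rw [← hT]
      -- the elements of the factors
      have h2 : ∀ i (hi : i ≠ i0) (z : M i), IsAlgebraic T (⟨z, hMR i hi z.2⟩ : R) := by
        intro i hi z
        let g : M i →ₐ[ℂ] R := IntermediateField.inclusion (hMR i hi)
        have h3 : IsAlgebraic (IntermediateField.adjoin ℂ (Set.range (y i))) z :=
          IntermediateField.isAlgebraic_adjoin_iff.2 ((hy i).isAlgebraic.isAlgebraic _)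
        obtain ⟨S, hS⟩ : ∃ S : IntermediateField ℂ R,
          S = (IntermediateField.adjoin ℂ (Set.range (y i))).map g := ⟨_, rfl⟩
        have h4 : IsAlgebraic S (g z) := by
          obtain ⟨p, hp, hp0⟩ := h3
          let g' : IntermediateField.adjoin ℂ (Set.range (y i)) →+* S :=
            { toFun := fun u => ⟨g u, by
                rw [hS]
                exact ⟨u, u.2, rfl⟩⟩
              map_one' := Subtype.ext (map_one g)
              map_zero' := Subtype.ext (map_zero g)
              map_mul' := fun _ _ => Subtype.ext (map_mul g _ _)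
              map_add' := fun _ _ => Subtype.ext (map_add g _ _) }
          refine ⟨p.map g', (Polynomial.map_ne_zero_iff g'.injective).2 hp, ?_⟩
          rw [Polynomial.aeval_def, Polynomial.eval₂_map]
          have h5 := congrArg g.toRingHom hp0
          rw [map_zero, Polynomial.aeval_def, Polynomial.hom_eval₂] at h5
          exact h5
        have hST : S ≤ T := by
          rw [hS, IntermediateField.adjoin_map, IntermediateField.adjoin_le_iff]
          rintro _ ⟨_, ⟨c, rfl⟩, rfl⟩
          rw [hT]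
          refine IntermediateField.subset_adjoin ℂ _ ⟨⟨⟨i, hi⟩, c⟩, ?_⟩
          exact Subtype.ext (hY _)
        exact Pool.Agent.TH145.MF.alg_mono (F1 := S.toSubfield) (F2 := T.toSubfield)
          (fun z hz => hST hz) h4
      have h3 : R ≤ ((algebraicClosure T R).restrictScalars ℂ).map R.val := by
        conv_lhs => rw [hR]
        refine iSup_le fun i z hz => ?_
        exact ⟨⟨z, hMR i.1 i.2 hz⟩, mem_algebraicClosure_iff.2 (h2 i.1 i.2 ⟨z, hz⟩), rfl⟩
      obtain ⟨f', hf', hff⟩ := h3 f.2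
      have h4 : f' = f := Subtype.ext hff
      rw [← h4]
      exact mem_algebraicClosure_iff.1 hf'
    have h2 := Algebra.IsAlgebraic.trdeg_le_cardinalMk ℂ (Set.range Y)
    refine h2.trans ?_
    refine Cardinal.mk_range_le.trans ?_
    rw [Cardinal.mk_fintype, Nat.cast_le, Fintype.card_sigma]
    have h3 : ∑ i : {i // i ≠ i0}, Fintype.card (Fin (b i)) + 1 = w := by
      rw [hw, ← Finset.add_sum_erase _ _ (Finset.mem_univ i0), hb, add_comm]
      congr 1
      simp only [Fintype.card_fin]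
      rw [← Finset.sum_subtype (Finset.univ.erase i0) (fun i => by simp) (fun i => b i)]
    omega
  have hw1 : 1 ≤ w := by
    rw [hw, ← hb]
    exact Finset.single_le_sum (f := b) (fun _ _ => Nat.zero_le _) (Finset.mem_univ i0)
  have htt : Transcendental R (t : E) := by
    intro halg
    have h1 : Algebra.IsAlgebraic R E := by
      have h2 : Algebra.IsAlgebraic R (IntermediateField.adjoin R {(t : E)}) :=
        IntermediateField.isAlgebraic_adjoin_simple halg.isIntegral
      refine ⟨fun z => ?_⟩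
      have hz : z ∈ IntermediateField.adjoin R {(t : E)} := by rw [hRt]; trivial
      exact (isAlgebraic_algebraMap_iff
        (algebraMap (IntermediateField.adjoin R {(t : E)}) E).injective).2
          (h2.isAlgebraic ⟨z, hz⟩)
    have h3 := Pool.Agent.TH466.QG.trdeg_alg (k := ℂ) (E := R) (K := E)
    rw [hE] at h3
    rw [← h3, Nat.cast_le] at htrR
    omega
  have hRle : Algebra.trdeg ℂ R + 1 = w := by
    have h1 := _root_.trdeg_add_eq ℂ R (A := E)
    have h2 : Algebra.trdeg R E = 1 := by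
      have h3 : AlgebraicIndependent R (fun _ : Unit => (t : E)) :=
        (algebraicIndependent_unique_type_iff).2 htt
      have h4 : IsTranscendenceBasis R (fun _ : Unit => (t : E)) := by
        rw [h3.isTranscendenceBasis_iff_isAlgebraic]
        have h5 : Set.range (fun _ : Unit => (t : E)) = {(t : E)} := by simp
        rw [h5]
        refine ⟨fun f => IntermediateField.isAlgebraic_adjoin_iff.1 ?_⟩
        have hz : f ∈ IntermediateField.adjoin R {(t : E)} := by rw [hRt]; trivial
        exact isAlgebraic_algebraMap (⟨f, hz⟩ : IntermediateField.adjoin R {(t : E)})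
      have h5 := h4.cardinalMk_eq_trdeg
      rw [← h5]
      simp
    rw [h2, hE] at h1
    exact h1
  let e : RatFunc R ≃ₐ[R] E :=
    (RatFunc.algEquivOfTranscendental (t : E) htt).trans
      ((IntermediateField.equivOfEq hRt).trans IntermediateField.topEquiv)
  refine ⟨R, hMR', hessR, hRle, e, ?_⟩
  have h6 : ((RatFunc.algEquivOfTranscendental (t : E) htt) RatFunc.X : E) = (t : E) := by
    simp
  exact h6

/-- A product with a factor which is the affine line, or the projective line, is `𝔸¹`-uniruled, and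
so is everything it dominates. -/
theorem a1_of_factor {K E : Type} [Field K] [Field E] [Algebra ℂ K] [Algebra ℂ E] [Algebra K E]
    [IsScalarTower ℂ K E] {s w : ℕ} {b : Fin s → ℕ} (hK : Algebra.trdeg ℂ K = w)
    (hE : Algebra.trdeg ℂ E = w) (hw : w = ∑ i, b i)
    (M : Fin s → IntermediateField ℂ E) [∀ i, Algebra.EssFiniteType ℂ (M i)]
    (hM : ∀ i, Algebra.trdeg ℂ (M i) = b i) (hsup : (⨆ i, M i) = ⊤) {Bd : Place ℂ K → Prop}
    {BM : ∀ i, Place ℂ (M i) → Prop}
    (hBd : ∀ (P : Place ℂ K) (Q : Place ℂ E) (e : ℕ), Divisorial w P → Over Q P e → Bd P →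
      ∃ (i : Fin s) (P' : Place ℂ (M i)) (e' : ℕ), Over Q P' e' ∧ BM i P') {i0 : Fin s}
    (hb : b i0 = 1) {t : M i0} (ht : IntermediateField.adjoin ℂ {t} = ⊤)
    (htB : ∀ P : Place ℂ (M i0), P.Reg t → ¬ BM i0 P) :
    Pool.Agent.W619.PL.IsA1Uniruled ℂ K w Bd := by
  classical
  obtain ⟨R, hMR, hess, htr, e, he⟩ := factor_field hE hw M hM hsup hb ht
  refine ⟨R, inferInstance, inferInstance, (e.symm.restrictScalars ℂ : E ≃ₐ[ℂ] RatFunc R).toAlgHom.comp
    (IsScalarTower.toAlgHom ℂ K E), hess, htr, fun q hq v e0 he0 hv hBv => ?_⟩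
  -- the place of `E`
  let Q : Place ℂ E :=
    { ord := fun z => q.ord (e.symm z)
      ord_zero := by
        rw [map_zero]
        exact q.ord_zero
      ord_mul := fun {f g} hf hg => by
        rw [map_mul]
        exact q.ord_mul ((_root_.map_ne_zero e.symm).2 hf) ((_root_.map_ne_zero e.symm).2 hg)
      ord_add := fun {f g} hf hg hfg => by
        rw [map_add]
        refine q.ord_add ((_root_.map_ne_zero e.symm).2 hf) ((_root_.map_ne_zero e.symm).2 hg) ?_
        rw [← map_add]
        exact (_root_.map_ne_zero e.symm).2 hfg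
      ord_const := fun {c} hc => by
        have h1 : e.symm (algebraMap ℂ E c) = algebraMap R (RatFunc R) (algebraMap ℂ R c) := by
          rw [IsScalarTower.algebraMap_apply ℂ R E, AlgEquiv.commutes]
        rw [h1]
        exact q.ord_const ((_root_.map_ne_zero _).2 hc)
      surj := by
        obtain ⟨z, hz, hz1⟩ := q.surj
        exact ⟨e z, (_root_.map_ne_zero e).2 hz, by rw [AlgEquiv.symm_apply_apply]; exact hz1⟩ }
  have hQv : Over Q v e0 := ⟨he0, fun f => hv f⟩
  have hQd : Divisorial w Q := by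
    have h1 : Algebra.trdeg ℂ R = (w - 1 : ℕ) := by
      have h2 : Algebra.trdeg ℂ R < Cardinal.aleph0 := by
        refine lt_of_le_of_lt (b := (w : Cardinal)) ?_ (Cardinal.natCast_lt_aleph0)
        rw [← htr]
        exact self_le_add_right _ _
      obtain ⟨u, hu⟩ := Cardinal.lt_aleph0.1 h2
      rw [hu] at htr ⊢
      have h3 : u + 1 = w := by exact_mod_cast htr
      rw [← h3, Nat.add_sub_cancel]
    obtain ⟨u, Eu, hu, -⟩ := Pool.Agent.Y172.exists_crd (k := ℂ) (K := R) h1
    refine ⟨fun j => ((u j : R) : E), fun F hF => ?_⟩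
    have h2 : aeval (fun j => ((u j : R) : E)) F = algebraMap R E (aeval u F) := by
      rw [← aeval_algebraMap_apply]
      rfl
    have h3 : aeval u F ≠ 0 := fun h0 => hF (hu.1.eq_zero_of_aeval_eq_zero F h0)
    rw [h2]
    refine ⟨(_root_.map_ne_zero _).2 h3, ?_⟩
    change q.ord (e.symm (algebraMap R E (aeval u F))) = 0
    rw [AlgEquiv.commutes]
    exact q.ord_const h3
  have hvd : Divisorial w v := Pool.Agent.W619.Y.pDIVR.{0, 0} ℂ K E w w v Q e0 hK hE hQv hQd
  obtain ⟨i, P', e', hP', hB'⟩ := hBd v Q e0 hvd hQv hBv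
  by_cases hi : i = i0
  · subst hi
    refine htB P' ?_ hB'
    have h1 : Q.ord (t : E) = e' * P'.ord t := hP'.2 t
    have h2 : Q.ord (t : E) = q.ord RatFunc.X := by
      change q.ord (e.symm (t : E)) = _
      rw [← he, AlgEquiv.symm_apply_apply]
    rcases hq with h3 | h3
    · exact absurd h3 RatFunc.X_ne_zero
    · right
      rw [← h2, h1] at h3
      have h4 : (0 : ℤ) < e' := by exact_mod_cast hP'.1
      exact nonneg_of_mul_nonneg_right h3 h4
  · obtain ⟨z, hz, hz1⟩ := P'.surj
    have h1 : Q.ord (z : E) = e' * P'.ord z := hP'.2 z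
    have h2 : Q.ord (z : E) = 0 := by
      change q.ord (e.symm (z : E)) = 0
      have h3 : e.symm (z : E) = algebraMap R (RatFunc R) ⟨(z : E), hMR i hi z.2⟩ :=
        e.symm.commutes ⟨(z : E), hMR i hi z.2⟩
      rw [h3]
      refine q.ord_const fun h5 => hz ?_
      have h6 : (z : E) = 0 := congrArg Subtype.val h5
      exact Subtype.ext h6
    rw [h2, hz1, mul_one] at h1
    have h4 : (0 : ℤ) < e' := by exact_mod_cast hP'.1
    omega

/-- `x` is the generic point of an open variety, with boundary `Bd`, which is finite over a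
cyclic cover of a subvariety, of dimension `b`, of a generic pair, in the range for degree `r`: `V`
is a closed subset of `ℙⁿ` of dimension at most `m`, the `F a` are forms with independent
coefficients over `k`; `F a (x) = 0` for `a` in `C`, and for the other `a`, `F a (x)` is a nonzero
`q a`-th power, or `q a = 0`, `F a (x) ≠ 0`, and the prime divisors with image in `F a = 0` are in
the boundary. -/
def OverPair (k : Type) [Field k] [Algebra k ℂ] (r : ℕ) (M : Type) [Field M] [Algebra ℂ M]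
    (b : ℕ) (Bd : Place ℂ M → Prop) {n : ℕ} (x : Fin (n + 1) → M) : Prop :=
  ∃ (A : Type) (_ : Fintype A) (_ : DecidableEq A) (d : A → ℕ)
    (F : A → MvPolynomial (Fin (n + 1)) ℂ)
    (V : Set (MvPolynomial (Fin (n + 1)) (algebraicClosure k ℂ))) (m : ℕ) (C : Finset A)
    (q : A → ℕ),
    (∀ a, (F a).IsHomogeneous (d a)) ∧
    AlgebraicIndependent k (fun p : (a : A) × {I : Fin (n + 1) →₀ ℕ // I.degree = d a} =>
      (F p.1).coeff p.2.1) ∧
    (∀ f ∈ V, ∃ e, f.IsHomogeneous e) ∧ DimLE (algebraicClosure k ℂ) V m ∧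
    (∀ a, a ∉ C → q a ∣ d a ∨ q a = 0) ∧
    1 ≤ b ∧ Algebra.IsAlgebraic (IntermediateField.adjoin ℂ (Set.range x)) M ∧
    (∀ f ∈ V, aeval x (map (algebraMap (algebraicClosure k ℂ) ℂ) f) = 0) ∧
    (∀ a ∈ C, aeval x (F a) = 0) ∧ (∀ a, a ∉ C → aeval x (F a) ≠ 0) ∧
    (∀ a, a ∉ C → q a ≠ 0 → ∃ η : M, aeval x (F a) = η ^ q a) ∧
    (∀ (P : Place ℂ M) (a : A), Divisorial b P → a ∉ C → q a = 0 →
      d a * pord P x < P.ord (aeval x (F a)) → Bd P) ∧
    2 * m + r + ∑ a ∈ Cᶜ, d a / q a ≤ ∑ a, d a + C.card + b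

/-- the forms of an open variety over a generic pair -/
theorem many_pair {k : Type} [Field k] [Algebra k ℂ] {N : ℕ} {M : Type} [Field M] [Algebra ℂ M]
    {b n : ℕ} {Bd : Place ℂ M → Prop} (hM : Algebra.trdeg ℂ M = b) {x : Fin (n + 1) → M}
    {c0 : Fin (n + 1)} (hx1 : x c0 = 1) (h : OverPair k (N + 1) M b Bd x) : Many M b N x Bd := by
  classical
  obtain ⟨A, iA, iD, d, F, V, m, C, q, hF, hgen, hVh, hV, hq, hb, halg, hxV, hxC, hxn, hxq, hB,
    hd⟩ := h
  have hS : ∀ S : Finset A, (∀ a, a ∈ S ↔ a ∉ C) → S = Cᶜ := fun S hS => by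
    ext a
    rw [hS, Finset.mem_compl]
  obtain ⟨Φ, h1, h2, h3⟩ := lform_q (N := N) hVh hV hF hgen.algebraicClosure
    (show 0 < b by omega) C (q := q) hq (fun S h => by rw [hS S h]; omega) hM x hx1
    (coords_alg hx1 halg) hxV hxC hxn hxq
  refine ⟨Φ, h1, h2, fun f P hP => ⟨(h3 f P hP).1, fun hBP => (h3 f P hP).2 ?_⟩⟩
  rintro ⟨a, ha, h0, hlt⟩
  exact hBP (hB P a hP ha h0 hlt)

/-- There is a nonzero logarithmic canonical form: the logarithmic genus is positive. -/
def HasLogForm (M : Type) [Field M] [Algebra ℂ M] (b : ℕ) (Bd : Place ℂ M → Prop) : Prop :=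
  ∃ ω : (Fin b → Derivation ℂ M M) → M, IsPluri 1 ω ∧
    (∀ P : Place ℂ M, Divisorial b P → LogAt P ω ∧ (¬ Bd P → RegAt P ω)) ∧ ∃ D, ω D ≠ 0

theorem many_logform {N : ℕ} {M : Type} [Field M] [Algebra ℂ M] {b n : ℕ} {x : Fin n → M}
    {Bd : Place ℂ M → Prop} (hx : ∀ j, x j = 1) (h : HasLogForm M b Bd) : Many M b N x Bd := by
  obtain ⟨Φ, h1, h2, h3⟩ := h
  have h4 : ∀ f : Fin N → Fin n, (fun D => (∏ k, x (f k)) * Φ D) = Φ := by
    intro f
    funext D
    rw [Finset.prod_eq_one fun k _ => hx (f k), one_mul]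
  refine ⟨Φ, h1, h3, fun f P hP => ?_⟩
  rw [h4]
  exact h2 P hP

section

variable {K L E : Type} [Field K] [Field L] [Field E] [Algebra ℂ K] [Algebra ℂ L] [Algebra ℂ E]
  [Algebra K L] [IsScalarTower ℂ K L] [FiniteDimensional K L]
  [Algebra L E] [IsScalarTower ℂ L E] [FiniteDimensional L E] [Algebra.EssFiniteType ℂ K]

/-- **Open varieties with an étale cover which corresponds to a product of pairs.** -/
theorem prod_open {s w N : ℕ} {b n : Fin s → ℕ} (hK : Algebra.trdeg ℂ K = w) (hw : w = ∑ i, b i)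
    {Bd : Place ℂ K → Prop}
    (hunr : ∀ (P : Place ℂ K) (Q : Place ℂ L) (e : ℕ), Divisorial w P → Over Q P e → ¬ Bd P → e = 1)
    (M : Fin s → IntermediateField ℂ E) [∀ i, Algebra.EssFiniteType ℂ (M i)]
    (hM : ∀ i, Algebra.trdeg ℂ (M i) = b i)
    (halg : Algebra.IsAlgebraic (⨆ i, M i : IntermediateField ℂ E) E)
    {x : ∀ i, Fin (n i + 1) → M i} {j0 : ∀ i, Fin (n i + 1)} (hx1 : ∀ i, x i (j0 i) = 1)
    (hgenL : IntermediateField.adjoin L (⋃ i, Set.range fun j => ((x i j : M i) : E)) = ⊤)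
    {BM : ∀ i, Place ℂ (M i) → Prop}
    (hBd : ∀ (P : Place ℂ K) (Q1 : Place ℂ L) (Q : Place ℂ E) (e e1 : ℕ), Divisorial w P →
      Over Q1 P e → Over Q Q1 e1 →
      (∃ (i : Fin s) (P' : Place ℂ (M i)) (e' : ℕ), Over Q P' e' ∧ BM i P') → Bd P)
    (h : ∀ i, Many (M i) (b i) N (x i) (BM i)) (hr : finrank L E ≤ N + 1) :
    KodGe ℂ K w Bd 0 := by
  classical
  have hessL : Algebra.EssFiniteType ℂ L := Algebra.EssFiniteType.comp ℂ K L
  have hessE : Algebra.EssFiniteType ℂ E := Algebra.EssFiniteType.comp ℂ L E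
  have hE : Algebra.trdeg ℂ E = w :=
    Pool.Agent.Y172.trdeg_up (K := L) (Pool.Agent.Y172.trdeg_up (K := K) hK)
  obtain ⟨n', ⟨eJ⟩⟩ : ∃ n' : ℕ, Nonempty (Fin n' ≃ (∀ i, Fin (n i + 1))) :=
    ⟨_, ⟨(Fintype.equivFin _).symm⟩⟩
  obtain ⟨X, hX⟩ : ∃ X : Fin n' → E, ∀ j, X j = ∏ i, ((x i (eJ j i) : M i) : E) :=
    ⟨_, fun _ => rfl⟩
  have hX1 : X (eJ.symm j0) = 1 := by
    rw [hX, Equiv.apply_symm_apply]
    refine Finset.prod_eq_one fun i _ => ?_
    rw [hx1]
    rfl
  have hXx : ∀ i j, X (eJ.symm (Function.update j0 i j)) = ((x i j : M i) : E) := by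
    intro i j
    rw [hX, Equiv.apply_symm_apply, Finset.prod_eq_single i]
    · rw [Function.update_self]
    · intro i' _ hi
      rw [Function.update_of_ne hi, hx1]
      rfl
    · intro h
      exact absurd (Finset.mem_univ i) h
  have hgenX : IntermediateField.adjoin L (Set.range X) = ⊤ := by
    rw [_root_.eq_top_iff, ← hgenL, IntermediateField.adjoin_le_iff]
    rintro _ ⟨_, ⟨i, rfl⟩, ⟨j, rfl⟩⟩
    exact IntermediateField.subset_adjoin L _ ⟨_, hXx i j⟩
  obtain ⟨Φ, h1, h2, h3⟩ := prod_many hE hw M hM halg h (X := X) (fun i j => eJ j i) hX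
  exact (open_dom (K := K) (L := L) (m := N) hK hunr hX1 hgenX h1 h2
    (BK := fun Q => ∃ (i : Fin s) (P : Place ℂ (M i)) (e : ℕ), Over Q P e ∧ BM i P)
    (fun f Q hQ => (h3 f Q hQ).1) (fun f Q hQ hB => (h3 f Q hQ).2 hB) hBd).1 hr

end

end Pool.Agent.Q58.LG
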