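import Pool.Agent.Q58.LG.Wdg

/-!
Products of varieties with many forms.
-/

set_option autoImplicit false
set_option linter.overlappingInstances false
set_option linter.unusedSectionVars false

open FF Module Pool.Agent.W602.GT Pool.Agent.W603.LV Pool.Agent.W619.PQ Pool.Agent.Y172
open Pool.Agent.Y184.NT

namespace Pool.Agent.Q58.LG

/-- There is a nonzero canonical form such that its products with the monomials of degree `N` in the
`x j` are logarithmic at all prime divisors, and regular outside `B`. -/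
def Many (M : Type) [Field M] [Algebra ℂ M] (b N : ℕ) {n : ℕ} (x : Fin n → M)
    (B : Place ℂ M → Prop) : Prop :=
  ∃ Φ : (Fin b → Derivation ℂ M M) → M, IsPluri 1 Φ ∧ (∃ D, Φ D ≠ 0) ∧
    ∀ (f : Fin N → Fin n) (P : Place ℂ M), Divisorial b P →
      LogAt P (fun D => (∏ k, x (f k)) * Φ D) ∧
      (¬ B P → RegAt P (fun D => (∏ k, x (f k)) * Φ D))

theorem basis_of_blocks {E : Type} [Field E] [Algebra ℂ E] {s w : ℕ} {b : Fin s → ℕ}
    (e : Fin w ≃ (Σ i, Fin (b i))) (hE : Algebra.trdeg ℂ E = w)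
    (M : Fin s → IntermediateField ℂ E)
    (halg : Algebra.IsAlgebraic (⨆ i, M i : IntermediateField ℂ E) E)
    {y : ∀ i, Fin (b i) → M i} (hy : ∀ i, IsTranscendenceBasis ℂ (y i)) :
    IsTranscendenceBasis ℂ (fun c : Fin w => ((y (e c).1 (e c).2 : M (e c).1) : E)) := by
  classical
  obtain ⟨Y, hY⟩ : ∃ Y : Fin w → E, Y = fun c => ((y (e c).1 (e c).2 : M (e c).1) : E) := ⟨_, rfl⟩
  rw [← hY]
  obtain ⟨T, hT⟩ : ∃ T : IntermediateField ℂ E, T = IntermediateField.adjoin ℂ (Set.range Y) :=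
    ⟨_, rfl⟩
  have hyT : ∀ i c, ((y i c : M i) : E) ∈ T := by
    intro i c
    rw [hT]
    refine IntermediateField.subset_adjoin ℂ _ ⟨e.symm ⟨i, c⟩, ?_⟩
    rw [hY]
    simp only
    rw [Equiv.apply_symm_apply]
  -- the subfields are algebraic over `T`
  have h1 : ∀ i, ∀ z ∈ M i, IsAlgebraic T z := by
    intro i z hz
    have h2 : IsAlgebraic (Algebra.adjoin ℂ (Set.range (y i))) (⟨z, hz⟩ : M i) :=
      (hy i).isAlgebraic.isAlgebraic _
    have h3 : IsAlgebraic (IntermediateField.adjoin ℂ (Set.range (y i))) (⟨z, hz⟩ : M i) :=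
      IntermediateField.isAlgebraic_adjoin_iff.2 h2
    -- push to `E`
    obtain ⟨S, hS⟩ : ∃ S : IntermediateField ℂ E,
      S = (IntermediateField.adjoin ℂ (Set.range (y i))).map (M i).val := ⟨_, rfl⟩
    have h4 : IsAlgebraic S z := by
      obtain ⟨p, hp, hp0⟩ := h3
      let g : IntermediateField.adjoin ℂ (Set.range (y i)) →+* S :=
        { toFun := fun u => ⟨((u : M i) : E), by
            rw [hS]
            exact ⟨u, u.2, rfl⟩⟩
          map_one' := rfl
          map_zero' := rfl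
          map_mul' := fun _ _ => rfl
          map_add' := fun _ _ => rfl }
      refine ⟨p.map g, (Polynomial.map_ne_zero_iff g.injective).2 hp, ?_⟩
      rw [Polynomial.aeval_def, Polynomial.eval₂_map]
      have h5 := congrArg (algebraMap (M i) E) hp0
      rw [map_zero, Polynomial.aeval_def, Polynomial.hom_eval₂] at h5
      exact h5
    have hST : S ≤ T := by
      rw [hS, IntermediateField.adjoin_map, IntermediateField.adjoin_le_iff]
      rintro _ ⟨_, ⟨c, rfl⟩, rfl⟩
      exact hyT i c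
    exact Pool.Agent.TH145.MF.alg_mono (F1 := S.toSubfield) (F2 := T.toSubfield)
      (fun z hz => hST hz) h4
  have h2 : (⨆ i, M i : IntermediateField ℂ E) ≤
      (algebraicClosure T E).restrictScalars ℂ := by
    refine iSup_le fun i z hz => ?_
    change z ∈ algebraicClosure T E
    exact mem_algebraicClosure_iff.2 (h1 i z hz)
  have h3 : Algebra.IsAlgebraic T E := by
    refine ⟨fun z => ?_⟩
    have h4 : IsAlgebraic (algebraicClosure T E) z :=
      Pool.Agent.TH145.MF.alg_mono (F1 := (⨆ i, M i : IntermediateField ℂ E).toSubfield)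
        (F2 := (algebraicClosure T E).toSubfield) (fun z hz => h2 hz) (halg.isAlgebraic z)
    exact IsAlgebraic.restrictScalars T h4
  have h4 : Algebra.IsAlgebraic (Algebra.adjoin ℂ (Set.range Y)) E := by
    subst hT
    exact ⟨fun f => IntermediateField.isAlgebraic_adjoin_iff.1 (h3.isAlgebraic f)⟩
  refine Algebra.IsAlgebraic.isTranscendenceBasis_of_le_trdeg_of_finite ℂ Y ?_
  rw [hE]
  simp

/-- **Products of varieties with many forms.** -/
theorem prod_many {E : Type} [Field E] [Algebra ℂ E] [Algebra.EssFiniteType ℂ E] {s w N n : ℕ}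
    {b ν : Fin s → ℕ} (hE : Algebra.trdeg ℂ E = w) (hw : w = ∑ i, b i)
    (M : Fin s → IntermediateField ℂ E) [∀ i, Algebra.EssFiniteType ℂ (M i)]
    (hM : ∀ i, Algebra.trdeg ℂ (M i) = b i)
    (halg : Algebra.IsAlgebraic (⨆ i, M i : IntermediateField ℂ E) E)
    {x : ∀ i, Fin (ν i) → M i} {B : ∀ i, Place ℂ (M i) → Prop}
    (h : ∀ i, Many (M i) (b i) N (x i) (B i)) {X : Fin n → E} (g : ∀ i, Fin n → Fin (ν i))
    (hX : ∀ j, X j = ∏ i, ((x i (g i j) : M i) : E)) :
    Many E w N X (fun Q => ∃ (i : Fin s) (P : Place ℂ (M i)) (e : ℕ), Over Q P e ∧ B i P) := by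
  classical
  choose Φ hΦ hΦ0 hΦr using h
  choose y EM hy hEM using fun i => Pool.Agent.Y172.exists_crd (k := ℂ) (K := M i) (hM i)
  have hcard : Fintype.card (Σ i, Fin (b i)) = w := by
    rw [Fintype.card_sigma, hw]
    simp
  let e : Fin w ≃ (Σ i, Fin (b i)) := (Fintype.equivFinOfCardEq hcard).symm
  have hYb := basis_of_blocks e hE M halg hy
  have hΦE : ∀ i, Φ i (EM i) ≠ 0 := by
    intro i h0
    obtain ⟨D, hD⟩ := hΦ0 i
    apply hD
    rw [pluri_coord (hy i) (hEM i) (hΦ i) D, h0, mul_zero]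
  have hkey : ∀ f : Fin N → Fin n, (fun D : Fin w → Derivation ℂ E E => (∏ k, X (f k)) *
      trForm (fun c => ((y (e c).1 (e c).2 : M (e c).1) : E)) (∏ i, ((Φ i (EM i) : M i) : E)) D) =
      trForm (fun c => ((y (e c).1 (e c).2 : M (e c).1) : E)) (∏ i, algebraMap (M i) E
        ((fun D => (∏ k, x i (g i (f k))) * Φ i D) (EM i))) := by
    intro f
    funext D
    have h1 : (∏ i, algebraMap (M i) E ((fun D => (∏ k, x i (g i (f k))) * Φ i D) (EM i))) =
        (∏ k, X (f k)) * ∏ i, ((Φ i (EM i) : M i) : E) := by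
      simp only [map_mul, map_prod]
      rw [Finset.prod_mul_distrib, Finset.prod_comm]
      congr 1
      exact Finset.prod_congr rfl fun k _ => (hX (f k)).symm
    rw [h1]
    unfold trForm
    ring
  have hpl : ∀ i (f : Fin N → Fin n),
      IsPluri 1 (fun D => (∏ k, x i (g i (f k))) * Φ i D) := by
    intro i f A D
    change (∏ k, x i (g i (f k))) * Φ i (fun i => ∑ j, A i j • D j) = _
    rw [hΦ i A D]
    ring
  refine ⟨trForm (fun c => ((y (e c).1 (e c).2 : M (e c).1) : E))
    (∏ i, ((Φ i (EM i) : M i) : E)), trForm_pluri _ _, ?_, fun f Q hQ => ⟨?_, fun hB => ?_⟩⟩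
  · obtain ⟨D, hD⟩ := exists_dual hYb
    refine ⟨D, ?_⟩
    unfold trForm
    rw [hD, Matrix.det_one, one_mul]
    exact Finset.prod_ne_zero_iff.2 fun i _ => (_root_.map_ne_zero (algebraMap (M i) E)).2 (hΦE i)
  · rw [hkey]
    exact log_wedge Q e (y := fun i l => algebraMap (M i) E (y i l)) fun i =>
      lgood_of (hM i) hE (hpl i f) (hy i) (hEM i) hQ fun P e' _ hP =>
        (hΦr i (fun k => g i (f k)) P hP).1
  · rw [hkey]
    exact reg_wedge Q e (y := fun i l => algebraMap (M i) E (y i l)) fun i =>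
      rgood_of (hM i) hE (hpl i f) (hy i) (hEM i) hQ fun P e' hO hP =>
        (hΦr i (fun k => g i (f k)) P hP).2 fun hBP => hB ⟨i, P, e', hO, hBP⟩

end Pool.Agent.Q58.LG
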